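import Pool.Agent.Work.MP_b9e699_co.Defs

/-! # Bounds for past and future values -/

open Finset

namespace Pool.Agent.RC

/-- `∑_{i<t} q^(t-i) = ∑_{d=1}^t q^d`. -/
lemma sum_pow_sub (q : ℝ) (t : ℕ) : ∑ i ∈ range t, q ^ (t - i) = ∑ d ∈ range t, q ^ (d + 1) := by
  rw [← sum_range_reflect (fun d => q ^ (d + 1)) t]
  refine sum_congr rfl fun i hi => ?_
  have := mem_range.1 hi
  congr 1; omega

lemma geom_aux {q : ℝ} (hq1 : q < 1) (t : ℕ) :
    ∑ d ∈ range t, q ^ (d + 1) = (q - q ^ (t + 1)) / (1 - q) := by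
  have h : (1 - q) ≠ 0 := by linarith
  rw [eq_div_iff h]
  induction t with
  | zero => simp
  | succ n ih => rw [sum_range_succ, add_mul, ih]; ring

lemma sum_pow_sub_eq {q : ℝ} (hq1 : q < 1) (t : ℕ) :
    ∑ i ∈ range t, q ^ (t - i) = (q - q ^ (t + 1)) / (1 - q) := by
  rw [sum_pow_sub, geom_aux hq1]

section BD
variable {q x y : ℝ} {m : ℕ} {e : Rel} {t : ℕ}

theorem abs_av_le (hq : 0 < q) (hq1 : q < 1) (hx : |x| ≤ 1) : |av q x e t| ≤ q / (1 - q) := by
  have h1q : 0 < 1 - q := by linarith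
  have h1 : |av q x e t| ≤ q ^ (t + 1) * |x| + ∑ i ∈ range t, q ^ (t - i) := by
    unfold av
    refine (abs_sub _ _).trans ?_
    refine add_le_add (by rw [abs_mul, abs_of_pos (pow_pos hq _)]) ?_
    refine (abs_sum_le_sum_abs _ _).trans (sum_le_sum fun i _ => ?_)
    rw [abs_mul, abs_sg, mul_one, abs_of_pos (pow_pos hq _)]
  rw [sum_pow_sub_eq hq1] at h1
  have h2 : q ^ (t + 1) * |x| ≤ q ^ (t + 1) * (1 / (1 - q)) := by
    apply mul_le_mul_of_nonneg_left _ (pow_pos hq _).le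
    rw [le_div_iff₀ h1q]; nlinarith
  have h3 : q ^ (t + 1) * (1 / (1 - q)) + (q - q ^ (t + 1)) / (1 - q) = q / (1 - q) := by
    field_simp; ring
  linarith

/-- the general sharp lower bound. -/
lemma av_gt (hq : 0 < q) (hq2 : q ≤ 1 / 2) (hx : |x| ≤ kap q) (ht : 1 ≤ t) :
    q * kap q + 2 * q ^ (t + 2) / (1 - q) ≤ - sg (e (t - 1) t) * av q x e t := by
  have h1q : 0 < 1 - q := by linarith
  have hs := sg_mul_self (e (t - 1) t)
  have hsa := abs_sg (e (t - 1) t)
  obtain ⟨n, rfl⟩ : ∃ n, t = n + 1 := ⟨t - 1, by omega⟩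
  have hn : n + 1 - 1 = n := rfl
  rw [hn] at hs hsa ⊢
  set s := sg (e n (n + 1)) with hsdef
  have hx' : - kap q ≤ - s * x := by
    have : |(- s) * x| ≤ kap q := by rw [abs_mul, abs_neg, hsa, one_mul]; exact hx
    exact neg_le_of_abs_le this
  unfold av
  rw [sum_range_succ]
  have hlast : n + 1 - n = 1 := by omega
  rw [hlast, pow_one, ← hsdef]
  have h2 : - s * ∑ i ∈ range n, q ^ (n + 1 - i) * sg (e i (n + 1)) ≤ ∑ i ∈ range n, q ^ (n + 1 - i) := by
    rw [mul_sum]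
    refine sum_le_sum fun i _ => ?_
    have hp := pow_pos hq (n + 1 - i)
    have : -s * sg (e i (n + 1)) ≤ 1 := by
      have : |(-s) * sg (e i (n + 1))| ≤ 1 := by rw [abs_mul, abs_neg, hsa, abs_sg]; norm_num
      exact le_of_abs_le this
    calc -s * (q ^ (n + 1 - i) * sg (e i (n + 1))) = q ^ (n + 1 - i) * (-s * sg (e i (n + 1))) := by ring
      _ ≤ q ^ (n + 1 - i) * 1 := mul_le_mul_of_nonneg_left this hp.le
      _ = _ := mul_one _
  have h3 : ∑ i ∈ range n, q ^ (n + 1 - i) = q * ((q - q ^ (n + 1)) / (1 - q)) := by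
    rw [← sum_pow_sub_eq (by linarith), mul_sum]
    refine sum_congr rfl fun i hi => ?_
    have := mem_range.1 hi
    rw [← pow_succ']; congr 1; omega
  rw [h3] at h2
  have hpp : 0 < q ^ (n + 1 + 1) := pow_pos hq _
  have h4 : q ^ (n + 1 + 1) * (- kap q) ≤ q ^ (n + 1 + 1) * (- s * x) :=
    mul_le_mul_of_nonneg_left hx' hpp.le
  have h5 : q * kap q + 2 * q ^ (n + 1 + 2) / (1 - q)
      = q - q * ((q - q ^ (n + 1)) / (1 - q)) - q ^ (n + 1 + 1) * kap q := by
    unfold kap; field_simp; ring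
  rw [h5]
  nlinarith

lemma bv_eq_av_rev (ht : t < m) : bv q y m e t = av q y (rev m e) (m - 1 - t) := by
  rw [av_rev (by omega)]; congr 1; omega

theorem abs_bv_le (hq : 0 < q) (hq1 : q < 1) (hy : |y| ≤ 1) (ht : t < m) :
    |bv q y m e t| ≤ q / (1 - q) := by
  rw [bv_eq_av_rev ht]; exact abs_av_le hq hq1 hy

theorem bv_gt (hq : 0 < q) (hq2 : q ≤ 1 / 2) (hy : |y| ≤ kap q) (ht : t + 1 < m) :
    q * kap q + 2 * q ^ (m - t + 1) / (1 - q) ≤ sg (e t (t + 1)) * bv q y m e t := by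
  rw [bv_eq_av_rev (by omega)]
  have h := av_gt (q := q) (x := y) (e := rev m e) (t := m - 1 - t) hq hq2 hy (by omega)
  have h1 : m - 1 - t + 2 = m - t + 1 := by omega
  have h2 : rev m e (m - 1 - t - 1) (m - 1 - t) = !(e t (t + 1)) := by
    unfold rev
    congr 2 <;> omega
  rw [h1, h2, sg_not] at h
  simpa using h

lemma kap_le_one (hq : 0 < q) (hq1 : q < 1) : kap q ≤ 1 := by
  unfold kap; rw [div_le_one (by linarith)]; linarith

lemma kap_nonneg (hq1 : q ≤ 1 / 2) : 0 ≤ kap q := by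
  unfold kap; apply div_nonneg <;> linarith

/-- strict version of `av_gt`. -/
lemma av_lt (hq : 0 < q) (hq2 : q ≤ 1 / 2) (hx : |x| ≤ kap q) (ht : 1 ≤ t) :
    q * kap q < - sg (e (t - 1) t) * av q x e t := by
  have h := av_gt (e := e) hq hq2 hx ht
  have h1q : 0 < 1 - q := by linarith
  have : 0 < 2 * q ^ (t + 2) / (1 - q) := by positivity
  linarith

lemma bv_lt (hq : 0 < q) (hq2 : q ≤ 1 / 2) (hy : |y| ≤ kap q) (ht : t + 1 < m) :
    q * kap q < sg (e t (t + 1)) * bv q y m e t := by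
  have h := bv_gt (e := e) hq hq2 hy ht
  have h1q : 0 < 1 - q := by linarith
  have : 0 < 2 * q ^ (m - t + 1) / (1 - q) := by positivity
  linarith

lemma av_zero : av q x e 0 = q * x := by simp [av]

lemma bv_last (hm : 1 ≤ m) : bv q y m e (m - 1) = q * y := by
  unfold bv
  have : m - 1 + 1 = m := by omega
  rw [this]
  have h2 : m - (m - 1) = 1 := by omega
  simp [h2]

lemma av_pos (hq : 0 < q) (hq2 : q ≤ 1 / 2) (hx : |x| ≤ kap q) (ht : 1 ≤ t)
    (h : e (t - 1) t = false) : q * kap q < av q x e t := by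
  have := av_lt (e := e) hq hq2 hx ht
  rw [h] at this; simpa using this

lemma av_neg (hq : 0 < q) (hq2 : q ≤ 1 / 2) (hx : |x| ≤ kap q) (ht : 1 ≤ t)
    (h : e (t - 1) t = true) : av q x e t < - (q * kap q) := by
  have := av_lt (e := e) hq hq2 hx ht
  rw [h] at this; simp at this; linarith

lemma bv_pos (hq : 0 < q) (hq2 : q ≤ 1 / 2) (hy : |y| ≤ kap q) (ht : t + 1 < m)
    (h : e t (t + 1) = true) : q * kap q < bv q y m e t := by
  have := bv_lt (e := e) hq hq2 hy ht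
  rw [h] at this; simpa using this

lemma bv_neg (hq : 0 < q) (hq2 : q ≤ 1 / 2) (hy : |y| ≤ kap q) (ht : t + 1 < m)
    (h : e t (t + 1) = false) : bv q y m e t < - (q * kap q) := by
  have := bv_lt (e := e) hq hq2 hy ht
  rw [h] at this; simp at this; linarith

lemma abs_av_zero_le (hq : 0 < q) (hx : |x| ≤ kap q) : |av q x e 0| ≤ q * kap q := by
  rw [av_zero, abs_mul, abs_of_pos hq]; exact mul_le_mul_of_nonneg_left hx hq.le

lemma abs_bv_last_le (hq : 0 < q) (hy : |y| ≤ kap q) (hm : 1 ≤ m) :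
    |bv q y m e (m - 1)| ≤ q * kap q := by
  rw [bv_last hm, abs_mul, abs_of_pos hq]; exact mul_le_mul_of_nonneg_left hy hq.le

end BD

end Pool.Agent.RC
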