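import Mathlib

/-!
# Roller Coaster permutations: the weighted tournament functional

Positions are `0, …, m-1`.  A relation array `e : ℕ → ℕ → Bool` is only used at `i < j < m`;
`e i j = true` means that the entry at position `i` is above the entry at position `j`.
`av` = weighted past of a position, `bv` = weighted future, `F = ∑ av * bv`.
`x` and `y` are the boundary fields (left: virtual position `-1`, right: virtual position `m`).
-/

open Finset

namespace Pool.Agent.RC

abbrev Rel := ℕ → ℕ → Bool

/-- sign of a Boolean -/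
def sg (b : Bool) : ℝ := if b then 1 else -1

@[simp] lemma sg_true : sg true = 1 := rfl
@[simp] lemma sg_false : sg false = -1 := by simp [sg]
@[simp] lemma sg_not (b : Bool) : sg (!b) = - sg b := by cases b <;> simp
lemma sg_mul_self (b : Bool) : sg b * sg b = 1 := by cases b <;> simp
lemma sg_sq (b : Bool) : sg b ^ 2 = 1 := by cases b <;> simp
lemma abs_sg (b : Bool) : |sg b| = 1 := by cases b <;> simp
lemma sg_le_one (b : Bool) : sg b ≤ 1 := by cases b <;> simp
lemma neg_one_le_sg (b : Bool) : -1 ≤ sg b := by cases b <;> simp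
lemma sg_eq_or (b : Bool) : sg b = 1 ∨ sg b = -1 := by cases b <;> simp
lemma sg_ne {a b : Bool} (h : a ≠ b) : sg a = - sg b := by
  cases a <;> cases b <;> simp at h ⊢

/-- weighted past of position `t` (independent of the length). -/
noncomputable def av (q x : ℝ) (e : Rel) (t : ℕ) : ℝ :=
  q ^ (t + 1) * x - ∑ i ∈ range t, q ^ (t - i) * sg (e i t)

/-- weighted future of position `t` in a sequence of length `m`. -/
noncomputable def bv (q y : ℝ) (m : ℕ) (e : Rel) (t : ℕ) : ℝ :=
  q ^ (m - t) * y + ∑ k ∈ Ico (t + 1) m, q ^ (k - t) * sg (e t k)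

/-- the functional. -/
noncomputable def F (q : ℝ) (m : ℕ) (x y : ℝ) (e : Rel) : ℝ :=
  ∑ t ∈ range m, av q x e t * bv q y m e t

/-! ### locality -/

/-- two arrays agree on the pairs `i < j < m`. -/
def Agree (m : ℕ) (e e' : Rel) : Prop := ∀ i j, i < j → j < m → e i j = e' i j

lemma Agree.refl (m : ℕ) (e : Rel) : Agree m e e := fun _ _ _ _ => rfl
lemma Agree.symm {m : ℕ} {e e' : Rel} (h : Agree m e e') : Agree m e' e :=
  fun i j hi hj => (h i j hi hj).symm
lemma Agree.trans {m : ℕ} {e e' e'' : Rel} (h : Agree m e e') (h' : Agree m e' e'') :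
    Agree m e e'' := fun i j hi hj => (h i j hi hj).trans (h' i j hi hj)

lemma av_congr {q x : ℝ} {m : ℕ} {e e' : Rel} (h : Agree m e e') {t : ℕ} (ht : t < m) :
    av q x e t = av q x e' t := by
  unfold av
  congr 1
  refine sum_congr rfl fun i hi => ?_
  rw [h i t (mem_range.1 hi) ht]

lemma bv_congr {q y : ℝ} {m : ℕ} {e e' : Rel} (h : Agree m e e') {t : ℕ} :
    bv q y m e t = bv q y m e' t := by
  unfold bv
  congr 1
  refine sum_congr rfl fun k hk => ?_
  have := mem_Ico.1 hk
  rw [h t k (by omega) this.2]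

lemma F_congr {q x y : ℝ} {m : ℕ} {e e' : Rel} (h : Agree m e e') :
    F q m x y e = F q m x y e' := by
  unfold F
  refine sum_congr rfl fun t ht => ?_
  rw [av_congr h (mem_range.1 ht), bv_congr h]

/-- restriction of an array to the relevant pairs. -/
def mask (m : ℕ) (e : Rel) : Rel := fun i j => if i < j ∧ j < m then e i j else false

lemma agree_mask (m : ℕ) (e : Rel) : Agree m e (mask m e) := by
  intro i j hi hj; simp [mask, hi, hj]

lemma mask_eq_iff {m : ℕ} {e e' : Rel} : mask m e = mask m e' ↔ Agree m e e' := by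
  constructor
  · intro h i j hi hj
    have := congrFun (congrFun h i) j
    simpa [mask, hi, hj] using this
  · intro h
    funext i j
    unfold mask
    split_ifs with hc
    · exact h i j hc.1 hc.2
    · rfl

lemma mask_mask (m : ℕ) (e : Rel) : mask m (mask m e) = mask m e :=
  mask_eq_iff.2 (agree_mask m e).symm

/-- the (finite) set of masked arrays. -/
def Masked (m : ℕ) : Set Rel := {e | mask m e = e}

lemma finite_masked (m : ℕ) : (Masked m).Finite := by
  classical
  -- inject into functions `Fin m → Fin m → Bool`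
  have : Set.InjOn (fun (e : Rel) => (fun (i j : Fin m) => e i j)) (Masked m) := by
    intro e he e' he' h
    have he : mask m e = e := he
    have he' : mask m e' = e' := he'
    rw [← he, ← he']
    apply mask_eq_iff.2
    intro i j hi hj
    have := congrFun (congrFun h ⟨i, by omega⟩) ⟨j, hj⟩
    simpa using this
  exact Set.Finite.of_finite_image (Set.toFinite _) this

/-- a functional that only depends on the pairs `i < j < m` attains its maximum on every
nonempty class of arrays. -/
lemma exists_max_on (m : ℕ) (G : Rel → ℝ) (hG : ∀ e e', Agree m e e' → G e = G e')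
    (P : Rel → Prop) (hP : ∃ e, P e) : ∃ e, P e ∧ ∀ e', P e' → G e' ≤ G e := by
  classical
  have hfin : (G '' {e | P e}).Finite := by
    apply (((finite_masked m).image G)).subset
    rintro _ ⟨e, _, rfl⟩
    exact ⟨mask m e, mask_mask m e, (hG _ _ (agree_mask m e)).symm⟩
  obtain ⟨e0, he0⟩ := hP
  obtain ⟨v, hv, hmax⟩ := hfin.exists_maximal ⟨_, ⟨e0, he0, rfl⟩⟩
  obtain ⟨e, he, rfl⟩ := hv
  refine ⟨e, he, fun e' he' => ?_⟩
  by_contra hlt
  push Not at hlt
  exact absurd (hmax ⟨e', he', rfl⟩ hlt.le) (not_le.2 hlt)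

/-- `e` maximises `F q m x y` over all arrays. -/
def IsMax (q : ℝ) (m : ℕ) (x y : ℝ) (e : Rel) : Prop := ∀ e', F q m x y e' ≤ F q m x y e

lemma exists_isMax (q : ℝ) (m : ℕ) (x y : ℝ) : ∃ e, IsMax q m x y e := by
  obtain ⟨e, _, he⟩ := exists_max_on m (F q m x y) (fun _ _ h => F_congr h) (fun _ => True)
    ⟨fun _ _ => true, trivial⟩
  exact ⟨e, fun e' => he e' trivial⟩

/-- the maximum value. -/
noncomputable def V (q : ℝ) (m : ℕ) (x y : ℝ) : ℝ := F q m x y (exists_isMax q m x y).choose

lemma le_V (q : ℝ) (m : ℕ) (x y : ℝ) (e : Rel) : F q m x y e ≤ V q m x y :=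
  (exists_isMax q m x y).choose_spec e

lemma IsMax.eq_V {q : ℝ} {m : ℕ} {x y : ℝ} {e : Rel} (h : IsMax q m x y e) :
    F q m x y e = V q m x y :=
  le_antisymm (le_V q m x y e) (h _)

lemma isMax_of_eq_V {q : ℝ} {m : ℕ} {x y : ℝ} {e : Rel} (h : F q m x y e = V q m x y) :
    IsMax q m x y e := fun e' => h ▸ le_V q m x y e'

lemma V_le {q : ℝ} {m : ℕ} {x y c : ℝ} (h : ∀ e, F q m x y e ≤ c) : V q m x y ≤ c := h _

lemma exists_eq_V (q : ℝ) (m : ℕ) (x y : ℝ) : ∃ e, F q m x y e = V q m x y := ⟨_, rfl⟩

/-! ### concatenation of two blocks -/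

/-- concatenation: `c` on the first `p` positions, `s` on the rest, `X i j` = relation of position
`i < p` to position `p + j`. -/
def cat (p : ℕ) (c s X : Rel) : Rel := fun i j =>
  if j < p then c i j else if i < p then X i (j - p) else s (i - p) (j - p)

/-- the part of `e` from position `p` on. -/
def shift (p : ℕ) (e : Rel) : Rel := fun i j => e (p + i) (p + j)

lemma cat_self (p m : ℕ) (e : Rel) : Agree m (cat p e (shift p e) (fun i j => e i (p + j))) e := by
  intro i j hi hj
  unfold cat shift
  split_ifs with h1 h2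
  · rfl
  · show e i (p + (j - p)) = e i j
    congr 1; omega
  · show e (p + (i - p)) (p + (j - p)) = e i j
    congr 1 <;> omega

section cat
variable {q x y : ℝ} {p r : ℕ} {c s X : Rel}

lemma av_cat_left {i : ℕ} (hi : i < p) : av q x (cat p c s X) i = av q x c i := by
  unfold av
  congr 1
  refine sum_congr rfl fun k _ => ?_
  simp [cat, hi]

lemma bv_cat_right {j : ℕ} (_hj : j < r) :
    bv q y (p + r) (cat p c s X) (p + j) = bv q y r s j := by
  unfold bv
  have h1 : p + r - (p + j) = r - j := by omega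
  rw [h1]
  congr 1
  have : Ico (p + j + 1) (p + r) = (Ico (j + 1) r).map (addLeftEmbedding p) := by
    rw [Finset.map_add_left_Ico]; rfl
  rw [this, sum_map]
  refine sum_congr rfl fun k hk => ?_
  have hk := mem_Ico.1 hk
  simp only [addLeftEmbedding_apply, cat]
  rw [if_neg (by omega), if_neg (by omega)]
  congr 2
  · omega
  · congr 1 <;> omega

lemma bv_cat_left {i : ℕ} (hi : i < p) :
    bv q y (p + r) (cat p c s X) i
      = bv q 0 p c i + q ^ (p + r - i) * y + ∑ j ∈ range r, q ^ (p + j - i) * sg (X i j) := by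
  unfold bv
  have hsplit : Ico (i + 1) (p + r) = Ico (i + 1) p ∪ (range r).map (addLeftEmbedding p) := by
    ext k
    simp only [mem_Ico, mem_union, mem_map, mem_range, addLeftEmbedding_apply]
    constructor
    · intro h
      by_cases hk : k < p
      · left; omega
      · right; exact ⟨k - p, by omega, by omega⟩
    · rintro (h | ⟨j, hj, rfl⟩)
      · omega
      · omega
  have hdisj : Disjoint (Ico (i + 1) p) ((range r).map (addLeftEmbedding p)) := by
    rw [disjoint_left]
    intro k hk hk'
    simp only [mem_Ico, mem_map, mem_range, addLeftEmbedding_apply] at hk hk'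
    obtain ⟨j, _, rfl⟩ := hk'
    omega
  rw [hsplit, sum_union hdisj, sum_map]
  have e1 : ∑ k ∈ Ico (i + 1) p, q ^ (k - i) * sg (cat p c s X i k)
      = ∑ k ∈ Ico (i + 1) p, q ^ (k - i) * sg (c i k) := by
    refine sum_congr rfl fun k hk => ?_
    have hk := mem_Ico.1 hk
    simp [cat, hk.2]
  have e2 : ∑ j ∈ range r, q ^ ((addLeftEmbedding p) j - i) * sg (cat p c s X i ((addLeftEmbedding p) j))
      = ∑ j ∈ range r, q ^ (p + j - i) * sg (X i j) := by
    refine sum_congr rfl fun j _ => ?_
    simp only [addLeftEmbedding_apply, cat]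
    rw [if_neg (by omega), if_pos hi]
    simp
  rw [e1, e2]
  simp only [mul_zero]
  ring

lemma av_cat_right {j : ℕ} :
    av q x (cat p c s X) (p + j)
      = av q 0 s j + q ^ (p + j + 1) * x - ∑ i ∈ range p, q ^ (p + j - i) * sg (X i j) := by
  unfold av
  rw [Finset.sum_range_add]
  have e1 : ∑ i ∈ range p, q ^ (p + j - i) * sg (cat p c s X i (p + j))
      = ∑ i ∈ range p, q ^ (p + j - i) * sg (X i j) := by
    refine sum_congr rfl fun i hi => ?_
    have hi := mem_range.1 hi
    simp only [cat]
    rw [if_neg (by omega), if_pos hi]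
    simp
  have e2 : ∑ i ∈ range j, q ^ (p + j - (p + i)) * sg (cat p c s X (p + i) (p + j))
      = ∑ i ∈ range j, q ^ (j - i) * sg (s i j) := by
    refine sum_congr rfl fun i hi => ?_
    simp only [cat]
    rw [if_neg (by omega), if_neg (by omega)]
    congr 2
    · omega
    · congr 1 <;> omega
  rw [e1, e2]
  ring

/-- **block formula**: only the last double sum depends on the cross relations `X`. -/
theorem F_cat :
    F q (p + r) x y (cat p c s X)
      = F q p x 0 c + F q r 0 y s + y * ∑ i ∈ range p, q ^ (p + r - i) * av q x c i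
        + x * ∑ j ∈ range r, q ^ (p + j + 1) * bv q y r s j
        + ∑ i ∈ range p, ∑ j ∈ range r, q ^ (p + j - i) * sg (X i j) * (av q x c i - bv q y r s j) := by
  unfold F
  rw [Finset.sum_range_add]
  have e1 : ∑ i ∈ range p, av q x (cat p c s X) i * bv q y (p + r) (cat p c s X) i
      = ∑ i ∈ range p, av q x c i * (bv q 0 p c i + q ^ (p + r - i) * y
          + ∑ j ∈ range r, q ^ (p + j - i) * sg (X i j)) := by
    refine sum_congr rfl fun i hi => ?_
    rw [av_cat_left (mem_range.1 hi), bv_cat_left (mem_range.1 hi)]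
  have e2 : ∑ j ∈ range r, av q x (cat p c s X) (p + j) * bv q y (p + r) (cat p c s X) (p + j)
      = ∑ j ∈ range r, (av q 0 s j + q ^ (p + j + 1) * x
          - ∑ i ∈ range p, q ^ (p + j - i) * sg (X i j)) * bv q y r s j := by
    refine sum_congr rfl fun j hj => ?_
    rw [av_cat_right, bv_cat_right (mem_range.1 hj)]
  rw [e1, e2]
  have e3 : ∑ i ∈ range p, ∑ j ∈ range r,
        q ^ (p + j - i) * sg (X i j) * (av q x c i - bv q y r s j)
      = ∑ i ∈ range p, av q x c i * ∑ j ∈ range r, q ^ (p + j - i) * sg (X i j)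
        - ∑ j ∈ range r, (∑ i ∈ range p, q ^ (p + j - i) * sg (X i j)) * bv q y r s j := by
    have h1 : ∑ i ∈ range p, av q x c i * ∑ j ∈ range r, q ^ (p + j - i) * sg (X i j)
        = ∑ i ∈ range p, ∑ j ∈ range r, q ^ (p + j - i) * sg (X i j) * av q x c i := by
      refine sum_congr rfl fun i _ => ?_
      rw [mul_sum]
      refine sum_congr rfl fun j _ => by ring
    have h2 : ∑ j ∈ range r, (∑ i ∈ range p, q ^ (p + j - i) * sg (X i j)) * bv q y r s j
        = ∑ i ∈ range p, ∑ j ∈ range r, q ^ (p + j - i) * sg (X i j) * bv q y r s j := by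
      rw [sum_comm]
      refine sum_congr rfl fun j _ => ?_
      rw [sum_mul]
    rw [h1, h2, ← sum_sub_distrib]
    refine sum_congr rfl fun i _ => ?_
    rw [← sum_sub_distrib]
    refine sum_congr rfl fun j _ => by ring
  rw [e3]
  simp only [mul_add, sub_mul, add_mul, sum_add_distrib, sum_sub_distrib, mul_sum]
  have h4 : ∑ i ∈ range p, av q x c i * (q ^ (p + r - i) * y)
      = ∑ i ∈ range p, y * (q ^ (p + r - i) * av q x c i) :=
    sum_congr rfl fun i _ => by ring
  have h5 : ∑ j ∈ range r, q ^ (p + j + 1) * x * bv q y r s j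
      = ∑ j ∈ range r, x * (q ^ (p + j + 1) * bv q y r s j) :=
    sum_congr rfl fun i _ => by ring
  rw [h4, h5]
  ring

end cat

/-- the cross relations that are optimal for given past values `A` and future values `B`. -/
noncomputable def xopt (A B : ℕ → ℝ) : Rel := fun i j => decide (B j ≤ A i)

lemma sg_xopt (A B : ℕ → ℝ) (i j : ℕ) : sg (xopt A B i j) * (A i - B j) = |A i - B j| := by
  unfold xopt
  by_cases h : B j ≤ A i
  · simp [h, abs_of_nonneg (sub_nonneg.2 h)]
  · push Not at h
    simp [not_le.2 h, abs_of_neg (sub_neg.2 h)]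

lemma sg_mul_le_abs (b : Bool) (v : ℝ) : sg b * v ≤ |v| := by
  cases b
  · simpa using neg_le_abs v
  · simpa using le_abs_self v

/-! ### complement and reversal -/

/-- complement all relations. -/
def compl (e : Rel) : Rel := fun i j => !(e i j)

/-- reversal of the positions. -/
def rev (m : ℕ) (e : Rel) : Rel := fun i j => !(e (m - 1 - j) (m - 1 - i))

lemma av_compl (q x : ℝ) (e : Rel) (t : ℕ) : av q (-x) (compl e) t = - av q x e t := by
  unfold av compl
  simp only [sg_not, mul_neg, sum_neg_distrib]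
  ring

lemma bv_compl (q y : ℝ) (m : ℕ) (e : Rel) (t : ℕ) :
    bv q (-y) m (compl e) t = - bv q y m e t := by
  unfold bv compl
  simp only [sg_not, mul_neg, sum_neg_distrib]
  ring

theorem F_compl (q : ℝ) (m : ℕ) (x y : ℝ) (e : Rel) :
    F q m (-x) (-y) (compl e) = F q m x y e := by
  unfold F
  refine sum_congr rfl fun t _ => ?_
  rw [av_compl, bv_compl]; ring

lemma av_rev {q y : ℝ} {m : ℕ} {e : Rel} {t : ℕ} (ht : t < m) :
    av q y (rev m e) t = bv q y m e (m - 1 - t) := by
  unfold av bv rev
  have h1 : m - (m - 1 - t) = t + 1 := by omega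
  have h2 : m - 1 - t + 1 = m - t := by omega
  rw [h1, h2]
  simp only [sg_not, mul_neg, sum_neg_distrib, sub_neg_eq_add]
  congr 1
  -- substitute k = m - 1 - i
  refine sum_bij' (fun i _ => m - 1 - i) (fun k _ => m - 1 - k) ?_ ?_ ?_ ?_ ?_
  · intro i hi
    have := mem_range.1 hi
    rw [mem_Ico]; omega
  · intro k hk
    have := mem_Ico.1 hk
    rw [mem_range]; omega
  · intro i hi
    have := mem_range.1 hi
    omega
  · intro k hk
    have := mem_Ico.1 hk
    omega
  · intro i hi
    have := mem_range.1 hi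
    congr 1
    · congr 1; omega

lemma bv_rev {q x : ℝ} {m : ℕ} {e : Rel} {t : ℕ} (ht : t < m) :
    bv q x m (rev m e) t = av q x e (m - 1 - t) := by
  unfold av bv rev
  have h1 : m - 1 - t + 1 = m - t := by omega
  rw [h1, sub_eq_add_neg, ← sum_neg_distrib]
  simp only [sg_not, mul_neg]
  congr 1
  refine sum_bij' (fun k _ => m - 1 - k) (fun i _ => m - 1 - i) ?_ ?_ ?_ ?_ ?_
  · intro k hk
    have := mem_Ico.1 hk
    rw [mem_range]; omega
  · intro i hi
    have := mem_range.1 hi
    rw [mem_Ico]; omega
  · intro k hk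
    have := mem_Ico.1 hk
    omega
  · intro i hi
    have := mem_range.1 hi
    omega
  · intro k hk
    have := mem_Ico.1 hk
    congr 2
    · congr 1; omega

theorem F_rev (q : ℝ) (m : ℕ) (x y : ℝ) (e : Rel) : F q m y x (rev m e) = F q m x y e := by
  unfold F
  rw [← sum_range_reflect (fun t => av q x e t * bv q y m e t) m]
  refine sum_congr rfl fun t ht => ?_
  rw [av_rev (mem_range.1 ht), bv_rev (mem_range.1 ht)]; ring

/-! ### single flips -/

/-- flip the relation of `i` and `j`. -/
def flip (i j : ℕ) (e : Rel) : Rel := fun a b => if a = i ∧ b = j then !(e a b) else e a b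

/-- change of `F` under a single flip. -/
theorem F_flip {q x y : ℝ} {m : ℕ} {e : Rel} {i j : ℕ} (hij : i < j) (hj : j < m) :
    F q m x y (flip i j e)
      = F q m x y e - 2 * q ^ (j - i) * sg (e i j) * (av q x e i - bv q y m e j) := by
  have hav : ∀ t, t ≠ j → av q x (flip i j e) t = av q x e t := by
    intro t ht
    unfold av flip
    congr 1
    refine sum_congr rfl fun k _ => ?_
    simp [ht]
  have hbv : ∀ t, t ≠ i → bv q y m (flip i j e) t = bv q y m e t := by
    intro t ht
    unfold bv flip
    congr 1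
    refine sum_congr rfl fun k _ => ?_
    simp [ht]
  have havj : av q x (flip i j e) j = av q x e j + 2 * (q ^ (j - i) * sg (e i j)) := by
    unfold av
    have : ∑ k ∈ range j, q ^ (j - k) * sg (flip i j e k j)
        = ∑ k ∈ range j, q ^ (j - k) * sg (e k j) - 2 * (q ^ (j - i) * sg (e i j)) := by
      rw [← Finset.add_sum_erase _ _ (mem_range.2 hij),
        ← Finset.add_sum_erase (a := i) _ (fun k => q ^ (j - k) * sg (e k j)) (mem_range.2 hij)]
      have h1 : ∑ k ∈ (range j).erase i, q ^ (j - k) * sg (flip i j e k j)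
          = ∑ k ∈ (range j).erase i, q ^ (j - k) * sg (e k j) := by
        refine sum_congr rfl fun k hk => ?_
        have hki : k ≠ i := (mem_erase.1 hk).1
        simp [flip, hki]
      rw [h1]
      simp [flip]
      ring
    rw [this]; ring
  have hbvi : bv q y m (flip i j e) i = bv q y m e i - 2 * (q ^ (j - i) * sg (e i j)) := by
    unfold bv
    have hmem : j ∈ Ico (i + 1) m := mem_Ico.2 ⟨by omega, hj⟩
    have : ∑ k ∈ Ico (i + 1) m, q ^ (k - i) * sg (flip i j e i k)
        = ∑ k ∈ Ico (i + 1) m, q ^ (k - i) * sg (e i k) - 2 * (q ^ (j - i) * sg (e i j)) := by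
      rw [← Finset.add_sum_erase _ _ hmem,
        ← Finset.add_sum_erase (a := j) _ (fun k => q ^ (k - i) * sg (e i k)) hmem]
      have h1 : ∑ k ∈ (Ico (i + 1) m).erase j, q ^ (k - i) * sg (flip i j e i k)
          = ∑ k ∈ (Ico (i + 1) m).erase j, q ^ (k - i) * sg (e i k) := by
        refine sum_congr rfl fun k hk => ?_
        have hkj : k ≠ j := (mem_erase.1 hk).1
        simp [flip, hkj]
      rw [h1]
      simp [flip]
      ring
    rw [this]; ring
  unfold F
  have him : i ∈ range m := mem_range.2 (by omega)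
  have hjm : j ∈ (range m).erase i := mem_erase.2 ⟨by omega, mem_range.2 hj⟩
  rw [← Finset.add_sum_erase _ _ him, ← Finset.add_sum_erase _ _ hjm,
    ← Finset.add_sum_erase (a := i) _ (fun t => av q x e t * bv q y m e t) him,
    ← Finset.add_sum_erase (a := j) _ (fun t => av q x e t * bv q y m e t) hjm]
  have h1 : ∑ t ∈ ((range m).erase i).erase j, av q x (flip i j e) t * bv q y m (flip i j e) t
      = ∑ t ∈ ((range m).erase i).erase j, av q x e t * bv q y m e t := by
    refine sum_congr rfl fun t ht => ?_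
    have h2 := mem_erase.1 ht
    have h3 := mem_erase.1 h2.2
    rw [hav t h2.1, hbv t h3.1]
  rw [h1, hav i (by omega), hbv j (by omega), havj, hbvi]
  ring

/-- **the exact rule** at a maximiser (for `q > 0`). -/
theorem IsMax.rule {q x y : ℝ} {m : ℕ} {e : Rel} (hq : 0 < q) (h : IsMax q m x y e)
    {i j : ℕ} (hij : i < j) (hj : j < m) : 0 ≤ sg (e i j) * (av q x e i - bv q y m e j) := by
  have h1 := h (flip i j e)
  rw [F_flip hij hj] at h1
  have h2 : 0 ≤ 2 * q ^ (j - i) * (sg (e i j) * (av q x e i - bv q y m e j)) := by linarith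
  have h3 : 0 < 2 * q ^ (j - i) := by positivity
  exact nonneg_of_mul_nonneg_right h2 h3

lemma IsMax.true_of_lt {q x y : ℝ} {m : ℕ} {e : Rel} (hq : 0 < q) (h : IsMax q m x y e)
    {i j : ℕ} (hij : i < j) (hj : j < m) (hlt : bv q y m e j < av q x e i) : e i j = true := by
  by_contra hc
  have := h.rule hq hij hj
  rw [Bool.not_eq_true] at hc
  rw [hc] at this
  simp at this
  linarith

lemma IsMax.false_of_lt {q x y : ℝ} {m : ℕ} {e : Rel} (hq : 0 < q) (h : IsMax q m x y e)
    {i j : ℕ} (hij : i < j) (hj : j < m) (hlt : av q x e i < bv q y m e j) : e i j = false := by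
  by_contra hc
  have := h.rule hq hij hj
  rw [Bool.not_eq_false] at hc
  rw [hc] at this
  simp at this
  linarith

end Pool.Agent.RC
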