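import Pool.Agent.Work.MP_b9e699_co.BD

/-! # The value of a combined array -/

open Finset

namespace Pool.Agent.RC

lemma sum_range_two_mul' (f : ℕ → ℝ) (n : ℕ) :
    ∑ i ∈ range (2 * n), f i = ∑ k ∈ range n, f (2 * k) + ∑ k ∈ range n, f (2 * k + 1) := by
  induction n with
  | zero => simp
  | succ n ih =>
    rw [show 2 * (n + 1) = 2 * n + 1 + 1 by ring, sum_range_succ, sum_range_succ, ih,
      sum_range_succ, sum_range_succ]
    ring

lemma sum_range_two_mul_add_one' (f : ℕ → ℝ) (n : ℕ) :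
    ∑ i ∈ range (2 * n + 1), f i = ∑ k ∈ range (n + 1), f (2 * k) + ∑ k ∈ range n, f (2 * k + 1) := by
  rw [sum_range_succ, sum_range_two_mul', sum_range_succ]
  ring

/-- split a sum over `range m` into the ends and the interior even/odd positions. -/
lemma sum_split (f : ℕ → ℝ) {m : ℕ} (hm : 2 ≤ m) :
    ∑ t ∈ range m, f t = f 0 + f (m - 1) + ∑ r ∈ range ((m - 2) / 2), f (2 * r + 2)
      + ∑ r ∈ range ((m - 1) / 2), f (2 * r + 1) := by
  obtain ⟨k, hk⟩ : ∃ k, m = 2 * k ∨ m = 2 * k + 1 := ⟨m / 2, by omega⟩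
  rcases hk with rfl | rfl
  · obtain ⟨j, rfl⟩ : ∃ j, k = j + 1 := ⟨k - 1, by omega⟩
    have h1 : (2 * (j + 1) - 2) / 2 = j := by omega
    have h2 : (2 * (j + 1) - 1) / 2 = j := by omega
    have h3 : 2 * (j + 1) - 1 = 2 * j + 1 := by omega
    rw [h1, h2, h3, sum_range_two_mul', sum_range_succ', sum_range_succ (fun k => f (2 * k + 1))]
    have : ∀ r, 2 * (r + 1) = 2 * r + 2 := fun r => by ring
    simp only [this, mul_zero]
    ring
  · obtain ⟨j, rfl⟩ : ∃ j, k = j + 1 := ⟨k - 1, by omega⟩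
    have h1 : (2 * (j + 1) + 1 - 2) / 2 = j := by omega
    have h2 : (2 * (j + 1) + 1 - 1) / 2 = j + 1 := by omega
    have h3 : 2 * (j + 1) + 1 - 1 = 2 * (j + 1) := by omega
    rw [h1, h2, h3, sum_range_two_mul_add_one', sum_range_succ, sum_range_succ']
    have : ∀ r, 2 * (r + 1) = 2 * r + 2 := fun r => by ring
    simp only [this, mul_zero]
    ring

/-- `g (1 - Q^n) = ∑_{k<n} q^(2k+1)`. -/
lemma gq_geom {q : ℝ} (hq : q ^ 2 ≠ 1) (n : ℕ) :
    ∑ k ∈ range n, q ^ (2 * k + 1) = gq q * (1 - (q ^ 2) ^ n) := by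
  have h : 1 - q ^ 2 ≠ 0 := fun h => hq (by linarith)
  unfold gq
  rw [div_mul_eq_mul_div, eq_div_iff h]
  induction n with
  | zero => simp
  | succ n ih => rw [sum_range_succ, add_mul, ih]; ring

lemma gq_geom' {q : ℝ} (hq : q ^ 2 ≠ 1) (r : ℕ) :
    ∑ k ∈ range (r + 1), q ^ (2 * r + 1 - 2 * k) = gq q * (1 - (q ^ 2) ^ (r + 1)) := by
  rw [← gq_geom hq, ← sum_range_reflect (fun k => q ^ (2 * k + 1)) (r + 1)]
  refine sum_congr rfl fun k hk => ?_
  have := mem_range.1 hk
  congr 1; omega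

section comb
variable {q x y : ℝ} {m : ℕ} {σ ς : Bool} {eE eO : Rel}

/-- past value of an interior even position. -/
lemma av_comb_even (hq : q ^ 2 ≠ 1) {r : ℕ} (hr : 2 * r + 3 < m) :
    av q x (comb m σ ς eE eO) (2 * r + 2)
      = sg σ * gq q + av (q ^ 2) (strip q σ x) eE r := by
  unfold av
  rw [show 2 * r + 2 = 2 * (r + 1) by ring, sum_range_two_mul', sum_range_succ']
  have e1 : ∑ k ∈ range r, q ^ (2 * (r + 1) - 2 * (k + 1))
        * sg (comb m σ ς eE eO (2 * (k + 1)) (2 * (r + 1)))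
      = ∑ k ∈ range r, (q ^ 2) ^ (r - k) * sg (eE k r) := by
    refine sum_congr rfl fun k hk => ?_
    have hk := mem_range.1 hk
    have h1 : comb m σ ς eE eO (2 * (k + 1)) (2 * (r + 1)) = eE k r := by
      unfold comb
      rw [if_neg (by omega), if_neg (by omega), if_pos (by omega), if_pos (by omega)]
      congr 1 <;> omega
    rw [h1, ← pow_mul]
    congr 2; omega
  have e2 : q ^ (2 * (r + 1) - 2 * 0) * sg (comb m σ ς eE eO (2 * 0) (2 * (r + 1)))
      = - sg σ * (q ^ 2) ^ (r + 1) := by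
    have h1 : comb m σ ς eE eO (2 * 0) (2 * (r + 1)) = !σ := by
      unfold comb
      rw [if_pos (by omega), if_neg (by omega), if_pos (by omega)]
    rw [h1, sg_not, ← pow_mul]
    rw [show 2 * (r + 1) - 2 * 0 = 2 * (r + 1) by omega]
    ring
  have e3 : ∑ k ∈ range (r + 1), q ^ (2 * (r + 1) - (2 * k + 1))
        * sg (comb m σ ς eE eO (2 * k + 1) (2 * (r + 1)))
      = - sg σ * (gq q * (1 - (q ^ 2) ^ (r + 1))) := by
    rw [← gq_geom' hq, mul_sum]
    refine sum_congr rfl fun k hk => ?_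
    have hk := mem_range.1 hk
    have h1 : comb m σ ς eE eO (2 * k + 1) (2 * (r + 1)) = !σ := by
      unfold comb
      rw [if_neg (by omega), if_neg (by omega), if_neg (by omega), if_neg (by omega)]
    rw [h1, sg_not, show 2 * (r + 1) - (2 * k + 1) = 2 * r + 1 - 2 * k by omega]
    ring
  rw [e1, e2, e3]
  unfold strip
  have : q ^ (2 * (r + 1) + 1) = (q ^ 2) ^ (r + 1) * q := by rw [← pow_mul]; ring
  rw [this]
  ring

/-- past value of an interior odd position. -/
lemma av_comb_odd (hq : q ^ 2 ≠ 1) {r : ℕ} (hr : 2 * r + 2 < m) :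
    av q x (comb m σ ς eE eO) (2 * r + 1)
      = - sg σ * gq q + av (q ^ 2) (opp q σ x) eO r := by
  unfold av
  rw [sum_range_two_mul_add_one']
  have e1 : ∑ k ∈ range r, q ^ (2 * r + 1 - (2 * k + 1))
        * sg (comb m σ ς eE eO (2 * k + 1) (2 * r + 1))
      = ∑ k ∈ range r, (q ^ 2) ^ (r - k) * sg (eO k r) := by
    refine sum_congr rfl fun k hk => ?_
    have hk := mem_range.1 hk
    have h1 : comb m σ ς eE eO (2 * k + 1) (2 * r + 1) = eO k r := by
      unfold comb
      rw [if_neg (by omega), if_neg (by omega), if_pos (by omega), if_neg (by omega)]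
      congr 1 <;> omega
    rw [h1, ← pow_mul]
    congr 2; omega
  have e3 : ∑ k ∈ range (r + 1), q ^ (2 * r + 1 - 2 * k)
        * sg (comb m σ ς eE eO (2 * k) (2 * r + 1))
      = sg σ * (gq q * (1 - (q ^ 2) ^ (r + 1))) := by
    rw [← gq_geom' hq, mul_sum]
    refine sum_congr rfl fun k hk => ?_
    have hk := mem_range.1 hk
    have h1 : comb m σ ς eE eO (2 * k) (2 * r + 1) = σ := by
      unfold comb
      by_cases h0 : 2 * k = 0
      · rw [if_pos h0, if_neg (by omega), if_neg (by omega)]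
      · rw [if_neg h0, if_neg (by omega), if_neg (by omega), if_pos (by omega)]
    rw [h1]
    ring
  rw [e1, e3]
  unfold opp
  have : q ^ (2 * r + 1 + 1) = (q ^ 2) ^ (r + 1) := by rw [← pow_mul]; ring
  rw [this]
  ring

lemma sg_rt (m : ℕ) (σ : Bool) : sg (rt m σ) = (-1) ^ (m + 1) * sg σ := by
  unfold rt
  rcases Nat.even_or_odd m with h | h
  · rw [if_neg (by rw [Nat.even_iff] at h; omega), sg_not]
    rw [Odd.neg_one_pow (h.add_one)]; ring
  · rw [if_pos (by rw [Nat.odd_iff] at h; omega)]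
    rw [Even.neg_one_pow (h.add_one)]; ring

lemma rt_rt (m : ℕ) (σ : Bool) : rt m (rt m σ) = σ := by
  unfold rt; split_ifs <;> simp

/-- past value of the last position. -/
lemma av_comb_last (hm : 2 ≤ m) :
    av q x (comb m σ ς eE eO) (m - 1)
      = q ^ m * x - sg ς * q ^ (m - 1) + sg (rt m σ) * RR q (m - 2) := by
  obtain ⟨n, rfl⟩ : ∃ n, m = n + 2 := ⟨m - 2, by omega⟩
  unfold av
  have hh : n + 2 - 1 = n + 1 := by omega
  rw [hh, sum_range_succ']
  have e0 : comb (n + 2) σ ς eE eO 0 (n + 1) = ς := by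
    unfold comb; rw [if_pos rfl, if_pos (by omega)]
  have e1 : ∑ k ∈ range n, q ^ (n + 1 - (k + 1)) * sg (comb (n + 2) σ ς eE eO (k + 1) (n + 1))
      = - (sg (rt (n + 2) σ) * RR q n) := by
    unfold RR
    rw [← sum_range_reflect (fun d => (-1 : ℝ) ^ d * q ^ (d + 1)) n, mul_sum, ← sum_neg_distrib]
    refine sum_congr rfl fun k hk => ?_
    have hk := mem_range.1 hk
    have h1 : sg (comb (n + 2) σ ς eE eO (k + 1) (n + 1)) = (-1) ^ (k + 1) * sg σ := by
      unfold comb
      rw [if_neg (by omega), if_pos (by omega)]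
      rcases Nat.even_or_odd (k + 1) with h | h
      · rw [if_pos (by rw [Nat.even_iff] at h; omega), h.neg_one_pow]; ring
      · rw [if_neg (by rw [Nat.odd_iff] at h; omega), sg_not, h.neg_one_pow]; ring
    rw [h1, sg_rt]
    have h2 : n + 1 - (k + 1) = n - 1 - k + 1 := by omega
    rw [h2]
    have h3 : (-1 : ℝ) ^ (n + 2 + 1) * (-1) ^ (n - 1 - k) = - (-1) ^ (k + 1) := by
      rw [← pow_add]
      have : n + 2 + 1 + (n - 1 - k) = 2 * (n - 1 - k) + (k + 1) + 3 := by omega
      rw [this, pow_add, pow_add, pow_mul]; norm_num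
    calc q ^ (n - 1 - k + 1) * ((-1) ^ (k + 1) * sg σ)
        = - (- (-1) ^ (k + 1)) * sg σ * q ^ (n - 1 - k + 1) := by ring
      _ = - ((-1 : ℝ) ^ (n + 2 + 1) * (-1) ^ (n - 1 - k)) * sg σ * q ^ (n - 1 - k + 1) := by rw [h3]
      _ = _ := by ring
  rw [e1, e0]
  have : n + 1 + 1 = n + 2 := rfl
  simp only [Nat.add_sub_cancel, Nat.sub_zero]
  ring

/-- reversal of a combined array. -/
lemma rev_comb (m : ℕ) (σ ς : Bool) (eE eO : Rel) :
    Agree m (rev m (comb m σ ς eE eO))
      (comb m (rt m σ) (!ς)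
        (if m % 2 = 1 then rev ((m - 2) / 2) eE else rev ((m - 1) / 2) eO)
        (if m % 2 = 1 then rev ((m - 1) / 2) eO else rev ((m - 2) / 2) eE)) := by
  intro i j hij hj
  unfold rev comb rt
  by_cases hmp : m % 2 = 1
  · simp only [if_pos hmp]
    by_cases hi : i = 0
    · subst hi
      by_cases hj1 : j + 1 = m
      · rw [if_pos (by omega), if_pos (by omega), if_pos rfl, if_pos hj1]
      · rw [if_neg (by omega), if_pos (by omega), if_pos rfl, if_neg hj1]
        by_cases hjp : j % 2 = 0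
        · rw [if_pos (by omega), if_pos hjp]
        · rw [if_neg (by omega), if_neg hjp, Bool.not_not]
    · rw [if_neg hi]
      by_cases hj1 : j + 1 = m
      · rw [if_pos hj1, if_pos (by omega), if_neg (by omega)]
        by_cases hip : i % 2 = 0
        · rw [if_pos (by omega), if_pos hip, Bool.not_not]
        · rw [if_neg (by omega), if_neg hip]
      · rw [if_neg hj1, if_neg (by omega), if_neg (by omega)]
        by_cases hp : i % 2 = j % 2
        · rw [if_pos (by omega), if_pos hp]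
          by_cases hip : i % 2 = 0
          · rw [if_pos (by omega), if_pos hip]
            congr 2 <;> omega
          · rw [if_neg (by omega), if_neg hip]
            congr 2 <;> omega
        · rw [if_neg (by omega), if_neg hp]
          by_cases hip : i % 2 = 0
          · rw [if_neg (by omega), if_pos hip, Bool.not_not]
          · rw [if_pos (by omega), if_neg hip]
  · simp only [if_neg hmp]
    by_cases hi : i = 0
    · subst hi
      by_cases hj1 : j + 1 = m
      · rw [if_pos (by omega), if_pos (by omega), if_pos rfl, if_pos hj1]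
      · rw [if_neg (by omega), if_pos (by omega), if_pos rfl, if_neg hj1]
        by_cases hjp : j % 2 = 0
        · rw [if_neg (by omega), if_pos hjp]
        · rw [if_pos (by omega), if_neg hjp]
    · rw [if_neg hi]
      by_cases hj1 : j + 1 = m
      · rw [if_pos hj1, if_pos (by omega), if_neg (by omega)]
        by_cases hip : i % 2 = 0
        · rw [if_neg (by omega), if_pos hip]
        · rw [if_pos (by omega), if_neg hip, Bool.not_not]
      · rw [if_neg hj1, if_neg (by omega), if_neg (by omega)]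
        by_cases hp : i % 2 = j % 2
        · rw [if_pos (by omega), if_pos hp]
          by_cases hip : i % 2 = 0
          · rw [if_neg (by omega), if_pos hip]
            congr 2 <;> omega
          · rw [if_pos (by omega), if_neg hip]
            congr 2 <;> omega
        · rw [if_neg (by omega), if_neg hp]
          by_cases hip : i % 2 = 0
          · rw [if_pos (by omega), if_pos hip]
          · rw [if_neg (by omega), if_neg hip, Bool.not_not]

lemma bv_comb_even (hq : q ^ 2 ≠ 1) {r : ℕ} (hr : 2 * r + 3 < m) :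
    bv q y m (comb m σ ς eE eO) (2 * r + 2)
      = sg σ * gq q + bv (q ^ 2) (yE q m σ y) ((m - 2) / 2) eE r := by
  rw [bv_eq_av_rev (by omega), av_congr (rev_comb m σ ς eE eO) (by omega)]
  by_cases hmp : m % 2 = 1
  · have h1 : m - 1 - (2 * r + 2) = 2 * ((m - 2) / 2 - 1 - r) + 2 := by omega
    rw [h1, av_comb_even hq (by omega), if_pos hmp]
    rw [bv_eq_av_rev (e := eE) (by omega)]
    unfold rt yE
    rw [if_pos hmp, if_pos hmp]
  · have h1 : m - 1 - (2 * r + 2) = 2 * ((m - 2) / 2 - 1 - r) + 1 := by omega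
    rw [h1, av_comb_odd hq (by omega), if_neg hmp]
    rw [bv_eq_av_rev (e := eE) (by omega)]
    unfold rt yE
    rw [if_neg hmp, if_neg hmp, sg_not, neg_neg]

lemma bv_comb_odd (hq : q ^ 2 ≠ 1) {r : ℕ} (hr : 2 * r + 2 < m) :
    bv q y m (comb m σ ς eE eO) (2 * r + 1)
      = - sg σ * gq q + bv (q ^ 2) (yO q m σ y) ((m - 1) / 2) eO r := by
  rw [bv_eq_av_rev (by omega), av_congr (rev_comb m σ ς eE eO) (by omega)]
  by_cases hmp : m % 2 = 1
  · have h1 : m - 1 - (2 * r + 1) = 2 * ((m - 1) / 2 - 1 - r) + 1 := by omega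
    rw [h1, av_comb_odd hq (by omega), if_pos hmp]
    rw [bv_eq_av_rev (e := eO) (by omega)]
    unfold rt yO
    rw [if_pos hmp, if_pos hmp]
  · have h1 : m - 1 - (2 * r + 1) = 2 * ((m - 1) / 2 - 1 - r) + 2 := by omega
    rw [h1, av_comb_even hq (by omega), if_neg hmp]
    rw [bv_eq_av_rev (e := eO) (by omega)]
    unfold rt yO
    rw [if_neg hmp, if_neg hmp, sg_not]

lemma bv_comb_zero (hm : 2 ≤ m) :
    bv q y m (comb m σ ς eE eO) 0
      = q ^ m * y + sg ς * q ^ (m - 1) + sg σ * RR q (m - 2) := by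
  rw [bv_eq_av_rev (by omega), av_congr (rev_comb m σ ς eE eO) (by omega), Nat.sub_zero,
    av_comb_last hm, rt_rt, sg_not]
  ring

end comb

/-- `∑ (past + future) = (x + y) ∑ q^(t+1)`. -/
lemma sum_av_add_bv (q x y : ℝ) (m : ℕ) (e : Rel) :
    ∑ t ∈ range m, (av q x e t + bv q y m e t) = (x + y) * SS q m := by
  unfold av bv SS
  have h1 : ∑ t ∈ range m, ∑ i ∈ range t, q ^ (t - i) * sg (e i t)
      = ∑ t ∈ range m, ∑ k ∈ Ico (t + 1) m, q ^ (k - t) * sg (e t k) := by
    rw [sum_sigma', sum_sigma']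
    refine sum_bij' (fun p _ => ⟨p.2, p.1⟩) (fun p _ => ⟨p.2, p.1⟩) ?_ ?_ ?_ ?_ ?_
    · intro p hp
      simp only [mem_sigma, mem_range, mem_Ico] at hp ⊢
      omega
    · intro p hp
      simp only [mem_sigma, mem_range, mem_Ico] at hp ⊢
      omega
    · intro p _; rfl
    · intro p _; rfl
    · intro p _; rfl
  have h2 : ∑ t ∈ range m, q ^ (m - t) * y = y * ∑ r ∈ range m, q ^ (r + 1) := by
    rw [mul_sum, ← sum_range_reflect (fun r => y * q ^ (r + 1)) m]
    refine sum_congr rfl fun t ht => ?_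
    have := mem_range.1 ht
    rw [show m - 1 - t + 1 = m - t by omega]; ring
  rw [sum_add_distrib, sum_sub_distrib, sum_add_distrib, h1, h2]
  have h3 : ∑ t ∈ range m, q ^ (t + 1) * x = x * ∑ r ∈ range m, q ^ (r + 1) := by
    rw [mul_sum]; refine sum_congr rfl fun t _ => by ring
  rw [h3]; ring

lemma sum_shift_mul (g : ℝ) (n : ℕ) (A B : ℕ → ℝ) :
    ∑ r ∈ range n, (g + A r) * (g + B r)
      = n * g ^ 2 + g * ∑ r ∈ range n, (A r + B r) + ∑ r ∈ range n, A r * B r := by
  have : ∀ r ∈ range n, (g + A r) * (g + B r) = g ^ 2 + g * (A r + B r) + A r * B r :=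
    fun r _ => by ring
  rw [sum_congr rfl this, sum_add_distrib, sum_add_distrib, sum_const, card_range, nsmul_eq_mul,
    ← mul_sum]

theorem F_comb {q x y : ℝ} {m : ℕ} (hq : q ^ 2 ≠ 1) (hm : 2 ≤ m) (σ ς : Bool) (eE eO : Rel) :
    F q m x y (comb m σ ς eE eO)
      = Ex q m x y σ + sg ς * q ^ m * (x - y)
        + F (q ^ 2) ((m - 2) / 2) (strip q σ x) (yE q m σ y) eE
        + F (q ^ 2) ((m - 1) / 2) (opp q σ x) (yO q m σ y) eO := by
  unfold F
  rw [sum_split _ hm]
  have e1 : ∑ r ∈ range ((m - 2) / 2), av q x (comb m σ ς eE eO) (2 * r + 2)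
        * bv q y m (comb m σ ς eE eO) (2 * r + 2)
      = ∑ r ∈ range ((m - 2) / 2), (sg σ * gq q + av (q ^ 2) (strip q σ x) eE r)
        * (sg σ * gq q + bv (q ^ 2) (yE q m σ y) ((m - 2) / 2) eE r) := by
    refine sum_congr rfl fun r hr => ?_
    have := mem_range.1 hr
    rw [av_comb_even hq (by omega), bv_comb_even hq (by omega)]
  have e2 : ∑ r ∈ range ((m - 1) / 2), av q x (comb m σ ς eE eO) (2 * r + 1)
        * bv q y m (comb m σ ς eE eO) (2 * r + 1)
      = ∑ r ∈ range ((m - 1) / 2), (- sg σ * gq q + av (q ^ 2) (opp q σ x) eO r)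
        * (- sg σ * gq q + bv (q ^ 2) (yO q m σ y) ((m - 1) / 2) eO r) := by
    refine sum_congr rfl fun r hr => ?_
    have := mem_range.1 hr
    rw [av_comb_odd hq (by omega), bv_comb_odd hq (by omega)]
  rw [e1, e2, sum_shift_mul, sum_shift_mul, sum_av_add_bv, sum_av_add_bv, av_zero,
    bv_comb_zero hm, av_comb_last hm, bv_last (by omega)]
  have hc : (((m - 2) / 2 : ℕ) : ℝ) + (((m - 1) / 2 : ℕ) : ℝ) = (m : ℝ) - 2 := by
    rw [← Nat.cast_add, show (m - 2) / 2 + (m - 1) / 2 = m - 2 by omega, Nat.cast_sub hm]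
    norm_num
  have hs : sg σ ^ 2 = 1 := sg_sq σ
  have hpow : q * q ^ (m - 1) = q ^ m := by
    rw [← pow_succ']; congr 1; omega
  have hpow2 : q * q ^ m = q ^ (m + 1) := by rw [← pow_succ']
  have hc' : (((m - 2) / 2 : ℕ) : ℝ) = (m : ℝ) - 2 - (((m - 1) / 2 : ℕ) : ℝ) := by linarith
  unfold Ex
  rw [hc', ← hpow2, ← hpow]
  linear_combination ((m : ℝ) - 2) * gq q ^ 2 * hs

end Pool.Agent.RC
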