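import Pool.Agent.Work.MP_b9e699_co.BD

/-!
# Module FL: suffix flips; a maximiser has at most one slope
-/

open Finset

namespace Pool.Agent.RC

namespace FLAux

/-! ### the truncation function -/

/-- `T v b = sgn (v b) min(|v|,|b|)` -/
noncomputable def T (v b : ℝ) : ℝ := (|v + b| - |v - b|) / 2

lemma T_abs_le_right (v b : ℝ) : |T v b| ≤ |b| := by
  unfold T
  have h1 : |v + b| ≤ |v - b| + 2 * |b| := by
    have : v + b = (v - b) + (b + b) := by ring
    calc |v + b| = |(v - b) + (b + b)| := by rw [← this]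
      _ ≤ |v - b| + |b + b| := abs_add_le _ _
      _ ≤ |v - b| + (|b| + |b|) := by gcongr; exact abs_add_le _ _
      _ = _ := by ring
  have h2 : |v - b| ≤ |v + b| + 2 * |b| := by
    have : v - b = (v + b) + (-b + -b) := by ring
    calc |v - b| = |(v + b) + (-b + -b)| := by rw [← this]
      _ ≤ |v + b| + |-b + -b| := abs_add_le _ _
      _ ≤ |v + b| + (|-b| + |-b|) := by gcongr; exact abs_add_le _ _
      _ = _ := by rw [abs_neg]; ring
  rw [abs_le]
  constructor <;> linarith

lemma T_comm (v b : ℝ) : T v b = T b v := by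
  unfold T
  rw [add_comm v b, abs_sub_comm v b]

lemma T_abs_le_left (v b : ℝ) : |T v b| ≤ |v| := by
  rw [T_comm]; exact T_abs_le_right b v

lemma T_neg (v b : ℝ) : T (-v) b = - T v b := by
  unfold T
  have h1 : |(-v) + b| = |v - b| := by rw [← abs_neg]; congr 1; ring
  have h2 : |(-v) - b| = |v + b| := by rw [← abs_neg]; congr 1; ring
  rw [h1, h2]; ring

lemma T_nonneg {v b : ℝ} (hv : 0 ≤ v) (hb : 0 ≤ b) : 0 ≤ T v b := by
  unfold T
  have : |v - b| ≤ |v + b| := by
    rw [abs_of_nonneg (by linarith : 0 ≤ v + b), abs_le]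
    constructor <;> linarith
  linarith

lemma T_nonpos {v b : ℝ} (hv : 0 ≤ v) (hb : b ≤ 0) : T v b ≤ 0 := by
  unfold T
  have : |v + b| ≤ |v - b| := by
    rw [abs_of_nonneg (by linarith : 0 ≤ v - b), abs_le]
    constructor <;> linarith
  linarith

lemma T_of_le {v b : ℝ} (hv : 0 ≤ v) (hb : v ≤ b) : T v b = v := by
  unfold T
  rw [abs_of_nonneg (by linarith), abs_of_nonpos (by linarith)]
  ring

lemma T_of_ge {v b : ℝ} (hb : 0 ≤ b) (hv : b ≤ v) : T v b = b := by
  unfold T
  rw [abs_of_nonneg (by linarith), abs_of_nonneg (by linarith)]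
  ring

lemma T_le_left {v b : ℝ} (hv : 0 ≤ v) : T v b ≤ v := by
  have := (abs_le.1 (T_abs_le_left v b)).2
  rwa [abs_of_nonneg hv] at this

lemma sr1 (q : ℝ) (f : ℕ → ℝ) : ∑ j ∈ range 1, q ^ (j + 1) * f j = q * f 0 := by
  rw [sum_range_one, zero_add, pow_one]

lemma sr2 (q : ℝ) (f : ℕ → ℝ) : ∑ j ∈ range 2, q ^ (j + 1) * f j = q * f 0 + q ^ 2 * f 1 := by
  rw [sum_range_succ, sr1]

lemma sr3 (q : ℝ) (f : ℕ → ℝ) :
    ∑ j ∈ range 3, q ^ (j + 1) * f j = q * f 0 + q ^ 2 * f 1 + q ^ 3 * f 2 := by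
  rw [sum_range_succ, sr2]

/-! ### geometric tails -/

lemma tail_bound {q w : ℝ} (hq : 0 < q) (hq1 : q < 1) (τ : ℕ → ℝ) {k n : ℕ}
    (hkn : k ≤ n) (hw : ∀ j, k ≤ j → j < n → |τ j| ≤ w) :
    |∑ j ∈ range n, q ^ (j + 1) * τ j - ∑ j ∈ range k, q ^ (j + 1) * τ j|
      ≤ w * (q ^ (k + 1) - q ^ (n + 1)) / (1 - q) := by
  have h1q : 0 < 1 - q := by linarith
  induction n, hkn using Nat.le_induction with
  | base => simp
  | succ n hkn ih =>
    have ih' := ih (fun j h1 h2 => hw j h1 (by omega))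
    rw [sum_range_succ]
    have h2 : |q ^ (n + 1) * τ n| ≤ q ^ (n + 1) * w := by
      rw [abs_mul, abs_of_pos (pow_pos hq _)]
      exact mul_le_mul_of_nonneg_left (hw n hkn (by omega)) (pow_pos hq _).le
    have h3 : |∑ j ∈ range n, q ^ (j + 1) * τ j + q ^ (n + 1) * τ n
        - ∑ j ∈ range k, q ^ (j + 1) * τ j| ≤
        w * (q ^ (k + 1) - q ^ (n + 1)) / (1 - q) + q ^ (n + 1) * w := by
      have : ∑ j ∈ range n, q ^ (j + 1) * τ j + q ^ (n + 1) * τ n
        - ∑ j ∈ range k, q ^ (j + 1) * τ j =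
        (∑ j ∈ range n, q ^ (j + 1) * τ j - ∑ j ∈ range k, q ^ (j + 1) * τ j)
          + q ^ (n + 1) * τ n := by ring
      rw [this]
      exact (abs_add_le _ _).trans (add_le_add ih' h2)
    refine h3.trans (le_of_eq ?_)
    field_simp
    ring

lemma tail_bound' {q w : ℝ} (hq : 0 < q) (hq1 : q < 1) (hw0 : 0 ≤ w) (τ : ℕ → ℝ) {k n : ℕ}
    (hkn : k ≤ n) (hw : ∀ j, k ≤ j → j < n → |τ j| ≤ w) :
    |∑ j ∈ range n, q ^ (j + 1) * τ j - ∑ j ∈ range k, q ^ (j + 1) * τ j|
      ≤ w * q ^ (k + 1) / (1 - q) := by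
  have h1q : 0 < 1 - q := by linarith
  refine (tail_bound hq hq1 τ hkn hw).trans ?_
  gcongr
  have : 0 < q ^ (n + 1) := pow_pos hq _
  linarith

lemma tail1 {q w : ℝ} (hq : 0 < q) (hq1 : q < 1) (hw0 : 0 ≤ w) (τ : ℕ → ℝ) {n : ℕ}
    (hkn : 1 ≤ n) (hw : ∀ j, 1 ≤ j → j < n → |τ j| ≤ w) :
    |∑ j ∈ range n, q ^ (j + 1) * τ j - q * τ 0| ≤ w * q ^ 2 / (1 - q) := by
  have := tail_bound' hq hq1 hw0 τ hkn hw
  rwa [sr1] at this

lemma tail2 {q w : ℝ} (hq : 0 < q) (hq1 : q < 1) (hw0 : 0 ≤ w) (τ : ℕ → ℝ) {n : ℕ}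
    (hkn : 2 ≤ n) (hw : ∀ j, 2 ≤ j → j < n → |τ j| ≤ w) :
    |∑ j ∈ range n, q ^ (j + 1) * τ j - (q * τ 0 + q ^ 2 * τ 1)| ≤ w * q ^ 3 / (1 - q) := by
  have := tail_bound' hq hq1 hw0 τ hkn hw
  rwa [sr2] at this

lemma tail3 {q w : ℝ} (hq : 0 < q) (hq1 : q < 1) (hw0 : 0 ≤ w) (τ : ℕ → ℝ) {n : ℕ}
    (hkn : 3 ≤ n) (hw : ∀ j, 3 ≤ j → j < n → |τ j| ≤ w) :
    |∑ j ∈ range n, q ^ (j + 1) * τ j - (q * τ 0 + q ^ 2 * τ 1 + q ^ 3 * τ 2)|
      ≤ w * q ^ 4 / (1 - q) := by
  have := tail_bound' hq hq1 hw0 τ hkn hw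
  rwa [sr3] at this

/-! ### the row functional -/

/-- the row functional. -/
noncomputable def J (q y : ℝ) (r : ℕ) (B : ℕ → ℝ) (v : ℝ) : ℝ :=
  ∑ j ∈ range r, q ^ (j + 1) * T v (B j) - y * q ^ (r + 1) * v

lemma J_neg (q y : ℝ) (r : ℕ) (B : ℕ → ℝ) (v : ℝ) : J q y r B (-v) = - J q y r B v := by
  unfold J
  simp only [T_neg, mul_neg, sum_neg_distrib]
  ring

/-- the properties of the suffix which are used -/
structure SufOK (q y : ℝ) (r : ℕ) (B : ℕ → ℝ) : Prop where
  r2 : 2 ≤ r
  bd : ∀ j < r, |B j| ≤ q / (1 - q)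
  last : B (r - 1) = q * y
  b0 : q * kap q ≤ B 0
  b1 : 3 ≤ r → B 1 ≤ 0
  b2 : 4 ≤ r → 0 ≤ B 2

section num
variable {q : ℝ}

lemma kap_mul (hq1 : q < 1) : kap q * (1 - q) = 1 - 2 * q := by
  unfold kap; rw [div_mul_cancel₀]; linarith

/-- `A / (1 - q) ≤ kap`. -/
lemma A_div_le (hq : 0 < q) (hq4 : q ≤ 1 / 4) : q / (1 - q) / (1 - q) ≤ kap q := by
  have h1q : 0 < 1 - q := by linarith
  unfold kap
  rw [div_div, div_le_div_iff₀ (by positivity) h1q]
  nlinarith [mul_pos h1q h1q]

lemma kap_pos (hq4 : q ≤ 1 / 4) : 0 < kap q := by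
  unfold kap; apply div_pos <;> linarith

end num

section J
variable {q y : ℝ} {r : ℕ} {B : ℕ → ℝ} {v : ℝ}

/-- extended sequence -/
noncomputable def tau (y : ℝ) (r : ℕ) (B : ℕ → ℝ) (v : ℝ) : ℕ → ℝ := fun j =>
  if j < r then T v (B j) else -(y * v)

lemma J_eq : J q y r B v = ∑ j ∈ range (r + 1), q ^ (j + 1) * tau y r B v j := by
  unfold J
  rw [sum_range_succ]
  have h1 : ∑ j ∈ range r, q ^ (j + 1) * tau y r B v j = ∑ j ∈ range r, q ^ (j + 1) * T v (B j) := by
    refine sum_congr rfl fun j hj => ?_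
    rw [tau, if_pos (mem_range.1 hj)]
  rw [h1, tau, if_neg (lt_irrefl r)]
  ring

lemma tau_abs_le_v (hy : |y| ≤ 1) (hv : 0 ≤ v) (j : ℕ) : |tau y r B v j| ≤ v := by
  unfold tau
  split_ifs with h
  · have := T_abs_le_left v (B j)
    rwa [abs_of_nonneg hv] at this
  · rw [abs_neg, abs_mul, abs_of_nonneg hv]
    nlinarith [abs_nonneg y]

lemma J_nonneg (hq : 0 < q) (hq4 : q ≤ 1 / 4) (hy : |y| ≤ kap q) (hB : SufOK q y r B)
    (hv : 0 ≤ v) (hvA : v ≤ q / (1 - q)) : 0 ≤ J q y r B v := by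
  have h1q : 0 < 1 - q := by linarith
  have hy1 : |y| ≤ 1 := hy.trans (kap_le_one hq (by linarith))
  have hr := hB.r2
  have hkey := A_div_le hq hq4
  have hb0 := hB.b0
  have hkp := kap_pos hq4
  rw [J_eq]
  have h0 : tau y r B v 0 = T v (B 0) := by rw [tau, if_pos (by omega)]
  rcases le_total v (q * kap q) with hvc | hvc
  · have h1 := tail1 hq (by linarith) hv (tau y r B v) (n := r + 1) (by omega)
      (fun j _ _ => tau_abs_le_v hy1 hv j)
    rw [h0, T_of_le hv (hvc.trans hb0)] at h1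
    have h2 := (abs_le.1 h1).1
    have h3 : v * q ^ 2 / (1 - q) ≤ q * v := by
      rw [div_le_iff₀ h1q]
      nlinarith [mul_nonneg (mul_nonneg hq.le hv) (by linarith : (0:ℝ) ≤ 1 / 4 - q),
        mul_nonneg hq.le hv]
    linarith
  · have hA0 : 0 ≤ q / (1 - q) := by positivity
    have h1 := tail1 hq (by linarith) hA0 (tau y r B v) (n := r + 1) (by omega)
      (fun j _ _ => (tau_abs_le_v hy1 hv j).trans hvA)
    rw [h0] at h1
    have h2 := (abs_le.1 h1).1
    have h3 : q * kap q ≤ T v (B 0) := by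
      rcases le_total v (B 0) with h | h
      · rw [T_of_le hv h]; exact hvc
      · rw [T_of_ge (by nlinarith) h]; exact hb0
    have h4 : q / (1 - q) * q ^ 2 / (1 - q) ≤ q * (q * kap q) := by
      have : q / (1 - q) * q ^ 2 / (1 - q) = q ^ 2 * (q / (1 - q) / (1 - q)) := by ring
      rw [this]
      nlinarith [mul_le_mul_of_nonneg_left hkey (sq_nonneg q)]
    nlinarith [mul_le_mul_of_nonneg_left h3 hq.le]

lemma J_le (hq : 0 < q) (hq4 : q ≤ 1 / 4) (hy : |y| ≤ kap q) (hB : SufOK q y r B)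
    (hv : 0 ≤ v) (hvA : v ≤ q / (1 - q)) : J q y r B v ≤ q * v + q ^ 3 * kap q := by
  have h1q : 0 < 1 - q := by linarith
  have hy1 : |y| ≤ 1 := hy.trans (kap_le_one hq (by linarith))
  have hr := hB.r2
  have hkey := A_div_le hq hq4
  have hkp := kap_pos hq4
  have hv1 : v ≤ 1 := hvA.trans (by rw [div_le_one h1q]; linarith)
  have hyl := abs_le.1 hy
  rcases Nat.lt_or_ge 2 r with h3 | h3
  · -- r ≥ 3
    rw [J_eq]
    have hA0 : 0 ≤ q / (1 - q) := by positivity
    have h1 := tail2 hq (by linarith) hA0 (tau y r B v) (n := r + 1) (by omega)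
      (fun j _ _ => (tau_abs_le_v hy1 hv j).trans hvA)
    have h2 := (abs_le.1 h1).2
    have e0 : tau y r B v 0 = T v (B 0) := by rw [tau, if_pos (by omega)]
    have e1 : tau y r B v 1 = T v (B 1) := by rw [tau, if_pos (by omega)]
    rw [e0, e1] at h2
    have h4 : T v (B 0) ≤ v := T_le_left hv
    have h5 : T v (B 1) ≤ 0 := T_nonpos hv (hB.b1 (by omega))
    have h6 : q / (1 - q) * q ^ 3 / (1 - q) ≤ q ^ 3 * kap q := by
      have : q / (1 - q) * q ^ 3 / (1 - q) = q ^ 3 * (q / (1 - q) / (1 - q)) := by ring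
      rw [this]
      exact mul_le_mul_of_nonneg_left hkey (by positivity)
    have h7 : q ^ 2 * T v (B 1) ≤ 0 := mul_nonpos_of_nonneg_of_nonpos (by positivity) h5
    have h8 := mul_le_mul_of_nonneg_left h4 hq.le
    linarith
  · have hr2 : r = 2 := by omega
    subst hr2
    have hl := hB.last
    norm_num at hl
    unfold J
    rw [sr2, hl]
    simp only [Nat.reduceAdd]
    have h4 : T v (B 0) ≤ v := T_le_left hv
    have h5 : q ^ 2 * T v (q * y) - y * q ^ 3 * v ≤ q ^ 3 * kap q := by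
      rcases le_total 0 y with h | h
      · have h6 := (abs_le.1 (T_abs_le_right v (q * y))).2
        rw [abs_of_nonneg (mul_nonneg hq.le h)] at h6
        have h7 : q ^ 2 * T v (q * y) ≤ q ^ 2 * (q * y) :=
          mul_le_mul_of_nonneg_left h6 (by positivity)
        have h8 : 0 ≤ y * q ^ 3 * v := by positivity
        have h9 : q ^ 3 * y ≤ q ^ 3 * kap q := mul_le_mul_of_nonneg_left hyl.2 (by positivity)
        have h10 : q ^ 2 * (q * y) = q ^ 3 * y := by ring
        linarith
      · have h6 : T v (q * y) ≤ 0 := T_nonpos hv (mul_nonpos_of_nonneg_of_nonpos hq.le h)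
        have h7 : q ^ 2 * T v (q * y) ≤ 0 :=
          mul_nonpos_of_nonneg_of_nonpos (by positivity) h6
        have h8 : (-y) * v ≤ kap q := by nlinarith
        have h9 : q ^ 3 * ((-y) * v) ≤ q ^ 3 * kap q := mul_le_mul_of_nonneg_left h8 (by positivity)
        have h10 : q ^ 3 * ((-y) * v) = - (y * q ^ 3 * v) := by ring
        linarith
    have h11 := mul_le_mul_of_nonneg_left h4 hq.le
    linarith

lemma J_abs (hq : 0 < q) (hq4 : q ≤ 1 / 4) (hy : |y| ≤ kap q) (hB : SufOK q y r B)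
    (hvA : |v| ≤ q / (1 - q)) : |J q y r B v| ≤ q * (q / (1 - q)) + q ^ 3 * kap q := by
  rcases le_total 0 v with h | h
  · rw [abs_of_nonneg h] at hvA
    rw [abs_of_nonneg (J_nonneg hq hq4 hy hB h hvA)]
    have := J_le hq hq4 hy hB h hvA
    nlinarith [mul_le_mul_of_nonneg_left hvA hq.le]
  · rw [abs_of_nonpos h] at hvA
    have h' : 0 ≤ -v := by linarith
    have h1 : J q y r B v = - J q y r B (-v) := by rw [← J_neg, neg_neg]
    rw [h1, abs_neg, abs_of_nonneg (J_nonneg hq hq4 hy hB h' hvA)]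
    have := J_le hq hq4 hy hB h' hvA
    nlinarith [mul_le_mul_of_nonneg_left hvA hq.le]

/-- the first row -/
lemma J_row0 (hq : 0 < q) (hq4 : q ≤ 1 / 4) (hy : |y| ≤ kap q) (hB : SufOK q y r B)
    (hvc : q * kap q ≤ v) (hvA : v ≤ q / (1 - q)) :
    - (q ^ 2 * v) - q ^ 3 * (q * kap q) - q ^ 4 * (q / (1 - q)) / (1 - q)
      ≤ J q y r B v - q * T v (B 0) := by
  have h1q : 0 < 1 - q := by linarith
  have hy1 : |y| ≤ 1 := hy.trans (kap_le_one hq (by linarith))
  have hr := hB.r2
  have hkp := kap_pos hq4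
  have hv : 0 ≤ v := by nlinarith
  have hv1 : v ≤ 1 := hvA.trans (by rw [div_le_one h1q]; linarith)
  have hyl := abs_le.1 hy
  have hA0 : 0 ≤ q / (1 - q) := by positivity
  have hA1 : 0 ≤ q ^ 4 * (q / (1 - q)) / (1 - q) := by positivity
  -- the last two terms together
  have hpair : -(kap q) * q ≤ T v (q * y) - q * y * v := by
    rcases le_total 0 y with h | h
    · have h1 : q * y ≤ v := (mul_le_mul_of_nonneg_left hyl.2 hq.le).trans hvc
      rw [T_of_ge (mul_nonneg hq.le h) h1]
      have : 0 ≤ q * y * (1 - v) := mul_nonneg (mul_nonneg hq.le h) (by linarith)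
      nlinarith
    · have h6 := (abs_le.1 (T_abs_le_right v (q * y))).1
      rw [abs_of_nonpos (mul_nonpos_of_nonneg_of_nonpos hq.le h)] at h6
      have h7 : 0 ≤ - (q * y * v) := by
        have : 0 ≤ q * (-y) * v := mul_nonneg (mul_nonneg hq.le (by linarith)) hv
        linarith
      have h8 : q * (-y) ≤ q * kap q := mul_le_mul_of_nonneg_left (by linarith) hq.le
      linarith
  rcases Nat.lt_or_ge 3 r with h4 | h4
  · -- r ≥ 4
    rw [J_eq]
    have h1 := tail3 hq (by linarith) hA0 (tau y r B v) (n := r + 1) (by omega)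
      (fun j _ _ => (tau_abs_le_v hy1 hv j).trans hvA)
    have h2 := (abs_le.1 h1).1
    have e0 : tau y r B v 0 = T v (B 0) := by rw [tau, if_pos (by omega)]
    have e1 : tau y r B v 1 = T v (B 1) := by rw [tau, if_pos (by omega)]
    have e2 : tau y r B v 2 = T v (B 2) := by rw [tau, if_pos (by omega)]
    rw [e0, e1, e2] at h2
    have h5 : - v ≤ T v (B 1) := by
      have := (abs_le.1 (T_abs_le_left v (B 1))).1
      rwa [abs_of_nonneg hv] at this
    have h6 : 0 ≤ T v (B 2) := T_nonneg hv (hB.b2 (by omega))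
    have h7 : q ^ 2 * (-v) ≤ q ^ 2 * T v (B 1) := mul_le_mul_of_nonneg_left h5 (by positivity)
    have h8 : 0 ≤ q ^ 3 * T v (B 2) := by positivity
    have h9 : q / (1 - q) * q ^ 4 / (1 - q) = q ^ 4 * (q / (1 - q)) / (1 - q) := by ring
    have h10 : 0 ≤ q ^ 3 * (q * kap q) := by positivity
    have h11 : q ^ 2 * (-v) = - (q ^ 2 * v) := by ring
    rw [h9] at h2
    linarith
  · rcases Nat.lt_or_ge 2 r with h3 | h3
    · have hr3 : r = 3 := by omega
      subst hr3
      have hl := hB.last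
      norm_num at hl
      unfold J
      rw [sr3, hl]
      have h5 : - v ≤ T v (B 1) := by
        have := (abs_le.1 (T_abs_le_left v (B 1))).1
        rwa [abs_of_nonneg hv] at this
      have h7 : q ^ 2 * (-v) ≤ q ^ 2 * T v (B 1) :=
        mul_le_mul_of_nonneg_left h5 (by positivity)
      have h8 : q ^ 3 * (-(kap q) * q) ≤ q ^ 3 * (T v (q * y) - q * y * v) :=
        mul_le_mul_of_nonneg_left hpair (by positivity)
      have h9 : q ^ 3 * (T v (q * y) - q * y * v) = q ^ 3 * T v (q * y)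
        - y * q ^ 4 * v := by ring
      have h10 : q ^ 3 * (-(kap q) * q) = - (q ^ 3 * (q * kap q)) := by ring
      have h11 : q ^ 2 * (-v) = - (q ^ 2 * v) := by ring
      linarith
    · have hr2 : r = 2 := by omega
      subst hr2
      have hl := hB.last
      norm_num at hl
      unfold J
      rw [sr2, hl]
      have h8 : q ^ 2 * (-(kap q) * q) ≤ q ^ 2 * (T v (q * y) - q * y * v) :=
        mul_le_mul_of_nonneg_left hpair (by positivity)
      have h9 : q ^ 2 * (q * kap q) ≤ q ^ 2 * v := mul_le_mul_of_nonneg_left hvc (by positivity)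
      have h10 : 0 ≤ q ^ 3 * (q * kap q) := by positivity
      have h12 : q ^ 2 * (T v (q * y) - q * y * v) = q ^ 2 * T v (q * y)
        - y * q ^ 3 * v := by ring
      have h13 : q ^ 2 * (-(kap q) * q) = - (q ^ 2 * (q * kap q)) := by ring
      linarith

/-- the `x`-row -/
lemma K_bounds (hq : 0 < q) (hq4 : q ≤ 1 / 4) (hy : |y| ≤ kap q) (hB : SufOK q y r B) :
    0 ≤ ∑ j ∈ range r, q ^ (j + 1) * B j ∧
      ∑ j ∈ range r, q ^ (j + 1) * B j ≤ q * (q / (1 - q)) + q ^ 3 * kap q := by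
  have h1q : 0 < 1 - q := by linarith
  have hr := hB.r2
  have hkey := A_div_le hq hq4
  have hkp := kap_pos hq4
  have hA0 : 0 ≤ q / (1 - q) := by positivity
  have hb0 := hB.b0
  have hbd0 := (abs_le.1 (hB.bd 0 (by omega))).2
  constructor
  · have h1 := tail1 hq (by linarith) hA0 B (n := r) (by omega)
      (fun j _ hj => hB.bd j hj)
    have h2 := (abs_le.1 h1).1
    have h4 : q / (1 - q) * q ^ 2 / (1 - q) ≤ q * (q * kap q) := by
      have : q / (1 - q) * q ^ 2 / (1 - q) = q ^ 2 * (q / (1 - q) / (1 - q)) := by ring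
      rw [this]
      nlinarith [mul_le_mul_of_nonneg_left hkey (sq_nonneg q)]
    nlinarith [mul_le_mul_of_nonneg_left hb0 hq.le]
  · rcases Nat.lt_or_ge 2 r with h3 | h3
    · have h1 := tail2 hq (by linarith) hA0 B (n := r) (by omega)
        (fun j _ hj => hB.bd j hj)
      have h2 := (abs_le.1 h1).2
      have h6 : q / (1 - q) * q ^ 3 / (1 - q) ≤ q ^ 3 * kap q := by
        have : q / (1 - q) * q ^ 3 / (1 - q) = q ^ 3 * (q / (1 - q) / (1 - q)) := by ring
        rw [this]
        exact mul_le_mul_of_nonneg_left hkey (by positivity)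
      have h7 : q ^ 2 * B 1 ≤ 0 :=
        mul_nonpos_of_nonneg_of_nonpos (by positivity) (hB.b1 (by omega))
      have h8 := mul_le_mul_of_nonneg_left hbd0 hq.le
      linarith
    · have hr2 : r = 2 := by omega
      subst hr2
      have hl := hB.last
      norm_num at hl
      rw [sr2, hl]
      have h8 : q ^ 3 * y ≤ q ^ 3 * kap q :=
        mul_le_mul_of_nonneg_left (abs_le.1 hy).2 (by positivity)
      have h9 := mul_le_mul_of_nonneg_left hbd0 hq.le
      have h10 : q ^ 2 * (q * y) = q ^ 3 * y := by ring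
      linarith

end J

/-! ### the numerical inequalities -/

lemma num_t3 {q : ℝ} (hq : 0 < q) (hq4 : q ≤ 1 / 4) :
    0 < q * (q * kap q) - (q ^ 2 * (q * kap q)) - q ^ 3 * (q * kap q)
        - q ^ 4 * (q / (1 - q)) / (1 - q) - q * (q * (q / (1 - q)) + q ^ 3 * kap q)
        - q ^ 3 / (1 - q) * (q * (q / (1 - q)) + q ^ 3 * kap q) := by
  have h1q : 0 < 1 - q := by linarith
  have h : q * (q * kap q) - (q ^ 2 * (q * kap q)) - q ^ 3 * (q * kap q)
        - q ^ 4 * (q / (1 - q)) / (1 - q) - q * (q * (q / (1 - q)) + q ^ 3 * kap q)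
        - q ^ 3 / (1 - q) * (q * (q / (1 - q)) + q ^ 3 * kap q)
      = q ^ 2 / (1 - q) ^ 2 * ((1 - 4 * q) * (1 - q) + q ^ 3 * (2 - 5 * q + 2 * q ^ 2)) := by
    unfold kap
    field_simp
    ring
  rw [h]
  apply mul_pos (by positivity)
  have h2 : 0 ≤ (1 - 4 * q) * (1 - q) := mul_nonneg (by linarith) (by linarith)
  have h3 : 0 < q ^ 3 * (2 - 5 * q + 2 * q ^ 2) := by
    apply mul_pos (by positivity)
    nlinarith [sq_nonneg q]
  linarith

lemma num_t2 {q : ℝ} (hq : 0 < q) (hq4 : q ≤ 1 / 4) :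
    0 < q * (q * kap q) - (q ^ 2 * (q * kap q)) - q ^ 3 * (q * kap q)
        - q ^ 4 * (q / (1 - q)) / (1 - q) - q * (q * (q / (1 - q)) + q ^ 3 * kap q)
        - q ^ 2 * (q * (q * kap q) + q ^ 3 * kap q) := by
  have h1q : 0 < 1 - q := by linarith
  have h : q * (q * kap q) - (q ^ 2 * (q * kap q)) - q ^ 3 * (q * kap q)
        - q ^ 4 * (q / (1 - q)) / (1 - q) - q * (q * (q / (1 - q)) + q ^ 3 * kap q)
        - q ^ 2 * (q * (q * kap q) + q ^ 3 * kap q)
      = q ^ 2 / (1 - q) ^ 2 * ((1 - 4 * q) * (1 - q - q ^ 2) + q ^ 3 * (1 - 3 * q - 2 * q ^ 2)) := by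
    unfold kap
    field_simp
    ring
  rw [h]
  apply mul_pos (by positivity)
  have h2 : 0 ≤ (1 - 4 * q) * (1 - q - q ^ 2) := mul_nonneg (by linarith) (by nlinarith)
  have h3 : 0 < q ^ 3 * (1 - 3 * q - 2 * q ^ 2) := by
    apply mul_pos (by positivity)
    nlinarith [sq_nonneg q]
  linarith

/-! ### comparison of `F` -/

section gain
variable {q x y : ℝ} {m : ℕ} {e : Rel} {t : ℕ}

/-- the flipped array -/
noncomputable def fl (q x y : ℝ) (m t : ℕ) (e : Rel) : Rel :=
  cat (t + 1) e (compl (shift (t + 1) e))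
    (xopt (av q x e) (fun j => - bv q y (m - (t + 1)) (shift (t + 1) e) j))

lemma fl_left {i j : ℕ} (hj : j ≤ t) : fl q x y m t e i j = e i j := by
  unfold fl cat
  rw [if_pos (by omega)]

lemma fl_right {i j : ℕ} (hi : t + 1 ≤ i) (hij : i < j) : fl q x y m t e i j = !(e i j) := by
  unfold fl cat compl shift
  rw [if_neg (by omega), if_neg (by omega)]
  congr 2 <;> omega

/-- the gain of the suffix flip, exact formula -/
lemma gain_eq {p r : ℕ} :
    F q (p + r) x (-y) (cat p e (compl (shift p e)) (xopt (av q x e)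
        (fun j => - bv q y r (shift p e) j))) - F q (p + r) x y e
      = ∑ i ∈ range p, ∑ j ∈ range r, q ^ (p + j - i) *
          (|av q x e i + bv q y r (shift p e) j|
            - sg (e i (p + j)) * (av q x e i - bv q y r (shift p e) j))
        - 2 * y * ∑ i ∈ range p, q ^ (p + r - i) * av q x e i
        - 2 * x * ∑ j ∈ range r, q ^ (p + j + 1) * bv q y r (shift p e) j := by
  have h1 : F q (p + r) x y e = F q (p + r) x y (cat p e (shift p e) (fun i j => e i (p + j))) :=
    (F_congr (cat_self p (p + r) e)).symm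
  rw [h1, F_cat, F_cat]
  have h2 : F q r 0 (-y) (compl (shift p e)) = F q r 0 y (shift p e) := by
    have := F_compl q r 0 y (shift p e)
    rwa [neg_zero] at this
  rw [h2]
  simp only [bv_compl]
  have h3 : ∑ i ∈ range p, ∑ j ∈ range r, q ^ (p + j - i) *
      sg (xopt (av q x e) (fun j => - bv q y r (shift p e) j) i j) *
      (av q x e i - - bv q y r (shift p e) j)
      = ∑ i ∈ range p, ∑ j ∈ range r, q ^ (p + j - i) *
        |av q x e i + bv q y r (shift p e) j| := by
    refine sum_congr rfl fun i _ => sum_congr rfl fun j _ => ?_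
    rw [mul_assoc, sg_xopt (av q x e) (fun j => - bv q y r (shift p e) j) i j, sub_neg_eq_add]
  rw [h3]
  have h4 : ∑ i ∈ range p, ∑ j ∈ range r, q ^ (p + j - i) *
          (|av q x e i + bv q y r (shift p e) j|
            - sg (e i (p + j)) * (av q x e i - bv q y r (shift p e) j))
      = ∑ i ∈ range p, ∑ j ∈ range r, q ^ (p + j - i) *
        |av q x e i + bv q y r (shift p e) j|
        - ∑ i ∈ range p, ∑ j ∈ range r, q ^ (p + j - i) * sg (e i (p + j)) *
          (av q x e i - bv q y r (shift p e) j) := by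
    rw [← sum_sub_distrib]
    refine sum_congr rfl fun i _ => ?_
    rw [← sum_sub_distrib]
    refine sum_congr rfl fun j _ => by ring
  rw [h4]
  simp only [mul_neg, sum_neg_distrib]
  ring

/-- lower bound of the gain by rows -/
lemma gain_ge (hq : 0 < q) {r : ℕ} (hr : 1 ≤ r)
    (hX : e t (t + 1) = false) (hA : 0 ≤ av q x e t)
    (hB : 0 ≤ bv q y r (shift (t + 1) e) 0) :
    2 * (∑ i ∈ range (t + 1), q ^ (t - i) * J q y r (bv q y r (shift (t + 1) e)) (av q x e i)
      + q * (av q x e t - T (av q x e t) (bv q y r (shift (t + 1) e) 0))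
      - x * (q ^ (t + 1) * ∑ j ∈ range r, q ^ (j + 1) * bv q y r (shift (t + 1) e) j))
    ≤ F q (t + 1 + r) x (-y) (cat (t + 1) e (compl (shift (t + 1) e)) (xopt (av q x e)
        (fun j => - bv q y r (shift (t + 1) e) j))) - F q (t + 1 + r) x y e := by
  rw [gain_eq]
  set A := av q x e with hAdef
  set B := bv q y r (shift (t + 1) e) with hBdef
  -- rows
  have hrow : ∀ i ∈ range (t + 1), q ^ (t - i) * (∑ j ∈ range r, q ^ (j + 1) * (2 * T (A i) (B j)))
      + (if i = t then q * (2 * (A t - T (A t) (B 0))) else 0)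
      ≤ ∑ j ∈ range r, q ^ (t + 1 + j - i) *
          (|A i + B j| - sg (e i (t + 1 + j)) * (A i - B j)) := by
    intro i hi
    have hi' : i ≤ t := by have := mem_range.1 hi; omega
    have hpow : ∀ j, q ^ (t + 1 + j - i) = q ^ (t - i) * q ^ (j + 1) := by
      intro j
      rw [← pow_add]; congr 1; omega
    have hterm : ∀ j, 2 * T (A i) (B j) ≤ |A i + B j| - sg (e i (t + 1 + j)) * (A i - B j) := by
      intro j
      have := sg_mul_le_abs (e i (t + 1 + j)) (A i - B j)
      unfold T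
      linarith
    rw [mul_sum]
    by_cases hit : i = t
    · subst hit
      rw [if_pos rfl]
      have h0 : 0 ∈ range r := mem_range.2 (by omega)
      rw [← Finset.add_sum_erase _ _ h0,
        ← Finset.add_sum_erase (a := 0) _ (fun j => q ^ (i + 1 + j - i) *
          (|A i + B j| - sg (e i (i + 1 + j)) * (A i - B j))) h0]
      have h1 : ∑ j ∈ (range r).erase 0, q ^ (i - i) * (q ^ (j + 1) * (2 * T (A i) (B j)))
          ≤ ∑ j ∈ (range r).erase 0, q ^ (i + 1 + j - i) *
          (|A i + B j| - sg (e i (i + 1 + j)) * (A i - B j)) := by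
        refine sum_le_sum fun j _ => ?_
        rw [hpow, mul_assoc]
        gcongr
        exact hterm j
      have h2 : q ^ (i + 1 + 0 - i) * (|A i + B 0| - sg (e i (i + 1 + 0)) * (A i - B 0))
          = q * (2 * A i) := by
        have e1 : i + 1 + 0 - i = 1 := by omega
        have e2 : i + 1 + 0 = i + 1 := by omega
        rw [e1, pow_one, e2, hX, sg_false, abs_of_nonneg (by linarith)]
        ring
      rw [h2]
      simp only [Nat.sub_self, pow_zero, one_mul, zero_add, pow_one] at h1 ⊢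
      linarith
    · rw [if_neg hit, add_zero]
      refine sum_le_sum fun j _ => ?_
      rw [hpow, mul_assoc]
      gcongr
      exact hterm j
  have hsum := sum_le_sum hrow
  rw [sum_add_distrib, sum_ite_eq' (range (t + 1)) t, if_pos (mem_range.2 (by omega))] at hsum
  -- the `y` terms
  have hy : ∑ i ∈ range (t + 1), q ^ (t - i) * J q y r B (A i)
      = ∑ i ∈ range (t + 1), q ^ (t - i) * (∑ j ∈ range r, q ^ (j + 1) * T (A i) (B j))
        - y * ∑ i ∈ range (t + 1), q ^ (t + 1 + r - i) * A i := by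
    rw [mul_sum, ← sum_sub_distrib]
    refine sum_congr rfl fun i hi => ?_
    have hi' : i ≤ t := by have := mem_range.1 hi; omega
    have : q ^ (t + 1 + r - i) = q ^ (t - i) * q ^ (r + 1) := by
      rw [← pow_add]; congr 1; omega
    rw [this]
    unfold J
    ring
  have h2 : ∑ i ∈ range (t + 1), q ^ (t - i) * (∑ j ∈ range r, q ^ (j + 1) * (2 * T (A i) (B j)))
      = 2 * ∑ i ∈ range (t + 1), q ^ (t - i) * (∑ j ∈ range r, q ^ (j + 1) * T (A i) (B j)) := by
    rw [mul_sum]
    refine sum_congr rfl fun i _ => ?_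
    rw [mul_sum, mul_sum, mul_sum]
    refine sum_congr rfl fun j _ => by ring
  have h3 : ∑ j ∈ range r, q ^ (t + 1 + j + 1) * B j
      = q ^ (t + 1) * ∑ j ∈ range r, q ^ (j + 1) * B j := by
    rw [mul_sum]
    refine sum_congr rfl fun j _ => ?_
    rw [add_assoc, pow_add]; ring
  rw [h2] at hsum
  rw [hy, h3]
  linarith

lemma sufOK (hq : 0 < q) (hq4 : q ≤ 1 / 4) (hy : |y| ≤ kap q) (htm : t + 2 < m)
    (hX : e t (t + 1) = false)
    (h3 : ∀ j, t + 1 ≤ j → j + 1 < m → e j (j + 1) ≠ e (j - 1) j) :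
    SufOK q y (m - (t + 1)) (bv q y (m - (t + 1)) (shift (t + 1) e)) := by
  have hy1 : |y| ≤ 1 := hy.trans (kap_le_one hq (by linarith))
  have e1 : e (t + 1) (t + 2) = true := by
    have h := h3 (t + 1) (by omega) (by omega)
    rw [show t + 1 - 1 = t by omega, hX] at h
    simpa using h
  refine ⟨by omega, ?_, ?_, ?_, ?_, ?_⟩
  · intro j hj
    exact abs_bv_le hq (by linarith) hy1 hj
  · exact bv_last (by omega)
  · apply le_of_lt
    apply bv_pos hq (by linarith) hy (by omega)
    exact e1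
  · intro hr
    have e2 : e (t + 2) (t + 3) = false := by
      have h := h3 (t + 2) (by omega) (by omega)
      rw [show t + 2 - 1 = t + 1 by omega, e1] at h
      simpa using h
    have h := bv_neg (e := shift (t + 1) e) (t := 1) (m := m - (t + 1)) hq (by linarith) hy
      (by omega) e2
    have := kap_pos hq4
    have : 0 < q * kap q := by positivity
    linarith
  · intro hr
    have e2 : e (t + 2) (t + 3) = false := by
      have h := h3 (t + 2) (by omega) (by omega)
      rw [show t + 2 - 1 = t + 1 by omega, e1] at h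
      simpa using h
    have e3 : e (t + 3) (t + 4) = true := by
      have h := h3 (t + 3) (by omega) (by omega)
      rw [show t + 3 - 1 = t + 2 by omega, e2] at h
      simpa using h
    have h := bv_pos (e := shift (t + 1) e) (t := 2) (m := m - (t + 1)) hq (by linarith) hy
      (by omega) e3
    have := kap_pos hq4
    have : 0 < q * kap q := by positivity
    linarith

/-- the last two rows for `t = 2` -/
lemma case_t2 {r : ℕ} {B : ℕ → ℝ} (hq : 0 < q) (hq4 : q ≤ 1 / 4) (hx : |x| ≤ kap q)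
    (hy : |y| ≤ kap q) (hS : SufOK q y r B) (hA : |q * x| ≤ q / (1 - q)) :
    - (q ^ 2 * (q * (q * kap q) + q ^ 3 * kap q)) ≤
      q ^ 2 * J q y r B (q * x) - x * (q ^ 3 * ∑ j ∈ range r, q ^ (j + 1) * B j) := by
  have h1q : 0 < 1 - q := by linarith
  have hkp := kap_pos hq4
  have hkp1 := kap_le_one hq (by linarith : q < 1)
  have hA1 : q / (1 - q) ≤ 1 / 3 := by rw [div_le_iff₀ h1q]; linarith
  have hA0 : 0 ≤ q / (1 - q) := by positivity
  have hK := K_bounds hq hq4 hy hS
  obtain ⟨C, hC⟩ : ∃ C, C = q * (q / (1 - q)) + q ^ 3 * kap q := ⟨_, rfl⟩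
  obtain ⟨KK, hKK⟩ : ∃ KK, KK = ∑ j ∈ range r, q ^ (j + 1) * B j := ⟨_, rfl⟩
  rw [← hKK, ← hC] at hK
  rw [← hKK]
  have hxl := abs_le.1 hx
  rcases le_total 0 x with h | h
  · have hJ : 0 ≤ J q y r B (q * x) :=
      J_nonneg hq hq4 hy hS (mul_nonneg hq.le h) (by
        rwa [abs_of_nonneg (mul_nonneg hq.le h)] at hA)
    have h5 : x * (q ^ 3 * KK) ≤ kap q * (q ^ 3 * C) := by
      have : q ^ 3 * KK ≤ q ^ 3 * C := mul_le_mul_of_nonneg_left hK.2 (by positivity)
      exact mul_le_mul hxl.2 this (mul_nonneg (by positivity) hK.1) hkp.le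
    have h6 : kap q * (q ^ 3 * C) ≤ q ^ 2 * (q * (q * kap q) + q ^ 3 * kap q) := by
      rw [hC]
      have h7 : q ^ 4 * kap q * (q / (1 - q)) ≤ q ^ 4 * kap q * 1 := by
        gcongr; linarith
      have h8 : q ^ 5 * kap q * (q * kap q) ≤ q ^ 5 * kap q * 1 := by
        gcongr; nlinarith
      have e1 : kap q * (q ^ 3 * (q * (q / (1 - q)) + q ^ 3 * kap q))
        = q ^ 4 * kap q * (q / (1 - q)) + q ^ 5 * kap q * (q * kap q) := by ring
      have e2 : q ^ 2 * (q * (q * kap q) + q ^ 3 * kap q)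
        = q ^ 4 * kap q * 1 + q ^ 5 * kap q * 1 := by ring
      rw [e1, e2]
      exact add_le_add h7 h8
    have h9 : 0 ≤ q ^ 2 * J q y r B (q * x) := by positivity
    linarith
  · have h' : 0 ≤ q * (-x) := mul_nonneg hq.le (by linarith)
    have e4 : J q y r B (q * x) = - J q y r B (q * (-x)) := by
      rw [← J_neg]; congr 1; ring
    have hJ := J_le hq hq4 hy hS h' (by
        rw [← abs_neg, abs_of_nonneg (by linarith)] at hA
        linarith)
    have h5 : q * (q * (-x)) ≤ q * (q * kap q) :=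
      mul_le_mul_of_nonneg_left (mul_le_mul_of_nonneg_left (by linarith) hq.le) hq.le
    have h6 : q ^ 2 * J q y r B (q * (-x)) ≤ q ^ 2 * (q * (q * kap q) + q ^ 3 * kap q) :=
      mul_le_mul_of_nonneg_left (by linarith) (by positivity)
    have h7 : 0 ≤ (-x) * (q ^ 3 * KK) :=
      mul_nonneg (by linarith) (mul_nonneg (by positivity) hK.1)
    rw [e4]
    linarith

/-- the rows from the third on, and the `x`-row, for `t = s + 2 ≥ 3` -/
lemma case_t3 {r s : ℕ} {B A : ℕ → ℝ} (hq : 0 < q) (hq4 : q ≤ 1 / 4) (hx1 : |x| ≤ 1)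
    (hy : |y| ≤ kap q) (hS : SufOK q y r B) (hA : ∀ i < s, |A i| ≤ q / (1 - q)) :
    - (q ^ 3 / (1 - q) * (q * (q / (1 - q)) + q ^ 3 * kap q)) ≤
      ∑ i ∈ range s, q ^ (s + 2 - i) * J q y r B (A i)
        - x * (q ^ (s + 2 + 1) * ∑ j ∈ range r, q ^ (j + 1) * B j) := by
  have h1q : 0 < 1 - q := by linarith
  have hkp := kap_pos hq4
  have hA0 : 0 ≤ q / (1 - q) := by positivity
  have hK := K_bounds hq hq4 hy hS
  have hJabs := fun i (hi : i < s) => J_abs hq hq4 hy hS (hA i hi)
  obtain ⟨C, hC⟩ : ∃ C, C = q * (q / (1 - q)) + q ^ 3 * kap q := ⟨_, rfl⟩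
  obtain ⟨KK, hKK⟩ : ∃ KK, KK = ∑ j ∈ range r, q ^ (j + 1) * B j := ⟨_, rfl⟩
  have hC0 : 0 ≤ C := by rw [hC]; positivity
  rw [← hKK, ← hC] at hK
  rw [← hKK, ← hC]
  rw [← hC] at hJabs
  have hrest : - (C * (q ^ 2 * ((q - q ^ (s + 1)) / (1 - q)))) ≤
      ∑ i ∈ range s, q ^ (s + 2 - i) * J q y r B (A i) := by
    rw [← sum_pow_sub_eq (by linarith : q < 1) s, mul_sum, mul_sum, ← sum_neg_distrib]
    refine sum_le_sum fun i hi => ?_
    have hi' := mem_range.1 hi
    have e7 : q ^ (s + 2 - i) = q ^ 2 * q ^ (s - i) := by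
      rw [← pow_add]; congr 1; omega
    have hJi := (abs_le.1 (hJabs i hi')).1
    have := mul_le_mul_of_nonneg_left hJi (by positivity : 0 ≤ q ^ 2 * q ^ (s - i))
    rw [e7]
    linarith
  have hxrow : - (C * q ^ (s + 2 + 1)) ≤ - (x * (q ^ (s + 2 + 1) * KK)) := by
    have hxl := abs_le.1 hx1
    have h5 : q ^ (s + 2 + 1) * KK ≤ q ^ (s + 2 + 1) * C :=
      mul_le_mul_of_nonneg_left hK.2 (by positivity)
    have h6 : 0 ≤ q ^ (s + 2 + 1) * KK := mul_nonneg (by positivity) hK.1
    nlinarith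
  have hgeo : C * (q ^ 2 * ((q - q ^ (s + 1)) / (1 - q))) + C * q ^ (s + 2 + 1)
      ≤ q ^ 3 / (1 - q) * C := by
    have h5 : q ^ 2 * ((q - q ^ (s + 1)) / (1 - q)) + q ^ (s + 2 + 1)
        ≤ q ^ 3 / (1 - q) := by
      have h6 : q ^ 2 * ((q - q ^ (s + 1)) / (1 - q)) + q ^ (s + 2 + 1)
        = q ^ 3 / (1 - q) - q ^ (s + 4) / (1 - q) := by
        field_simp; ring
      rw [h6]
      have : 0 ≤ q ^ (s + 4) / (1 - q) := by positivity
      linarith
    have := mul_le_mul_of_nonneg_left h5 hC0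
    linarith
  linarith

lemma flip_gain_U (hq : 0 < q) (hq4 : q ≤ 1 / 4) (hx : |x| ≤ kap q) (hy : |y| ≤ kap q)
    (ht : 2 ≤ t) (htm : t + 2 < m)
    (h0 : e (t - 1) t = false) (hX : e t (t + 1) = false) (h1 : e (t - 2) (t - 1) = true)
    (h2 : 3 ≤ t → e (t - 3) (t - 2) = false)
    (h3 : ∀ j, t + 1 ≤ j → j + 1 < m → e j (j + 1) ≠ e (j - 1) j) :
    F q m x y e < F q m x (-y) (fl q x y m t e) ∧
      fl q x y m t e t (t + 1) = !(e t (t + 1)) := by
  have h1q : 0 < 1 - q := by linarith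
  have hkp := kap_pos hq4
  have hkp1 := kap_le_one hq (by linarith : q < 1)
  have hx1 : |x| ≤ 1 := hx.trans hkp1
  have hA0 : 0 ≤ q / (1 - q) := by positivity
  have hc0 : 0 < q * kap q := by positivity
  have hS := sufOK (e := e) hq hq4 hy htm hX h3
  obtain ⟨r, hr⟩ : ∃ r, m = t + 1 + r := ⟨m - (t + 1), by omega⟩
  have hmr : m - (t + 1) = r := by omega
  rw [hmr] at hS
  obtain ⟨s, rfl⟩ : ∃ s, t = s + 2 := ⟨t - 2, by omega⟩
  have hAt := av_pos (e := e) hq (by linarith) hx (by omega : 1 ≤ s + 2) h0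
  have hAt1 := av_neg (e := e) (t := s + 1) hq (by linarith) hx (by omega) (by
    have : s + 2 - 2 = s + 1 - 1 := by omega
    rw [this] at h1
    exact h1)
  have hAA := fun i => abs_av_le (q := q) (x := x) (e := e) (t := i) hq (by linarith) hx1
  have hB0 := hS.b0
  constructor
  · have hgain := gain_ge (x := x) (y := y) (e := e) hq (r := r) (by have := hS.r2; omega) hX
      (by linarith) (by linarith)
    have hfl : fl q x y m (s + 2) e = cat (s + 2 + 1) e (compl (shift (s + 2 + 1) e))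
        (xopt (av q x e) (fun j => - bv q y r (shift (s + 2 + 1) e) j)) := by
      unfold fl; rw [hmr]
    rw [hfl, hr]
    -- abstract
    obtain ⟨B, hB⟩ : ∃ B, B = bv q y r (shift (s + 2 + 1) e) := ⟨_, rfl⟩
    rw [← hB] at hgain hS hB0 ⊢
    have hrow0 := J_row0 hq hq4 hy hS hAt.le (abs_le.1 (hAA (s + 2))).2
    have hrow1 := (abs_le.1 (J_abs hq hq4 hy hS (hAA (s + 1)))).1
    have hrow1' := mul_le_mul_of_nonneg_left hrow1 hq.le
    have hrow0' : 0 ≤ (q - q ^ 2) * (av q x e (s + 2) - q * kap q) :=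
      mul_nonneg (by nlinarith) (by linarith)
    rw [sum_range_succ, sum_range_succ, sum_range_succ] at hgain
    have p0 : s + 2 - (s + 2) = 0 := by omega
    have p1 : s + 2 - (s + 1) = 1 := by omega
    have p2 : s + 2 - s = 2 := by omega
    rw [p0, p1, p2, pow_zero, one_mul, pow_one] at hgain
    rcases Nat.eq_zero_or_pos s with hs | hs
    · subst hs
      have hn := num_t2 hq hq4
      have hA00 : av q x e 0 = q * x := av_zero
      have hAA0 := hAA 0
      rw [hA00] at hgain hAA0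
      have hmain := case_t2 hq hq4 hx hy hS hAA0
      rw [range_zero, sum_empty, zero_add] at hgain
      have e3 : q ^ (0 + 2 + 1) = q ^ 3 := rfl
      rw [e3] at hgain
      linarith
    · have hn := num_t3 hq hq4
      have hAs := av_pos (e := e) (t := s) hq (by linarith) hx hs (by
        have h := h2 (by omega)
        have e5 : s + 2 - 3 = s - 1 := by omega
        have e6 : s + 2 - 2 = s := by omega
        rw [e5, e6] at h
        exact h)
      have hJs : 0 ≤ J q y r B (av q x e s) :=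
        J_nonneg hq hq4 hy hS (by linarith) (abs_le.1 (hAA s)).2
      have hJs' : 0 ≤ q ^ 2 * J q y r B (av q x e s) := by positivity
      have hmain := case_t3 (s := s) (A := av q x e) hq hq4 hx1 hy hS (fun i _ => hAA i)
      linarith
  · rw [hX]
    unfold fl cat
    rw [if_neg (by omega), if_pos (by omega)]
    unfold xopt
    rw [hmr]
    have e8 : s + 2 + 1 - (s + 2 + 1) = 0 := by omega
    rw [e8]
    simp only [Bool.not_false, decide_eq_true_eq]
    linarith

end gain

end FLAux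

section FL
variable {q x y : ℝ} {m : ℕ} {e : Rel} {t : ℕ}

open FLAux in
/-- slope at `t`, `t-1` is no slope, `t-2` is no slope (if `3 ≤ t`), the suffix after `t`
alternates: flipping the suffix together with the right field is a strict gain.
(The statement of Skel asks the two last properties without `i < j`, which is contradictory.) -/
theorem flip_gain (hq : 0 < q) (hq4 : q ≤ 1 / 4) (hx : |x| ≤ kap q) (hy : |y| ≤ kap q)
    (ht : 2 ≤ t) (htm : t + 2 < m)
    (h0 : e (t - 1) t = e t (t + 1)) (h1 : e (t - 2) (t - 1) ≠ e (t - 1) t)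
    (h2 : 3 ≤ t → e (t - 3) (t - 2) ≠ e (t - 2) (t - 1))
    (h3 : ∀ j, t + 1 ≤ j → j + 1 < m → e j (j + 1) ≠ e (j - 1) j) :
    ∃ e' : Rel, F q m x y e < F q m x (-y) e' ∧
      (∀ i j, i < j → j ≤ t → e' i j = e i j) ∧
      (∀ i j, i < j → t + 1 ≤ i → e' i j = !(e i j)) ∧
      e' t (t + 1) = !(e t (t + 1)) := by
  rcases hX : e t (t + 1) with _ | _
  · -- U slope
    rw [hX] at h0
    have h1' : e (t - 2) (t - 1) = true := by rw [h0] at h1; simpa using h1
    have hg := flip_gain_U hq hq4 hx hy ht htm h0 hX h1'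
      (fun h => by have := h2 h; rw [h1'] at this; simpa using this) h3
    refine ⟨fl q x y m t e, hg.1, fun i j _ hj => fl_left hj, fun i j hij hi => fl_right hi hij, ?_⟩
    rw [hg.2, hX]
  · rw [hX] at h0
    have h1' : e (t - 2) (t - 1) = false := by rw [h0] at h1; simpa using h1
    have hg := flip_gain_U (e := compl e) (x := -x) (y := -y) hq hq4 (by rwa [abs_neg])
      (by rwa [abs_neg]) ht htm (by simp [compl, h0]) (by simp [compl, hX]) (by simp [compl, h1'])
      (fun h => by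
        have := h2 h
        rw [h1'] at this
        simp only [compl]
        simpa using this)
      (fun j hj1 hj2 => by
        have := h3 j hj1 hj2
        simp only [compl]
        intro hh
        apply this
        simpa using hh)
    refine ⟨compl (fl q (-x) (-y) m t (compl e)), ?_, ?_, ?_, ?_⟩
    · have h5 := hg.1
      rw [F_compl] at h5
      have h6 := F_compl q m (-x) y (fl q (-x) (-y) m t (compl e))
      rw [neg_neg] at h5 h6
      rw [← h6] at h5
      exact h5
    · intro i j _ hj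
      change (!(fl q (-x) (-y) m t (compl e) i j)) = _
      rw [fl_left hj]
      simp [compl]
    · intro i j hij hi
      change (!(fl q (-x) (-y) m t (compl e) i j)) = _
      rw [fl_right hi hij]
      simp [compl]
    · simp only [compl]
      have h7 := hg.2
      simp only [compl] at h7
      rw [h7, hX]
      rfl

/-- first order facts at a maximiser -/
theorem FLAux.ends_and_adj (hq : 0 < q) (hq4 : q ≤ 1 / 4) (hx : |x| ≤ kap q) (hy : |y| ≤ kap q)
    (he : IsMax q m x y e) (ht : 1 ≤ t) (htm : t + 1 < m) (h0 : e (t - 1) t = e t (t + 1)) :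
    2 ≤ t ∧ t + 2 < m ∧ e (t + 1) (t + 2) ≠ e t (t + 1) := by
  have hc0 : 0 < q * kap q := mul_pos hq (kap_pos hq4)
  have hat := av_lt (e := e) (t := t) hq (by linarith) hx ht
  have hbt := bv_lt (e := e) (t := t) hq (by linarith) hy htm
  rw [h0] at hat
  have h2 : 2 ≤ t := by
    by_contra hcon
    have : t = 1 := by omega
    subst this
    have hr := he.rule hq (i := 0) (j := 1) (by omega) (by omega)
    have ha0 := abs_av_zero_le (q := q) (e := e) hq hx
    have h01 : e 0 1 = e 1 2 := h0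
    rw [h01] at hr
    rcases sg_eq_or (e 1 2) with hs | hs
    · rw [hs] at hr hbt
      have := (abs_le.1 ha0).2
      linarith
    · rw [hs] at hr hbt
      have := (abs_le.1 ha0).1
      linarith
  have h3 : t + 2 < m := by
    by_contra hcon
    have hm : m = t + 2 := by omega
    subst hm
    have hr := he.rule hq (i := t) (j := t + 1) (by omega) (by omega)
    have hbl := abs_bv_last_le (q := q) (y := y) (m := t + 2) (e := e) hq hy (by omega)
    have : t + 2 - 1 = t + 1 := by omega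
    rw [this] at hbl
    rcases sg_eq_or (e t (t + 1)) with hs | hs
    · rw [hs] at hr hat
      have := (abs_le.1 hbl).1
      linarith
    · rw [hs] at hr hat
      have := (abs_le.1 hbl).2
      linarith
  refine ⟨h2, h3, fun hh => ?_⟩
  have hr := he.rule hq (i := t) (j := t + 1) (by omega) (by omega)
  have hb := bv_lt (e := e) (t := t + 1) hq (by linarith) hy (by omega : t + 1 + 1 < m)
  have : t + 1 + 1 = t + 2 := by omega
  rw [this, hh] at hb
  rcases sg_eq_or (e t (t + 1)) with hs | hs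
  · rw [hs] at hr hat hb
    linarith
  · rw [hs] at hr hat hb
    linarith

/-- two slopes at distance two -/
theorem FLAux.no_dist2 (hq : 0 < q) (hq4 : q ≤ 1 / 4) (hx : |x| ≤ kap q) (hy : |y| ≤ kap q)
    (he : IsMax q m x y e) {u : ℕ} (hu : 1 ≤ u) (hum : u + 3 < m)
    (h0 : e (u - 1) u = e u (u + 1)) (h1 : e (u + 1) (u + 2) ≠ e u (u + 1))
    (h2 : e (u + 2) (u + 3) = e (u + 1) (u + 2)) : False := by
  have h1q : 0 < 1 - q := by linarith
  have hx1 : |x| ≤ 1 := hx.trans (kap_le_one hq (by linarith))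
  have hy1 : |y| ≤ 1 := hy.trans (kap_le_one hq (by linarith))
  have hau := av_lt (e := e) (t := u) hq (by linarith) hx hu
  have hbu2 := bv_lt (e := e) (t := u + 2) hq (by linarith) hy (by omega : u + 2 + 1 < m)
  have ha1 := abs_av_le (q := q) (x := x) (e := e) (t := u + 1) hq (by linarith) hx1
  have hb1 := abs_bv_le (q := q) (y := y) (m := m) (e := e) (t := u + 1) hq (by linarith) hy1
    (by omega)
  have hs1 : sg (e (u + 1) (u + 2)) = - sg (e u (u + 1)) := sg_ne h1
  have e23 : u + 2 + 1 = u + 3 := by omega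
  rw [e23, h2, hs1] at hbu2
  rw [h0] at hau
  -- the double flip
  have hmax := he (flip (u + 1) (u + 2) (flip u (u + 1) e))
  rw [F_flip (by omega) (by omega), F_flip (by omega) (by omega)] at hmax
  have e1 : u + 2 - (u + 1) = 1 := by omega
  have e2 : u + 1 - u = 1 := by omega
  rw [e1, e2, pow_one] at hmax
  have e3 : flip u (u + 1) e (u + 1) (u + 2) = e (u + 1) (u + 2) := by
    unfold flip
    rw [if_neg (by omega)]
  have e4 : av q x (flip u (u + 1) e) (u + 1) = av q x e (u + 1) + 2 * q * sg (e u (u + 1)) := by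
    unfold av
    rw [sum_range_succ, sum_range_succ _ u]
    have h5 : ∑ i ∈ range u, q ^ (u + 1 - i) * sg (flip u (u + 1) e i (u + 1))
        = ∑ i ∈ range u, q ^ (u + 1 - i) * sg (e i (u + 1)) := by
      refine sum_congr rfl fun i hi => ?_
      have := mem_range.1 hi
      unfold flip
      rw [if_neg (by omega)]
    have h6 : flip u (u + 1) e u (u + 1) = !(e u (u + 1)) := by
      unfold flip
      rw [if_pos ⟨rfl, rfl⟩]
    rw [h5, h6, sg_not, e2, pow_one]
    ring
  have e5 : bv q y m (flip u (u + 1) e) (u + 2) = bv q y m e (u + 2) := by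
    unfold bv
    congr 1
    refine sum_congr rfl fun k _ => ?_
    unfold flip
    rw [if_neg (by omega)]
  rw [e3, e4, e5, hs1] at hmax
  have hss := sg_mul_self (e u (u + 1))
  have hnum : 0 < 2 * (q * kap q) - 2 * (q / (1 - q)) + 2 * q := by
    have : 2 * (q * kap q) - 2 * (q / (1 - q)) + 2 * q = 2 * q ^ 0 * (q * (1 - 3 * q) / (1 - q))
        - 0 := by
      unfold kap; field_simp; ring
    rw [this]
    have : 0 < q * (1 - 3 * q) / (1 - q) := by
      apply div_pos _ h1q
      apply mul_pos hq; linarith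
    simp only [pow_zero]
    linarith
  have hfin : 0 < - sg (e u (u + 1)) * av q x e u + sg (e u (u + 1)) * bv q y m e (u + 1)
      + sg (e u (u + 1)) * av q x e (u + 1) + 2 * q
      - sg (e u (u + 1)) * bv q y m e (u + 2) := by
    rcases sg_eq_or (e u (u + 1)) with hs | hs
    · rw [hs] at hau hbu2 ⊢
      have := (abs_le.1 ha1).1
      have := (abs_le.1 hb1).1
      linarith
    · rw [hs] at hau hbu2 ⊢
      have := (abs_le.1 ha1).2
      have := (abs_le.1 hb1).2
      linarith
  have hfin' := mul_pos (by linarith : 0 < 2 * q) hfin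
  have hid : F q m x y e - 2 * q * sg (e u (u + 1)) * (av q x e u - bv q y m e (u + 1)) -
      2 * q * -sg (e u (u + 1)) *
        (av q x e (u + 1) + 2 * q * sg (e u (u + 1)) - bv q y m e (u + 2))
      = F q m x y e + 2 * q *
      (-sg (e u (u + 1)) * av q x e u + sg (e u (u + 1)) * bv q y m e (u + 1)
        + sg (e u (u + 1)) * av q x e (u + 1) + 2 * q - sg (e u (u + 1)) * bv q y m e (u + 2))
      + 4 * q ^ 2 * (sg (e u (u + 1)) * sg (e u (u + 1)) - 1) := by ring
  rw [hid, hss] at hmax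
  linarith

/-- two slopes at distance `1` or `2` or next to an end are impossible at a maximiser -/
theorem no_adjacent (hq : 0 < q) (hq4 : q ≤ 1 / 4) (hx : |x| ≤ kap q) (hy : |y| ≤ kap q)
    (he : IsMax q m x y e) (ht : 1 ≤ t) (htm : t + 1 < m) (h0 : e (t - 1) t = e t (t + 1)) :
    2 ≤ t ∧ t + 2 < m ∧ e (t - 2) (t - 1) ≠ e (t - 1) t ∧ e (t + 1) (t + 2) ≠ e t (t + 1) ∧
      (3 ≤ t → e (t - 3) (t - 2) ≠ e (t - 2) (t - 1)) ∧
      (t + 3 < m → e (t + 2) (t + 3) ≠ e (t + 1) (t + 2)) := by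
  obtain ⟨h2, h3, h4⟩ := FLAux.ends_and_adj hq hq4 hx hy he ht htm h0
  have h5 : e (t - 2) (t - 1) ≠ e (t - 1) t := by
    intro hh
    have e1 : t - 1 - 1 = t - 2 := by omega
    have e2 : t - 1 + 1 = t := by omega
    have e3 : t - 1 + 2 = t + 1 := by omega
    have := (FLAux.ends_and_adj (t := t - 1) hq hq4 hx hy he (by omega) (by omega)
      (by rw [e1, e2]; exact hh)).2.2
    rw [e2, e3] at this
    exact this h0.symm
  refine ⟨h2, h3, h5, h4, ?_, ?_⟩
  · intro h6 hh
    have e1 : t - 2 - 1 = t - 3 := by omega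
    have e2 : t - 2 + 1 = t - 1 := by omega
    have e3 : t - 2 + 2 = t := by omega
    have e4 : t - 2 + 3 = t + 1 := by omega
    refine FLAux.no_dist2 (u := t - 2) hq hq4 hx hy he (by omega) (by omega) ?_ ?_ ?_
    · rw [e1, e2]; exact hh
    · rw [e2, e3]; exact h5.symm
    · rw [e2, e3, e4]; exact h0.symm
  · intro h6 hh
    exact FLAux.no_dist2 (u := t) hq hq4 hx hy he ht h6 h0 h4 hh

/-- two slopes are impossible, given the last slope `t2` and the last slope `t1` before it -/
theorem FLAux.no_two (hq : 0 < q) (hq4 : q ≤ 1 / 4) (hx : |x| ≤ kap q) (hy : |y| ≤ kap q)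
    (he : IsMax q m x y e) {t1 t2 : ℕ} (h12 : t1 < t2) (ht1 : 1 ≤ t1) (ht2m : t2 + 1 < m)
    (hs1 : e (t1 - 1) t1 = e t1 (t1 + 1)) (hs2 : e (t2 - 1) t2 = e t2 (t2 + 1))
    (hbet : ∀ j, t1 < j → j < t2 → e j (j + 1) ≠ e (j - 1) j)
    (haft : ∀ j, t2 < j → j + 1 < m → e j (j + 1) ≠ e (j - 1) j) : False := by
  obtain ⟨a2, a3, a4, a5, a6, a7⟩ := no_adjacent hq hq4 hx hy he (by omega) ht2m hs2
  obtain ⟨b2, b3, b4, b5, b6, b7⟩ := no_adjacent hq hq4 hx hy he ht1 (by omega) hs1
  obtain ⟨e', g1, g2, g3, g4⟩ := flip_gain hq hq4 hx hy a2 a3 hs2 a4 a6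
    (fun j hj hjm => haft j (by omega) hjm)
  have hne : ∀ b c : Bool, b ≠ c → (!b) ≠ (!c) := by decide
  obtain ⟨e'', k1, -, -, -⟩ := flip_gain (x := x) (y := -y) (e := e') (t := t1) (m := m)
    hq hq4 hx (by rwa [abs_neg]) b2 (by omega)
    (by rw [g2 _ _ (by omega) (by omega), g2 _ _ (by omega) (by omega)]; exact hs1)
    (by rw [g2 _ _ (by omega) (by omega), g2 _ _ (by omega) (by omega)]; exact b4)
    (fun h => by
      rw [g2 _ _ (by omega) (by omega), g2 _ _ (by omega) (by omega)]; exact b6 h)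
    (fun j hj hjm => by
      rcases lt_trichotomy j t2 with h | h | h
      · rw [g2 _ _ (by omega) (by omega), g2 _ _ (by omega) (by omega)]
        exact hbet j (by omega) h
      · subst h
        rw [g4, g2 _ _ (by omega) (by omega), hs2]
        cases e j (j + 1) <;> decide
      · rcases Nat.lt_or_ge j (t2 + 2) with h' | h'
        · have : j = t2 + 1 := by omega
          subst this
          have e1 : t2 + 1 - 1 = t2 := by omega
          rw [e1, g4, g3 _ _ (by omega) (by omega)]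
          have := haft (t2 + 1) (by omega) hjm
          rw [e1] at this
          exact hne _ _ this
        · rw [g3 _ _ (by omega) (by omega), g3 _ _ (by omega) (by omega)]
          exact hne _ _ (haft j h hjm))
  rw [neg_neg] at k1
  have := he e''
  linarith

/-- only one slope -/
theorem FLAux.unique_slope (hq : 0 < q) (hq4 : q ≤ 1 / 4) (hx : |x| ≤ kap q) (hy : |y| ≤ kap q)
    (he : IsMax q m x y e) {t t' : ℕ} (htt : t < t') (ht : 1 ≤ t) (htm' : t' + 1 < m)
    (h0 : e (t - 1) t = e t (t + 1)) (h0' : e (t' - 1) t' = e t' (t' + 1)) : False := by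
  classical
  let P : ℕ → Prop := fun j => 1 ≤ j ∧ j + 1 < m ∧ e (j - 1) j = e j (j + 1)
  -- last slope
  have hP' : P t' := ⟨by omega, htm', h0'⟩
  set t2 := Nat.findGreatest P m with ht2
  have h2 : P t2 := Nat.findGreatest_spec (P := P) (by omega : t' ≤ m) hP'
  have h2' : t' ≤ t2 := Nat.le_findGreatest (by omega) hP'
  have haft : ∀ j, t2 < j → j + 1 < m → e j (j + 1) ≠ e (j - 1) j := by
    intro j hj hjm hh
    have := Nat.findGreatest_is_greatest (P := P) hj (by omega)
    exact this ⟨by omega, hjm, hh.symm⟩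
  -- the slope before
  have hP : P t := ⟨ht, by omega, h0⟩
  set t1 := Nat.findGreatest P (t2 - 1) with ht1
  have h1 : P t1 := Nat.findGreatest_spec (P := P) (by omega : t ≤ t2 - 1) hP
  have h1' : t1 ≤ t2 - 1 := Nat.findGreatest_le _
  have hbet : ∀ j, t1 < j → j < t2 → e j (j + 1) ≠ e (j - 1) j := by
    intro j hj hjt hh
    have := Nat.findGreatest_is_greatest (P := P) hj (by omega)
    exact this ⟨by omega, by have := h2.2.1; omega, hh.symm⟩
  have := h1.1
  exact FLAux.no_two hq hq4 hx hy he (by omega) h1.1 h2.2.1 h1.2.2 h2.2.2 hbet haft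

/-- the right field is strictly satisfied -/
theorem FLAux.right_field (hq : 0 < q) (hq4 : q ≤ 1 / 4) (hx : |x| ≤ kap q) (hy : |y| ≤ kap q)
    (he : IsMax q m x y e) (ht : 1 ≤ t) (htm : t + 1 < m) (h0 : e (t - 1) t = e t (t + 1)) :
    y * sg (e (m - 2) (m - 1)) < 0 := by
  have h1q : 0 < 1 - q := by linarith
  obtain ⟨a2, a3, a4, a5, a6, a7⟩ := no_adjacent hq hq4 hx hy he ht htm h0
  by_contra hcon
  push Not at hcon
  obtain ⟨e', g1, g2, g3, g4⟩ := flip_gain hq hq4 hx hy a2 a3 h0 a4 a6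
    (fun j hj hjm hh => FLAux.unique_slope hq hq4 hx hy he (by omega : t < j) ht hjm h0 hh.symm)
  -- change of the right field
  have hF : F q m x y e' - F q m x (-y) e' = 2 * y * ∑ i ∈ range m, q ^ (m - i) * av q x e' i := by
    unfold F
    rw [← sum_sub_distrib, mul_sum]
    refine sum_congr rfl fun i _ => ?_
    unfold bv
    ring
  obtain ⟨k, rfl⟩ : ∃ k, m = k + 2 := ⟨m - 2, by omega⟩
  have e1 : k + 2 - 2 = k := by omega
  have e2 : k + 2 - 1 = k + 1 := by omega
  rw [e1, e2] at hcon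
  have hx1 : |x| ≤ 1 := hx.trans (kap_le_one hq (by linarith))
  have hlast := av_lt (e := e') (t := k + 1) hq (by linarith) hx (by omega)
  have e3 : k + 1 - 1 = k := by omega
  rw [e3, g3 k (k + 1) (by omega) (by omega), sg_not, neg_neg] at hlast
  -- the sum
  have hsum : 0 ≤ sg (e k (k + 1)) * ∑ i ∈ range (k + 2), q ^ (k + 2 - i) * av q x e' i := by
    rw [sum_range_succ]
    have e4 : k + 2 - (k + 1) = 1 := by omega
    rw [e4, pow_one]
    have hrest : |∑ i ∈ range (k + 1), q ^ (k + 2 - i) * av q x e' i| ≤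
        q * (q / (1 - q) / (1 - q)) * q := by
      refine (abs_sum_le_sum_abs _ _).trans ?_
      have h5 : ∑ i ∈ range (k + 1), |q ^ (k + 2 - i) * av q x e' i| ≤
          ∑ i ∈ range (k + 1), (q * (q / (1 - q))) * q ^ (k + 1 - i) := by
        refine sum_le_sum fun i hi => ?_
        have hi' := mem_range.1 hi
        rw [abs_mul, abs_of_pos (pow_pos hq _)]
        have e5 : q ^ (k + 2 - i) = q * q ^ (k + 1 - i) := by
          rw [← pow_succ']; congr 1; omega
        rw [e5]
        have h6 := abs_av_le (q := q) (x := x) (e := e') (t := i) hq (by linarith) hx1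
        have h7 : 0 ≤ q * q ^ (k + 1 - i) := by positivity
        have := mul_le_mul_of_nonneg_left h6 h7
        linarith
      refine h5.trans ?_
      rw [← mul_sum, sum_pow_sub_eq (by linarith : q < 1)]
      have h8 : (q - q ^ (k + 1 + 1)) / (1 - q) ≤ q / (1 - q) := by
        gcongr
        have : 0 < q ^ (k + 1 + 1) := by positivity
        linarith
      have h9 : 0 ≤ q * (q / (1 - q)) := by positivity
      have h10 := mul_le_mul_of_nonneg_left h8 h9
      have h11 : q * (q / (1 - q)) * (q / (1 - q)) = q * (q / (1 - q) / (1 - q)) * q := by ring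
      linarith
    have hkey := FLAux.A_div_le hq hq4
    have h12 : q * (q / (1 - q) / (1 - q)) * q ≤ q * (q * kap q) := by
      have := mul_le_mul_of_nonneg_left hkey (mul_pos hq hq).le
      linarith
    have h13 := mul_lt_mul_of_pos_left hlast hq
    rcases sg_eq_or (e k (k + 1)) with hs | hs
    · rw [hs] at h13 ⊢
      have := (abs_le.1 hrest).1
      linarith
    · rw [hs] at h13 ⊢
      have := (abs_le.1 hrest).2
      linarith
  have hpos : 0 ≤ y * ∑ i ∈ range (k + 2), q ^ (k + 2 - i) * av q x e' i := by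
    have h14 := mul_nonneg hcon hsum
    have h15 : y * sg (e k (k + 1)) * (sg (e k (k + 1)) *
        ∑ i ∈ range (k + 2), q ^ (k + 2 - i) * av q x e' i)
        = (sg (e k (k + 1)) * sg (e k (k + 1))) *
        (y * ∑ i ∈ range (k + 2), q ^ (k + 2 - i) * av q x e' i) := by ring
    rw [h15, sg_mul_self, one_mul] at h14
    exact h14
  have := he e'
  linarith

theorem isMax_rev (he : IsMax q m x y e) : IsMax q m y x (rev m e) := by
  intro e'
  rw [F_rev, ← F_rev q m y x e']
  exact he _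

/-- hence a maximiser has at most one slope, and if it has one, both fields are strictly
satisfied. -/
theorem one_slope (hq : 0 < q) (hq4 : q ≤ 1 / 4) (hx : |x| ≤ kap q) (hy : |y| ≤ kap q)
    (he : IsMax q m x y e) (ht : 1 ≤ t) (htm : t + 1 < m) (h0 : e (t - 1) t = e t (t + 1)) :
    2 ≤ t ∧ t + 2 < m ∧
    (∀ j, 1 ≤ j → j + 1 < m → j ≠ t → e j (j + 1) ≠ e (j - 1) j) ∧
    0 < x * sg (e 0 1) ∧ y * sg (e (m - 2) (m - 1)) < 0 := by
  obtain ⟨a2, a3, a4, a5, a6, a7⟩ := no_adjacent hq hq4 hx hy he ht htm h0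
  refine ⟨a2, a3, ?_, ?_, FLAux.right_field hq hq4 hx hy he ht htm h0⟩
  · intro j hj hjm hjt hh
    rcases lt_or_gt_of_ne hjt with h | h
    · exact FLAux.unique_slope hq hq4 hx hy he h hj htm hh.symm h0
    · exact FLAux.unique_slope hq hq4 hx hy he h ht hjm h0 hh.symm
  · have hr := isMax_rev he
    have hslope : rev m e (m - 1 - t - 1) (m - 1 - t) = rev m e (m - 1 - t) (m - 1 - t + 1) := by
      unfold rev
      have e1 : m - 1 - (m - 1 - t) = t := by omega
      have e2 : m - 1 - (m - 1 - t - 1) = t + 1 := by omega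
      have e3 : m - 1 - (m - 1 - t + 1) = t - 1 := by omega
      rw [e1, e2, e3, h0]
    have h1 := FLAux.right_field (t := m - 1 - t) hq hq4 hy hx hr (by omega) (by omega) hslope
    have h2 : rev m e (m - 2) (m - 1) = !(e 0 1) := by
      unfold rev
      have e1 : m - 1 - (m - 1) = 0 := by omega
      have e2 : m - 1 - (m - 2) = 1 := by omega
      rw [e1, e2]
    rw [h2, sg_not] at h1
    linarith

end FL

end Pool.Agent.RC
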