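import Pool.Agent.Work.MP_b9e699_co.NSsmallOf
import Pool.Agent.Work.MP_b9e699_co.FL

open Finset

namespace Pool.Agent.RC

theorem no_slope_small {q x y : ℝ} (hq : 0 < q) (hq16 : q ≤ 1 / 16) (hx : |x| ≤ kap q)
    (hy : |y| ≤ kap q) {m : ℕ} {e : Rel} (he : IsMax q m x y e) {t : ℕ} (ht : 1 ≤ t)
    (htm : t + 1 < m) : e t (t + 1) ≠ e (t - 1) t :=
  no_slope_small_of hq hq16
    (fun _ _ _ _ _ hx hy he ht htm h0 => one_slope hq (by linarith) hx hy he ht htm h0)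
    hx hy he ht htm

end Pool.Agent.RC
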