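import Pool.Agent.Work.MP_b9e699_co.NSQ
import Pool.Agent.Work.MP_b9e699_co.NSsmall

/-! # No slopes below the top level: the two cases `q = 1/4` and `q ≤ 1/16`. -/
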