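import Pool.Agent.Work.MP_b9e699_co.CB1
import Pool.Agent.Work.MP_b9e699_co.NS

/-! # Structure of the maximisers -/

open Finset

namespace Pool.Agent.RC

section CB
variable {q x y : ℝ} {m : ℕ} {e : Rel}

lemma kap_quarter : kap (1 / 4) = 2 / 3 := by unfold kap; norm_num

lemma Adm.basic (h : Adm q x y) : 0 < q ∧ q ≤ 1 / 4 ∧ |x| ≤ kap q ∧ |y| ≤ kap q := by
  rcases h with ⟨rfl, hx, hy⟩ | ⟨h1, h2, h3, h4⟩
  · refine ⟨by norm_num, le_refl _, ?_, ?_⟩
    · rw [kap_quarter]; rcases hx with h | h <;> linarith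
    · rw [kap_quarter]; rcases hy with h | h <;> linarith
  · exact ⟨h1, by linarith, h3, h4⟩

lemma gq_pos (hq : 0 < q) (hq1 : q < 1) : 0 < gq q := by
  unfold gq
  have : 0 < 1 - q ^ 2 := by nlinarith
  positivity

lemma gq_le_one (hq : 0 < q) (hq2 : q ≤ 1 / 2) : gq q ≤ 1 := by
  unfold gq
  have : 0 < 1 - q ^ 2 := by nlinarith
  rw [div_le_one this]
  nlinarith

lemma abs_strip_le (hq : 0 < q) (hq2 : q ≤ 1 / 2) (hx : |x| ≤ kap q) (σ : Bool) :
    |strip q σ x| ≤ kap (q ^ 2) := by
  have h1 : 0 < 1 - q := by linarith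
  have h2 : 0 < 1 - q ^ 2 := by nlinarith
  have hg := gq_le_one hq hq2
  unfold strip
  refine (abs_add_le _ _).trans ?_
  rw [abs_mul, abs_mul, abs_sg, one_mul, abs_of_nonneg (by linarith : 0 ≤ 1 - gq q),
    abs_of_pos hq]
  have h3 : q * |x| ≤ q * kap q := mul_le_mul_of_nonneg_left hx hq.le
  have h4 : (1 - gq q) + q * kap q = (1 - 2 * q ^ 2 - 2 * q ^ 3) / (1 - q ^ 2) := by
    unfold gq kap
    have h5 : (1 : ℝ) - q ^ 2 = (1 - q) * (1 + q) := by ring
    rw [h5]
    have h6 : (1 : ℝ) + q ≠ 0 := by positivity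
    field_simp
    ring
  have h7 : (1 - 2 * q ^ 2 - 2 * q ^ 3) / (1 - q ^ 2) ≤ kap (q ^ 2) := by
    unfold kap
    apply div_le_div_of_nonneg_right _ h2.le
    have : 0 < q ^ 3 := by positivity
    linarith
  linarith

lemma abs_opp_le (hq : 0 < q) (hq2 : q ≤ 1 / 2) (hx : |x| ≤ kap q) (σ : Bool) :
    |opp q σ x| ≤ kap (q ^ 2) := by
  have h1 : 0 < 1 - q := by linarith
  have h2 : 0 < 1 - q ^ 2 := by nlinarith
  have hg := gq_pos hq (by linarith)
  unfold opp
  refine (abs_add_le _ _).trans ?_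
  rw [abs_mul, abs_sg, one_mul, abs_of_pos hg]
  have h4 : kap q + gq q = kap (q ^ 2) := by
    unfold gq kap
    have h5 : (1 : ℝ) - q ^ 2 = (1 - q) * (1 + q) := by ring
    rw [h5]
    have h6 : (1 : ℝ) + q ≠ 0 := by positivity
    field_simp
    ring
  linarith

lemma abs_yE_le (hq : 0 < q) (hq2 : q ≤ 1 / 2) (hy : |y| ≤ kap q) (m : ℕ) (σ : Bool) :
    |yE q m σ y| ≤ kap (q ^ 2) := by
  unfold yE; split_ifs
  · exact abs_strip_le hq hq2 hy _
  · exact abs_opp_le hq hq2 hy _

lemma abs_yO_le (hq : 0 < q) (hq2 : q ≤ 1 / 2) (hy : |y| ≤ kap q) (m : ℕ) (σ : Bool) :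
    |yO q m σ y| ≤ kap (q ^ 2) := by
  unfold yO; split_ifs
  · exact abs_opp_le hq hq2 hy _
  · exact abs_strip_le hq hq2 hy _

theorem Adm.step (h : Adm q x y) (m : ℕ) (σ : Bool) :
    Adm (q ^ 2) (strip q σ x) (yE q m σ y) ∧ Adm (q ^ 2) (opp q σ x) (yO q m σ y) := by
  obtain ⟨h0, h1, h2, h3⟩ := h.basic
  have hq2 : q ≤ 1 / 2 := by linarith
  have h4 : 0 < q ^ 2 := by positivity
  have h5 : q ^ 2 ≤ 1 / 16 := by nlinarith
  exact ⟨Or.inr ⟨h4, h5, abs_strip_le h0 hq2 h2 _, abs_yE_le h0 hq2 h3 _ _⟩,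
    Or.inr ⟨h4, h5, abs_opp_le h0 hq2 h2 _, abs_yO_le h0 hq2 h3 _ _⟩⟩

theorem Adm.no_slope (h : Adm q x y) (he : IsMax q m x y e) : Alt m e := by
  intro t ht htm
  rcases h with ⟨rfl, hx, hy⟩ | ⟨h1, h2, h3, h4⟩
  · exact no_slope_quarter hx hy he ht htm
  · exact no_slope_small h1 h2 h3 h4 he ht htm

lemma Alt.type (hA : Alt m e) {t : ℕ} (ht : t + 1 < m) :
    e t (t + 1) = if t % 2 = 0 then e 0 1 else !(e 0 1) := by
  induction t with
  | zero => simp
  | succ n ih =>
    have h1 := ih (by omega)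
    have h2 := hA (n + 1) (by omega) (by omega)
    rw [show n + 1 - 1 = n by omega, h1] at h2
    rcases Nat.mod_two_eq_zero_or_one n with h | h
    · rw [if_pos h] at h2
      rw [if_neg (by omega)]
      cases h3 : e (n + 1) (n + 1 + 1) <;> cases h4 : e 0 1 <;> simp_all
    · rw [if_neg (by omega)] at h2
      rw [if_pos (by omega)]
      cases h3 : e (n + 1) (n + 1 + 1) <;> cases h4 : e 0 1 <;> simp_all

lemma Alt.prev (hA : Alt m e) {t : ℕ} (ht : 1 ≤ t) (htm : t + 1 < m) :
    e (t - 1) t = !(e t (t + 1)) := by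
  have := hA t ht htm
  cases h3 : e (t - 1) t <;> cases h4 : e t (t + 1) <;> simp_all

/-- separated arrays are combined arrays. -/
lemma agree_comb_of_alt (hq : 0 < q) (hq2 : q ≤ 1 / 2) (hx : |x| ≤ kap q) (hy : |y| ≤ kap q)
    (hA : Alt m e)
    (he : ∀ i j, i + 1 < j → j < m → 0 ≤ sg (e i j) * (av q x e i - bv q y m e j)) :
    Agree m e (comb m (e 0 1) (e 0 (m - 1)) (fun i j => e (2 * i + 2) (2 * j + 2))
      (fun i j => e (2 * i + 1) (2 * j + 1))) := by
  have htrue : ∀ i j, i + 1 < j → j < m → bv q y m e j < av q x e i → e i j = true := by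
    intro i j hi hj hlt
    by_contra hc
    have := he i j hi hj
    rw [Bool.not_eq_true] at hc
    rw [hc] at this
    simp at this
    linarith
  have hfalse : ∀ i j, i + 1 < j → j < m → av q x e i < bv q y m e j → e i j = false := by
    intro i j hi hj hlt
    by_contra hc
    have := he i j hi hj
    rw [Bool.not_eq_false] at hc
    rw [hc] at this
    simp at this
    linarith
  intro i j hij hj
  by_cases hadj : j = i + 1
  · -- adjacent pairs
    subst hadj
    rw [hA.type hj]
    unfold comb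
    by_cases h0 : i = 0
    · subst h0
      rw [if_pos rfl]
      by_cases hj1 : 0 + 1 + 1 = m
      · rw [if_pos hj1]
        subst hj1; simp
      · rw [if_neg hj1]; simp
    · rw [if_neg h0]
      by_cases hj1 : i + 1 + 1 = m
      · rw [if_pos hj1]
      · rw [if_neg hj1]
        have hp : ¬ (i % 2 = (i + 1) % 2) := by omega
        rw [if_neg hp]
  have hij' : i + 1 < j := by omega
  unfold comb
  by_cases hi : i = 0
  · subst hi
    rw [if_pos rfl]
    by_cases hj1 : j + 1 = m
    · rw [if_pos hj1]; subst hj1; simp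
    · rw [if_neg hj1]
      have htj := hA.type (t := j) (by omega)
      have ha0 := abs_av_zero_le (e := e) hq hx
      have ha1 := abs_le.1 ha0
      cases hc : e j (j + 1)
      · have hb := bv_neg hq hq2 hy (t := j) (m := m) (by omega) hc
        have h1 := htrue 0 j hij' hj (by linarith)
        rw [h1]
        rw [hc] at htj
        rcases Nat.mod_two_eq_zero_or_one j with h | h
        · rw [if_pos h] at htj ⊢; rw [← htj]; rfl
        · rw [if_neg (by omega)] at htj ⊢
          revert htj; cases e 0 1 <;> simp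
      · have hb := bv_pos hq hq2 hy (t := j) (m := m) (by omega) hc
        have h1 := hfalse 0 j hij' hj (by linarith)
        rw [h1]
        rw [hc] at htj
        rcases Nat.mod_two_eq_zero_or_one j with h | h
        · rw [if_pos h] at htj ⊢; rw [← htj]; rfl
        · rw [if_neg (by omega)] at htj ⊢
          revert htj; cases e 0 1 <;> simp
  · rw [if_neg hi]
    have hti := hA.type (t := i) (by omega)
    have hpi := hA.prev (t := i) (by omega) (by omega)
    by_cases hj1 : j + 1 = m
    · rw [if_pos hj1, ← hti]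
      have hb0 := abs_bv_last_le (e := e) (m := m) hq hy (by omega)
      have hb1 := abs_le.1 hb0
      have hjm : j = m - 1 := by omega
      cases hc : e i (i + 1)
      · rw [hc] at hpi
        have ha := av_neg hq hq2 hx (t := i) (by omega) hpi
        exact hfalse i j hij' hj (by rw [hjm]; linarith)
      · rw [hc] at hpi
        have ha := av_pos hq hq2 hx (t := i) (by omega) hpi
        exact htrue i j hij' hj (by rw [hjm]; linarith)
    · rw [if_neg hj1]
      by_cases hp : i % 2 = j % 2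
      · rw [if_pos hp]
        by_cases hip : i % 2 = 0
        · rw [if_pos hip]
          congr 1 <;> omega
        · rw [if_neg hip]
          congr 1 <;> omega
      · rw [if_neg hp, ← hti]
        have htj := hA.type (t := j) (by omega)
        have hk := kap_nonneg hq2
        have hqk : 0 ≤ q * kap q := mul_nonneg hq.le hk
        cases hc : e i (i + 1)
        · rw [hc] at hpi hti
          have ha := av_neg hq hq2 hx (t := i) (by omega) hpi
          have hjt : e j (j + 1) = true := by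
            rw [htj]
            rcases Nat.mod_two_eq_zero_or_one i with h | h
            · rw [if_pos h] at hti; rw [if_neg (by omega), ← hti]; rfl
            · rw [if_neg (by omega)] at hti; rw [if_pos (by omega)]
              revert hti; cases e 0 1 <;> simp
          have hb := bv_pos hq hq2 hy (t := j) (m := m) (by omega) hjt
          exact hfalse i j hij' hj (by linarith)
        · rw [hc] at hpi hti
          have ha := av_pos hq hq2 hx (t := i) (by omega) hpi
          have hjt : e j (j + 1) = false := by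
            rw [htj]
            rcases Nat.mod_two_eq_zero_or_one i with h | h
            · rw [if_pos h] at hti; rw [if_neg (by omega), ← hti]; rfl
            · rw [if_neg (by omega)] at hti; rw [if_pos (by omega)]
              revert hti; cases e 0 1 <;> simp
          have hb := bv_neg hq hq2 hy (t := j) (m := m) (by omega) hjt
          exact htrue i j hij' hj (by linarith)

/-- structure of an alternating maximiser. -/
theorem struct_alt (hq : 0 < q) (hq2 : q ≤ 1 / 2) (hx : |x| ≤ kap q) (hy : |y| ≤ kap q)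
    (hm : 3 ≤ m) (hA : Alt m e) (he : IsMax q m x y e) :
    ∃ (ς : Bool) (eE eO : Rel), Agree m e (comb m (e 0 1) ς eE eO) ∧
      IsMax (q ^ 2) ((m - 2) / 2) (strip q (e 0 1) x) (yE q m (e 0 1) y) eE ∧
      IsMax (q ^ 2) ((m - 1) / 2) (opp q (e 0 1) x) (yO q m (e 0 1) y) eO ∧
      0 ≤ sg ς * (x - y) := by
  have hag := agree_comb_of_alt hq hq2 hx hy hA
    (fun i j hi hj => he.rule hq (by omega) hj)
  have hq21 : q ^ 2 ≠ 1 := by nlinarith
  refine ⟨_, _, _, hag, ?_, ?_, ?_⟩
  · intro e'
    have h1 := he (comb m (e 0 1) (e 0 (m - 1)) e' (fun i j => e (2 * i + 1) (2 * j + 1)))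
    rw [F_congr hag, F_comb hq21 (by omega), F_comb hq21 (by omega)] at h1
    linarith
  · intro e'
    have h1 := he (comb m (e 0 1) (e 0 (m - 1)) (fun i j => e (2 * i + 2) (2 * j + 2)) e')
    rw [F_congr hag, F_comb hq21 (by omega), F_comb hq21 (by omega)] at h1
    linarith
  · have h1 := he (comb m (e 0 1) (!(e 0 (m - 1))) (fun i j => e (2 * i + 2) (2 * j + 2))
      (fun i j => e (2 * i + 1) (2 * j + 1)))
    rw [F_congr hag, F_comb hq21 (by omega), F_comb hq21 (by omega), sg_not] at h1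
    have h2 : 0 ≤ q ^ m * (sg (e 0 (m - 1)) * (x - y)) := by linarith
    exact nonneg_of_mul_nonneg_right h2 (by positivity)

/-- structure of the maximisers below the top level -/
theorem struct (h : Adm q x y) (hm : 3 ≤ m) (he : IsMax q m x y e) :
    ∃ (ς : Bool) (eE eO : Rel), Agree m e (comb m (e 0 1) ς eE eO) ∧
      IsMax (q ^ 2) ((m - 2) / 2) (strip q (e 0 1) x) (yE q m (e 0 1) y) eE ∧
      IsMax (q ^ 2) ((m - 1) / 2) (opp q (e 0 1) x) (yO q m (e 0 1) y) eO ∧
      0 ≤ sg ς * (x - y) := by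
  obtain ⟨h0, h1, h2, h3⟩ := h.basic
  exact struct_alt h0 (by linarith) h2 h3 hm (h.no_slope he) he

/-- the value of a combined array is at most `Val`. -/
lemma F_comb_le_Val (hq : 0 < q) (hq2 : q ≤ 1 / 2) (hm : 2 ≤ m) (σ ς : Bool) (eE eO : Rel) :
    F q m x y (comb m σ ς eE eO) ≤ Val q m x y σ := by
  have hq21 : q ^ 2 ≠ 1 := by nlinarith
  rw [F_comb hq21 hm]
  unfold Val
  have h1 := le_V (q ^ 2) ((m - 2) / 2) (strip q σ x) (yE q m σ y) eE
  have h2 := le_V (q ^ 2) ((m - 1) / 2) (opp q σ x) (yO q m σ y) eO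
  have h3 : sg ς * (x - y) ≤ |x - y| := sg_mul_le_abs _ _
  have h4 : q ^ m * (sg ς * (x - y)) ≤ q ^ m * |x - y| :=
    mul_le_mul_of_nonneg_left h3 (by positivity)
  linarith

/-- `Val` is attained. -/
lemma exists_F_eq_Val (hq : 0 < q) (hq2 : q ≤ 1 / 2) (hm : 2 ≤ m) (σ : Bool) :
    ∃ (ς : Bool) (eE eO : Rel), F q m x y (comb m σ ς eE eO) = Val q m x y σ := by
  have hq21 : q ^ 2 ≠ 1 := by nlinarith
  obtain ⟨eE, hE⟩ := exists_eq_V (q ^ 2) ((m - 2) / 2) (strip q σ x) (yE q m σ y)
  obtain ⟨eO, hO⟩ := exists_eq_V (q ^ 2) ((m - 1) / 2) (opp q σ x) (yO q m σ y)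
  refine ⟨decide (0 ≤ x - y), eE, eO, ?_⟩
  rw [F_comb hq21 hm, hE, hO]
  unfold Val
  have h3 : sg (decide (0 ≤ x - y)) * (x - y) = |x - y| := by
    by_cases h : 0 ≤ x - y
    · rw [decide_eq_true h, abs_of_nonneg h]; simp
    · rw [decide_eq_false h, abs_of_neg (by linarith)]; simp
  rw [← h3]; ring

theorem rec_V (h : Adm q x y) (hm : 3 ≤ m) :
    V q m x y = max (Val q m x y true) (Val q m x y false) := by
  obtain ⟨h0, h1, h2, h3⟩ := h.basic
  have hq2 : q ≤ 1 / 2 := by linarith
  apply le_antisymm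
  · obtain ⟨e, he⟩ := exists_isMax q m x y
    rw [← he.eq_V]
    obtain ⟨ς, eE, eO, hag, -, -, -⟩ := struct h hm he
    rw [F_congr hag]
    have := F_comb_le_Val (x := x) (y := y) h0 hq2 (m := m) (by omega) (e 0 1) ς eE eO
    cases hc : e 0 1
    · rw [hc] at this; exact this.trans (le_max_right _ _)
    · rw [hc] at this; exact this.trans (le_max_left _ _)
  · apply max_le
    · obtain ⟨ς, eE, eO, h⟩ := exists_F_eq_Val (x := x) (y := y) h0 hq2 (m := m) (by omega) true
      rw [← h]; exact le_V _ _ _ _ _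
    · obtain ⟨ς, eE, eO, h⟩ := exists_F_eq_Val (x := x) (y := y) h0 hq2 (m := m) (by omega) false
      rw [← h]; exact le_V _ _ _ _ _

/-- combined arrays with linear parts are linear. -/
lemma lin_comb (hm : 3 ≤ m) {σ ς : Bool} {eE eO : Rel} (hag : Agree m e (comb m σ ς eE eO))
    (hE : Lin ((m - 2) / 2) eE) (hO : Lin ((m - 1) / 2) eO) : Lin m e := by
  obtain ⟨hE, hE1, hE2⟩ := hE
  obtain ⟨hO, hO1, hO2⟩ := hO
  obtain ⟨M, hM, hME, hMO⟩ : ∃ M : ℤ, 2 ≤ M ∧ (∀ i < m, |hE i| + 2 ≤ M) ∧
      (∀ i < m, |hO i| + 2 ≤ M) := by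
    refine ⟨∑ i ∈ range m, (|hE i| + |hO i|) + 2, ?_, ?_, ?_⟩
    · have : 0 ≤ ∑ i ∈ range m, (|hE i| + |hO i|) :=
        sum_nonneg fun i _ => by positivity
      linarith
    · intro i hi
      have : |hE i| + |hO i| ≤ ∑ i ∈ range m, (|hE i| + |hO i|) :=
        single_le_sum (f := fun i => |hE i| + |hO i|) (fun i _ => by positivity) (mem_range.2 hi)
      have := abs_nonneg (hO i)
      linarith
    · intro i hi
      have : |hE i| + |hO i| ≤ ∑ i ∈ range m, (|hE i| + |hO i|) :=
        single_le_sum (f := fun i => |hE i| + |hO i|) (fun i _ => by positivity) (mem_range.2 hi)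
      have := abs_nonneg (hE i)
      linarith
  set s : ℤ := if σ then 1 else -1 with hs
  set u : ℤ := if ς then -1 else 1 with hu
  have hs1 : σ = true ∧ s = 1 ∨ σ = false ∧ s = -1 := by
    cases σ
    · right; simp [hs]
    · left; simp [hs]
  have hu1 : ς = true ∧ u = -1 ∨ ς = false ∧ u = 1 := by
    cases ς
    · right; simp [hu]
    · left; simp [hu]
  set H : ℕ → ℤ := fun i => if i = 0 then 0 else if i + 1 = m then u else
    if i % 2 = 0 then hE ((i - 2) / 2) + s * M else hO ((i - 1) / 2) - s * M with hH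
  have H0 : H 0 = 0 := by simp [hH]
  have HL : ∀ i, i ≠ 0 → i + 1 = m → H i = u := by
    intro i h1 h2; simp only [hH]; rw [if_neg h1, if_pos h2]
  have HE : ∀ i, i ≠ 0 → i + 1 ≠ m → i % 2 = 0 → H i = hE ((i - 2) / 2) + s * M := by
    intro i h1 h2 h3; simp only [hH]; rw [if_neg h1, if_neg h2, if_pos h3]
  have HO : ∀ i, i ≠ 0 → i + 1 ≠ m → i % 2 ≠ 0 → H i = hO ((i - 1) / 2) - s * M := by
    intro i h1 h2 h3; simp only [hH]; rw [if_neg h1, if_neg h2, if_neg h3]
  have key : ∀ i j, i < j → j < m → (H i ≠ H j ∧ (e i j = true ↔ H j < H i)) := by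
    intro i j hij hj
    rw [hag i j hij hj]
    unfold comb
    by_cases hi : i = 0
    · subst hi
      rw [if_pos rfl, H0]
      by_cases hj1 : j + 1 = m
      · rw [if_pos hj1, HL j (by omega) hj1]
        rcases hu1 with ⟨h1, h2⟩ | ⟨h1, h2⟩ <;> rw [h1, h2] <;> simp
      · rw [if_neg hj1]
        by_cases hjp : j % 2 = 0
        · rw [if_pos hjp, HE j (by omega) hj1 hjp]
          have h3 := hME ((j - 2) / 2) (by omega)
          have h4 := abs_le.1 (by linarith : |hE ((j - 2) / 2)| ≤ M - 2)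
          rcases hs1 with ⟨h1, h2⟩ | ⟨h1, h2⟩
          · rw [h1, h2]; refine ⟨by omega, ?_⟩; simp; omega
          · rw [h1, h2]; refine ⟨by omega, ?_⟩; simp; omega
        · rw [if_neg hjp, HO j (by omega) hj1 hjp]
          have h3 := hMO ((j - 1) / 2) (by omega)
          have h4 := abs_le.1 (by linarith : |hO ((j - 1) / 2)| ≤ M - 2)
          rcases hs1 with ⟨h1, h2⟩ | ⟨h1, h2⟩
          · rw [h1, h2]; refine ⟨by omega, ?_⟩; simp; omega
          · rw [h1, h2]; refine ⟨by omega, ?_⟩; simp; omega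
    · rw [if_neg hi]
      by_cases hj1 : j + 1 = m
      · rw [if_pos hj1, HL j (by omega) hj1]
        by_cases hip : i % 2 = 0
        · rw [if_pos hip, HE i hi (by omega) hip]
          have h3 := hME ((i - 2) / 2) (by omega)
          have h4 := abs_le.1 (by linarith : |hE ((i - 2) / 2)| ≤ M - 2)
          rcases hs1 with ⟨h1, h2⟩ | ⟨h1, h2⟩ <;> rcases hu1 with ⟨h5, h6⟩ | ⟨h5, h6⟩ <;>
            rw [h1, h2, h6] <;> refine ⟨by omega, ?_⟩ <;> simp <;> omega
        · rw [if_neg hip, HO i hi (by omega) hip]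
          have h3 := hMO ((i - 1) / 2) (by omega)
          have h4 := abs_le.1 (by linarith : |hO ((i - 1) / 2)| ≤ M - 2)
          rcases hs1 with ⟨h1, h2⟩ | ⟨h1, h2⟩ <;> rcases hu1 with ⟨h5, h6⟩ | ⟨h5, h6⟩ <;>
            rw [h1, h2, h6] <;> refine ⟨by omega, ?_⟩ <;> simp <;> omega
      · rw [if_neg hj1]
        by_cases hp : i % 2 = j % 2
        · rw [if_pos hp]
          by_cases hip : i % 2 = 0
          · rw [if_pos hip, HE i hi (by omega) hip, HE j (by omega) hj1 (by omega)]
            have h1 := hE1 ((i - 2) / 2) ((j - 2) / 2) (by omega) (by omega) (by omega)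
            have h2 := hE2 ((i - 2) / 2) ((j - 2) / 2) (by omega) (by omega)
            refine ⟨by omega, ?_⟩
            rw [h2]; omega
          · rw [if_neg hip, HO i hi (by omega) hip, HO j (by omega) hj1 (by omega)]
            have h1 := hO1 ((i - 1) / 2) ((j - 1) / 2) (by omega) (by omega) (by omega)
            have h2 := hO2 ((i - 1) / 2) ((j - 1) / 2) (by omega) (by omega)
            refine ⟨by omega, ?_⟩
            rw [h2]; omega
        · rw [if_neg hp]
          by_cases hip : i % 2 = 0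
          · rw [if_pos hip, HE i hi (by omega) hip, HO j (by omega) hj1 (by omega)]
            have h3 := hME ((i - 2) / 2) (by omega)
            have h4 := abs_le.1 (by linarith : |hE ((i - 2) / 2)| ≤ M - 2)
            have h5 := hMO ((j - 1) / 2) (by omega)
            have h6 := abs_le.1 (by linarith : |hO ((j - 1) / 2)| ≤ M - 2)
            rcases hs1 with ⟨h1, h2⟩ | ⟨h1, h2⟩ <;>
              rw [h1, h2] <;> refine ⟨by omega, ?_⟩ <;> simp <;> omega
          · rw [if_neg hip, HO i hi (by omega) hip, HE j (by omega) hj1 (by omega)]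
            have h3 := hMO ((i - 1) / 2) (by omega)
            have h4 := abs_le.1 (by linarith : |hO ((i - 1) / 2)| ≤ M - 2)
            have h5 := hME ((j - 2) / 2) (by omega)
            have h6 := abs_le.1 (by linarith : |hE ((j - 2) / 2)| ≤ M - 2)
            rcases hs1 with ⟨h1, h2⟩ | ⟨h1, h2⟩ <;>
              rw [h1, h2] <;> refine ⟨by omega, ?_⟩ <;> simp <;> omega
  refine ⟨H, ?_, fun i j hij hj => (key i j hij hj).2⟩
  intro i j hi hj hne
  rcases lt_or_gt_of_ne hne with h | h
  · exact (key i j h hj).1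
  · exact (key j i h hi).1.symm

theorem lin_of_isMax (h : Adm q x y) (he : IsMax q m x y e) : Lin m e := by
  induction m using Nat.strong_induction_on generalizing q x y e with
  | _ m ih =>
    by_cases hm : 3 ≤ m
    · obtain ⟨ς, eE, eO, hag, hE, hO, -⟩ := struct h hm he
      obtain ⟨s1, s2⟩ := h.step m (e 0 1)
      exact lin_comb hm hag (ih _ (by omega) s1 hE) (ih _ (by omega) s2 hO)
    · refine ⟨fun i => if i = 0 then (if e 0 1 then 1 else -1) else 0, ?_, ?_⟩
      · intro i j hi hj hij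
        have : (i = 0 ∧ j = 1) ∨ (i = 1 ∧ j = 0) := by omega
        rcases this with ⟨rfl, rfl⟩ | ⟨rfl, rfl⟩
        · cases e 0 1 <;> simp
        · cases e 0 1 <;> simp
      · intro i j hij hj
        have : i = 0 ∧ j = 1 := by omega
        obtain ⟨rfl, rfl⟩ := this
        cases e 0 1 <;> simp

end CB

end Pool.Agent.RC
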