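import Pool.Agent.Work.MP_b9e699_co.OR
import Pool.Agent.Work.MP_b9e699_co.CB2

/-!
# Counting the maximisers below the top level
-/

open Finset

namespace Pool.Agent.RC

/-- the masked maximisers -/
def MaxSet (q : ℝ) (m : ℕ) (x y : ℝ) : Set Rel := {e : Rel | mask m e = e ∧ IsMax q m x y e}

lemma Nmax_eq (q : ℝ) (m : ℕ) (x y : ℝ) : Nmax q m x y = (MaxSet q m x y).ncard := rfl

lemma MaxSet_finite (q : ℝ) (m : ℕ) (x y : ℝ) : (MaxSet q m x y).Finite :=
  (finite_masked m).subset fun _ h => h.1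

lemma IsMax.congr {q x y : ℝ} {m : ℕ} {e e' : Rel} (h : Agree m e e') (he : IsMax q m x y e) :
    IsMax q m x y e' := fun e'' => by
  rw [← F_congr h]; exact he e''

lemma IsMax.mask {q x y : ℝ} {m : ℕ} {e : Rel} (he : IsMax q m x y e) :
    IsMax q m x y (mask m e) := he.congr (agree_mask m e)

lemma IsMax.of_F_eq {q x y : ℝ} {m : ℕ} {e e' : Rel} (he : IsMax q m x y e)
    (h : F q m x y e' = F q m x y e) : IsMax q m x y e' := fun e'' => by
  rw [h]; exact he e''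

/-! ### basic facts on combined arrays -/

lemma comb_zero_one {m : ℕ} (hm : 3 ≤ m) (σ ς : Bool) (eE eO : Rel) :
    comb m σ ς eE eO 0 1 = σ := by
  unfold comb
  rw [if_pos rfl, if_neg (by omega)]
  simp

lemma comb_zero_last {m : ℕ} (hm : 3 ≤ m) (σ ς : Bool) (eE eO : Rel) :
    comb m σ ς eE eO 0 (m - 1) = ς := by
  unfold comb
  rw [if_pos rfl, if_pos (by omega)]

lemma comb_even {m : ℕ} {σ ς : Bool} {eE eO : Rel} {i j : ℕ}
    (hj : j < (m - 2) / 2) : comb m σ ς eE eO (2 * i + 2) (2 * j + 2) = eE i j := by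
  unfold comb
  rw [if_neg (by omega), if_neg (by omega), if_pos (by omega), if_pos (by omega)]
  congr 1 <;> omega

lemma comb_odd {m : ℕ} {σ ς : Bool} {eE eO : Rel} {i j : ℕ}
    (hj : j < (m - 1) / 2) : comb m σ ς eE eO (2 * i + 1) (2 * j + 1) = eO i j := by
  unfold comb
  rw [if_neg (by omega), if_neg (by omega), if_pos (by omega), if_neg (by omega)]
  congr 1 <;> omega

lemma comb_next {m : ℕ} (hm : 3 ≤ m) (σ ς : Bool) (eE eO : Rel) {t : ℕ} :
    comb m σ ς eE eO t (t + 1) = if t % 2 = 0 then σ else !σ := by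
  unfold comb
  by_cases h0 : t = 0
  · subst h0
    rw [if_pos rfl, if_neg (by omega)]
    simp
  · rw [if_neg h0]
    by_cases h1 : t + 1 + 1 = m
    · rw [if_pos h1]
    · rw [if_neg h1, if_neg (by omega)]

lemma alt_of_agree_comb {m : ℕ} (hm : 3 ≤ m) {σ ς : Bool} {eE eO e : Rel}
    (h : Agree m e (comb m σ ς eE eO)) : Alt m e := by
  intro t ht htm
  rw [h t (t + 1) (by omega) htm, h (t - 1) t (by omega) (by omega)]
  have h1 : t - 1 + 1 = t := by omega
  have h2 := comb_next hm σ ς eE eO (t := t - 1)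
  rw [h1] at h2
  rw [comb_next hm, h2]
  rcases Nat.mod_two_eq_zero_or_one t with h | h
  · have h' : (t - 1) % 2 = 1 := by omega
    rw [h, h']
    simp
  · have h' : (t - 1) % 2 = 0 := by omega
    rw [h, h']
    simp

/-- `comb` only depends on the masks of the interior arrays -/
lemma comb_agree {m : ℕ} {σ ς : Bool} {eE eE' eO eO' : Rel}
    (hE : Agree ((m - 2) / 2) eE eE') (hO : Agree ((m - 1) / 2) eO eO') :
    Agree m (comb m σ ς eE eO) (comb m σ ς eE' eO') := by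
  intro i j hij hj
  unfold comb
  split_ifs with h1 h2 h3 h4 h5 h6 h7 <;> try rfl
  · exact hE _ _ (by omega) (by omega)
  · exact hO _ _ (by omega) (by omega)

lemma comb_inj {m : ℕ} (hm : 3 ≤ m) {σ ς ς' : Bool} {eE eE' eO eO' : Rel}
    (h : Agree m (comb m σ ς eE eO) (comb m σ ς' eE' eO')) :
    ς = ς' ∧ Agree ((m - 2) / 2) eE eE' ∧ Agree ((m - 1) / 2) eO eO' := by
  refine ⟨?_, ?_, ?_⟩
  · have := h 0 (m - 1) (by omega) (by omega)
    rwa [comb_zero_last hm, comb_zero_last hm] at this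
  · intro i j hij hj
    have := h (2 * i + 2) (2 * j + 2) (by omega) (by omega)
    rwa [comb_even hj, comb_even hj] at this
  · intro i j hij hj
    have := h (2 * i + 1) (2 * j + 1) (by omega) (by omega)
    rwa [comb_odd hj, comb_odd hj] at this

/-! ### the admissible fields are bounded -/

lemma Adm.bounds {q x y : ℝ} (h : Adm q x y) :
    0 < q ∧ q ≤ 1 / 4 ∧ |x| ≤ kap q ∧ |y| ≤ kap q := by
  rcases h with ⟨rfl, hx, hy⟩ | ⟨h0, h1, hx, hy⟩
  · have hk : kap (1 / 4) = 2 / 3 := by unfold kap; norm_num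
    refine ⟨by norm_num, le_rfl, ?_, ?_⟩
    · rw [hk]; rcases hx with h | h <;> rw [h]; norm_num
    · rw [hk]; rcases hy with h | h <;> rw [h]; norm_num
  · exact ⟨h0, by linarith, hx, hy⟩

/-! ### the set of maximisers with given first relation -/

def SigSet (q : ℝ) (m : ℕ) (x y : ℝ) (σ : Bool) : Set Rel :=
  {e : Rel | mask m e = e ∧ IsMax q m x y e ∧ e 0 1 = σ}

def EndSet (x y : ℝ) : Set Bool := {ς : Bool | 0 ≤ sg ς * (x - y)}

lemma sg_mul_eq_abs {ς : Bool} {v : ℝ} (h : 0 ≤ sg ς * v) : sg ς * v = |v| := by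
  rw [← abs_of_nonneg h, abs_mul, abs_sg, one_mul]

lemma value_comb_of {q x y : ℝ} {m : ℕ} (hq2 : q ^ 2 ≠ 1) (hm : 3 ≤ m) {σ ς : Bool} {eE eO : Rel}
    (hE : IsMax (q ^ 2) ((m - 2) / 2) (strip q σ x) (yE q m σ y) eE)
    (hO : IsMax (q ^ 2) ((m - 1) / 2) (opp q σ x) (yO q m σ y) eO)
    (hς : 0 ≤ sg ς * (x - y)) :
    F q m x y (comb m σ ς eE eO) = Val q m x y σ := by
  rw [F_comb hq2 (by omega), hE.eq_V, hO.eq_V]
  unfold Val
  rw [mul_right_comm, sg_mul_eq_abs hς]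
  ring

lemma Adm.sq_ne_one {q x y : ℝ} (h : Adm q x y) : q ^ 2 ≠ 1 := by
  have hb := h.bounds
  nlinarith [hb.1, hb.2.1]

lemma value_comb {q x y : ℝ} {m : ℕ} (h : Adm q x y) (hm : 3 ≤ m) {σ ς : Bool} {eE eO : Rel}
    (hE : IsMax (q ^ 2) ((m - 2) / 2) (strip q σ x) (yE q m σ y) eE)
    (hO : IsMax (q ^ 2) ((m - 1) / 2) (opp q σ x) (yO q m σ y) eO)
    (hς : 0 ≤ sg ς * (x - y)) :
    F q m x y (comb m σ ς eE eO) = Val q m x y σ :=
  value_comb_of h.sq_ne_one hm hE hO hς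

/-- every maximiser is a combined array with optimal parts. -/
def Structured (q : ℝ) (m : ℕ) (x y : ℝ) : Prop :=
  ∀ e, IsMax q m x y e → ∃ (ς : Bool) (eE eO : Rel), Agree m e (comb m (e 0 1) ς eE eO) ∧
      IsMax (q ^ 2) ((m - 2) / 2) (strip q (e 0 1) x) (yE q m (e 0 1) y) eE ∧
      IsMax (q ^ 2) ((m - 1) / 2) (opp q (e 0 1) x) (yO q m (e 0 1) y) eO ∧
      0 ≤ sg ς * (x - y)

/-- counting the maximisers with first relation `σ`, the structure being a hypothesis. -/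
theorem ncard_SigSet_of {q x y : ℝ} {m : ℕ} (hq2 : q ^ 2 ≠ 1) (hm : 3 ≤ m)
    (hs : Structured q m x y) (σ : Bool) (hne : ∃ e, IsMax q m x y e ∧ e 0 1 = σ) :
    (SigSet q m x y σ).ncard = (EndSet x y).ncard
      * (Nmax (q ^ 2) ((m - 2) / 2) (strip q σ x) (yE q m σ y)
        * Nmax (q ^ 2) ((m - 1) / 2) (opp q σ x) (yO q m σ y)) := by
  rw [Nmax_eq, Nmax_eq, ← Set.ncard_prod, ← Set.ncard_prod]
  symm
  -- the value
  obtain ⟨e0, he0, h01⟩ := hne
  have hval : F q m x y e0 = Val q m x y σ := by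
    obtain ⟨ς, eE, eO, hag, hE, hO, hς⟩ := hs e0 he0
    rw [h01] at hag hE hO
    rw [F_congr hag, value_comb_of hq2 hm hE hO hς]
  refine Set.ncard_congr (fun p _ => mask m (comb m σ p.1 p.2.1 p.2.2)) ?_ ?_ ?_
  · rintro ⟨ς, eE, eO⟩ ⟨hς, hE, hO⟩
    refine ⟨mask_mask _ _, ?_, ?_⟩
    · apply IsMax.mask
      apply he0.of_F_eq
      rw [hval]
      exact value_comb_of hq2 hm hE.2 hO.2 hς
    · show mask m (comb m σ ς eE eO) 0 1 = σ
      unfold mask
      rw [if_pos ⟨by omega, by omega⟩, comb_zero_one hm]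
  · rintro ⟨ς, eE, eO⟩ ⟨ς', eE', eO'⟩ ⟨hς, hE, hO⟩ ⟨hς', hE', hO'⟩ heq
    have hag := mask_eq_iff.1 heq
    obtain ⟨h1, h2, h3⟩ := comb_inj hm hag
    have h4 : eE = eE' := by
      have := mask_eq_iff.2 h2
      have ha : mask ((m - 2) / 2) eE = eE := hE.1
      have hb : mask ((m - 2) / 2) eE' = eE' := hE'.1
      rw [← ha, ← hb, this]
    have h5 : eO = eO' := by
      have := mask_eq_iff.2 h3
      have ha : mask ((m - 1) / 2) eO = eO := hO.1
      have hb : mask ((m - 1) / 2) eO' = eO' := hO'.1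
      rw [← ha, ← hb, this]
    have h1' : ς = ς' := h1
    rw [h1', h4, h5]
  · rintro e ⟨hme, he, hσ⟩
    obtain ⟨ς, eE, eO, hag, hE, hO, hς⟩ := hs e he
    rw [hσ] at hag hE hO
    refine ⟨⟨ς, mask ((m - 2) / 2) eE, mask ((m - 1) / 2) eO⟩,
      ⟨hς, ⟨mask_mask _ _, hE.mask⟩, ⟨mask_mask _ _, hO.mask⟩⟩, ?_⟩
    show mask m (comb m σ ς (mask ((m - 2) / 2) eE) (mask ((m - 1) / 2) eO)) = e
    rw [← hme]
    apply mask_eq_iff.2
    exact (hag.trans (comb_agree (agree_mask _ _) (agree_mask _ _))).symm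

theorem ncard_SigSet {q x y : ℝ} {m : ℕ} (h : Adm q x y) (hm : 3 ≤ m) (σ : Bool)
    (hne : ∃ e, IsMax q m x y e ∧ e 0 1 = σ) :
    (SigSet q m x y σ).ncard = (EndSet x y).ncard
      * (Nmax (q ^ 2) ((m - 2) / 2) (strip q σ x) (yE q m σ y)
        * Nmax (q ^ 2) ((m - 1) / 2) (opp q σ x) (yO q m σ y)) :=
  ncard_SigSet_of h.sq_ne_one hm (fun _ he => struct h hm he) σ hne

lemma MaxSet_eq_union (q : ℝ) (m : ℕ) (x y : ℝ) :
    MaxSet q m x y = SigSet q m x y true ∪ SigSet q m x y false := by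
  ext e
  constructor
  · intro h
    cases hc : e 0 1
    · exact Or.inr ⟨h.1, h.2, hc⟩
    · exact Or.inl ⟨h.1, h.2, hc⟩
  · rintro (h | h)
    · exact ⟨h.1, h.2.1⟩
    · exact ⟨h.1, h.2.1⟩

lemma SigSet_finite (q : ℝ) (m : ℕ) (x y : ℝ) (σ : Bool) : (SigSet q m x y σ).Finite :=
  (finite_masked m).subset fun _ h => h.1

lemma Nmax_eq_add (q : ℝ) (m : ℕ) (x y : ℝ) :
    Nmax q m x y = (SigSet q m x y true).ncard + (SigSet q m x y false).ncard := by
  rw [Nmax_eq, MaxSet_eq_union, Set.ncard_union_eq ?_ (SigSet_finite _ _ _ _ _)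
    (SigSet_finite _ _ _ _ _)]
  rw [Set.disjoint_left]
  intro e h1 h2
  have := h1.2.2
  have := h2.2.2
  simp_all

/-- the number of maximisers if the two fields do not balance. -/
theorem Nmax_forced {q x y : ℝ} {m : ℕ} (h : Adm q x y) (hm : 3 ≤ m)
    (hx0 : x + (-1) ^ (m + 1) * y ≠ 0) :
    ∃ σ : Bool, Nmax q m x y = (EndSet x y).ncard
      * (Nmax (q ^ 2) ((m - 2) / 2) (strip q σ x) (yE q m σ y)
        * Nmax (q ^ 2) ((m - 1) / 2) (opp q σ x) (yO q m σ y)) := by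
  obtain ⟨e0, he0⟩ := exists_isMax q m x y
  have hb := h.bounds
  have hor : ∀ e, IsMax q m x y e → 0 < sg (e 0 1) * (x + (-1) ^ (m + 1) * y) := by
    intro e he
    obtain ⟨ς, eE, eO, hag, _, _, _⟩ := struct h hm he
    exact orient hb.1 hb.2.1 hb.2.2.1 hb.2.2.2 (by omega) hx0 (alt_of_agree_comb hm hag) he
  refine ⟨e0 0 1, ?_⟩
  rw [← ncard_SigSet h hm (e0 0 1) ⟨e0, he0, rfl⟩, Nmax_eq]
  congr 1
  ext e
  constructor
  · intro he
    refine ⟨he.1, he.2, ?_⟩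
    have h1 := hor e he.2
    have h2 := hor e0 he0
    by_contra hne
    rw [sg_ne hne] at h1
    linarith
  · intro he
    exact ⟨he.1, he.2.1⟩

/-- the number of maximisers for equal fields and even length. -/
theorem Nmax_even_sym {q x : ℝ} {m : ℕ} (h : Adm q x x) (hm : 3 ≤ m) (hev : m % 2 = 0) :
    Nmax q m x x = (EndSet x x).ncard
      * (Nmax (q ^ 2) ((m - 2) / 2) (strip q true x) (yE q m true x)
        * Nmax (q ^ 2) ((m - 1) / 2) (opp q true x) (yO q m true x))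
      + (EndSet x x).ncard
      * (Nmax (q ^ 2) ((m - 2) / 2) (strip q false x) (yE q m false x)
        * Nmax (q ^ 2) ((m - 1) / 2) (opp q false x) (yO q m false x)) := by
  obtain ⟨e0, he0⟩ := exists_isMax q m x x
  -- the reversed array
  have hrev : IsMax q m x x (rev m e0) := he0.of_F_eq (F_rev q m x x e0)
  have hr01 : (rev m e0) 0 1 = !(e0 0 1) := by
    obtain ⟨ς, eE, eO, hag, _, _, _⟩ := struct h hm he0
    have hp := (alt_of_agree_comb hm hag).parity (m - 2) (by omega)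
    have hm1 : m - 2 + 1 = m - 1 := by omega
    rw [hm1, if_pos (by omega)] at hp
    unfold rev
    show (!(e0 (m - 2) (m - 1))) = _
    rw [hp]
  have hex : ∀ σ : Bool, ∃ e, IsMax q m x x e ∧ e 0 1 = σ := by
    intro σ
    by_cases hc : e0 0 1 = σ
    · exact ⟨e0, he0, hc⟩
    · refine ⟨rev m e0, hrev, ?_⟩
      rw [hr01]
      cases hs : e0 0 1 <;> cases σ <;> simp_all
  rw [Nmax_eq_add, ncard_SigSet h hm true (hex true), ncard_SigSet h hm false (hex false)]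

lemma EndSet_sym (x : ℝ) : (EndSet x x).ncard = 2 := by
  have : EndSet x x = Set.univ := by
    ext ς
    simp [EndSet]
  rw [this, Set.ncard_univ]
  simp

lemma EndSet_ne {x y : ℝ} (hne : x ≠ y) : (EndSet x y).ncard = 1 := by
  rw [Set.ncard_eq_one]
  rcases lt_or_gt_of_ne hne with h | h
  · refine ⟨false, ?_⟩
    ext ς
    cases ς
    · simp [EndSet]; linarith
    · simp [EndSet]; linarith
  · refine ⟨true, ?_⟩
    ext ς
    cases ς
    · simp [EndSet]; linarith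
    · simp [EndSet]; linarith

/-! ### small sizes -/

lemma Nmax_zero (q x y : ℝ) : Nmax q 0 x y = 1 := by
  rw [Nmax_eq, Set.ncard_eq_one]
  refine ⟨fun _ _ => false, ?_⟩
  ext e
  constructor
  · intro h
    have h1 : mask 0 e = e := h.1
    rw [Set.mem_singleton_iff, ← h1]
    funext i j
    simp [mask]
  · rintro rfl
    refine ⟨?_, ?_⟩
    · funext i j; simp [mask]
    · intro e'
      simp [F]

lemma Nmax_one (q x y : ℝ) : Nmax q 1 x y = 1 := by
  rw [Nmax_eq, Set.ncard_eq_one]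
  refine ⟨fun _ _ => false, ?_⟩
  ext e
  constructor
  · intro h
    have h1 : mask 1 e = e := h.1
    rw [Set.mem_singleton_iff, ← h1]
    funext i j
    unfold mask
    rw [if_neg (by omega)]
  · rintro rfl
    refine ⟨?_, ?_⟩
    · funext i j; simp [mask]
    · intro e'
      apply le_of_eq
      apply F_congr
      intro i j hi hj
      omega

lemma F_two (q x y : ℝ) (e : Rel) :
    F q 2 x y e = 2 * q ^ 3 * (x * y) + q ^ 2 * (sg (e 0 1) * (x - y)) := by
  unfold F av bv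
  have h1 : Ico (0 + 1) 2 = {1} := by decide
  have h2 : Ico (1 + 1) 2 = ∅ := by decide
  rw [sum_range_succ, sum_range_one, h1, h2]
  simp only [sum_singleton, range_zero, sum_empty, range_one]
  norm_num
  ring

lemma isMax_two {q x y : ℝ} (hq : 0 < q) {e : Rel} :
    IsMax q 2 x y e ↔ 0 ≤ sg (e 0 1) * (x - y) := by
  constructor
  · intro h
    have h1 := h (fun i j => !(e i j))
    rw [F_two, F_two] at h1
    simp only [sg_not] at h1
    have h2 : 0 < q ^ 2 := by positivity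
    by_contra hc
    rw [not_le] at hc
    nlinarith
  · intro h e'
    rw [F_two, F_two, sg_mul_eq_abs h]
    have h1 := sg_mul_le_abs (e' 0 1) (x - y)
    have h2 : 0 ≤ q ^ 2 := by positivity
    nlinarith

/-- the two masked arrays of length 2 -/
def arr2 (b : Bool) : Rel := fun i j => if i = 0 ∧ j = 1 then b else false

lemma Nmax_two {q x y : ℝ} (hq : 0 < q) : Nmax q 2 x y = (EndSet x y).ncard := by
  rw [Nmax_eq]
  symm
  refine Set.ncard_congr (fun b _ => arr2 b) ?_ ?_ ?_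
  · intro b hb
    refine ⟨?_, ?_⟩
    · funext i j
      unfold mask arr2
      by_cases h : i = 0 ∧ j = 1
      · obtain ⟨rfl, rfl⟩ := h
        simp
      · simp only [if_neg h, ite_self]
    · rw [isMax_two hq]
      exact hb
  · intro b b' _ _ h
    have := congrFun (congrFun h 0) 1
    simpa [arr2] using this
  · intro e he
    refine ⟨e 0 1, (isMax_two hq).1 he.2, ?_⟩
    have h1 : mask 2 e = e := he.1
    funext i j
    unfold arr2
    by_cases h : i = 0 ∧ j = 1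
    · obtain ⟨rfl, rfl⟩ := h
      simp
    · rw [if_neg h, ← h1]
      unfold mask
      rw [if_neg (by omega)]

/-! ### valuations -/

def qQ (l : ℕ) : ℚ := (1 / 2) ^ (2 ^ l)
def gQ (l : ℕ) : ℚ := qQ l / (1 - qQ l ^ 2)
def sQ (b : Bool) : ℚ := if b then 1 else -1
def stripQ (l : ℕ) (σ : Bool) (x : ℚ) : ℚ := sQ σ * (1 - gQ l) + qQ l * x
def oppQ (l : ℕ) (σ : Bool) (x : ℚ) : ℚ := x + sQ σ * gQ l
def yEQ (l m : ℕ) (σ : Bool) (y : ℚ) : ℚ :=
  if m % 2 = 1 then stripQ l σ y else oppQ l (!σ) y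
def yOQ (l m : ℕ) (σ : Bool) (y : ℚ) : ℚ :=
  if m % 2 = 1 then oppQ l σ y else stripQ l (!σ) y

lemma cast_qQ (l : ℕ) : ((qQ l : ℚ) : ℝ) = qq l := by
  unfold qQ qq; push_cast; rfl

lemma cast_gQ (l : ℕ) : ((gQ l : ℚ) : ℝ) = gq (qq l) := by
  unfold gQ gq; push_cast; rw [cast_qQ]

lemma cast_sQ (b : Bool) : ((sQ b : ℚ) : ℝ) = sg b := by
  cases b <;> simp [sQ]

lemma cast_stripQ (l : ℕ) (σ : Bool) (x : ℚ) :
    ((stripQ l σ x : ℚ) : ℝ) = strip (qq l) σ x := by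
  unfold stripQ strip; push_cast; rw [cast_qQ, cast_gQ, cast_sQ]

lemma cast_oppQ (l : ℕ) (σ : Bool) (x : ℚ) :
    ((oppQ l σ x : ℚ) : ℝ) = opp (qq l) σ x := by
  unfold oppQ opp; push_cast; rw [cast_gQ, cast_sQ]

lemma cast_yEQ (l m : ℕ) (σ : Bool) (y : ℚ) :
    ((yEQ l m σ y : ℚ) : ℝ) = yE (qq l) m σ y := by
  unfold yEQ yE
  split_ifs
  · exact cast_stripQ _ _ _
  · exact cast_oppQ _ _ _

lemma cast_yOQ (l m : ℕ) (σ : Bool) (y : ℚ) :
    ((yOQ l m σ y : ℚ) : ℝ) = yO (qq l) m σ y := by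
  unfold yOQ yO
  split_ifs
  · exact cast_oppQ _ _ _
  · exact cast_stripQ _ _ _

lemma val_odd {z : ℤ} (hz : z % 2 = 1) : padicValRat 2 (z : ℚ) = 0 := by
  rw [padicValRat.of_int, padicValInt.eq_zero_of_not_dvd]
  · rfl
  · intro h
    have h' : (2 : ℤ) ∣ z := by exact_mod_cast h
    omega

lemma val_qQ (l : ℕ) : padicValRat 2 (qQ l) = -(2 ^ l : ℕ) := by
  have h : qQ l = ((((2 : ℕ) : ℚ)) ^ (2 ^ l))⁻¹ := by
    unfold qQ
    rw [one_div, inv_pow]
    norm_num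
  rw [h, padicValRat.self_pow_inv]

lemma qQ_ne (l : ℕ) : qQ l ≠ 0 := by
  unfold qQ; positivity

/-- `N = 2^(2^l)` as an integer -/
def NZ (l : ℕ) : ℤ := 2 ^ (2 ^ l)

lemma NZ_even (l : ℕ) : NZ l % 2 = 0 := by
  unfold NZ
  obtain ⟨k, hk⟩ : ∃ k, 2 ^ l = k + 1 := ⟨2 ^ l - 1, by
    have : 0 < 2 ^ l := by positivity
    omega⟩
  rw [hk, pow_succ]
  omega

lemma NZ_gt (l : ℕ) : 2 ≤ NZ l := by
  unfold NZ
  have h : 1 ≤ 2 ^ l := Nat.one_le_two_pow
  calc (2 : ℤ) = 2 ^ 1 := by norm_num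
    _ ≤ 2 ^ (2 ^ l) := pow_le_pow_right₀ (by norm_num) h

lemma qQ_eq (l : ℕ) : qQ l = ((NZ l : ℤ) : ℚ)⁻¹ := by
  unfold qQ NZ
  rw [one_div, inv_pow]
  push_cast
  rfl

lemma gQ_eq (l : ℕ) : gQ l = ((NZ l : ℤ) : ℚ) / ((NZ l ^ 2 - 1 : ℤ) : ℚ) := by
  unfold gQ
  rw [qQ_eq]
  have h := NZ_gt l
  have h1 : ((NZ l : ℤ) : ℚ) ≠ 0 := by
    have : NZ l ≠ 0 := by omega
    exact_mod_cast this
  have h2 : ((NZ l ^ 2 - 1 : ℤ) : ℚ) ≠ 0 := by
    have : NZ l ^ 2 - 1 ≠ 0 := by nlinarith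
    exact_mod_cast this
  push_cast at h2 ⊢
  have h3 : (1 : ℚ) - ((NZ l : ℚ)⁻¹) ^ 2 ≠ 0 := by
    have : (1 : ℚ) - ((NZ l : ℚ)⁻¹) ^ 2 = ((NZ l : ℚ) ^ 2 - 1) / (NZ l : ℚ) ^ 2 := by
      field_simp
    rw [this]
    exact div_ne_zero h2 (pow_ne_zero 2 h1)
  rw [div_eq_div_iff h3 h2]
  field_simp

lemma val_NZ (l : ℕ) : padicValRat 2 ((NZ l : ℤ) : ℚ) = (2 ^ l : ℕ) := by
  have h := val_qQ l
  rw [qQ_eq, padicValRat.inv] at h
  linarith

lemma sq_odd {z : ℤ} (hz : z % 2 = 0) : (z ^ 2 - 1) % 2 = 1 := by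
  obtain ⟨k, hk⟩ : ∃ k, z = 2 * k := ⟨z / 2, by omega⟩
  subst hk
  have : (2 * k) ^ 2 = 2 * (2 * k ^ 2) := by ring
  omega

lemma sq_odd' {z : ℤ} (hz : z % 2 = 0) : (z ^ 2 - 1 - z) % 2 = 1 := by
  have := sq_odd hz
  omega

lemma NZ_sq_ne (l : ℕ) : ((NZ l ^ 2 - 1 : ℤ) : ℚ) ≠ 0 := by
  have h := NZ_gt l
  have : NZ l ^ 2 - 1 ≠ 0 := by nlinarith
  exact_mod_cast this

lemma NZ_ne (l : ℕ) : ((NZ l : ℤ) : ℚ) ≠ 0 := by
  have h := NZ_gt l
  have : NZ l ≠ 0 := by omega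
  exact_mod_cast this

lemma gQ_ne (l : ℕ) : gQ l ≠ 0 := by
  rw [gQ_eq]
  exact div_ne_zero (NZ_ne l) (NZ_sq_ne l)

lemma val_gQ (l : ℕ) : padicValRat 2 (gQ l) = (2 ^ l : ℕ) := by
  rw [gQ_eq, padicValRat.div (NZ_ne l) (NZ_sq_ne l), val_NZ, val_odd (sq_odd (NZ_even l))]
  simp

lemma one_sub_gQ (l : ℕ) : 1 - gQ l = ((NZ l ^ 2 - 1 - NZ l : ℤ) : ℚ) / ((NZ l ^ 2 - 1 : ℤ) : ℚ) := by
  rw [gQ_eq]
  have h := NZ_sq_ne l
  rw [eq_div_iff h, sub_mul, div_mul_cancel₀ _ h]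
  push_cast
  ring

lemma one_sub_gQ_ne (l : ℕ) : 1 - gQ l ≠ 0 := by
  rw [one_sub_gQ]
  refine div_ne_zero ?_ (NZ_sq_ne l)
  have h := sq_odd' (NZ_even l)
  have : NZ l ^ 2 - 1 - NZ l ≠ 0 := by omega
  exact_mod_cast this

lemma val_one_sub_gQ (l : ℕ) : padicValRat 2 (1 - gQ l) = 0 := by
  have h := sq_odd' (NZ_even l)
  have h0 : ((NZ l ^ 2 - 1 - NZ l : ℤ) : ℚ) ≠ 0 := by
    have : NZ l ^ 2 - 1 - NZ l ≠ 0 := by omega
    exact_mod_cast this
  rw [one_sub_gQ, padicValRat.div h0 (NZ_sq_ne l), val_odd h, val_odd (sq_odd (NZ_even l))]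
  simp

lemma sQ_ne (b : Bool) : sQ b ≠ 0 := by cases b <;> simp [sQ]

lemma val_sQ_mul (b : Bool) (z : ℚ) : padicValRat 2 (sQ b * z) = padicValRat 2 z := by
  cases b
  · simp [sQ]
  · simp [sQ]

/-- valuation of a sum of two nonzero rationals with different valuations -/
lemma val_add {a b : ℚ} (ha : a ≠ 0) (hb : b ≠ 0)
    (h : padicValRat 2 a < padicValRat 2 b) :
    a + b ≠ 0 ∧ padicValRat 2 (a + b) = padicValRat 2 a := by
  have hne : a + b ≠ 0 := by
    intro h0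
    have : a = -b := by linarith
    rw [this, padicValRat.neg] at h
    exact lt_irrefl _ h
  exact ⟨hne, padicValRat.add_eq_of_lt hne ha hb h⟩

lemma val_oppQ {l : ℕ} {σ : Bool} {x : ℚ} (hx : x ≠ 0) (hv : padicValRat 2 x < 2 ^ l) :
    oppQ l σ x ≠ 0 ∧ padicValRat 2 (oppQ l σ x) = padicValRat 2 x := by
  unfold oppQ
  refine val_add hx (mul_ne_zero (sQ_ne _) (gQ_ne _)) ?_
  rw [val_sQ_mul, val_gQ]
  push_cast
  exact hv

lemma val_stripQ {l : ℕ} {σ : Bool} {x : ℚ} (hx : x ≠ 0) (hv : padicValRat 2 x < 2 ^ l) :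
    stripQ l σ x ≠ 0 ∧ padicValRat 2 (stripQ l σ x) = padicValRat 2 x - 2 ^ l := by
  have h1 : padicValRat 2 (qQ l * x) = padicValRat 2 x - 2 ^ l := by
    rw [padicValRat.mul (qQ_ne l) hx, val_qQ]
    push_cast
    ring
  have h := val_add (a := qQ l * x) (b := sQ σ * (1 - gQ l)) (mul_ne_zero (qQ_ne l) hx)
    (mul_ne_zero (sQ_ne _) (one_sub_gQ_ne l)) (by
      rw [val_sQ_mul, val_one_sub_gQ, h1]
      linarith)
  unfold stripQ
  rw [add_comm (sQ σ * (1 - gQ l))]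
  rw [h1] at h
  exact h

/-- generic pair of rational fields at level `l` -/
def Gen (l : ℕ) (x y : ℚ) : Prop :=
  x ≠ 0 ∧ y ≠ 0 ∧ padicValRat 2 x < 2 ^ l ∧ padicValRat 2 y < 2 ^ l ∧
  ∃ k < l, (padicValRat 2 x - padicValRat 2 y) % 2 ^ (k + 1) = 2 ^ k

lemma mod_add_pow {a : ℤ} {k l : ℕ} (h : k < l) :
    (a + 2 ^ l) % 2 ^ (k + 1) = a % 2 ^ (k + 1) ∧ (a - 2 ^ l) % 2 ^ (k + 1) = a % 2 ^ (k + 1) := by
  have hd : (2 : ℤ) ^ (k + 1) ∣ 2 ^ l := pow_dvd_pow 2 (by omega)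
  obtain ⟨c, hc⟩ := hd
  constructor
  · rw [hc]; exact Int.add_mul_emod_self_left _ _ _
  · rw [hc, sub_eq_add_neg, ← mul_neg]; exact Int.add_mul_emod_self_left _ _ _

lemma two_pow_pos_int (l : ℕ) : (0 : ℤ) < 2 ^ l := by positivity

lemma pow_lt_int (l : ℕ) : (2 : ℤ) ^ l < 2 ^ (l + 1) := by
  rw [pow_succ]; have := two_pow_pos_int l; linarith

lemma Gen.step {l : ℕ} {x y : ℚ} (h : Gen l x y) (m : ℕ) (σ : Bool) :
    Gen (l + 1) (stripQ l σ x) (yEQ l m σ y) ∧ Gen (l + 1) (oppQ l σ x) (yOQ l m σ y) := by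
  obtain ⟨hx, hy, hvx, hvy, k, hk, hmod⟩ := h
  have hsx := val_stripQ (σ := σ) hx hvx
  have hox := val_oppQ (σ := σ) hx hvx
  have hsy := val_stripQ (σ := σ) hy hvy
  have hoy := val_oppQ (σ := σ) hy hvy
  have hsy' := val_stripQ (σ := !σ) hy hvy
  have hoy' := val_oppQ (σ := !σ) hy hvy
  have hp := two_pow_pos_int l
  have hp' := pow_lt_int l
  by_cases hm : m % 2 = 1
  · simp only [yEQ, yOQ, if_pos hm]
    constructor
    · refine ⟨hsx.1, hsy.1, ?_, ?_, k, by omega, ?_⟩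
      · rw [hsx.2]; linarith
      · rw [hsy.2]; linarith
      · rw [hsx.2, hsy.2]
        have : padicValRat 2 x - 2 ^ l - (padicValRat 2 y - 2 ^ l)
            = padicValRat 2 x - padicValRat 2 y := by ring
        rw [this, hmod]
    · refine ⟨hox.1, hoy.1, ?_, ?_, k, by omega, ?_⟩
      · rw [hox.2]; linarith
      · rw [hoy.2]; linarith
      · rw [hox.2, hoy.2, hmod]
  · simp only [yEQ, yOQ, if_neg hm]
    constructor
    · refine ⟨hsx.1, hoy'.1, ?_, ?_, k, by omega, ?_⟩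
      · rw [hsx.2]; linarith
      · rw [hoy'.2]; linarith
      · rw [hsx.2, hoy'.2]
        have : padicValRat 2 x - 2 ^ l - padicValRat 2 y
            = padicValRat 2 x - padicValRat 2 y - 2 ^ l := by ring
        rw [this, (mod_add_pow hk).2, hmod]
    · refine ⟨hox.1, hsy'.1, ?_, ?_, k, by omega, ?_⟩
      · rw [hox.2]; linarith
      · rw [hsy'.2]; linarith
      · rw [hox.2, hsy'.2]
        have : padicValRat 2 x - (padicValRat 2 y - 2 ^ l)
            = padicValRat 2 x - padicValRat 2 y + 2 ^ l := by ring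
        rw [this, (mod_add_pow hk).1, hmod]

lemma Gen.val_ne {l : ℕ} {x y : ℚ} (h : Gen l x y) : padicValRat 2 x ≠ padicValRat 2 y := by
  obtain ⟨_, _, _, _, k, _, hmod⟩ := h
  intro heq
  rw [heq, sub_self, Int.zero_emod] at hmod
  have := two_pow_pos_int k
  linarith

lemma Gen.ne {l : ℕ} {x y : ℚ} (h : Gen l x y) : x ≠ y := by
  intro heq
  exact h.val_ne (by rw [heq])

lemma Gen.ne_neg {l : ℕ} {x y : ℚ} (h : Gen l x y) : x ≠ -y := by
  intro heq
  exact h.val_ne (by rw [heq, padicValRat.neg])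

lemma Gen.unbalanced {l : ℕ} {x y : ℚ} (h : Gen l x y) (m : ℕ) :
    ((x : ℝ) + (-1) ^ (m + 1) * (y : ℝ)) ≠ 0 := by
  rcases neg_one_pow_eq_or ℝ (m + 1) with h1 | h1
  · rw [h1]
    intro h0
    apply h.ne_neg
    have h2 : (x : ℝ) = ((-y : ℚ) : ℝ) := by push_cast; linarith
    exact_mod_cast h2
  · rw [h1]
    intro h0
    apply h.ne
    have h2 : (x : ℝ) = (y : ℝ) := by linarith
    exact_mod_cast h2

lemma Adm.stepQ {l : ℕ} {x y : ℚ} (h : Adm (qq l) x y) (m : ℕ) (σ : Bool) :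
    Adm (qq (l + 1)) (stripQ l σ x : ℚ) (yEQ l m σ y : ℚ) ∧
      Adm (qq (l + 1)) (oppQ l σ x : ℚ) (yOQ l m σ y : ℚ) := by
  rw [qq_succ, cast_stripQ, cast_oppQ, cast_yEQ, cast_yOQ]
  exact Adm.step h m σ

theorem count_gen {l : ℕ} (_hl : 1 ≤ l) {x y : ℚ} (hA : Adm (qq l) x y) (hg : Gen l x y) (m : ℕ) :
    Nmax (qq l) m x y = 1 := by
  induction m using Nat.strong_induction_on generalizing l x y with
  | _ m ih =>
    have hb := hA.bounds
    rcases Nat.lt_or_ge m 3 with hm | hm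
    · interval_cases m
      · exact Nmax_zero _ _ _
      · exact Nmax_one _ _ _
      · rw [Nmax_two hb.1]
        refine EndSet_ne ?_
        intro heq
        exact hg.ne (by exact_mod_cast heq)
    · obtain ⟨σ, hσ⟩ := Nmax_forced hA hm (hg.unbalanced m)
      have hstep := hg.step m σ
      have hA' := Adm.stepQ hA m σ
      have h1 := ih ((m - 2) / 2) (by omega) (by omega : 1 ≤ l + 1) hA'.1 hstep.1
      have h2 := ih ((m - 1) / 2) (by omega) (by omega : 1 ≤ l + 1) hA'.2 hstep.2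
      rw [qq_succ, cast_stripQ, cast_yEQ] at h1
      rw [qq_succ, cast_oppQ, cast_yOQ] at h2
      rw [hσ, h1, h2, EndSet_ne]
      intro heq
      exact hg.ne (by exact_mod_cast heq)

/-- children of an even symmetric problem are generic -/
lemma gen_of_sym {l : ℕ} {x : ℚ} (hx : x ≠ 0) (hv : padicValRat 2 x < 2 ^ l) {m : ℕ}
    (hm : m % 2 = 0) (σ : Bool) :
    Gen (l + 1) (stripQ l σ x) (yEQ l m σ x) ∧ Gen (l + 1) (oppQ l σ x) (yOQ l m σ x) := by
  have hsx := val_stripQ (σ := σ) hx hv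
  have hox := val_oppQ (σ := σ) hx hv
  have hsy' := val_stripQ (σ := !σ) hx hv
  have hoy' := val_oppQ (σ := !σ) hx hv
  have hp := two_pow_pos_int l
  have hp' := pow_lt_int l
  have hm1 : ¬ m % 2 = 1 := by omega
  simp only [yEQ, yOQ, if_neg hm1]
  constructor
  · refine ⟨hsx.1, hoy'.1, ?_, ?_, l, by omega, ?_⟩
    · rw [hsx.2]; linarith
    · rw [hoy'.2]; linarith
    · rw [hsx.2, hoy'.2]
      have h1 : padicValRat 2 x - 2 ^ l - padicValRat 2 x = 2 ^ l + 2 ^ (l + 1) * (-1) := by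
        rw [pow_succ]; ring
      rw [h1, Int.add_mul_emod_self_left]
      exact Int.emod_eq_of_lt hp.le hp'
  · refine ⟨hox.1, hsy'.1, ?_, ?_, l, by omega, ?_⟩
    · rw [hox.2]; linarith
    · rw [hsy'.2]; linarith
    · rw [hox.2, hsy'.2]
      have h1 : padicValRat 2 x - (padicValRat 2 x - 2 ^ l) = 2 ^ l := by ring
      rw [h1]
      exact Int.emod_eq_of_lt hp.le hp'

theorem count_sym {l : ℕ} (hl : 1 ≤ l) {x : ℚ} (hx : x ≠ 0) (hA : Adm (qq l) x x)
    (hv : padicValRat 2 x < 2 ^ l) (m : ℕ) : Nmax (qq l) m x x = NN m := by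
  induction m using Nat.strong_induction_on generalizing l x with
  | _ m ih =>
    have hb := hA.bounds
    rcases Nat.lt_or_ge m 3 with hm | hm
    · interval_cases m
      · rw [Nmax_zero, NN]
      · rw [Nmax_one, NN]
      · rw [Nmax_two hb.1, EndSet_sym, NN]
    · obtain ⟨n, rfl⟩ : ∃ n, m = n + 3 := ⟨m - 3, by omega⟩
      rw [NN]
      by_cases hn : n % 2 = 1
      · rw [if_pos hn, Nmax_even_sym hA hm (by omega), EndSet_sym]
        have hcount : ∀ σ : Bool,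
            Nmax (qq l ^ 2) ((n + 3 - 2) / 2) (strip (qq l) σ x) (yE (qq l) (n + 3) σ x) = 1 ∧
            Nmax (qq l ^ 2) ((n + 3 - 1) / 2) (opp (qq l) σ x) (yO (qq l) (n + 3) σ x) = 1 := by
          intro σ
          have hg := gen_of_sym hx hv (m := n + 3) (by omega) σ
          have hA' := Adm.stepQ hA (n + 3) σ
          have h1 := count_gen (by omega : 1 ≤ l + 1) hA'.1 hg.1 ((n + 3 - 2) / 2)
          have h2 := count_gen (by omega : 1 ≤ l + 1) hA'.2 hg.2 ((n + 3 - 1) / 2)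
          rw [qq_succ, cast_stripQ, cast_yEQ] at h1
          rw [qq_succ, cast_oppQ, cast_yOQ] at h2
          exact ⟨h1, h2⟩
        rw [(hcount true).1, (hcount true).2, (hcount false).1, (hcount false).2]
      · rw [if_neg hn]
        have hpow : (-1 : ℝ) ^ (n + 3 + 1) = 1 := by
          have : Even (n + 3 + 1) := by
            rw [Nat.even_iff]; omega
          exact this.neg_one_pow
        obtain ⟨σ, hσ⟩ := Nmax_forced hA hm (by
          rw [hpow, one_mul]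
          have : (x : ℝ) ≠ 0 := by exact_mod_cast hx
          intro h0
          apply this
          linarith)
        rw [hσ, EndSet_sym]
        have hsx := val_stripQ (σ := σ) hx hv
        have hox := val_oppQ (σ := σ) hx hv
        have hp := two_pow_pos_int l
        have hp' := pow_lt_int l
        have hA' := Adm.stepQ hA (n + 3) σ
        have hodd : (n + 3) % 2 = 1 := by omega
        have hyE : yEQ l (n + 3) σ x = stripQ l σ x := by rw [yEQ, if_pos hodd]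
        have hyO : yOQ l (n + 3) σ x = oppQ l σ x := by rw [yOQ, if_pos hodd]
        rw [hyE, hyO] at hA'
        have h1 := ih ((n + 3 - 2) / 2) (by omega) (by omega : 1 ≤ l + 1) hsx.1 hA'.1
          (by rw [hsx.2]; linarith)
        have h2 := ih ((n + 3 - 1) / 2) (by omega) (by omega : 1 ≤ l + 1) hox.1 hA'.2
          (by rw [hox.2]; linarith)
        rw [qq_succ, cast_stripQ] at h1
        rw [qq_succ, cast_oppQ] at h2
        have hyE' : yE (qq l) (n + 3) σ x = strip (qq l) σ x := by rw [yE, if_pos hodd]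
        have hyO' : yO (qq l) (n + 3) σ x = opp (qq l) σ x := by rw [yO, if_pos hodd]
        rw [hyE', hyO', h1, h2]
        have e1 : (n + 3 - 2) / 2 = n / 2 := by omega
        have e2 : (n + 3 - 1) / 2 = (n + 2) / 2 := by omega
        rw [e1, e2]
        ring

/-! ### the numbers `NN` -/

lemma NN_even {k : ℕ} (hk : 2 ≤ k) : NN (2 * k) = 4 := by
  obtain ⟨n, hn⟩ : ∃ n, 2 * k = n + 3 := ⟨2 * k - 3, by omega⟩
  rw [hn, NN, if_pos (by omega)]

lemma NN_odd {k : ℕ} (hk : 1 ≤ k) : NN (2 * k + 1) = 2 * NN k * NN (k - 1) := by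
  obtain ⟨n, hn⟩ : ∃ n, 2 * k + 1 = n + 3 := ⟨2 * k - 2, by omega⟩
  rw [hn, NN, if_neg (by omega)]
  have e1 : (n + 2) / 2 = k := by omega
  have e2 : n / 2 = k - 1 := by omega
  rw [e1, e2]

theorem NN_pow (k : ℕ) (hk : 1 ≤ k) : ∃ j ≤ k - 1, NN k * NN (k - 1) = 2 ^ j := by
  induction k using Nat.strong_induction_on with
  | _ k ih =>
    rcases Nat.lt_or_ge k 3 with h3 | h3
    · interval_cases k
      · exact ⟨0, by omega, by simp [NN]⟩
      · exact ⟨1, by omega, by simp [NN]⟩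
    · rcases Nat.even_or_odd' k with ⟨a, ha | ha⟩
      · -- `k = 2a`, `a ≥ 2`
        subst ha
        obtain ⟨j, hj, hj2⟩ := ih (a - 1) (by omega) (by omega)
        have e1 : 2 * a - 1 = 2 * (a - 1) + 1 := by omega
        refine ⟨j + 3, by omega, ?_⟩
        rw [e1, NN_even (by omega), NN_odd (by omega), mul_assoc 2, hj2]
        ring
      · subst ha
        obtain ⟨j, hj, hj2⟩ := ih a (by omega) (by omega)
        have e1 : 2 * a + 1 - 1 = 2 * a := by omega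
        rw [e1, NN_odd (by omega), mul_assoc 2, hj2]
        rcases Nat.lt_or_ge a 2 with h | h
        · have : a = 1 := by omega
          subst this
          refine ⟨j + 2, by omega, ?_⟩
          have : NN (2 * 1) = 2 := by simp [NN]
          rw [this]
          ring
        · refine ⟨j + 3, by omega, ?_⟩
          rw [NN_even h]
          ring

end Pool.Agent.RC
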