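import Pool.Agent.Work.MP_b9e699_co.Base

/-!
# Roller Coaster permutations: combined arrays, admissible fields, the recursion
-/

open Finset

namespace Pool.Agent.RC

/-- critical field. -/
noncomputable def kap (q : ℝ) : ℝ := (1 - 2 * q) / (1 - q)

noncomputable def gq (q : ℝ) : ℝ := q / (1 - q ^ 2)

/-- `∑_{r=1}^n Q^r` -/
noncomputable def SS (Q : ℝ) (n : ℕ) : ℝ := ∑ r ∈ range n, Q ^ (r + 1)

/-- `∑_{d=1}^n (-1)^(d-1) q^d` -/
noncomputable def RR (q : ℝ) (n : ℕ) : ℝ := ∑ d ∈ range n, (-1) ^ d * q ^ (d + 1)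

/-- alternating separated array of length `m`: even positions have type `σ` (`true` = upper class),
odd positions have type `!σ`; the two end positions `0` and `m-1` lie between the classes; the
relation of the two ends is `ς`; `eE`, `eO` are the relations inside the interior even
(`2,4,…`) and odd (`1,3,…`) positions. -/
def comb (m : ℕ) (σ ς : Bool) (eE eO : Rel) : Rel := fun i j =>
  if i = 0 then
    if j + 1 = m then ς else if j % 2 = 0 then !σ else σ
  else if j + 1 = m then
    if i % 2 = 0 then σ else !σ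
  else if i % 2 = j % 2 then
    if i % 2 = 0 then eE ((i - 2) / 2) ((j - 2) / 2) else eO ((i - 1) / 2) ((j - 1) / 2)
  else if i % 2 = 0 then σ else !σ

/-- new field of the class which contains the end (after removing the end). -/
noncomputable def strip (q : ℝ) (σ : Bool) (x : ℝ) : ℝ := sg σ * (1 - gq q) + q * x

/-- new field of the class opposite to the end of type `σ`. -/
noncomputable def opp (q : ℝ) (σ : Bool) (x : ℝ) : ℝ := x + sg σ * gq q

/-- type of the last position. -/
def rt (m : ℕ) (σ : Bool) : Bool := if m % 2 = 1 then σ else !σ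

/-- right field of the even class. -/
noncomputable def yE (q : ℝ) (m : ℕ) (σ : Bool) (y : ℝ) : ℝ :=
  if m % 2 = 1 then strip q σ y else opp q (!σ) y

/-- right field of the odd class. -/
noncomputable def yO (q : ℝ) (m : ℕ) (σ : Bool) (y : ℝ) : ℝ :=
  if m % 2 = 1 then opp q σ y else strip q (!σ) y

/-- explicit part of `F` of a combined array. -/
noncomputable def Ex (q : ℝ) (m : ℕ) (x y : ℝ) (σ : Bool) : ℝ :=
  ((m : ℝ) - 2) * gq q ^ 2
    + sg σ * gq q * ((strip q σ x + yE q m σ y) * SS (q ^ 2) ((m - 2) / 2)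
        - (opp q σ x + yO q m σ y) * SS (q ^ 2) ((m - 1) / 2))
    + q * (sg σ * x + sg (rt m σ) * y) * RR q (m - 2)
    + 2 * q ^ (m + 1) * x * y

/-- value of the best combined array with left type `σ`. -/
noncomputable def Val (q : ℝ) (m : ℕ) (x y : ℝ) (σ : Bool) : ℝ :=
  Ex q m x y σ + q ^ m * |x - y|
    + V (q ^ 2) ((m - 2) / 2) (strip q σ x) (yE q m σ y)
    + V (q ^ 2) ((m - 1) / 2) (opp q σ x) (yO q m σ y)

/-- the admissible pairs of fields. -/
def Adm (q x y : ℝ) : Prop :=
  (q = 1 / 4 ∧ (|x| = 1 / 3 ∨ |x| = 2 / 3) ∧ (|y| = 1 / 3 ∨ |y| = 2 / 3)) ∨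
  (0 < q ∧ q ≤ 1 / 16 ∧ |x| ≤ kap q ∧ |y| ≤ kap q)

/-- number of maximisers (arrays that vanish outside `i < j < m`). -/
noncomputable def Nmax (q : ℝ) (m : ℕ) (x y : ℝ) : ℕ :=
  Set.ncard {e : Rel | mask m e = e ∧ IsMax q m x y e}

/-- the bases `2^(-2^l)`. -/
noncomputable def qq (l : ℕ) : ℝ := (1 / 2) ^ (2 ^ l)

lemma qq_succ (l : ℕ) : qq (l + 1) = qq l ^ 2 := by
  unfold qq; rw [pow_succ 2 l, pow_mul]

/-- number of maximisers of a symmetric problem. -/
def NN : ℕ → ℕ
  | 0 => 1
  | 1 => 1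
  | 2 => 2
  | (m + 3) => if m % 2 = 1 then 4 else 2 * NN ((m + 2) / 2) * NN (m / 2)
decreasing_by all_goals omega

/-- `e` is a linear order on the positions `< m`, with height function `h`. -/
def Lin (m : ℕ) (e : Rel) : Prop :=
  ∃ h : ℕ → ℤ, (∀ i j, i < m → j < m → i ≠ j → h i ≠ h j) ∧
    ∀ i j, i < j → j < m → (e i j = true ↔ h j < h i)

/-- value of the best slope-free array at the top level. -/
noncomputable def V0 (n : ℕ) : ℝ := Val (1 / 2) n 0 0 true

/-- `e` is alternating up to length `n`. -/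
def Alt (n : ℕ) (e : Rel) : Prop := ∀ t, 1 ≤ t → t + 1 < n → e t (t + 1) ≠ e (t - 1) t

/-- no two adjacent slopes. -/
def Iso (n : ℕ) (e : Rel) : Prop :=
  ∀ t, 1 ≤ t → t + 2 < n → ¬ (e (t - 1) t = e t (t + 1) ∧ e t (t + 1) = e (t + 1) (t + 2))

/-- number of slopes. -/
def nsl (n : ℕ) (e : Rel) : ℕ := ((Ico 1 (n - 1)).filter (fun t => e (t - 1) t = e t (t + 1))).card

/-- the class of arrays with exactly `k` slopes, no two adjacent. -/
def Cls (k n : ℕ) (e : Rel) : Prop := Iso n e ∧ nsl n e = k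

/-- lower bound for the slope cost, one slope. -/
noncomputable def pi1 (n : ℕ) : ℝ := if n = 4 then 7 / 16 else if n = 5 then 13 / 32 else 1 / 3

/-- upper bound for one slope. -/
noncomputable def U1 (n : ℕ) : ℝ := (1 / 3) * V0 (n - 1) + (2 / 3) * V0 (n + 1) - (2 / 3) * pi1 n

end Pool.Agent.RC
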