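import Pool.Agent.Work.MP_b9e699_co.NuTop

/-!
# Roller Coaster permutations, numerics: `num1`, `num2`
-/

open Finset

namespace Pool.Agent.RC.NU

/-! ### the explicit part in rational numbers -/

def e1Q (q : ℚ) : ℚ := q ^ 2 * (1 - q - q ^ 2) / ((1 - q) * (1 + q) ^ 2)
def TTQ (m : ℕ) (x y : ℚ) (σ : Bool) : ℚ := sgQ σ * x + sgQ (rt m σ) * y
def MMQ (m : ℕ) (x y : ℚ) (σ : Bool) : ℚ :=
  e1Q (1 / 4) * TTQ m x y σ + e1Q (1 / 16) *
    (rabs (TTQ ((m - 2) / 2) (stripQ (1 / 4) σ x) (yEQ (1 / 4) m σ y) true)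
      + rabs (TTQ ((m - 1) / 2) (oppQ (1 / 4) σ x) (yOQ (1 / 4) m σ y) true))
def MXQ (m : ℕ) (x y : ℚ) : ℚ := rmax (MMQ m x y true) (MMQ m x y false)
def DQ (n : ℕ) : ℚ :=
  MXQ ((n - 2) / 2) (stripQ (1 / 2) true 0) (yEQ (1 / 2) n true 0)
    + MXQ ((n - 1) / 2) (oppQ (1 / 2) true 0) (yOQ (1 / 2) n true 0)

lemma e1Q_cast (q : ℚ) : ((e1Q q : ℚ) : ℝ) = e1 (q : ℝ) := by
  unfold e1Q e1; push_cast; ring

lemma TTQ_cast (m : ℕ) (x y : ℚ) (σ : Bool) :
    ((TTQ m x y σ : ℚ) : ℝ) = TT m (x : ℝ) (y : ℝ) σ := by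
  unfold TTQ TT; push_cast; rw [sgQ_cast, sgQ_cast]

lemma MMQ_cast (m : ℕ) (x y : ℚ) (σ : Bool) :
    ((MMQ m x y σ : ℚ) : ℝ) = MM m (x : ℝ) (y : ℝ) σ := by
  have c4 : (((1 / 4 : ℚ)) : ℝ) = qq 1 := by rw [qq_one]; norm_num
  have c16 : (((1 / 16 : ℚ)) : ℝ) = qq 2 := by rw [qq_two]; norm_num
  unfold MMQ MM
  rw [Rat.cast_add, Rat.cast_mul, Rat.cast_mul, Rat.cast_add, e1Q_cast, e1Q_cast, TTQ_cast,
    rabs_cast, rabs_cast, TTQ_cast, TTQ_cast, stripQ_cast, yEQ_cast, oppQ_cast, yOQ_cast, c4, c16]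

lemma MXQ_cast (m : ℕ) (x y : ℚ) :
    ((MXQ m x y : ℚ) : ℝ) = max (MM m (x : ℝ) (y : ℝ) true) (MM m (x : ℝ) (y : ℝ) false) := by
  unfold MXQ; rw [rmax_cast, MMQ_cast, MMQ_cast]

lemma rt_congr {m m' : ℕ} (h : m % 2 = m' % 2) (σ : Bool) : rt m σ = rt m' σ := by
  unfold rt; rw [h]

lemma MXQ_congr {m m' : ℕ} (hm : 4 ≤ m) (hm' : 4 ≤ m') (h : m % 4 = m' % 4) (x y : ℚ) :
    MXQ m x y = MXQ m' x y := by
  have h1 : m % 2 = m' % 2 := by omega
  have h2 : ((m - 2) / 2) % 2 = ((m' - 2) / 2) % 2 := by omega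
  have h3 : ((m - 1) / 2) % 2 = ((m' - 1) / 2) % 2 := by omega
  unfold MXQ MMQ TTQ yEQ yOQ
  simp only [rt_congr h1, rt_congr h2, rt_congr h3, h1]

lemma DQ_congr {n n' : ℕ} (hn : 10 ≤ n) (hn' : 10 ≤ n') (h : n % 8 = n' % 8) :
    DQ n = DQ n' := by
  have h1 : n % 2 = n' % 2 := by omega
  unfold DQ yEQ yOQ
  rw [h1]
  rw [MXQ_congr (m := (n - 2) / 2) (m' := (n' - 2) / 2) (by omega) (by omega) (by omega),
    MXQ_congr (m := (n - 1) / 2) (m' := (n' - 1) / 2) (by omega) (by omega) (by omega)]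

lemma Ex_top {n : ℕ} (hn : 3 ≤ n) :
    |Ex (1 / 2) n 0 0 true - (((n : ℝ) - 2) * (4 / 9) - 4 / 27)| ≤ (1 / 4) ^ ((n - 2) / 2) := by
  have hg := gq_half
  have hQ : ((1 / 2 : ℝ) ^ 2) ≠ 1 := by norm_num
  have hab : (1 / 4 : ℝ) ^ ((n - 1) / 2) ≤ (1 / 4) ^ ((n - 2) / 2) :=
    pow_le_pow_of_le_one (by norm_num) (by norm_num) (by omega)
  have ha0 : 0 < (1 / 4 : ℝ) ^ ((n - 2) / 2) := by positivity
  have hb0 : 0 < (1 / 4 : ℝ) ^ ((n - 1) / 2) := by positivity
  unfold Ex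
  rw [SS_eq hQ, SS_eq hQ, hg]
  have hq2 : ((1 / 2 : ℝ) ^ 2) = 1 / 4 := by norm_num
  rw [hq2]
  set a := (1 / 4 : ℝ) ^ ((n - 2) / 2)
  set b := (1 / 4 : ℝ) ^ ((n - 1) / 2)
  have hS : strip (1 / 2) true 0 = 1 / 3 := by unfold strip; rw [hg]; norm_num [sg]
  have hO : opp (1 / 2) true 0 = 2 / 3 := by unfold opp; rw [hg]; norm_num [sg]
  have hS' : strip (1 / 2) false 0 = -(1 / 3) := by unfold strip; rw [hg]; norm_num [sg]
  have hO' : opp (1 / 2) false 0 = -(2 / 3) := by unfold opp; rw [hg]; norm_num [sg]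
  unfold yE yO
  rw [hS, hO]
  by_cases hp : n % 2 = 1
  · simp only [hp, if_true, sg_true]
    rw [_root_.abs_le]
    constructor <;> linarith
  · simp only [hp, if_false, sg_true, Bool.not_true, hS', hO']
    rw [_root_.abs_le]
    constructor <;> linarith

theorem V0_approx {n : ℕ} (hn : 40 ≤ n) :
    |V0 n - n * vv 0 - (-2 * vv 0 - 4 / 27 - 4 * vv 1 - 8 * vv 2 + 4 * e0 (qq 1) + 8 * e0 (qq 2)
      + ((DQ n : ℚ) : ℝ))| ≤ 43 / 100000 := by
  have hA1 := adm_topE n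
  have hA2 := adm_topO n
  rw [← qq_one] at hA1 hA2
  have h1 := abs_le.1 (lvl1 (m := (n - 2) / 2) (by omega) hA1)
  have h2 := abs_le.1 (lvl1 (m := (n - 1) / 2) (by omega) hA2)
  have h3 := abs_le.1 (Ex_top (show 3 ≤ n by omega))
  have h4 : (1 / 4 : ℝ) ^ ((n - 2) / 2) ≤ (1 / 4) ^ 19 :=
    pow_le_pow_of_le_one (by norm_num) (by norm_num) (by omega)
  have hsum : (((n - 2) / 2 : ℕ) : ℝ) + (((n - 1) / 2 : ℕ) : ℝ) = (n : ℝ) - 2 := by
    have : (n - 2) / 2 + (n - 1) / 2 + 2 = n := by omega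
    have h' : (((n - 2) / 2 + (n - 1) / 2 + 2 : ℕ) : ℝ) = (n : ℝ) := by exact_mod_cast this
    push_cast at h' ⊢
    linarith
  have hv0 : vv 0 = 4 / 9 + vv 1 := by
    rw [vv_succ, qq_zero, gq_half]; norm_num
  have hq2 : ((1 / 2 : ℝ) ^ 2) = qq 1 := by rw [qq_one]; norm_num
  have c2 : (((1 / 2 : ℚ)) : ℝ) = 1 / 2 := by norm_num
  have hD : ((DQ n : ℚ) : ℝ) = max
      (MM ((n - 2) / 2) (strip (1 / 2) true 0) (yE (1 / 2) n true 0) true)
      (MM ((n - 2) / 2) (strip (1 / 2) true 0) (yE (1 / 2) n true 0) false)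
      + max (MM ((n - 1) / 2) (opp (1 / 2) true 0) (yO (1 / 2) n true 0) true)
      (MM ((n - 1) / 2) (opp (1 / 2) true 0) (yO (1 / 2) n true 0) false) := by
    unfold DQ
    rw [Rat.cast_add, MXQ_cast, MXQ_cast, stripQ_cast, yEQ_cast, oppQ_cast, yOQ_cast, c2]
    simp
  rw [hD]
  unfold V0 Val
  rw [hq2, hv0]
  have e : (n : ℝ) * (4 / 9 + vv 1) = ((n : ℝ) - 2) * (4 / 9) + 8 / 9 + 2 * vv 1
      + ((((n - 2) / 2 : ℕ) : ℝ) + (((n - 1) / 2 : ℕ) : ℝ)) * vv 1 := by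
    rw [hsum]; ring
  rw [e, _root_.abs_le]
  norm_num at h4
  simp only [sub_zero, abs_zero, mul_zero, add_zero]
  constructor <;> linarith [h1.1, h1.2, h2.1, h2.2, h3.1, h3.2]

/-! ### windows -/

lemma vv_vals : vv 0 = 4 / 9 + vv 1 ∧ vv 1 = 16 / 225 + vv 2 ∧ vv 2 = 256 / 65025 + vv 3 ∧
    vv 3 = 65536 / 4294836225 + vv 4 ∧ 0 ≤ vv 4 ∧ vv 4 ≤ 1 / 2147483648 := by
  refine ⟨?_, ?_, ?_, ?_, vv_nonneg 4, ?_⟩
  · rw [vv_succ, qq_zero, gq_half]; norm_num
  · rw [vv_succ, qq_one]; unfold gq; norm_num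
  · rw [vv_succ, qq_two]; unfold gq; norm_num
  · rw [vv_succ, qq_three]; unfold gq; norm_num
  · have := vv_le (show 1 ≤ 4 by norm_num)
    rw [qq_four] at this
    norm_num at this ⊢
    exact this

def cT (r : ℕ) : ℚ :=
  if r = 0 then -145199 / 100000
  else if r = 1 then -144981 / 100000
  else if r = 2 then -140792 / 100000
  else if r = 3 then -142582 / 100000
  else if r = 4 then -144211 / 100000
  else if r = 5 then -144716 / 100000
  else if r = 6 then -138840 / 100000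
  else -142192 / 100000

/-- `base` of the windows, a rational approximation. -/
def baseQ : ℚ := -148412796 / 100000000

theorem dq_check : (List.range 8).all (fun r =>
    decide (rabs (baseQ + DQ (40 + r) - cT r) ≤ 1 / 100000)) = true := by
  decide +kernel

lemma dq_window {r : ℕ} (hr : r < 8) : |(baseQ : ℝ) + ((DQ (40 + r) : ℚ) : ℝ) - (cT r : ℝ)| ≤
    1 / 100000 := by
  have h := dq_check
  rw [List.all_eq_true] at h
  have h2 := h r (List.mem_range.2 hr)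
  have h3 := of_decide_eq_true h2
  have h4 : ((rabs (baseQ + DQ (40 + r) - cT r) : ℚ) : ℝ) ≤ ((1 / 100000 : ℚ) : ℝ) := by
    exact_mod_cast h3
  rw [rabs_cast] at h4
  push_cast at h4
  exact h4

theorem V0_window {n : ℕ} (hn : 40 ≤ n) :
    |V0 n - n * vv 0 - (cT (n % 8) : ℝ)| ≤ 1 / 2000 := by
  have h := abs_le.1 (V0_approx hn)
  have hr : n % 8 < 8 := Nat.mod_lt _ (by norm_num)
  have h2 := abs_le.1 (dq_window hr)
  rw [DQ_congr (n := n) (n' := 40 + n % 8) (by omega) (by omega) (by omega)] at h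
  obtain ⟨v0, v1, v2, v3, v4, v5⟩ := vv_vals
  have hb : |(-2 * vv 0 - 4 / 27 - 4 * vv 1 - 8 * vv 2 + 4 * e0 (qq 1) + 8 * e0 (qq 2))
      - (baseQ : ℝ)| ≤ 1 / 100000 := by
    have e1' : e0 (qq 1) = 28 / 3375 := by rw [qq_one]; unfold e0 gq; norm_num
    have e2' : e0 (qq 2) = 3568 / 16581375 := by rw [qq_two]; unfold e0 gq; norm_num
    have hbq : (baseQ : ℝ) = -148412796 / 100000000 := by unfold baseQ; norm_num
    rw [e1', e2', hbq, _root_.abs_le]
    constructor <;> linarith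
  have hb' := abs_le.1 hb
  rw [_root_.abs_le]
  constructor <;> linarith [h.1, h.2, h2.1, h2.2, hb'.1, hb'.2]

/-! ### small `n` -/

def pT (n : ℕ) : ℚ := if n = 4 then 7 / 16 else if n = 5 then 13 / 32 else 1 / 3
def UT (n : ℕ) : ℚ := (1 / 3) * tab (n - 1) + (2 / 3) * tab (n + 1) - (2 / 3) * pT n

/-- rational bounds of `vv 0`. -/
def vlo : ℚ := 5195077621 / 10000000000
def vhi : ℚ := 5195077633 / 10000000000

lemma vv_zero_bounds : (vlo : ℝ) ≤ vv 0 ∧ vv 0 ≤ (vhi : ℝ) := by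
  obtain ⟨v0, v1, v2, v3, v4, v5⟩ := vv_vals
  have h1 : (vlo : ℝ) = 5195077621 / 10000000000 := by unfold vlo; norm_num
  have h2 : (vhi : ℝ) = 5195077633 / 10000000000 := by unfold vhi; norm_num
  rw [h1, h2]
  constructor <;> linarith

theorem check1 : (List.range 44).all (fun n => decide (n < 4 ∨ UT n < tab n)) = true := by
  decide +kernel

theorem check2 : (List.range 43).all (fun n => decide (n < 5 ∨
    (1 / 3) * UT (n - 1) + (2 / 3) * UT (n + 1) - (2 / 3) * (13 / 50) ≤ vlo * n - 1461 / 1000))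
    = true := by
  decide +kernel

theorem check3 : (List.range 45).all (fun n => decide (n < 5 ∨
    vhi * n - 1461 / 1000 < tab n)) = true := by
  decide +kernel

lemma U1_tab {n : ℕ} (hn : n < 44) : U1 n = ((UT n : ℚ) : ℝ) := by
  unfold U1 UT pi1 pT
  rw [V0_tab (by omega : n - 1 < 45), V0_tab (by omega : n + 1 < 45)]
  split_ifs <;> push_cast <;> ring

theorem num1 (n : ℕ) (hn : 4 ≤ n) : U1 n < V0 n := by
  by_cases h : n < 44
  · rw [U1_tab h, V0_tab (by omega)]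
    have hc := check1
    rw [List.all_eq_true] at hc
    have h2 := of_decide_eq_true (hc n (List.mem_range.2 h))
    rcases h2 with h2 | h2
    · omega
    · exact_mod_cast h2
  · push Not at h
    have w1 := abs_le.1 (V0_window (show 40 ≤ n - 1 by omega))
    have w2 := abs_le.1 (V0_window (show 40 ≤ n by omega))
    have w3 := abs_le.1 (V0_window (show 40 ≤ n + 1 by omega))
    obtain ⟨b1, b2⟩ := vv_zero_bounds
    have h1 : (vlo : ℝ) = 5195077621 / 10000000000 := by unfold vlo; norm_num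
    have h2 : (vhi : ℝ) = 5195077633 / 10000000000 := by unfold vhi; norm_num
    rw [h1] at b1
    rw [h2] at b2
    have c1 : ((n - 1 : ℕ) : ℝ) = n - 1 := by
      rw [Nat.cast_sub (by omega)]; norm_num
    have c2 : ((n + 1 : ℕ) : ℝ) = n + 1 := by push_cast; ring
    rw [c1] at w1
    rw [c2] at w3
    unfold U1 pi1
    rw [if_neg (by omega), if_neg (by omega)]
    have hr : n % 8 < 8 := Nat.mod_lt _ (by norm_num)
    have e1 : (n - 1) % 8 = (n % 8 + 7) % 8 := by omega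
    have e2 : (n + 1) % 8 = (n % 8 + 1) % 8 := by omega
    rw [e1] at w1
    rw [e2] at w3
    generalize n % 8 = r at *
    interval_cases r <;> norm_num [cT] at w1 w2 w3 <;> linarith [w1.1, w1.2, w2.1, w2.2, w3.1, w3.2]

theorem num2 : ∃ v C : ℝ, v ≤ 13 / 25 ∧
    (∀ n, 5 ≤ n → (1 / 3) * U1 (n - 1) + (2 / 3) * U1 (n + 1) - (2 / 3) * (13 / 50) ≤ v * n - C) ∧
    (∀ n, 5 ≤ n → v * n - C < V0 n) := by
  obtain ⟨b1, b2⟩ := vv_zero_bounds
  refine ⟨vv 0, 1461 / 1000, ?_, ?_, ?_⟩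
  · refine b2.trans ?_
    unfold vhi; norm_num
  · intro n hn
    by_cases h : n < 43
    · rw [U1_tab (by omega : n - 1 < 44), U1_tab (by omega : n + 1 < 44)]
      have hc := check2
      rw [List.all_eq_true] at hc
      have h2 := of_decide_eq_true (hc n (List.mem_range.2 h))
      rcases h2 with h2 | h2
      · omega
      · have h3 : (((1 / 3) * UT (n - 1) + (2 / 3) * UT (n + 1) - (2 / 3) * (13 / 50) : ℚ) : ℝ)
            ≤ ((vlo * n - 1461 / 1000 : ℚ) : ℝ) := by exact_mod_cast h2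
        push_cast at h3
        have h4 : (vlo : ℝ) * n ≤ vv 0 * n := mul_le_mul_of_nonneg_right b1 (Nat.cast_nonneg n)
        linarith
    · push Not at h
      have w0 := abs_le.1 (V0_window (show 40 ≤ n - 2 by omega))
      have w2 := abs_le.1 (V0_window (show 40 ≤ n by omega))
      have w4 := abs_le.1 (V0_window (show 40 ≤ n + 2 by omega))
      have h1 : (vlo : ℝ) = 5195077621 / 10000000000 := by unfold vlo; norm_num
      have h2 : (vhi : ℝ) = 5195077633 / 10000000000 := by unfold vhi; norm_num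
      rw [h1] at b1
      rw [h2] at b2
      have c1 : ((n - 2 : ℕ) : ℝ) = n - 2 := by
        rw [Nat.cast_sub (by omega)]; norm_num
      have c2 : ((n + 2 : ℕ) : ℝ) = n + 2 := by push_cast; ring
      rw [c1] at w0
      rw [c2] at w4
      unfold U1 pi1
      rw [if_neg (by omega), if_neg (by omega), if_neg (by omega), if_neg (by omega)]
      have n1 : n - 1 - 1 = n - 2 := by omega
      have n2 : n - 1 + 1 = n := by omega
      have n3 : n + 1 - 1 = n := by omega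
      have n4 : n + 1 + 1 = n + 2 := by omega
      rw [n1, n2, n3, n4]
      have hr : n % 8 < 8 := Nat.mod_lt _ (by norm_num)
      have e1 : (n - 2) % 8 = (n % 8 + 6) % 8 := by omega
      have e2 : (n + 2) % 8 = (n % 8 + 2) % 8 := by omega
      rw [e1] at w0
      rw [e2] at w4
      generalize n % 8 = r at *
      interval_cases r <;> norm_num [cT] at w0 w2 w4 <;>
        linarith [w0.1, w0.2, w2.1, w2.2, w4.1, w4.2]
  · intro n hn
    by_cases h : n < 45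
    · rw [V0_tab h]
      have hc := check3
      rw [List.all_eq_true] at hc
      have h2 := of_decide_eq_true (hc n (List.mem_range.2 h))
      rcases h2 with h2 | h2
      · omega
      · have h3 : ((vhi * n - 1461 / 1000 : ℚ) : ℝ) < ((tab n : ℚ) : ℝ) := by exact_mod_cast h2
        push_cast at h3
        have h4 : vv 0 * n ≤ (vhi : ℝ) * n := mul_le_mul_of_nonneg_right b2 (Nat.cast_nonneg n)
        linarith
    · push Not at h
      have w2 := abs_le.1 (V0_window (show 40 ≤ n by omega))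
      have hr : n % 8 < 8 := Nat.mod_lt _ (by norm_num)
      generalize n % 8 = r at *
      interval_cases r <;> norm_num [cT] at w2 <;> linarith [w2.1, w2.2]

end Pool.Agent.RC.NU
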