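import Pool.Agent.Work.MP_b9e699_co.TPDefs

/-!
# Module TPA: removal of a slope, classes
-/

open Finset

namespace Pool.Agent.RC.TA

variable {n k t : ℕ} {e : Rel}

/-! ### splitting -/

lemma F_split_zero (q : ℝ) (p r : ℕ) (e : Rel) :
    F q (p + r) 0 0 e = F q p 0 0 e + F q r 0 0 (shift p e)
      + ∑ i ∈ range p, ∑ j ∈ range r, q ^ (p + j - i) * sg (e i (p + j))
          * (av q 0 e i - bv q 0 r (shift p e) j) := by
  rw [← F_congr (cat_self p (p + r) e), F_cat]
  simp

lemma bv_shift (q y : ℝ) (p r : ℕ) (e : Rel) (j : ℕ) (hj : j < r) :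
    bv q y r (shift p e) j = bv q y (p + r) e (p + j) := by
  rw [← bv_congr (cat_self p (p + r) e), bv_cat_right hj]

lemma F_one_zero (q : ℝ) (e : Rel) : F q 1 0 0 e = 0 := by
  simp [F, av]

lemma shift_shift (p r : ℕ) (e : Rel) : shift p (shift r e) = shift (r + p) e := by
  funext i j
  simp [shift, Nat.add_assoc]

/-- split off the first position -/
lemma F_head (q : ℝ) (r : ℕ) (e : Rel) :
    F q (1 + r) 0 0 e = F q r 0 0 (shift 1 e)
      - ∑ j ∈ range r, q ^ (1 + j) * sg (e 0 (1 + j)) * bv q 0 (1 + r) e (1 + j) := by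
  rw [F_split_zero, F_one_zero]
  simp only [range_one, sum_singleton]
  have h : ∀ j ∈ range r, q ^ (1 + j - 0) * sg (e 0 (1 + j)) * (av q 0 e 0 - bv q 0 r (shift 1 e) j)
      = - (q ^ (1 + j) * sg (e 0 (1 + j)) * bv q 0 (1 + r) e (1 + j)) := by
    intro j hj
    rw [bv_shift _ _ _ _ _ _ (mem_range.1 hj), av_zero]
    simp
  rw [sum_congr rfl h, sum_neg_distrib]
  ring

lemma sum_Ico_shift (f : ℕ → ℝ) (t r : ℕ) :
    ∑ j ∈ Ico (t + 1) (t + 1 + r), f j = ∑ j ∈ range r, f (t + 1 + j) := by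
  rw [Finset.sum_Ico_eq_sum_range]
  have : t + 1 + r - (t + 1) = r := by omega
  rw [this]

section removal

variable {r : ℕ}

/-- common cross term -/
noncomputable def CC (t r : ℕ) (e : Rel) : ℝ :=
  ∑ i ∈ range t, ∑ j ∈ range r, (1 / 2 : ℝ) ^ (t + j - i) * sg (e i (t + 1 + j))
    * (AA e i - BB (t + 1 + r) e (t + 1 + j))

noncomputable def PP (t : ℕ) (e : Rel) : ℝ :=
  ∑ i ∈ range t, (1 / 2 : ℝ) ^ (t - i) * sg (e i t) * AA e i

noncomputable def SSs (t r : ℕ) (e : Rel) : ℝ :=
  ∑ j ∈ range r, (1 / 2 : ℝ) ^ (1 + j) * sg (e t (t + 1 + j)) * BB (t + 1 + r) e (t + 1 + j)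

lemma sum_sg_past (t : ℕ) (e : Rel) :
    ∑ i ∈ range t, (1 / 2 : ℝ) ^ (t - i) * sg (e i t) = - AA e t := by
  unfold AA av; simp

lemma sum_sg_future (t r : ℕ) (e : Rel) :
    ∑ j ∈ range r, (1 / 2 : ℝ) ^ (1 + j) * sg (e t (t + 1 + j)) = BB (t + 1 + r) e t := by
  unfold BB bv
  rw [sum_Ico_shift (fun k => (1 / 2 : ℝ) ^ (k - t) * sg (e t k))]
  simp only [mul_zero, zero_add]
  refine sum_congr rfl fun j _ => ?_
  congr 2
  omega

lemma F_del (t r : ℕ) (e : Rel) :
    F (1 / 2) (t + r) 0 0 (del t e) = F (1 / 2) t 0 0 e + F (1 / 2) r 0 0 (shift (t + 1) e)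
      + CC t r e := by
  rw [F_split_zero]
  have h1 : F (1 / 2) t 0 0 (del t e) = F (1 / 2) t 0 0 e := by
    apply F_congr
    intro i j hi hj
    simp [del, hj, hi.trans hj]
  have h2 : shift t (del t e) = shift (t + 1) e := by
    funext i j
    simp only [shift, del]
    rw [if_neg (by omega), if_neg (by omega)]
    congr 1 <;> omega
  rw [h1, h2]
  congr 1
  unfold CC
  refine sum_congr rfl fun i hi => sum_congr rfl fun j hj => ?_
  have hi := mem_range.1 hi
  have hj := mem_range.1 hj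
  have h3 : del t e i (t + j) = e i (t + 1 + j) := by
    simp only [del]
    rw [if_pos hi, if_neg (by omega)]
    congr 1; omega
  have h4 : av (1 / 2) 0 (del t e) i = AA e i := by
    unfold AA
    apply av_congr (m := t) _ hi
    intro i j hi hj
    simp [del, hj, hi.trans hj]
  rw [h3, h4, bv_shift _ _ _ _ _ _ hj]
  rfl

lemma F_self (t r : ℕ) (e : Rel) :
    F (1 / 2) (t + 1 + r) 0 0 e = F (1 / 2) t 0 0 e + F (1 / 2) r 0 0 (shift (t + 1) e)
      + (1 / 2) * CC t r e + PP t e - SSs t r e + AA e t * BB (t + 1 + r) e t := by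
  have h0 : t + 1 + r = t + (1 + r) := by omega
  rw [h0, F_split_zero, F_head, shift_shift]
  have h1 : ∑ j ∈ range r, (1 / 2 : ℝ) ^ (1 + j) * sg (shift t e 0 (1 + j))
      * bv (1 / 2) 0 (1 + r) (shift t e) (1 + j) = SSs t r e := by
    unfold SSs
    refine sum_congr rfl fun j hj => ?_
    have hj := mem_range.1 hj
    rw [bv_shift _ _ _ _ _ _ (by omega)]
    unfold BB
    rw [h0]
    have h2 : t + (1 + j) = t + 1 + j := by omega
    rw [h2]
    simp only [shift]
    rw [h2]
    rfl
  rw [h1]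
  have h2 : ∑ i ∈ range t, ∑ j ∈ range (1 + r), (1 / 2 : ℝ) ^ (t + j - i) * sg (e i (t + j))
        * (av (1 / 2) 0 e i - bv (1 / 2) 0 (1 + r) (shift t e) j)
      = ∑ i ∈ range t, ((1 / 2) * ∑ j ∈ range r, (1 / 2 : ℝ) ^ (t + j - i) * sg (e i (t + 1 + j))
            * (AA e i - BB (t + 1 + r) e (t + 1 + j))
          + (1 / 2 : ℝ) ^ (t - i) * sg (e i t) * AA e i
          - (1 / 2 : ℝ) ^ (t - i) * sg (e i t) * BB (t + 1 + r) e t) := by
    refine sum_congr rfl fun i hi => ?_
    have hi := mem_range.1 hi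
    rw [add_comm 1 r, sum_range_succ', mul_sum]
    have h3 : ∀ j ∈ range r, (1 / 2 : ℝ) ^ (t + (j + 1) - i) * sg (e i (t + (j + 1)))
        * (av (1 / 2) 0 e i - bv (1 / 2) 0 (r + 1) (shift t e) (j + 1))
        = 1 / 2 * ((1 / 2 : ℝ) ^ (t + j - i) * sg (e i (t + 1 + j))
            * (AA e i - BB (t + 1 + r) e (t + 1 + j))) := by
      intro j hj
      have hj := mem_range.1 hj
      rw [bv_shift _ _ _ _ _ _ (by omega)]
      have e1 : t + (j + 1) = t + 1 + j := by omega
      have e2 : t + (r + 1) = t + 1 + r := by omega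
      have e3 : t + 1 + j - i = (t + j - i) + 1 := by omega
      rw [e1, e2, e3, pow_succ]
      unfold AA BB
      ring
    rw [sum_congr rfl h3, bv_shift _ _ _ _ _ _ (by omega)]
    have e2 : t + (r + 1) = t + 1 + r := by omega
    rw [e2]
    simp only [add_zero]
    unfold AA BB
    ring
  rw [h2, sum_sub_distrib, sum_add_distrib, ← mul_sum, ← sum_mul, sum_sg_past]
  unfold CC PP
  rw [← h0]
  ring

/-! values of `dbl` -/

lemma dbl_left {n t : ℕ} {e : Rel} {i j : ℕ} (hj : j < t) : dbl n t e i j = e i j := by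
  simp [dbl, hj]

lemma dbl_t {n t : ℕ} {e : Rel} {i : ℕ} : dbl n t e i t = decide (tb n t e ≤ AA e i) := by
  simp [dbl]

lemma dbl_t1 {n t : ℕ} {e : Rel} {i : ℕ} (hi : i < t) : dbl n t e i (t + 1) = e i t := by
  simp [dbl, hi]

lemma dbl_tt {n t : ℕ} {e : Rel} : dbl n t e t (t + 1) = true := by
  simp [dbl]

lemma dbl_far {n t : ℕ} {e : Rel} {i j : ℕ} (hi : i < t) (hj : t + 2 ≤ j) :
    dbl n t e i j = e i (j - 1) := by
  unfold dbl
  rw [if_neg (by omega), if_neg (by omega), if_neg (by omega), if_pos hi]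

lemma dbl_tfar {n t : ℕ} {e : Rel} {j : ℕ} (hj : t + 2 ≤ j) :
    dbl n t e t j = e t (j - 1) := by
  unfold dbl
  rw [if_neg (by omega), if_neg (by omega), if_neg (by omega), if_neg (by omega), if_pos rfl]

lemma dbl_t1far {n t : ℕ} {e : Rel} {j : ℕ} (hj : t + 2 ≤ j) :
    dbl n t e (t + 1) j = decide (BB n e (j - 1) ≤ - ta t e) := by
  unfold dbl
  rw [if_neg (by omega), if_neg (by omega), if_neg (by omega), if_neg (by omega),
    if_neg (by omega), if_pos rfl]

lemma dbl_right {n t : ℕ} {e : Rel} {i j : ℕ} (hi : t + 2 ≤ i) (hj : t + 2 ≤ j) :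
    dbl n t e i j = e (i - 1) (j - 1) := by
  unfold dbl
  rw [if_neg (by omega), if_neg (by omega), if_neg (by omega), if_neg (by omega),
    if_neg (by omega), if_neg (by omega)]

lemma sg_dec (u v : ℝ) : sg (decide (v ≤ u)) * (u - v) = |u - v| := by
  by_cases h : v ≤ u
  · simp [h, abs_of_nonneg (sub_nonneg.2 h)]
  · have h := not_le.1 h
    simp [not_le.2 h, abs_of_neg (sub_neg.2 h)]

lemma F_dbl (t r : ℕ) (e : Rel) :
    F (1 / 2) (t + 1 + r + 1) 0 0 (dbl (t + 1 + r) t e)
      = F (1 / 2) t 0 0 e + F (1 / 2) r 0 0 (shift (t + 1) e)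
      + (1 / 4) * CC t r e + (1 / 2) * PP t e - (1 / 2) * SSs t r e
      + ∑ i ∈ range t, (1 / 2) ^ (t - i) * |AA e i - tb (t + 1 + r) t e|
      + ∑ j ∈ range r, (1 / 2) ^ (1 + j) * |BB (t + 1 + r) e (t + 1 + j) + ta t e| := by
  set n := t + 1 + r with hn
  set d := dbl n t e with hd
  have h0 : n + 1 = t + (1 + (1 + r)) := by omega
  -- future values
  have hBfar : ∀ j, j < r → bv (1 / 2) 0 (n + 1) d (t + (2 + j)) = BB n e (t + 1 + j) := by
    intro j hj
    unfold BB bv
    simp only [mul_zero, zero_add]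
    refine sum_bij' (fun k _ => k - 1) (fun k _ => k + 1) ?_ ?_ ?_ ?_ ?_
    · intro k hk
      have := mem_Ico.1 hk
      rw [mem_Ico]; omega
    · intro k hk
      have := mem_Ico.1 hk
      rw [mem_Ico]; omega
    · intro k hk
      have := mem_Ico.1 hk
      omega
    · intro k hk
      omega
    · intro k hk
      have := mem_Ico.1 hk
      rw [hd, dbl_right (by omega) (by omega)]
      have e1 : t + (2 + j) - 1 = t + 1 + j := by omega
      have e2 : k - 1 - (t + 1 + j) = k - (t + (2 + j)) := by omega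
      rw [e1, e2]
  have hBt : bv (1 / 2) 0 (n + 1) d t = tb n t e := by
    unfold tb BB bv
    simp only [mul_zero, zero_add]
    have h1 : n + 1 = t + 1 + (r + 1) := by omega
    rw [h1, sum_Ico_shift (fun k => (1 / 2 : ℝ) ^ (k - t) * sg (d t k)), hn,
      sum_Ico_shift (fun k => (1 / 2 : ℝ) ^ (k - t) * sg (e t k)), sum_range_succ']
    have h2 : ∀ j ∈ range r, (1 / 2 : ℝ) ^ (t + 1 + (j + 1) - t) * sg (d t (t + 1 + (j + 1)))
        = (1 / 2) * ((1 / 2 : ℝ) ^ (t + 1 + j - t) * sg (e t (t + 1 + j))) := by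
      intro j _
      rw [hd, dbl_tfar (by omega)]
      have e1 : t + 1 + (j + 1) - 1 = t + 1 + j := by omega
      have e2 : t + 1 + (j + 1) - t = (t + 1 + j - t) + 1 := by omega
      rw [e1, e2, pow_succ]
      ring
    rw [sum_congr rfl h2, ← mul_sum]
    have h3 : d t (t + 1) = true := by rw [hd, dbl_tt]
    have h4 : t + 1 + 0 - t = 1 := by omega
    rw [h4, add_zero, h3]
    simp
    ring
  have hBt1 : bv (1 / 2) 0 (n + 1) d (t + 1)
      = ∑ j ∈ range r, (1 / 2 : ℝ) ^ (1 + j) * sg (decide (BB n e (t + 1 + j) ≤ - ta t e)) := by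
    unfold bv
    simp only [mul_zero, zero_add]
    have h1 : n + 1 = t + 1 + 1 + r := by omega
    rw [h1, sum_Ico_shift (fun k => (1 / 2 : ℝ) ^ (k - (t + 1)) * sg (d (t + 1) k))]
    refine sum_congr rfl fun j _ => ?_
    rw [hd, dbl_t1far (by omega)]
    have e1 : t + 1 + 1 + j - (t + 1) = 1 + j := by omega
    have e2 : t + 1 + 1 + j - 1 = t + 1 + j := by omega
    rw [e1, e2]
  have hss : shift 1 (shift t d) = shift (t + 1) d := shift_shift 1 t d
  have hss2 : shift 1 (shift (t + 1) d) = shift (t + 1 + 1) d := shift_shift 1 (t + 1) d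
  rw [h0, F_split_zero, F_head, F_head, hss, hss2]
  -- the part before `t`
  have hl : F (1 / 2) t 0 0 d = F (1 / 2) t 0 0 e := by
    apply F_congr
    intro i j _ hj
    rw [hd, dbl_left hj]
  have hr : shift (t + 1 + 1) d = shift (t + 1) e := by
    funext i j
    simp only [shift, hd]
    rw [dbl_right (by omega) (by omega)]
    congr 1 <;> omega
  rw [hl, hr]
  -- the sum of position `t+1`
  have hs1 : ∑ j ∈ range r, (1 / 2 : ℝ) ^ (1 + j) * sg (shift (t + 1) d 0 (1 + j))
        * bv (1 / 2) 0 (1 + r) (shift (t + 1) d) (1 + j)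
      = ∑ j ∈ range r, (1 / 2 : ℝ) ^ (1 + j) * sg (decide (BB n e (t + 1 + j) ≤ - ta t e))
        * BB n e (t + 1 + j) := by
    refine sum_congr rfl fun j hj => ?_
    have hj := mem_range.1 hj
    rw [bv_shift _ _ _ _ _ _ (by omega)]
    have e1 : t + 1 + (1 + r) = n + 1 := by omega
    have e2 : t + 1 + (1 + j) = t + (2 + j) := by omega
    rw [e1, e2, hBfar j hj]
    have e3 : shift (t + 1) d 0 (1 + j) = decide (BB n e (t + 1 + j) ≤ - ta t e) := by
      simp only [shift, hd, add_zero]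
      rw [dbl_t1far (by omega)]
      have e4 : t + 1 + (1 + j) - 1 = t + 1 + j := by omega
      rw [e4]
    rw [e3]
  -- the sum of position `t`
  have hs2 : ∑ j ∈ range (1 + r), (1 / 2 : ℝ) ^ (1 + j) * sg (shift t d 0 (1 + j))
        * bv (1 / 2) 0 (1 + (1 + r)) (shift t d) (1 + j)
      = (1 / 2) * bv (1 / 2) 0 (n + 1) d (t + 1) + (1 / 2) * SSs t r e := by
    rw [add_comm 1 r, sum_range_succ']
    have h1 : ∀ j ∈ range r, (1 / 2 : ℝ) ^ (1 + (j + 1)) * sg (shift t d 0 (1 + (j + 1)))
          * bv (1 / 2) 0 (1 + (r + 1)) (shift t d) (1 + (j + 1))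
        = (1 / 2) * ((1 / 2 : ℝ) ^ (1 + j) * sg (e t (t + 1 + j)) * BB (t + 1 + r) e (t + 1 + j)) := by
      intro j hj
      have hj := mem_range.1 hj
      rw [bv_shift _ _ _ _ _ _ (by omega)]
      have e1 : t + (1 + (r + 1)) = n + 1 := by omega
      have e2 : t + (1 + (j + 1)) = t + (2 + j) := by omega
      rw [e1, e2, hBfar j hj, ← hn]
      have e3 : shift t d 0 (1 + (j + 1)) = e t (t + 1 + j) := by
        simp only [shift, hd, add_zero]
        rw [dbl_tfar (by omega)]
        have e4 : t + (1 + (j + 1)) - 1 = t + 1 + j := by omega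
        rw [e4]
      have e5 : 1 + (j + 1) = (1 + j) + 1 := by omega
      rw [e3, e5, pow_succ]
      ring
    rw [sum_congr rfl h1, ← mul_sum, bv_shift _ _ _ _ _ _ (by omega)]
    have e1 : t + (1 + (r + 1)) = n + 1 := by omega
    have e3 : shift t d 0 (1 + 0) = true := by
      simp only [shift, hd, add_zero]
      exact dbl_tt
    rw [e1, e3]
    simp only [add_zero, pow_one, sg_true, mul_one]
    unfold SSs
    ring
  -- the cross sum
  have hs3 : ∑ i ∈ range t, ∑ j ∈ range (1 + (1 + r)), (1 / 2 : ℝ) ^ (t + j - i) * sg (d i (t + j))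
        * (av (1 / 2) 0 d i - bv (1 / 2) 0 (1 + (1 + r)) (shift t d) j)
      = ∑ i ∈ range t, ((1 / 4) * ∑ j ∈ range r, (1 / 2 : ℝ) ^ (t + j - i) * sg (e i (t + 1 + j))
            * (AA e i - BB (t + 1 + r) e (t + 1 + j))
          + (1 / 2) * ((1 / 2 : ℝ) ^ (t - i) * sg (e i t) * AA e i)
          - (1 / 2 : ℝ) ^ (t - i) * sg (e i t) * ((1 / 2) * bv (1 / 2) 0 (n + 1) d (t + 1))
          + (1 / 2 : ℝ) ^ (t - i) * |AA e i - tb n t e|) := by
    refine sum_congr rfl fun i hi => ?_
    have hi := mem_range.1 hi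
    have hA : av (1 / 2) 0 d i = AA e i := by
      unfold AA
      apply av_congr (m := t) _ hi
      intro i j _ hj
      rw [hd, dbl_left hj]
    have e0 : 1 + (1 + r) = r + 1 + 1 := by omega
    rw [e0, sum_range_succ', sum_range_succ', mul_sum]
    have h3 : ∀ j ∈ range r, (1 / 2 : ℝ) ^ (t + (j + 1 + 1) - i) * sg (d i (t + (j + 1 + 1)))
        * (av (1 / 2) 0 d i - bv (1 / 2) 0 (r + 1 + 1) (shift t d) (j + 1 + 1))
        = 1 / 4 * ((1 / 2 : ℝ) ^ (t + j - i) * sg (e i (t + 1 + j))
            * (AA e i - BB (t + 1 + r) e (t + 1 + j))) := by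
      intro j hj
      have hj := mem_range.1 hj
      rw [bv_shift _ _ _ _ _ _ (by omega)]
      have e1 : t + (j + 1 + 1) = t + (2 + j) := by omega
      have e2 : t + (r + 1 + 1) = n + 1 := by omega
      have e3 : t + (2 + j) - i = (t + j - i) + 1 + 1 := by omega
      have e4 : d i (t + (2 + j)) = e i (t + 1 + j) := by
        rw [hd, dbl_far hi (by omega)]
        congr 1
        omega
      rw [e1, e2, hBfar j hj, hA, e4, e3, pow_succ, pow_succ]
      ring
    rw [sum_congr rfl h3, bv_shift _ _ _ _ _ _ (by omega), bv_shift _ _ _ _ _ _ (by omega)]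
    have e2 : t + (r + 1 + 1) = n + 1 := by omega
    rw [e2, hA]
    simp only [add_zero, zero_add]
    rw [hBt]
    have e5 : d i (t + 1) = e i t := by rw [hd, dbl_t1 hi]
    have e6 : d i t = decide (tb n t e ≤ AA e i) := by rw [hd, dbl_t]
    have e7 : t + 1 - i = (t - i) + 1 := by omega
    rw [e5, e6, e7, pow_succ]
    have h8 := sg_dec (AA e i) (tb n t e)
    have h9 : (1 / 2 : ℝ) ^ (t - i) * sg (decide (tb n t e ≤ AA e i)) * (AA e i - tb n t e)
        = (1 / 2 : ℝ) ^ (t - i) * |AA e i - tb n t e| := by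
      rw [mul_assoc, h8]
    rw [h9]
    ring
  rw [hs1, hs2, hs3, sum_add_distrib, sum_sub_distrib, sum_add_distrib, ← mul_sum, ← mul_sum,
    ← sum_mul, sum_sg_past]
  -- final identity
  have hfin : ∑ j ∈ range r, (1 / 2 : ℝ) ^ (1 + j) * |BB n e (t + 1 + j) + ta t e|
      = - (∑ j ∈ range r, (1 / 2 : ℝ) ^ (1 + j) * sg (decide (BB n e (t + 1 + j) ≤ - ta t e))
        * BB n e (t + 1 + j)) - ta t e * bv (1 / 2) 0 (n + 1) d (t + 1) := by
    rw [hBt1, mul_sum, ← sum_neg_distrib, ← sum_sub_distrib]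
    refine sum_congr rfl fun j _ => ?_
    have h8 := sg_dec (- ta t e) (BB n e (t + 1 + j))
    have h9 : |BB n e (t + 1 + j) + ta t e| = |- ta t e - BB n e (t + 1 + j)| := by
      rw [← abs_neg]; congr 1; ring
    rw [h9, ← h8]
    ring
  rw [hfin]
  unfold CC PP ta
  rw [← hn]
  ring

end removal

/-- **the removal identity** -/
theorem removal (ht : t < n) :
    (3 / 2) * F (1 / 2) n 0 0 e = (1 / 2) * F (1 / 2) (n - 1) 0 0 (del t e)
      + F (1 / 2) (n + 1) 0 0 (dbl n t e) - Pc n t e := by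
  obtain ⟨r, rfl⟩ : ∃ r, n = t + 1 + r := ⟨n - t - 1, by omega⟩
  have h1 : t + 1 + r - 1 = t + r := by omega
  rw [h1, F_del, F_self, F_dbl]
  unfold Pc
  rw [sum_Ico_shift (fun j => (1 / 2 : ℝ) ^ (j - t) * (|BB (t + 1 + r) e j + ta t e|
    + sg (e t j) * (BB (t + 1 + r) e j + ta t e)))]
  have h2 : ∑ i ∈ range t, (1 / 2 : ℝ) ^ (t - i) * (|AA e i - tb (t + 1 + r) t e|
        - sg (e i t) * (AA e i - tb (t + 1 + r) t e))
      = ∑ i ∈ range t, (1 / 2 : ℝ) ^ (t - i) * |AA e i - tb (t + 1 + r) t e| - PP t e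
        - tb (t + 1 + r) t e * AA e t := by
    have h3 : PP t e + tb (t + 1 + r) t e * AA e t = ∑ i ∈ range t, ((1 / 2 : ℝ) ^ (t - i) * sg (e i t) * AA e i
        - (1 / 2 : ℝ) ^ (t - i) * sg (e i t) * tb (t + 1 + r) t e) := by
      rw [sum_sub_distrib, ← sum_mul, sum_sg_past]
      unfold PP
      ring
    rw [sub_sub, h3, ← sum_sub_distrib]
    refine sum_congr rfl fun i _ => by ring
  have h3 : ∑ j ∈ range r, (1 / 2 : ℝ) ^ (t + 1 + j - t) * (|BB (t + 1 + r) e (t + 1 + j) + ta t e|
        + sg (e t (t + 1 + j)) * (BB (t + 1 + r) e (t + 1 + j) + ta t e))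
      = ∑ j ∈ range r, (1 / 2 : ℝ) ^ (1 + j) * |BB (t + 1 + r) e (t + 1 + j) + ta t e| + SSs t r e
        + ta t e * BB (t + 1 + r) e t := by
    have h4 : SSs t r e + ta t e * BB (t + 1 + r) e t = ∑ j ∈ range r,
        ((1 / 2 : ℝ) ^ (1 + j) * sg (e t (t + 1 + j)) * BB (t + 1 + r) e (t + 1 + j)
        + (1 / 2 : ℝ) ^ (1 + j) * sg (e t (t + 1 + j)) * ta t e) := by
      rw [sum_add_distrib, ← sum_mul, sum_sg_future]
      unfold SSs
      ring
    rw [show ∀ a b c : ℝ, a + b + c = a + (b + c) from add_assoc, h4, ← sum_add_distrib]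
    refine sum_congr rfl fun j _ => ?_
    have e1 : t + 1 + j - t = 1 + j := by omega
    rw [e1]
    ring
  rw [h2, h3]
  unfold ta tb
  ring

/-! ### classes -/

/-- slope predicate -/
def sl (e : Rel) (s : ℕ) : Prop := e (s - 1) s = e s (s + 1)

instance (e : Rel) (s : ℕ) : Decidable (sl e s) := by unfold sl; infer_instance

lemma nsl_eq (n : ℕ) (e : Rel) : nsl n e = ∑ s ∈ Ico 1 (n - 1), if sl e s then 1 else 0 := by
  unfold nsl
  rw [Finset.card_filter]
  rfl

lemma iso_iff (n : ℕ) (e : Rel) :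
    Iso n e ↔ ∀ s, 1 ≤ s → s + 2 < n → ¬ (sl e s ∧ sl e (s + 1)) := by
  unfold Iso sl
  simp only [Nat.add_sub_cancel]

lemma sum_Ico_shift_one (f : ℕ → ℕ) {a b : ℕ} :
    ∑ s ∈ Ico a b, f (s + 1) = ∑ s ∈ Ico (a + 1) (b + 1), f s := by
  rw [← Finset.sum_Ico_add']

/-- the class of an array from which a slope is removed by a deletion -/
lemma cls_del_aux {e' : Rel} (h : Cls (k + 1) n e) (ht : 1 ≤ t) (htn : t + 1 < n) (hsl : sl e t)
    (h1 : ∀ s, 1 ≤ s → s < t → s + 2 < n → (sl e' s ↔ sl e s))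
    (h2 : ∀ s, t ≤ s → s + 2 < n → (sl e' s ↔ sl e (s + 1))) : Cls k (n - 1) e' := by
  obtain ⟨hI, hc⟩ := h
  rw [iso_iff] at hI
  constructor
  · rw [iso_iff]
    rintro s hs hsn ⟨a, b⟩
    rcases lt_trichotomy (s + 1) t with hst | hst | hst
    · rw [h1 s hs (by omega) (by omega)] at a
      rw [h1 (s + 1) (by omega) (by omega) (by omega)] at b
      exact hI s hs (by omega) ⟨a, b⟩
    · rw [h1 s hs (by omega) (by omega)] at a
      exact hI s hs (by omega) ⟨a, by rw [hst]; exact hsl⟩
    · rw [h2 s (by omega) (by omega)] at a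
      rw [h2 (s + 1) (by omega) (by omega)] at b
      exact hI (s + 1) (by omega) (by omega) ⟨a, b⟩
  · rw [nsl_eq] at hc ⊢
    have e1 : ∑ s ∈ Ico 1 (n - 1 - 1), (if sl e' s then 1 else 0)
        = ∑ s ∈ Ico 1 t, (if sl e' s then 1 else 0)
          + ∑ s ∈ Ico t (n - 1 - 1), (if sl e' s then 1 else 0) := by
      rw [Finset.sum_Ico_consecutive _ ht (by omega)]
    have e2 : ∑ s ∈ Ico 1 t, (if sl e' s then 1 else 0) = ∑ s ∈ Ico 1 t, (if sl e s then 1 else 0) := by
      refine sum_congr rfl fun s hs => ?_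
      have hs := mem_Ico.1 hs
      have := h1 s hs.1 hs.2 (by omega)
      by_cases h : sl e s
      · rw [if_pos h, if_pos (this.2 h)]
      · rw [if_neg h, if_neg (fun h' => h (this.1 h'))]
    have e3 : ∑ s ∈ Ico t (n - 1 - 1), (if sl e' s then 1 else 0)
        = ∑ s ∈ Ico (t + 1) (n - 1), (if sl e s then 1 else 0) := by
      have e4 : ∑ s ∈ Ico t (n - 1 - 1), (if sl e' s then 1 else 0)
          = ∑ s ∈ Ico t (n - 1 - 1), (if sl e (s + 1) then 1 else 0) := by
        refine sum_congr rfl fun s hs => ?_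
        have hs := mem_Ico.1 hs
        have := h2 s hs.1 (by omega)
        by_cases h : sl e (s + 1)
        · rw [if_pos h, if_pos (this.2 h)]
        · rw [if_neg h, if_neg (fun h' => h (this.1 h'))]
      rw [e4, sum_Ico_shift_one (fun s => if sl e s then 1 else 0)]
      congr 2
      omega
    have e5 : ∑ s ∈ Ico 1 (n - 1), (if sl e s then 1 else 0)
        = ∑ s ∈ Ico 1 t, (if sl e s then 1 else 0)
          + (1 + ∑ s ∈ Ico (t + 1) (n - 1), (if sl e s then 1 else 0)) := by
      rw [← Finset.sum_Ico_consecutive _ ht (show t ≤ n - 1 by omega),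
        Finset.sum_eq_sum_Ico_succ_bot (show t < n - 1 by omega), if_pos hsl]
    omega

/-- the class of an array from which a slope is removed by a doubling -/
lemma cls_dbl_aux {e' : Rel} (h : Cls (k + 1) n e) (ht : 1 ≤ t) (htn : t + 1 < n) (hsl : sl e t)
    (h1 : ∀ s, 1 ≤ s → s < t → (sl e' s ↔ sl e s))
    (h2 : ¬ sl e' t) (h3 : ¬ sl e' (t + 1))
    (h4 : ∀ s, t + 2 ≤ s → s < n → (sl e' s ↔ sl e (s - 1))) : Cls k (n + 1) e' := by
  obtain ⟨hI, hc⟩ := h
  rw [iso_iff] at hI
  constructor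
  · rw [iso_iff]
    rintro s hs hsn ⟨a, b⟩
    rcases lt_trichotomy (s + 1) t with hst | hst | hst
    · rw [h1 s hs (by omega)] at a
      rw [h1 (s + 1) (by omega) (by omega)] at b
      exact hI s hs (by omega) ⟨a, b⟩
    · rw [hst] at b
      exact h2 b
    · rcases eq_or_lt_of_le (show t ≤ s by omega) with h5 | h5
      · subst h5; exact h2 a
      · rcases eq_or_lt_of_le (show t + 1 ≤ s by omega) with h6 | h6
        · subst h6; exact h3 a
        · rw [h4 s (by omega) (by omega)] at a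
          rw [h4 (s + 1) (by omega) (by omega)] at b
          have e1 : s + 1 - 1 = s - 1 + 1 := by omega
          rw [e1] at b
          exact hI (s - 1) (by omega) (by omega) ⟨a, b⟩
  · rw [nsl_eq] at hc ⊢
    have e1 : ∑ s ∈ Ico 1 (n + 1 - 1), (if sl e' s then 1 else 0)
        = ∑ s ∈ Ico 1 t, (if sl e' s then 1 else 0)
          + (0 + (0 + ∑ s ∈ Ico (t + 1 + 1) n, (if sl e' s then 1 else 0))) := by
      rw [Nat.add_sub_cancel, ← Finset.sum_Ico_consecutive _ ht (show t ≤ n by omega),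
        Finset.sum_eq_sum_Ico_succ_bot (show t < n by omega), if_neg h2,
        Finset.sum_eq_sum_Ico_succ_bot (show t + 1 < n by omega), if_neg h3]
    have e2 : ∑ s ∈ Ico 1 t, (if sl e' s then 1 else 0) = ∑ s ∈ Ico 1 t, (if sl e s then 1 else 0) := by
      refine sum_congr rfl fun s hs => ?_
      have hs := mem_Ico.1 hs
      have := h1 s hs.1 hs.2
      by_cases h : sl e s
      · rw [if_pos h, if_pos (this.2 h)]
      · rw [if_neg h, if_neg (fun h' => h (this.1 h'))]
    have e3 : ∑ s ∈ Ico (t + 1 + 1) n, (if sl e' s then 1 else 0)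
        = ∑ s ∈ Ico (t + 1) (n - 1), (if sl e s then 1 else 0) := by
      have e6 : n = n - 1 + 1 := by omega
      rw [e6, ← sum_Ico_shift_one (fun s => if sl e' s then 1 else 0), Nat.add_sub_cancel]
      refine sum_congr rfl fun s hs => ?_
      have hs := mem_Ico.1 hs
      have := h4 (s + 1) (by omega) (by omega)
      rw [Nat.add_sub_cancel] at this
      by_cases h : sl e s
      · rw [if_pos h, if_pos (this.2 h)]
      · rw [if_neg h, if_neg (fun h' => h (this.1 h'))]
    have e5 : ∑ s ∈ Ico 1 (n - 1), (if sl e s then 1 else 0)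
        = ∑ s ∈ Ico 1 t, (if sl e s then 1 else 0)
          + (1 + ∑ s ∈ Ico (t + 1) (n - 1), (if sl e s then 1 else 0)) := by
      rw [← Finset.sum_Ico_consecutive _ ht (show t ≤ n - 1 by omega),
        Finset.sum_eq_sum_Ico_succ_bot (show t < n - 1 by omega), if_pos hsl]
    omega

lemma kap_half : kap (1 / 2) = 0 := by norm_num [kap]

lemma AA_pos (ht : 1 ≤ t) (h : e (t - 1) t = false) : 0 < AA e t := by
  have := av_pos (q := 1 / 2) (x := 0) (e := e) (t := t) (by norm_num) le_rfl
    (by rw [kap_half]; simp) ht h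
  rwa [kap_half, mul_zero] at this

lemma AA_neg (ht : 1 ≤ t) (h : e (t - 1) t = true) : AA e t < 0 := by
  have := av_neg (q := 1 / 2) (x := 0) (e := e) (t := t) (by norm_num) le_rfl
    (by rw [kap_half]; simp) ht h
  rwa [kap_half, mul_zero, neg_zero] at this

lemma BB_pos (ht : t + 1 < n) (h : e t (t + 1) = true) : 0 < BB n e t := by
  have := bv_pos (q := 1 / 2) (y := 0) (m := n) (e := e) (t := t) (by norm_num) le_rfl
    (by rw [kap_half]; simp) ht h
  rwa [kap_half, mul_zero] at this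

lemma BB_neg (ht : t + 1 < n) (h : e t (t + 1) = false) : BB n e t < 0 := by
  have := bv_neg (q := 1 / 2) (y := 0) (m := n) (e := e) (t := t) (by norm_num) le_rfl
    (by rw [kap_half]; simp) ht h
  rwa [kap_half, mul_zero, neg_zero] at this

lemma AA_zero : AA e 0 = 0 := by simp [AA, av_zero]

lemma BB_last (h : t + 1 = n) : BB n e t = 0 := by
  unfold BB bv
  subst h
  simp

lemma abs_AA_lt (e : Rel) (t : ℕ) : |AA e t| < 1 := by
  have h1 : |AA e t| ≤ ∑ i ∈ range t, (1 / 2 : ℝ) ^ (t - i) := by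
    unfold AA av
    rw [mul_zero, zero_sub, abs_neg]
    refine (abs_sum_le_sum_abs _ _).trans (sum_le_sum fun i _ => ?_)
    rw [abs_mul, abs_sg, mul_one, abs_of_pos (by positivity)]
  rw [sum_pow_sub_eq (by norm_num)] at h1
  have h2 : (0 : ℝ) < (1 / 2) ^ (t + 1) := by positivity
  have h3 : ((1 / 2 : ℝ) - (1 / 2) ^ (t + 1)) / (1 - 1 / 2) = 1 - 2 * (1 / 2) ^ (t + 1) := by ring
  rw [h3] at h1
  linarith

lemma abs_BB_lt (e : Rel) (ht : t < n) : |BB n e t| < 1 := by
  have : BB n e t = AA (rev n e) (n - 1 - t) := by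
    unfold BB AA
    rw [av_rev (by omega)]
    congr 1; omega
  rw [this]
  exact abs_AA_lt _ _

lemma ta_pos (e : Rel) (t : ℕ) : 0 < ta t e := by
  have := abs_lt.1 (abs_AA_lt e t)
  unfold ta; linarith [this.2]

lemma tb_pos (e : Rel) (ht : t < n) : 0 < tb n t e := by
  have := abs_lt.1 (abs_BB_lt e ht)
  unfold tb; linarith [this.1]

/-- the position before a falling slope has nonpositive past -/
lemma past_slope (h : Iso n e) (ht : 1 ≤ t) (htn : t + 1 < n)
    (h0 : e (t - 1) t = false) (h1 : e t (t + 1) = false) :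
    AA e (t - 1) ≤ 0 ∧ (2 ≤ t → AA e (t - 1) < 0 ∧ e (t - 2) (t - 1) = true) := by
  have key : 2 ≤ t → AA e (t - 1) < 0 ∧ e (t - 2) (t - 1) = true := by
    intro h2
    have h3 := h (t - 1) (by omega) (by omega)
    have e1 : t - 1 + 1 = t := by omega
    have e2 : t - 1 - 1 = t - 2 := by omega
    have e3 : t - 1 + 2 = t + 1 := by omega
    rw [e1, e2, e3, h0, h1] at h3
    have h4 : e (t - 2) (t - 1) = true := by
      by_contra hc
      rw [Bool.not_eq_true] at hc
      exact h3 ⟨hc, rfl⟩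
    refine ⟨AA_neg (by omega) ?_, h4⟩
    rw [e2]; exact h4
  refine ⟨?_, key⟩
  rcases eq_or_lt_of_le ht with h2 | h2
  · subst h2; simp [AA_zero]
  · exact (key h2).1.le

/-- the position after a falling slope has nonnegative future -/
lemma future_slope (h : Iso n e) (ht : 1 ≤ t) (htn : t + 1 < n)
    (h0 : e (t - 1) t = false) (h1 : e t (t + 1) = false) :
    0 ≤ BB n e (t + 1) ∧ (t + 2 < n → 0 < BB n e (t + 1) ∧ e (t + 1) (t + 2) = true) := by
  have key : t + 2 < n → 0 < BB n e (t + 1) ∧ e (t + 1) (t + 2) = true := by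
    intro h2
    have h3 := h t ht (by omega)
    rw [h0, h1] at h3
    have h4 : e (t + 1) (t + 2) = true := by
      by_contra hc
      rw [Bool.not_eq_true] at hc
      exact h3 ⟨rfl, hc.symm⟩
    exact ⟨BB_pos (by omega) h4, h4⟩
  refine ⟨?_, key⟩
  rcases eq_or_lt_of_le (show t + 2 ≤ n by omega) with h2 | h2
  · rw [BB_last (by omega)]
  · exact (key h2).1.le

theorem del_cls (hn : 4 ≤ n) (h : Cls (k + 1) n e) (hr : NR n e) (ht : 1 ≤ t) (htn : t + 1 < n)
    (h0 : e (t - 1) t = false) (h1 : e t (t + 1) = false) : Cls k (n - 1) (del t e) := by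
  have hP := past_slope h.1 ht htn h0 h1
  have hF := future_slope h.1 ht htn h0 h1
  -- the new adjacent relation
  have hv : e (t - 1) (t + 1) = false := by
    by_contra hc
    rw [Bool.not_eq_false] at hc
    have h2 := hr (t - 1) (t + 1) (by omega) htn
    rw [hc, sg_true, one_mul] at h2
    rcases Nat.lt_or_ge t 2 with h3 | h3
    · have := (hF.2 (by omega)).1
      linarith [hP.1]
    · have := (hP.2 h3).1
      linarith [hF.1]
  have hsl : sl e t := by unfold sl; rw [h0, h1]
  refine cls_del_aux h ht htn hsl ?_ ?_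
  · intro s hs hst hsn
    rcases eq_or_lt_of_le (show s + 1 ≤ t by omega) with h3 | h3
    · -- `s = t - 1`
      have h4 := (hP.2 (by omega)).2
      have e1 : del t e (s - 1) s = true := by
        unfold del
        rw [if_pos (by omega), if_pos hst]
        have e2 : s = t - 1 := by omega
        have e3 : s - 1 = t - 2 := by omega
        rw [e3, e2]; exact h4
      have e2 : del t e s (s + 1) = false := by
        unfold del
        rw [if_pos (by omega), if_neg (by omega)]
        have e2 : s = t - 1 := by omega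
        rw [h3, e2]; exact hv
      have e3 : e (s - 1) s = true := by
        have e2 : s = t - 1 := by omega
        have e3 : s - 1 = t - 2 := by omega
        rw [e3, e2]; exact h4
      have e4 : e s (s + 1) = false := by
        rw [h3]
        have e2 : s = t - 1 := by omega
        rw [e2]; exact h0
      unfold sl
      rw [e1, e2, e3, e4]
    · unfold sl del
      rw [if_pos (by omega), if_pos (by omega), if_pos (by omega)]
  · intro s hs hsn
    rcases eq_or_lt_of_le hs with h3 | h3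
    · subst h3
      have h4 := (hF.2 hsn).2
      have e1 : del t e (t - 1) t = false := by
        unfold del
        rw [if_pos (by omega), if_neg (by omega)]
        exact hv
      have e2 : del t e t (t + 1) = true := by
        unfold del
        rw [if_neg (by omega), if_neg (by omega)]
        exact h4
      unfold sl
      rw [e1, e2, Nat.add_sub_cancel, h1, h4]
    · unfold sl del
      rw [if_neg (by omega), if_neg (by omega), if_neg (by omega)]
      have e1 : s - 1 + 1 = s := by omega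
      rw [e1, Nat.add_sub_cancel]

theorem dbl_cls (h : Cls (k + 1) n e) (ht : 1 ≤ t) (htn : t + 1 < n)
    (h0 : e (t - 1) t = false) (h1 : e t (t + 1) = false) : Cls k (n + 1) (dbl n t e) := by
  have hP := past_slope h.1 ht htn h0 h1
  have hF := future_slope h.1 ht htn h0 h1
  have hsl : sl e t := by unfold sl; rw [h0, h1]
  have hw1 : dbl n t e (t - 1) t = false := by
    rw [dbl_t]
    have := tb_pos e (show t < n by omega)
    simp only [decide_eq_false_iff_not, not_le]
    linarith [hP.1]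
  have hw2 : dbl n t e (t + 1) (t + 2) = false := by
    rw [dbl_t1far (by omega)]
    have := ta_pos e t
    have e1 : t + 2 - 1 = t + 1 := by omega
    rw [e1]
    simp only [decide_eq_false_iff_not, not_le]
    linarith [hF.1]
  have hwr : ∀ i, t + 1 ≤ i → dbl n t e i (i + 1) = e (i - 1) i := by
    intro i hi
    rcases eq_or_lt_of_le hi with h3 | h3
    · subst h3
      rw [hw2, Nat.add_sub_cancel, h1]
    · rw [dbl_right (by omega) (by omega), Nat.add_sub_cancel]
  have hwl : ∀ i, i + 1 ≤ t → dbl n t e i (i + 1) = e i (i + 1) := by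
    intro i hi
    rcases eq_or_lt_of_le hi with h3 | h3
    · have e1 : i = t - 1 := by omega
      rw [h3, e1, hw1, h0]
    · rw [dbl_left h3]
  refine cls_dbl_aux h ht htn hsl ?_ ?_ ?_ ?_
  · intro s hs hst
    unfold sl
    have := hwl (s - 1) (by omega)
    have e1 : s - 1 + 1 = s := by omega
    rw [e1] at this
    rw [this, hwl s (by omega)]
  · unfold sl
    rw [hw1, dbl_tt]
    simp
  · unfold sl
    rw [Nat.add_sub_cancel, dbl_tt, hw2]
    simp
  · intro s hs hsn
    unfold sl
    have := hwr (s - 1) (by omega)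
    have e1 : s - 1 + 1 = s := by omega
    rw [e1] at this
    rw [this, hwr s (by omega), e1]

theorem exists_cls_max (e0 : Rel) (h : Cls k n e0) :
    ∃ e, Cls k n e ∧ F (1 / 2) n 0 0 e0 ≤ F (1 / 2) n 0 0 e ∧ NR n e := by
  obtain ⟨e, he, hmax⟩ := exists_max_on n (F (1 / 2) n 0 0) (fun _ _ h => F_congr h) (Cls k n)
    ⟨e0, h⟩
  refine ⟨e, he, hmax e0 h, ?_⟩
  intro i j hij hj
  have hadj : ∀ s, flip i j e s (s + 1) = e s (s + 1) := by
    intro s
    unfold flip
    rw [if_neg (by omega)]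
  have hsl : ∀ s, 1 ≤ s → (sl (flip i j e) s ↔ sl e s) := by
    intro s hs
    unfold sl
    have := hadj (s - 1)
    have e1 : s - 1 + 1 = s := by omega
    rw [e1] at this
    rw [this, hadj]
  have hcls : Cls k n (flip i j e) := by
    constructor
    · have := he.1
      rw [iso_iff] at this ⊢
      intro s hs hsn
      rw [hsl s hs, hsl (s + 1) (by omega)]
      exact this s hs hsn
    · have := he.2
      rw [nsl_eq] at this ⊢
      rw [← this]
      refine sum_congr rfl fun s hs => ?_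
      have hs := mem_Ico.1 hs
      have := hsl s hs.1
      by_cases h : sl e s
      · rw [if_pos h, if_pos (this.2 h)]
      · rw [if_neg h, if_neg (fun h' => h (this.1 h'))]
  have h1 := hmax _ hcls
  rw [F_flip (by omega) hj] at h1
  have h2 : 0 ≤ 2 * (1 / 2 : ℝ) ^ (j - i) * (sg (e i j) * (AA e i - BB n e j)) := by
    unfold AA BB; linarith
  have h3 : 0 < 2 * (1 / 2 : ℝ) ^ (j - i) := by positivity
  exact nonneg_of_mul_nonneg_right h2 h3

/-! ### symmetries -/

lemma AA_compl (e : Rel) (t : ℕ) : AA (compl e) t = - AA e t := by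
  have := av_compl (1 / 2) 0 e t
  rw [neg_zero] at this
  exact this

lemma BB_compl (n : ℕ) (e : Rel) (t : ℕ) : BB n (compl e) t = - BB n e t := by
  have := bv_compl (1 / 2) 0 n e t
  rw [neg_zero] at this
  exact this

lemma AA_rev (ht : t < n) : AA (rev n e) t = BB n e (n - 1 - t) := av_rev ht
lemma BB_rev (ht : t < n) : BB n (rev n e) t = AA e (n - 1 - t) := bv_rev ht

theorem compl_cls (h : Cls k n e) : Cls k n (compl e) := by
  have hsl : ∀ s, (sl (compl e) s ↔ sl e s) := by
    intro s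
    unfold sl compl
    constructor
    · intro h; simpa using h
    · intro h; rw [h]
  constructor
  · have := h.1
    rw [iso_iff] at this ⊢
    intro s hs hsn
    rw [hsl s, hsl (s + 1)]
    exact this s hs hsn
  · have := h.2
    rw [nsl_eq] at this ⊢
    rw [← this]
    refine sum_congr rfl fun s _ => ?_
    have := hsl s
    by_cases h : sl e s
    · rw [if_pos h, if_pos (this.2 h)]
    · rw [if_neg h, if_neg (fun h' => h (this.1 h'))]

lemma sl_rev {s : ℕ} (hs : 1 ≤ s) (hsn : s + 1 < n) : sl (rev n e) s ↔ sl e (n - 1 - s) := by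
  unfold sl rev
  have e1 : n - 1 - (s - 1) = n - 1 - s + 1 := by omega
  have e2 : n - 1 - (s + 1) = n - 1 - s - 1 := by omega
  rw [e1, e2]
  constructor
  · intro h
    have h := (Bool.not_inj h)
    exact h.symm
  · intro h
    rw [h]

theorem rev_cls (h : Cls k n e) : Cls k n (rev n e) := by
  constructor
  · have := h.1
    rw [iso_iff] at this ⊢
    intro s hs hsn
    rw [sl_rev hs (by omega), sl_rev (by omega) (by omega)]
    have h2 := this (n - 1 - (s + 1)) (by omega) (by omega)
    have e1 : n - 1 - (s + 1) + 1 = n - 1 - s := by omega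
    rw [e1] at h2
    exact fun h3 => h2 ⟨h3.2, h3.1⟩
  · have := h.2
    rw [nsl_eq] at this ⊢
    rw [← this]
    refine sum_bij' (fun s _ => n - 1 - s) (fun s _ => n - 1 - s) ?_ ?_ ?_ ?_ ?_
    · intro s hs
      have := mem_Ico.1 hs
      rw [mem_Ico]; omega
    · intro s hs
      have := mem_Ico.1 hs
      rw [mem_Ico]; omega
    · intro s hs
      have := mem_Ico.1 hs
      omega
    · intro s hs
      have := mem_Ico.1 hs
      omega
    · intro s hs
      have hs := mem_Ico.1 hs
      have := sl_rev (e := e) hs.1 (show s + 1 < n by omega)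
      by_cases h : sl e (n - 1 - s)
      · rw [if_pos h, if_pos (this.2 h)]
      · rw [if_neg h, if_neg (fun h' => h (this.1 h'))]

theorem compl_NR (h : NR n e) : NR n (compl e) := by
  intro i j hij hj
  rw [AA_compl, BB_compl]
  have := h i j hij hj
  unfold compl
  rw [sg_not]
  linarith

theorem rev_NR (h : NR n e) : NR n (rev n e) := by
  intro i j hij hj
  rw [AA_rev (by omega), BB_rev hj]
  have := h (n - 1 - j) (n - 1 - i) (by omega) (by omega)
  unfold rev
  rw [sg_not]
  linarith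

theorem alt_of_cls_zero (h : Cls 0 n e) : Alt n e := by
  intro s hs hsn heq
  have h1 := h.2
  unfold nsl at h1
  rw [Finset.card_eq_zero] at h1
  have : s ∈ (Ico 1 (n - 1)).filter (fun t => e (t - 1) t = e t (t + 1)) := by
    rw [mem_filter, mem_Ico]
    exact ⟨⟨hs, by omega⟩, heq.symm⟩
  rw [h1] at this
  simp at this

theorem cls_zero_of_alt (h : Alt n e) : Cls 0 n e := by
  constructor
  · intro s hs hsn h1
    exact h s hs (by omega) h1.1.symm
  · unfold nsl
    rw [Finset.card_eq_zero, Finset.filter_eq_empty_iff]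
    intro s hs heq
    have hs := mem_Ico.1 hs
    exact h s hs.1 (by omega) heq.symm

end Pool.Agent.RC.TA
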