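import Pool.Agent.Work.MP_b9e699_co.TPD3
import Pool.Agent.Work.MP_b9e699_co.TPA
import Pool.Agent.Work.MP_b9e699_co.CB2
import Pool.Agent.Work.MP_b9e699_co.Nu

/-! # Top level: maximisers have no slopes -/

open Finset

namespace Pool.Agent.RC

open TA NU

variable {n t k : ℕ} {e : Rel}

lemma F_compl0 (e : Rel) : F (1 / 2) n 0 0 (compl e) = F (1 / 2) n 0 0 e := by
  have := F_compl (1 / 2) n 0 0 e
  rw [neg_zero] at this
  exact this

lemma F_mirr0 (e : Rel) : F (1 / 2) n 0 0 (mirr n e) = F (1 / 2) n 0 0 e := by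
  unfold mirr
  rw [F_compl0, F_rev]

lemma mirr_cls (h : Cls k n e) : Cls k n (mirr n e) := compl_cls (rev_cls h)

/-- removal of a U slope with a lower bound of the cost. -/
lemma removal_bound {P : ℝ} (hn : 4 ≤ n) (h : Cls (k + 1) n e) (hr : NR n e) (ht : 1 ≤ t)
    (htn : t + 1 < n) (h0 : e (t - 1) t = false) (h1 : e t (t + 1) = false) (hP : P ≤ Pc n t e) :
    ∃ e1 e2, Cls k (n - 1) e1 ∧ Cls k (n + 1) e2 ∧
      F (1 / 2) n 0 0 e ≤ (1 / 3) * F (1 / 2) (n - 1) 0 0 e1 + (2 / 3) * F (1 / 2) (n + 1) 0 0 e2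
        - (2 / 3) * P := by
  refine ⟨del t e, dbl n t e, del_cls hn h hr ht htn h0 h1, dbl_cls h ht htn h0 h1, ?_⟩
  have := removal (n := n) (t := t) (e := e) (by omega)
  linarith

/-- the same for a slope of any orientation. -/
lemma removal_bound' {P : ℝ} (hn : 4 ≤ n) (h : Cls (k + 1) n e) (hr : NR n e) (ht : 1 ≤ t)
    (htn : t + 1 < n) (hs : e (t - 1) t = e t (t + 1))
    (hP : ∀ e' : Rel, Cls (k + 1) n e' → NR n e' →
      (∀ i j, (e' i j = e i j) ∨ (e' i j = !(e i j))) →
      (e' = e ∨ e' = compl e) →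
      e' (t - 1) t = false → e' t (t + 1) = false → P ≤ Pc n t e') :
    ∃ e1 e2, Cls k (n - 1) e1 ∧ Cls k (n + 1) e2 ∧
      F (1 / 2) n 0 0 e ≤ (1 / 3) * F (1 / 2) (n - 1) 0 0 e1 + (2 / 3) * F (1 / 2) (n + 1) 0 0 e2
        - (2 / 3) * P := by
  cases hc : e (t - 1) t
  · exact removal_bound hn h hr ht htn hc (hs.symm.trans hc)
      (hP e h hr (fun i j => Or.inl rfl) (Or.inl rfl) hc (hs.symm.trans hc))
  · have hc0 : compl e (t - 1) t = false := by unfold compl; rw [hc]; rfl
    have hc1 : compl e t (t + 1) = false := by unfold compl; rw [← hs, hc]; rfl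
    have := removal_bound hn (compl_cls h) (compl_NR hr) ht htn hc0 hc1
      (hP (compl e) (compl_cls h) (compl_NR hr) (fun i j => Or.inr rfl) (Or.inr rfl) hc0 hc1)
    rw [F_compl0] at this
    exact this

theorem alt_le_V0 (hn : 2 ≤ n) (h : Alt n e) : F (1 / 2) n 0 0 e ≤ V0 n := by
  obtain ⟨e1, h1, h2, h3⟩ := exists_cls_max e (cls_zero_of_alt h)
  -- make the first relation `true`
  obtain ⟨e2, g1, g2, g3, g4⟩ : ∃ e2, Cls 0 n e2 ∧ F (1 / 2) n 0 0 e ≤ F (1 / 2) n 0 0 e2 ∧
      NR n e2 ∧ e2 0 1 = true := by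
    cases hc : e1 0 1
    · refine ⟨compl e1, compl_cls h1, ?_, compl_NR h3, ?_⟩
      · rw [F_compl0]; exact h2
      · unfold compl; rw [hc]; rfl
    · exact ⟨e1, h1, h2, h3, hc⟩
  refine g2.trans ?_
  have hA := alt_of_cls_zero g1
  have hag := agree_comb_of_alt (q := 1 / 2) (x := 0) (y := 0) (by norm_num) (le_refl _)
    (by rw [kap_half, abs_zero]) (by rw [kap_half, abs_zero]) hA g3
  rw [F_congr hag, g4]
  exact F_comb_le_Val (by norm_num) (le_refl _) hn _ _ _ _

/-- `V0` is the value of some array. -/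
lemma exists_V0 (hn : 2 ≤ n) : ∃ e, F (1 / 2) n 0 0 e = V0 n := by
  obtain ⟨ς, eE, eO, h⟩ := exists_F_eq_Val (q := 1 / 2) (x := 0) (y := 0) (m := n) (by norm_num)
    (le_refl _) hn true
  exact ⟨_, h⟩

lemma exists_slope (h : nsl n e ≠ 0) :
    ∃ t, 1 ≤ t ∧ t + 1 < n ∧ e (t - 1) t = e t (t + 1) ∧
      ∀ i, 1 ≤ i → i < t → e (i - 1) i ≠ e i (i + 1) := by
  classical
  have hex : ∃ t, 1 ≤ t ∧ t + 1 < n ∧ e (t - 1) t = e t (t + 1) := by
    unfold nsl at h
    rw [Ne, card_eq_zero] at h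
    obtain ⟨t, ht⟩ := nonempty_iff_ne_empty.2 h
    rw [mem_filter, mem_Ico] at ht
    exact ⟨t, ht.1.1, by omega, ht.2⟩
  refine ⟨Nat.find hex, (Nat.find_spec hex).1, (Nat.find_spec hex).2.1, (Nat.find_spec hex).2.2, ?_⟩
  intro i hi hit hc
  have h1 := (Nat.find_spec hex).2.1
  exact Nat.find_min hex hit ⟨hi, by omega, hc⟩

theorem step1 (hn : 4 ≤ n) (h : Cls 1 n e) : F (1 / 2) n 0 0 e ≤ U1 n := by
  obtain ⟨e1, h1, h2, h3⟩ := exists_cls_max e h
  refine h2.trans ?_
  clear h2 h
  obtain ⟨t, ht, htn, hs, -⟩ := exists_slope (by rw [h1.2]; norm_num : nsl n e1 ≠ 0)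
  have key : ∃ a1 a2, Cls 0 (n - 1) a1 ∧ Cls 0 (n + 1) a2 ∧
      F (1 / 2) n 0 0 e1 ≤ (1 / 3) * F (1 / 2) (n - 1) 0 0 a1
        + (2 / 3) * F (1 / 2) (n + 1) 0 0 a2 - (2 / 3) * pi1 n := by
    by_cases ht1 : t = 1
    · subst ht1
      exact removal_bound' hn h1 h3 ht htn hs
        (fun e' c1 c2 _ _ c3 c4 => cost_left_one hn c1 c2 c3 c4)
    by_cases ht2 : t + 2 = n
    · -- mirror
      have m0 : mirr n e1 (1 - 1) 1 = mirr n e1 1 (1 + 1) := by
        rw [mirr_apply, mirr_apply, show n - 1 - 1 = t by omega,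
          show n - 1 - (1 - 1) = t + 1 by omega, show n - 1 - (1 + 1) = t - 1 by omega]
        exact hs.symm
      have := removal_bound' (P := pi1 n) hn (mirr_cls h1) (NR_mirr h3) (le_refl 1) (by omega) m0
        (fun e' c1 c2 _ _ c3 c4 => cost_left_one hn c1 c2 c3 c4)
      rw [F_mirr0] at this
      exact this
    · exact removal_bound' hn h1 h3 ht htn hs
        (fun e' c1 c2 _ _ c3 c4 => cost_one c1 c2 (by omega) (by omega) c3 c4)
  obtain ⟨a1, a2, c1, c2, c3⟩ := key
  have d1 := alt_le_V0 (by omega : 2 ≤ n - 1) (alt_of_cls_zero c1)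
  have d2 := alt_le_V0 (by omega : 2 ≤ n + 1) (alt_of_cls_zero c2)
  unfold U1
  linarith

theorem step2 (hn : 5 ≤ n) (h : Cls (k + 2) n e) : ∃ e1 e2, Cls (k + 1) (n - 1) e1 ∧
    Cls (k + 1) (n + 1) e2 ∧
    F (1 / 2) n 0 0 e ≤ (1 / 3) * F (1 / 2) (n - 1) 0 0 e1 + (2 / 3) * F (1 / 2) (n + 1) 0 0 e2
      - (2 / 3) * (13 / 50) := by
  obtain ⟨e1, h1, h2, h3⟩ := exists_cls_max e h
  obtain ⟨t, ht, htn, hs, hl⟩ := exists_slope (by rw [h1.2]; omega : nsl n e1 ≠ 0)
  have key : ∃ a1 a2, Cls (k + 1) (n - 1) a1 ∧ Cls (k + 1) (n + 1) a2 ∧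
      F (1 / 2) n 0 0 e1 ≤ (1 / 3) * F (1 / 2) (n - 1) 0 0 a1
        + (2 / 3) * F (1 / 2) (n + 1) 0 0 a2 - (2 / 3) * (13 / 50) := by
    by_cases ht1 : t = 1
    · subst ht1
      refine removal_bound' (by omega) h1 h3 ht htn hs (fun e' c1 c2 _ _ c3 c4 => ?_)
      have := cost_left (by omega) c1.1 c3 c4
      linarith
    by_cases hR : e1 (n - 3) (n - 2) = e1 (n - 2) (n - 1)
    · have m0 : mirr n e1 (1 - 1) 1 = mirr n e1 1 (1 + 1) := by
        rw [mirr_apply, mirr_apply, show n - 1 - 1 = n - 2 by omega,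
          show n - 1 - (1 - 1) = n - 1 by omega, show n - 1 - (1 + 1) = n - 3 by omega]
        exact hR.symm
      have := removal_bound' (P := 13 / 50) (by omega) (mirr_cls h1) (NR_mirr h3) (le_refl 1)
        (by omega) m0 (fun e' c1 c2 _ _ c3 c4 => by
          have := cost_left (by omega) c1.1 c3 c4
          linarith)
      rw [F_mirr0] at this
      exact this
    · have hne : t + 2 ≠ n := by
        intro hc
        apply hR
        rw [show n - 3 = t - 1 by omega, show n - 2 = t by omega, show n - 1 = t + 1 by omega]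
        exact hs
      refine removal_bound' (by omega) h1 h3 ht htn hs (fun e' c1 c2 _ c5 c3 c4 => ?_)
      refine cost_main c1.1 c2 (by omega) (by omega) ?_ ?_ c3 c4
      · rcases c5 with rfl | rfl
        · exact hl
        · intro i hi hit hc
          apply hl i hi hit
          unfold compl at hc
          revert hc
          cases e1 (i - 1) i <;> cases e1 i (i + 1) <;> simp
      · rcases c5 with rfl | rfl
        · exact hR
        · intro hc
          apply hR
          unfold compl at hc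
          revert hc
          cases e1 (n - 3) (n - 2) <;> cases e1 (n - 2) (n - 1) <;> simp
  obtain ⟨a1, a2, c1, c2, c3⟩ := key
  exact ⟨a1, a2, c1, c2, by linarith⟩

/-- two isolated slopes need length at least `5`. -/
lemma five_le (h : Cls (k + 2) n e) : 5 ≤ n := by
  by_contra hc
  have h2 := h.2
  unfold nsl at h2
  have h3 : ((Ico 1 (n - 1)).filter (fun t => e (t - 1) t = e t (t + 1))).card
      ≤ (Ico 1 (n - 1)).card := card_filter_le _ _
  rw [h2, Nat.card_Ico] at h3
  have hn : n = 4 := by omega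
  subst hn
  have hk : k = 0 := by omega
  subst hk
  have h4 : (Ico 1 (4 - 1)).filter (fun t => e (t - 1) t = e t (t + 1)) = Ico 1 (4 - 1) :=
    eq_of_subset_of_card_le (filter_subset _ _) (by rw [h2, Nat.card_Ico])
  have m1 : 1 ∈ (Ico 1 (4 - 1)).filter (fun t => e (t - 1) t = e t (t + 1)) := by
    rw [h4, mem_Ico]; omega
  have m2 : 2 ∈ (Ico 1 (4 - 1)).filter (fun t => e (t - 1) t = e t (t + 1)) := by
    rw [h4, mem_Ico]; omega
  rw [mem_filter] at m1 m2
  exact h.1 1 (by omega) (by omega) ⟨m1.2, m2.2⟩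

theorem top_no_slope {n : ℕ} (hn : 3 ≤ n) {e : Rel} (he : IsMax (1 / 2) n 0 0 e) : Alt n e := by
  have hrule : ∀ i j, i < j → j < n → 0 ≤ sg (e i j) * (AA e i - BB n e j) :=
    fun i j hij hj => he.rule (by norm_num) hij hj
  -- no adjacent slopes
  have hI : Iso n e := by
    intro t ht htn ⟨h1, h2⟩
    have h3 := hrule t (t + 1) (by omega) (by omega)
    cases hc : e t (t + 1)
    · rw [hc] at h1 h2 h3
      have hA := AA_pos ht h1
      have hB := BB_neg (n := n) (t := t + 1) (by omega) h2.symm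
      rw [sg_false] at h3
      linarith
    · rw [hc] at h1 h2 h3
      have hA := AA_neg ht h1
      have hB := BB_pos (n := n) (t := t + 1) (by omega) h2.symm
      rw [sg_true] at h3
      linarith
  -- no slope at `1`
  have h1 : e 0 1 ≠ e 1 2 := by
    intro hs
    have h3 := hrule 0 1 (by omega) (by omega)
    rw [AA_zero] at h3
    cases hc : e 0 1
    · rw [hc] at h3 hs
      have hB := BB_neg (n := n) (t := 1) (by omega) hs.symm
      rw [sg_false] at h3
      linarith
    · rw [hc] at h3 hs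
      have hB := BB_pos (n := n) (t := 1) (by omega) hs.symm
      rw [sg_true] at h3
      linarith
  have hV : V0 n ≤ F (1 / 2) n 0 0 e := by
    obtain ⟨e0, h0⟩ := exists_V0 (n := n) (by omega)
    rw [← h0]; exact he e0
  obtain ⟨k, hk⟩ : ∃ k, nsl n e = k := ⟨_, rfl⟩
  have hcls : Cls k n e := ⟨hI, hk⟩
  rcases k with _ | _ | k
  · exact alt_of_cls_zero hcls
  · exfalso
    by_cases hn4 : 4 ≤ n
    · have := step1 hn4 hcls
      have := num1 n hn4
      linarith
    · obtain ⟨t, ht, htn, hs, -⟩ := exists_slope (by rw [hk]; norm_num : nsl n e ≠ 0)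
      have : t = 1 := by omega
      subst this
      exact h1 hs
  · exfalso
    obtain ⟨v, C, hv, hb1, hb2⟩ := num2
    have key : ∀ k n e, Cls (k + 2) n e → F (1 / 2) n 0 0 e ≤ v * n - C := by
      intro k
      induction k with
      | zero =>
        intro n e h
        have h5 := five_le h
        obtain ⟨a1, a2, c1, c2, c3⟩ := step2 h5 h
        have d1 := step1 (by omega : 4 ≤ n - 1) c1
        have d2 := step1 (by omega : 4 ≤ n + 1) c2
        have := hb1 n h5
        linarith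
      | succ k ih =>
        intro n e h
        have h5 := five_le h
        obtain ⟨a1, a2, c1, c2, c3⟩ := step2 h5 h
        have d1 := ih (n - 1) a1 c1
        have d2 := ih (n + 1) a2 c2
        rw [Nat.cast_sub (by omega), Nat.cast_one] at d1
        rw [Nat.cast_add, Nat.cast_one] at d2
        linarith
    have h5 := five_le hcls
    have := key k n e hcls
    have := hb2 n h5
    linarith

end Pool.Agent.RC
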