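import Pool.Agent.Work.MP_b9e699_co.CT
import Pool.Agent.Work.MP_b9e699_co.TPE

/-!
# Counting at the top level
-/

open Finset

namespace Pool.Agent.RC

/-! ### linear arrays -/

lemma Lin.congr {m : ℕ} {e e' : Rel} (h : Agree m e e') (he : Lin m e) : Lin m e' := by
  obtain ⟨f, h1, h2⟩ := he
  refine ⟨f, h1, fun i j hij hj => ?_⟩
  rw [← h i j hij hj]
  exact h2 i j hij hj

/-- a combination of two linear arrays is linear. -/
theorem fc_lin_comb {m : ℕ} (hm : 3 ≤ m) {σ ς : Bool} {eE eO : Rel}
    (hE : Lin ((m - 2) / 2) eE) (hO : Lin ((m - 1) / 2) eO) : Lin m (comb m σ ς eE eO) := by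
  obtain ⟨f, hf1, hf2⟩ := hE
  obtain ⟨g, hg1, hg2⟩ := hO
  -- a bound for all heights
  set C : ℤ := 2 + (∑ i ∈ range ((m - 2) / 2), |f i|) + ∑ i ∈ range ((m - 1) / 2), |g i| with hC
  have hfC : ∀ i, i < (m - 2) / 2 → |f i| + 2 ≤ C := by
    intro i hi
    have h1 : |f i| ≤ ∑ i ∈ range ((m - 2) / 2), |f i| :=
      single_le_sum (f := fun i => |f i|) (fun _ _ => abs_nonneg _) (mem_range.2 hi)
    have h2 : 0 ≤ ∑ i ∈ range ((m - 1) / 2), |g i| := sum_nonneg fun _ _ => abs_nonneg _
    linarith
  have hgC : ∀ i, i < (m - 1) / 2 → |g i| + 2 ≤ C := by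
    intro i hi
    have h1 : |g i| ≤ ∑ i ∈ range ((m - 1) / 2), |g i| :=
      single_le_sum (f := fun i => |g i|) (fun _ _ => abs_nonneg _) (mem_range.2 hi)
    have h2 : 0 ≤ ∑ i ∈ range ((m - 2) / 2), |f i| := sum_nonneg fun _ _ => abs_nonneg _
    linarith
  set s : ℤ := if σ then 1 else -1 with hs
  set h : ℕ → ℤ := fun i =>
    if i = 0 then (if ς then 1 else 0)
    else if i + 1 = m then (if ς then 0 else 1)
    else if i % 2 = 0 then f ((i - 2) / 2) + s * (2 * C) else g ((i - 1) / 2) - s * (2 * C) with hh
  have h0 : h 0 = if ς then 1 else 0 := by simp [hh]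
  have hlast : ∀ i, i ≠ 0 → i + 1 = m → h i = if ς then 0 else 1 := by
    intro i hi0 him
    simp only [hh, if_neg hi0, if_pos him]
  have heven : ∀ i, i ≠ 0 → i + 1 ≠ m → i % 2 = 0 → h i = f ((i - 2) / 2) + s * (2 * C) := by
    intro i h1 h2 h3
    simp only [hh, if_neg h1, if_neg h2, if_pos h3]
  have hodd : ∀ i, i ≠ 0 → i + 1 ≠ m → i % 2 ≠ 0 → h i = g ((i - 1) / 2) - s * (2 * C) := by
    intro i h1 h2 h3
    simp only [hh, if_neg h1, if_neg h2, if_neg h3]
  have hends : ∀ b : Bool, (0 : ℤ) ≤ (if b then 1 else 0) ∧ (if b then 1 else 0) ≤ (1 : ℤ) ∧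
      (0 : ℤ) ≤ (if b then 0 else 1) ∧ (if b then 0 else 1) ≤ (1 : ℤ) := by
    intro b; cases b <;> simp
  have hςe := hends ς
  have key : ∀ i j, i < j → j < m → h i ≠ h j ∧ (comb m σ ς eE eO i j = true ↔ h j < h i) := by
    intro i j hij hj
    by_cases hi0 : i = 0
    · subst hi0
      by_cases hjm : j + 1 = m
      · rw [h0, hlast j (by omega) hjm]
        have : comb m σ ς eE eO 0 j = ς := by
          unfold comb; rw [if_pos rfl, if_pos hjm]
        rw [this]
        cases ς <;> simp
      · by_cases hjp : j % 2 = 0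
        · have : comb m σ ς eE eO 0 j = !σ := by
            unfold comb; rw [if_pos rfl, if_neg hjm, if_pos hjp]
          rw [this, h0, heven j (by omega) hjm hjp]
          have hb := hfC ((j - 2) / 2) (by omega)
          have hb1 := neg_abs_le (f ((j - 2) / 2))
          have hb2 := le_abs_self (f ((j - 2) / 2))
          rw [hs]
          cases σ
          · simp only [Bool.not_false, true_iff, if_false, Bool.false_eq_true]
            constructor <;> omega
          · simp only [Bool.not_true, Bool.false_eq_true, false_iff, if_true]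
            constructor <;> omega
        · have : comb m σ ς eE eO 0 j = σ := by
            unfold comb; rw [if_pos rfl, if_neg hjm, if_neg hjp]
          rw [this, h0, hodd j (by omega) hjm hjp]
          have hb := hgC ((j - 1) / 2) (by omega)
          have hb1 := neg_abs_le (g ((j - 1) / 2))
          have hb2 := le_abs_self (g ((j - 1) / 2))
          rw [hs]
          cases σ
          · simp only [Bool.false_eq_true, false_iff, if_false]
            constructor <;> omega
          · simp only [true_iff, if_true]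
            constructor <;> omega
    · by_cases hjm : j + 1 = m
      · rw [hlast j (by omega) hjm]
        by_cases hip : i % 2 = 0
        · have : comb m σ ς eE eO i j = σ := by
            unfold comb; rw [if_neg hi0, if_pos hjm, if_pos hip]
          rw [this, heven i hi0 (by omega) hip]
          have hb := hfC ((i - 2) / 2) (by omega)
          have hb1 := neg_abs_le (f ((i - 2) / 2))
          have hb2 := le_abs_self (f ((i - 2) / 2))
          rw [hs]
          cases σ
          · simp only [Bool.false_eq_true, false_iff, if_false]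
            constructor <;> omega
          · simp only [true_iff, if_true]
            constructor <;> omega
        · have : comb m σ ς eE eO i j = !σ := by
            unfold comb; rw [if_neg hi0, if_pos hjm, if_neg hip]
          rw [this, hodd i hi0 (by omega) hip]
          have hb := hgC ((i - 1) / 2) (by omega)
          have hb1 := neg_abs_le (g ((i - 1) / 2))
          have hb2 := le_abs_self (g ((i - 1) / 2))
          rw [hs]
          cases σ
          · simp only [Bool.not_false, true_iff, if_false, Bool.false_eq_true]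
            constructor <;> omega
          · simp only [Bool.not_true, Bool.false_eq_true, false_iff, if_true]
            constructor <;> omega
      · by_cases hip : i % 2 = 0
        · by_cases hjp : j % 2 = 0
          · have : comb m σ ς eE eO i j = eE ((i - 2) / 2) ((j - 2) / 2) := by
              unfold comb
              rw [if_neg hi0, if_neg hjm, if_pos (by omega), if_pos hip]
            rw [this, heven i hi0 (by omega) hip, heven j (by omega) hjm hjp]
            have h1 := hf1 ((i - 2) / 2) ((j - 2) / 2) (by omega) (by omega) (by omega)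
            have h2 := hf2 ((i - 2) / 2) ((j - 2) / 2) (by omega) (by omega)
            rw [h2]
            constructor
            · intro h3; apply h1; linarith
            · constructor <;> intro h3 <;> linarith
          · have : comb m σ ς eE eO i j = σ := by
              unfold comb
              rw [if_neg hi0, if_neg hjm, if_neg (by omega), if_pos hip]
            rw [this, heven i hi0 (by omega) hip, hodd j (by omega) hjm hjp]
            have hb := hfC ((i - 2) / 2) (by omega)
            have hb1 := neg_abs_le (f ((i - 2) / 2))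
            have hb2 := le_abs_self (f ((i - 2) / 2))
            have hc := hgC ((j - 1) / 2) (by omega)
            have hc1 := neg_abs_le (g ((j - 1) / 2))
            have hc2 := le_abs_self (g ((j - 1) / 2))
            rw [hs]
            cases σ
            · simp only [Bool.false_eq_true, false_iff, if_false]
              constructor <;> omega
            · simp only [true_iff, if_true]
              constructor <;> omega
        · by_cases hjp : j % 2 = 0
          · have : comb m σ ς eE eO i j = !σ := by
              unfold comb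
              rw [if_neg hi0, if_neg hjm, if_neg (by omega), if_neg hip]
            rw [this, hodd i hi0 (by omega) hip, heven j (by omega) hjm hjp]
            have hb := hfC ((j - 2) / 2) (by omega)
            have hb1 := neg_abs_le (f ((j - 2) / 2))
            have hb2 := le_abs_self (f ((j - 2) / 2))
            have hc := hgC ((i - 1) / 2) (by omega)
            have hc1 := neg_abs_le (g ((i - 1) / 2))
            have hc2 := le_abs_self (g ((i - 1) / 2))
            rw [hs]
            cases σ
            · simp only [Bool.not_false, true_iff, if_false, Bool.false_eq_true]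
              constructor <;> omega
            · simp only [Bool.not_true, Bool.false_eq_true, false_iff, if_true]
              constructor <;> omega
          · have : comb m σ ς eE eO i j = eO ((i - 1) / 2) ((j - 1) / 2) := by
              unfold comb
              rw [if_neg hi0, if_neg hjm, if_pos (by omega), if_neg hip]
            rw [this, hodd i hi0 (by omega) hip, hodd j (by omega) hjm hjp]
            have h1 := hg1 ((i - 1) / 2) ((j - 1) / 2) (by omega) (by omega) (by omega)
            have h2 := hg2 ((i - 1) / 2) ((j - 1) / 2) (by omega) (by omega)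
            rw [h2]
            constructor
            · intro h3; apply h1; linarith
            · constructor <;> intro h3 <;> linarith
  refine ⟨h, fun i j hi hj hne => ?_, fun i j hij hj => (key i j hij hj).2⟩
  rcases lt_or_gt_of_ne hne with h1 | h1
  · exact (key i j h1 hj).1
  · exact (key j i h1 hi).1.symm

/-! ### the fields of the children of the top level -/

lemma fc_gq_half : gq (1 / 2) = 2 / 3 := by unfold gq; norm_num

lemma strip_half (σ : Bool) : strip (1 / 2) σ 0 = sg σ * (1 / 3) := by
  unfold strip; rw [fc_gq_half]; ring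

lemma opp_half (σ : Bool) : opp (1 / 2) σ 0 = sg σ * (2 / 3) := by
  unfold opp; rw [fc_gq_half]; ring

lemma fc_abs_sg_mul (σ : Bool) {c : ℝ} (hc : 0 ≤ c) : |sg σ * c| = c := by
  rw [abs_mul, abs_sg, one_mul, abs_of_nonneg hc]

theorem Adm.top (n : ℕ) (σ : Bool) :
    Adm (1 / 4) (strip (1 / 2) σ 0) (yE (1 / 2) n σ 0) ∧
      Adm (1 / 4) (opp (1 / 2) σ 0) (yO (1 / 2) n σ 0) := by
  have hs : ∀ τ : Bool, |strip (1 / 2) τ 0| = 1 / 3 := fun τ => by
    rw [strip_half, fc_abs_sg_mul τ (by norm_num)]
  have ho : ∀ τ : Bool, |opp (1 / 2) τ 0| = 2 / 3 := fun τ => by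
    rw [opp_half, fc_abs_sg_mul τ (by norm_num)]
  constructor
  · left
    refine ⟨rfl, Or.inl (hs σ), ?_⟩
    unfold yE
    split_ifs
    · exact Or.inl (hs σ)
    · exact Or.inr (ho _)
  · left
    refine ⟨rfl, Or.inr (ho σ), ?_⟩
    unfold yO
    split_ifs
    · exact Or.inr (ho σ)
    · exact Or.inl (hs _)


theorem structured_top {n : ℕ} (hn : 3 ≤ n) : Structured (1 / 2) n 0 0 := by
  intro e he
  exact struct_alt (by norm_num) le_rfl (by rw [kap_half]; simp) (by rw [kap_half]; simp) hn
    (top_no_slope hn he) he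

lemma quarter : ((1 : ℝ) / 2) ^ 2 = 1 / 4 := by norm_num

theorem top_lin {n : ℕ} (hn : 3 ≤ n) {e : Rel} (he : IsMax (1 / 2) n 0 0 e) : Lin n e := by
  obtain ⟨ς, eE, eO, hag, hE, hO, _⟩ := structured_top hn e he
  rw [quarter] at hE hO
  have hA := Adm.top n (e 0 1)
  exact (fc_lin_comb hn (lin_of_isMax hA.1 hE) (lin_of_isMax hA.2 hO)).congr hag.symm

/-- counting recursion at the top level -/
theorem top_count {n : ℕ} (hn : 3 ≤ n) :
    Nmax (1 / 2) n 0 0 =
      2 * (Nmax (1 / 4) ((n - 2) / 2) (strip (1 / 2) true 0) (yE (1 / 2) n true 0)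
        * Nmax (1 / 4) ((n - 1) / 2) (opp (1 / 2) true 0) (yO (1 / 2) n true 0))
      + 2 * (Nmax (1 / 4) ((n - 2) / 2) (strip (1 / 2) false 0) (yE (1 / 2) n false 0)
        * Nmax (1 / 4) ((n - 1) / 2) (opp (1 / 2) false 0) (yO (1 / 2) n false 0)) := by
  obtain ⟨e0, he0⟩ := exists_isMax (1 / 2) n 0 0
  have hc : IsMax (1 / 2) n 0 0 (compl e0) := by
    apply he0.of_F_eq
    have := F_compl (1 / 2) n 0 0 e0
    rwa [neg_zero] at this
  have hex : ∀ σ : Bool, ∃ e, IsMax (1 / 2) n 0 0 e ∧ e 0 1 = σ := by
    intro σ
    by_cases h : e0 0 1 = σ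
    · exact ⟨e0, he0, h⟩
    · refine ⟨compl e0, hc, ?_⟩
      unfold compl
      cases hs : e0 0 1 <;> cases σ <;> simp_all
  have hq2 : ((1 : ℝ) / 2) ^ 2 ≠ 1 := by norm_num
  rw [Nmax_eq_add, ncard_SigSet_of hq2 hn (structured_top hn) true (hex true),
    ncard_SigSet_of hq2 hn (structured_top hn) false (hex false), EndSet_sym, quarter]

/-! ### rational versions of the fields of the children -/

lemma fc_qq_one : qq 1 = 1 / 4 := by unfold qq; norm_num

lemma cast_third (σ : Bool) : ((sQ σ * (1 / 3) : ℚ) : ℝ) = strip (1 / 2) σ 0 := by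
  rw [strip_half]; push_cast; rw [cast_sQ]

lemma cast_twothird (σ : Bool) : ((sQ σ * (2 / 3) : ℚ) : ℝ) = opp (1 / 2) σ 0 := by
  rw [opp_half]; push_cast; rw [cast_sQ]

lemma val_third (σ : Bool) : padicValRat 2 (sQ σ * (1 / 3)) = 0 := by
  rw [val_sQ_mul]
  have h : (1 / 3 : ℚ) = ((1 : ℤ) : ℚ) / ((3 : ℤ) : ℚ) := by norm_num
  rw [h, padicValRat.div (by norm_num) (by norm_num), val_odd (by norm_num), val_odd (by norm_num)]
  simp

lemma val_twothird (σ : Bool) : padicValRat 2 (sQ σ * (2 / 3)) = 1 := by
  rw [val_sQ_mul]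
  have h : (2 / 3 : ℚ) = ((2 : ℕ) : ℚ) * (((1 : ℤ) : ℚ) / ((3 : ℤ) : ℚ)) := by norm_num
  rw [h, padicValRat.mul (by norm_num) (by norm_num),
    padicValRat.div (by norm_num) (by norm_num), val_odd (by norm_num), val_odd (by norm_num),
    padicValRat.self (by norm_num)]
  simp

lemma third_ne (σ : Bool) : sQ σ * (1 / 3) ≠ 0 := mul_ne_zero (sQ_ne _) (by norm_num)
lemma twothird_ne (σ : Bool) : sQ σ * (2 / 3) ≠ 0 := mul_ne_zero (sQ_ne _) (by norm_num)

theorem top_count_even {k : ℕ} (hk : 2 ≤ k) : Nmax (1 / 2) (2 * k) 0 0 = 4 := by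
  rw [top_count (by omega)]
  have hm : ¬ (2 * k) % 2 = 1 := by omega
  have hc : ∀ σ : Bool,
      Nmax (1 / 4) ((2 * k - 2) / 2) (strip (1 / 2) σ 0) (yE (1 / 2) (2 * k) σ 0) = 1 ∧
      Nmax (1 / 4) ((2 * k - 1) / 2) (opp (1 / 2) σ 0) (yO (1 / 2) (2 * k) σ 0) = 1 := by
    intro σ
    have hA := Adm.top (2 * k) σ
    unfold yE yO at hA ⊢
    rw [if_neg hm, if_neg hm] at hA ⊢
    rw [← cast_third σ, ← cast_twothird σ, ← cast_third (!σ), ← cast_twothird (!σ), ← fc_qq_one] at hA ⊢
    constructor
    · refine count_gen le_rfl hA.1 ⟨third_ne _, twothird_ne _, ?_, ?_, 0, by norm_num, ?_⟩ _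
      · rw [val_third]; norm_num
      · rw [val_twothird]; norm_num
      · rw [val_third, val_twothird]; norm_num
    · refine count_gen le_rfl hA.2 ⟨twothird_ne _, third_ne _, ?_, ?_, 0, by norm_num, ?_⟩ _
      · rw [val_twothird]; norm_num
      · rw [val_third]; norm_num
      · rw [val_third, val_twothird]; norm_num
  rw [(hc true).1, (hc true).2, (hc false).1, (hc false).2]

theorem top_count_odd {k : ℕ} (hk : 1 ≤ k) :
    Nmax (1 / 2) (2 * k + 1) 0 0 = 4 * (NN k * NN (k - 1)) := by
  rw [top_count (by omega)]
  have hm : (2 * k + 1) % 2 = 1 := by omega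
  have e1 : (2 * k + 1 - 2) / 2 = k - 1 := by omega
  have e2 : (2 * k + 1 - 1) / 2 = k := by omega
  rw [e1, e2]
  have hc : ∀ σ : Bool,
      Nmax (1 / 4) (k - 1) (strip (1 / 2) σ 0) (yE (1 / 2) (2 * k + 1) σ 0) = NN (k - 1) ∧
      Nmax (1 / 4) k (opp (1 / 2) σ 0) (yO (1 / 2) (2 * k + 1) σ 0) = NN k := by
    intro σ
    have hA := Adm.top (2 * k + 1) σ
    unfold yE yO at hA ⊢
    rw [if_pos hm, if_pos hm] at hA ⊢
    rw [← cast_third σ, ← cast_twothird σ, ← fc_qq_one] at hA ⊢
    constructor
    · exact count_sym le_rfl (third_ne _) hA.1 (by rw [val_third]; norm_num) _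
    · exact count_sym le_rfl (twothird_ne _) hA.2 (by rw [val_twothird]; norm_num) _
  rw [(hc true).1, (hc true).2, (hc false).1, (hc false).2]
  ring

end Pool.Agent.RC
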