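import Pool.Agent.Work.MP_b9e699_co.PermDefs

/-!
# Module PERM: runs and turning points, `t(π)` in terms of `F`, permutations and linear arrays
-/

open Finset

namespace Pool.Agent.RC

variable {m n : ℕ}

/-- interior positions at which the word turns. -/
def turns (w : Fin m → ℕ) : Finset (Fin m × Fin m × Fin m) :=
  univ.filter (fun p => p.1.val + 1 = p.2.1.val ∧ p.2.1.val + 1 = p.2.2.val ∧
    (decide (w p.1 < w p.2.1)) ≠ (decide (w p.2.1 < w p.2.2)))

/-! ### runs -/

section runs

/-- direction of the step `k → k + 1` -/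
def stp (w : Fin m → ℕ) (k : ℕ) : Bool :=
  if h : k + 1 < m then decide (w ⟨k, by omega⟩ < w ⟨k + 1, h⟩) else false

theorem stp_eq (w : Fin m → ℕ) {k : ℕ} (h : k + 1 < m) :
    stp w k = decide (w ⟨k, by omega⟩ < w ⟨k + 1, h⟩) := by
  unfold stp
  rw [dif_pos h]

theorem inc_iff (w : Fin m → ℕ) (a b : Fin m) :
    IncOn w a b ↔ ∀ k : ℕ, a.val ≤ k → k < b.val → stp w k = true := by
  constructor
  · intro h k h1 h2
    have hb := b.isLt
    rw [stp_eq w (by omega)]
    simp only [decide_eq_true_eq]
    exact h _ _ (Fin.le_def.2 h1) (Fin.lt_def.2 (by simp)) (Fin.le_def.2 (by simp; omega))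
  · intro h r s hr hrs hsb
    have key : ∀ d : ℕ, ∀ hd : r.val + 1 + d ≤ b.val,
        w r < w ⟨r.val + 1 + d, by have := b.isLt; omega⟩ := by
      intro d
      induction d with
      | zero =>
        intro hd
        have := h r.val (Fin.le_def.1 hr) (by omega)
        rw [stp_eq w (by have := b.isLt; omega)] at this
        simpa using this
      | succ d ih =>
        intro hd
        have h1 := ih (by omega)
        have := h (r.val + 1 + d) (by have := Fin.le_def.1 hr; omega) (by omega)
        rw [stp_eq w (by have := b.isLt; omega)] at this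
        simp only [decide_eq_true_eq] at this
        exact h1.trans this
    have h1 := Fin.lt_def.1 hrs
    have h2 := Fin.le_def.1 hsb
    have := key (s.val - (r.val + 1)) (by omega)
    have e : (⟨r.val + 1 + (s.val - (r.val + 1)), by have := b.isLt; omega⟩ : Fin m) = s := by
      apply Fin.ext
      simp only
      omega
    rwa [e] at this

theorem dec_iff (w : Fin m → ℕ) (hw : Function.Injective w) (a b : Fin m) :
    DecOn w a b ↔ ∀ k : ℕ, a.val ≤ k → k < b.val → stp w k = false := by
  constructor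
  · intro h k h1 h2
    have hb := b.isLt
    rw [stp_eq w (by omega)]
    simp only [decide_eq_false_iff_not, not_lt]
    exact (h ⟨k, by omega⟩ ⟨k + 1, by omega⟩ (Fin.le_def.2 h1) (Fin.lt_def.2 (by simp))
      (Fin.le_def.2 (by simp; omega))).le
  · intro h r s hr hrs hsb
    have key : ∀ d : ℕ, ∀ hd : r.val + 1 + d ≤ b.val,
        w ⟨r.val + 1 + d, by have := b.isLt; omega⟩ < w r := by
      intro d
      induction d with
      | zero =>
        intro hd
        have := h r.val (Fin.le_def.1 hr) (by omega)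
        rw [stp_eq w (by have := b.isLt; omega)] at this
        simp only [decide_eq_false_iff_not, not_lt] at this
        refine lt_of_le_of_ne this (fun e => ?_)
        have := congrArg Fin.val (hw e)
        simp at this
      | succ d ih =>
        intro hd
        have h1 := ih (by omega)
        have := h (r.val + 1 + d) (by have := Fin.le_def.1 hr; omega) (by omega)
        rw [stp_eq w (by have := b.isLt; omega)] at this
        simp only [decide_eq_false_iff_not, not_lt] at this
        exact lt_of_le_of_lt this h1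
    have h1 := Fin.lt_def.1 hrs
    have h2 := Fin.le_def.1 hsb
    have := key (s.val - (r.val + 1)) (by omega)
    have e : (⟨r.val + 1 + (s.val - (r.val + 1)), by have := b.isLt; omega⟩ : Fin m) = s := by
      apply Fin.ext
      simp only
      omega
    rwa [e] at this

/-- the steps `a, …, b - 1` all have the same direction -/
def Con (w : Fin m → ℕ) (a b : ℕ) : Prop := ∀ k, a ≤ k → k < b → stp w k = stp w a

theorem mono_iff (w : Fin m → ℕ) (hw : Function.Injective w) {a b : Fin m} (hab : a < b) :
    (IncOn w a b ∨ DecOn w a b) ↔ Con w a.val b.val := by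
  rw [inc_iff, dec_iff w hw]
  have hab := Fin.lt_def.1 hab
  constructor
  · rintro (h | h) k h1 h2
    · rw [h k h1 h2, h a.val le_rfl hab]
    · rw [h k h1 h2, h a.val le_rfl hab]
  · intro h
    rcases hs : stp w a.val with _ | _
    · exact Or.inr fun k h1 h2 => by rw [h k h1 h2, hs]
    · exact Or.inl fun k h1 h2 => by rw [h k h1 h2, hs]

theorem run_iff (w : Fin m → ℕ) (hw : Function.Injective w) (a b : Fin m) :
    IsRun w a b ↔ a.val < b.val ∧ Con w a.val b.val ∧
      (a.val = 0 ∨ stp w (a.val - 1) ≠ stp w a.val) ∧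
      (b.val + 1 = m ∨ stp w b.val ≠ stp w a.val) := by
  constructor
  · rintro ⟨hab, h1, h2⟩
    have hc := (mono_iff w hw hab).1 h1
    have hab' := Fin.lt_def.1 hab
    refine ⟨hab', hc, ?_, ?_⟩
    · by_contra hcon
      push Not at hcon
      obtain ⟨c1, c2⟩ := hcon
      have hm := a.isLt
      have hlt : (⟨a.val - 1, by omega⟩ : Fin m) < b := Fin.lt_def.2 (by simp; omega)
      have := (h2 ⟨a.val - 1, by omega⟩ b (Fin.le_def.2 (by simp)) le_rfl
        ((mono_iff w hw hlt).2 (by
          intro k k1 k2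
          simp only at k1 ⊢
          rcases Nat.lt_or_ge k a.val with hk | hk
          · have : k = a.val - 1 := by omega
            rw [this]
          · rw [hc k hk k2, c2]))).1
      have := congrArg Fin.val this
      simp only at this
      omega
    · by_contra hcon
      push Not at hcon
      obtain ⟨c1, c2⟩ := hcon
      have hm := b.isLt
      have hlt : a < (⟨b.val + 1, by omega⟩ : Fin m) := Fin.lt_def.2 (by simp; omega)
      have := (h2 a ⟨b.val + 1, by omega⟩ le_rfl (Fin.le_def.2 (by simp))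
        ((mono_iff w hw hlt).2 (by
          intro k k1 k2
          simp only at k2
          rcases Nat.lt_or_ge k b.val with hk | hk
          · exact hc k k1 hk
          · have : k = b.val := by omega
            rw [this, c2]))).2
      have := congrArg Fin.val this
      simp at this
  · rintro ⟨hab', hc, h3, h4⟩
    have hab : a < b := Fin.lt_def.2 hab'
    refine ⟨hab, (mono_iff w hw hab).2 hc, ?_⟩
    intro a' b' ha' hb' hm'
    have hlt : a' < b' := lt_of_le_of_lt ha' (lt_of_lt_of_le hab hb')
    have hc' := (mono_iff w hw hlt).1 hm'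
    have ha := Fin.le_def.1 ha'
    have hb := Fin.le_def.1 hb'
    have e0 : stp w a.val = stp w a'.val := hc' a.val ha (by omega)
    constructor
    · apply Fin.ext
      by_contra hne
      rcases h3 with h3 | h3
      · omega
      · exact h3 ((hc' (a.val - 1) (by omega) (by omega)).trans e0.symm)
    · apply Fin.ext
      by_contra hne
      have := b'.isLt
      rcases h4 with h4 | h4
      · omega
      · exact h4 ((hc' b.val (by omega) (by omega)).trans e0.symm)

/-- the left ends of the runs -/
def lefts (w : Fin m → ℕ) : Set (Fin m) :=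
  {a | a.val + 1 < m ∧ (a.val = 0 ∨ stp w (a.val - 1) ≠ stp w a.val)}

theorem runs_left (w : Fin m → ℕ) (hw : Function.Injective w) :
    Prod.fst '' {p : Fin m × Fin m | IsRun w p.1 p.2} = lefts w := by
  ext a
  simp only [Set.mem_image, Set.mem_ofPred_eq, Prod.exists, exists_and_right, exists_eq_right,
    lefts]
  constructor
  · rintro ⟨b, hb⟩
    have := (run_iff w hw a b).1 hb
    have hb := b.isLt
    exact ⟨by omega, this.2.2.1⟩
  · rintro ⟨h1, h2⟩
    -- the right end
    classical
    have hex : ∃ j : ℕ, a.val < j ∧ (j + 1 = m ∨ stp w j ≠ stp w a.val) :=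
      ⟨m - 1, by omega, Or.inl (by omega)⟩
    obtain ⟨j1, j2⟩ := Nat.find_spec hex
    have jmin : ∀ j < Nat.find hex, ¬ (a.val < j ∧ (j + 1 = m ∨ stp w j ≠ stp w a.val)) :=
      fun j hj => Nat.find_min hex hj
    have hle : Nat.find hex ≤ m - 1 := Nat.find_min' hex ⟨by omega, Or.inl (by omega)⟩
    generalize Nat.find hex = j at j1 j2 jmin hle
    refine ⟨⟨j, by omega⟩, (run_iff w hw _ _).2 ⟨j1, ?_, h2, j2⟩⟩
    intro k k1 k2
    rcases Nat.eq_or_lt_of_le k1 with h | h
    · rw [h]
    · by_contra hne
      exact jmin k k2 ⟨h, Or.inr hne⟩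

theorem runs_inj (w : Fin m → ℕ) (hw : Function.Injective w) :
    Set.InjOn Prod.fst {p : Fin m × Fin m | IsRun w p.1 p.2} := by
  rintro ⟨a, b⟩ h ⟨a', b'⟩ h' e
  simp only at e
  subst e
  have h := (run_iff w hw a b).1 h
  have h' := (run_iff w hw a b').1 h'
  simp only [Prod.mk.injEq, true_and]
  apply Fin.ext
  rcases Nat.lt_trichotomy b.val b'.val with hlt | he | hlt
  · exfalso
    have := b'.isLt
    rcases h.2.2.2 with h4 | h4
    · omega
    · exact h4 (h'.2.1 b.val h.1.le hlt)
  · exact he
  · exfalso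
    have := b.isLt
    rcases h'.2.2.2 with h4 | h4
    · omega
    · exact h4 (h.2.1 b'.val h'.1.le hlt)

theorem lefts_eq (w : Fin m → ℕ) (hm : 2 ≤ m) :
    lefts w = insert (⟨0, by omega⟩ : Fin m) ((fun p : Fin m × Fin m × Fin m => p.2.1) '' (turns w : Set _)) := by
  ext a
  simp only [lefts, Set.mem_ofPred_eq, Set.mem_insert_iff, Set.mem_image, Finset.mem_coe, turns,
    Finset.mem_filter, Finset.mem_univ, true_and, Prod.exists]
  constructor
  · rintro ⟨h1, h2⟩
    rcases Nat.eq_zero_or_pos a.val with h0 | h0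
    · left
      exact Fin.ext h0
    · right
      have h2 := h2.resolve_left (by omega)
      refine ⟨⟨a.val - 1, by omega⟩, a, ⟨a.val + 1, h1⟩, ⟨?_, rfl, ?_⟩, rfl⟩
      · simp only
        omega
      · rw [stp_eq w (by omega), stp_eq w h1] at h2
        have e : (⟨a.val - 1 + 1, by omega⟩ : Fin m) = a := Fin.ext (by simp only; omega)
        rwa [e] at h2
  · rintro (rfl | ⟨i, a', k, ⟨h1, h2, h3⟩, rfl⟩)
    · exact ⟨by simp only; omega, Or.inl rfl⟩
    · have hk := k.isLt
      refine ⟨by omega, Or.inr ?_⟩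
      rw [stp_eq w (by omega), stp_eq w (by omega)]
      have e1 : (⟨a'.val - 1, by omega⟩ : Fin m) = i := Fin.ext (by simp only; omega)
      have e2 : (⟨a'.val - 1 + 1, by omega⟩ : Fin m) = a' := Fin.ext (by simp only; omega)
      have e3 : (⟨a'.val + 1, by omega⟩ : Fin m) = k := Fin.ext (by simp only; omega)
      rw [e1, e2, e3]
      exact h3

theorem runs_eq (w : Fin m → ℕ) (hw : Function.Injective w) (hm : 2 ≤ m) :
    numInc w + numDec w = 1 + (turns w).card := by
  classical
  have e1 : numInc w + numDec w = Set.ncard {p : Fin m × Fin m | IsRun w p.1 p.2} := by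
    unfold numInc numDec
    rw [← Set.ncard_union_eq]
    · congr 1
      ext p
      simp only [Set.mem_union, Set.mem_ofPred_eq]
      constructor
      · rintro (h | h)
        · exact h.1
        · exact h.1
      · intro h
        rcases h.2.1 with h' | h'
        · exact Or.inl ⟨h, h'⟩
        · exact Or.inr ⟨h, h'⟩
    · rw [Set.disjoint_left]
      rintro p ⟨h1, h2⟩ ⟨-, h3⟩
      have a := h2 p.1 p.2 le_rfl h1.1 le_rfl
      have b := h3 p.1 p.2 le_rfl h1.1 le_rfl
      omega
  have inj : Set.InjOn (fun p : Fin m × Fin m × Fin m => p.2.1) (turns w : Set _) := by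
    rintro ⟨i, t, k⟩ h ⟨i', t', k'⟩ h' e
    simp only at e
    subst e
    simp only [turns, Finset.coe_filter, Finset.mem_univ, true_and, Set.mem_ofPred_eq] at h h'
    simp only [Prod.mk.injEq, true_and]
    exact ⟨Fin.ext (by omega), Fin.ext (by omega)⟩
  rw [e1, ← (runs_inj w hw).ncard_image, runs_left w hw, lefts_eq w hm,
    Set.ncard_insert_of_notMem _ (Set.toFinite _), inj.ncard_image,
    Set.ncard_coe_finset, add_comm]
  rintro ⟨⟨i, t, k⟩, h, e⟩
  simp only [turns, Finset.coe_filter, Finset.mem_univ, true_and, Set.mem_ofPred_eq] at h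
  have := congrArg Fin.val e
  simp only at this
  omega

end runs

/-! ### `t(π)` -/

section tt

/-- `i < t < k` are consecutive elements of `S` -/
def Cons (S : Finset (Fin n)) (p : Fin n × Fin n × Fin n) : Prop :=
  p.1 ∈ S ∧ p.2.1 ∈ S ∧ p.2.2 ∈ S ∧ p.1 < p.2.1 ∧ p.2.1 < p.2.2 ∧
    (∀ x ∈ S, ¬ (p.1 < x ∧ x < p.2.1)) ∧ (∀ x ∈ S, ¬ (p.2.1 < x ∧ x < p.2.2))

/-- `π` turns at `i, t, k` -/
def Trn (π : Equiv.Perm (Fin n)) (p : Fin n × Fin n × Fin n) : Prop :=
  decide (π p.1 < π p.2.1) ≠ decide (π p.2.1 < π p.2.2)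

open Classical in
theorem turns_card (π : Equiv.Perm (Fin n)) (S : Finset (Fin n)) :
    (turns (subword π S)).card =
      (univ.filter (fun p : Fin n × Fin n × Fin n => Cons S p ∧ Trn π p)).card := by
  set e := S.orderEmbOfFin rfl with he
  have hmem : ∀ r, e r ∈ S := fun r => S.orderEmbOfFin_mem rfl r
  have hsurj : ∀ x ∈ S, ∃ r, e r = x := by
    intro x hx
    have : x ∈ Set.range e := by rw [he, Finset.range_orderEmbOfFin]; exact hx
    exact this
  have hval : ∀ r s, (decide (subword π S r < subword π S s)) = decide (π (e r) < π (e s)) := by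
    intro r s
    unfold subword
    congr 1
  refine Finset.card_bij (fun p _ => (e p.1, e p.2.1, e p.2.2)) ?_ ?_ ?_
  · rintro ⟨r, s, u⟩ h
    simp only [turns, Finset.mem_filter, Finset.mem_univ, true_and] at h ⊢
    obtain ⟨h1, h2, h3⟩ := h
    refine ⟨⟨hmem _, hmem _, hmem _, e.strictMono (Fin.lt_def.2 (by omega)),
      e.strictMono (Fin.lt_def.2 (by omega)), ?_, ?_⟩, ?_⟩
    · rintro x hx ⟨a, b⟩
      obtain ⟨y, rfl⟩ := hsurj x hx
      have a := Fin.lt_def.1 (e.lt_iff_lt.1 a)
      have b := Fin.lt_def.1 (e.lt_iff_lt.1 b)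
      omega
    · rintro x hx ⟨a, b⟩
      obtain ⟨y, rfl⟩ := hsurj x hx
      have a := Fin.lt_def.1 (e.lt_iff_lt.1 a)
      have b := Fin.lt_def.1 (e.lt_iff_lt.1 b)
      omega
    · rw [hval, hval] at h3
      exact h3
  · rintro ⟨r, s, u⟩ _ ⟨r', s', u'⟩ _ h
    simp only [Prod.mk.injEq] at h ⊢
    exact ⟨e.injective h.1, e.injective h.2.1, e.injective h.2.2⟩
  · rintro ⟨i, t, k⟩ h
    simp only [Finset.mem_filter, Finset.mem_univ, true_and] at h
    obtain ⟨⟨h1, h2, h3, h4, h5, h6, h7⟩, h8⟩ := h
    simp only at h1 h2 h3 h4 h5 h6 h7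
    obtain ⟨r, rfl⟩ := hsurj i h1
    obtain ⟨s, rfl⟩ := hsurj t h2
    obtain ⟨u, rfl⟩ := hsurj k h3
    have a := Fin.lt_def.1 (e.lt_iff_lt.1 h4)
    have b := Fin.lt_def.1 (e.lt_iff_lt.1 h5)
    refine ⟨(r, s, u), ?_, rfl⟩
    simp only [turns, Finset.mem_filter, Finset.mem_univ, true_and]
    refine ⟨?_, ?_, ?_⟩
    · by_contra hne
      have hs := s.isLt
      have hlt : r.val + 1 < s.val := by omega
      exact h6 (e ⟨r.val + 1, by omega⟩) (hmem _)
        ⟨e.strictMono (Fin.lt_def.2 (by simp)), e.strictMono (Fin.lt_def.2 (by simpa using hlt))⟩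
    · by_contra hne
      have hs := u.isLt
      have hlt : s.val + 1 < u.val := by omega
      exact h7 (e ⟨s.val + 1, by omega⟩) (hmem _)
        ⟨e.strictMono (Fin.lt_def.2 (by simp)), e.strictMono (Fin.lt_def.2 (by simpa using hlt))⟩
    · rw [hval, hval]
      exact h8

open Classical in
theorem count_cons {i t k : Fin n} (h1 : i < t) (h2 : t < k) :
    (univ.filter (fun S : Finset (Fin n) => Cons S (i, t, k))).card
      = 2 ^ (i.val + (n - 1 - k.val)) := by
  have hc : (Finset.Iio i ∪ Finset.Ioi k).card = i.val + (n - 1 - k.val) := by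
    rw [Finset.card_union_of_disjoint, Fin.card_Iio, Fin.card_Ioi]
    rw [Finset.disjoint_left]
    intro x hx hx'
    simp only [Finset.mem_Iio, Finset.mem_Ioi] at hx hx'
    exact absurd (hx.trans (h1.trans (h2.trans hx'))) (lt_irrefl _)
  rw [← hc, ← Finset.card_powerset]
  symm
  refine Finset.card_bij (fun T _ => T ∪ {i, t, k}) ?_ ?_ ?_
  · intro T hT
    rw [Finset.mem_powerset] at hT
    have hT' : ∀ x ∈ T, x < i ∨ k < x := by
      intro x hx
      have := hT hx
      simpa using this
    simp only [Finset.mem_filter, Finset.mem_univ, true_and, Cons, Finset.mem_union,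
      Finset.mem_insert, Finset.mem_singleton]
    refine ⟨by tauto, by tauto, by tauto, h1, h2, ?_, ?_⟩
    · rintro x hx ⟨a, b⟩
      rcases hx with hx | rfl | rfl | rfl
      · rcases hT' x hx with h | h
        · exact absurd (a.trans h) (lt_irrefl _)
        · exact absurd (h.trans (b.trans h2)) (lt_irrefl _)
      · exact lt_irrefl _ a
      · exact lt_irrefl _ b
      · exact absurd (b.trans h2) (lt_irrefl _)
    · rintro x hx ⟨a, b⟩
      rcases hx with hx | rfl | rfl | rfl
      · rcases hT' x hx with h | h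
        · exact absurd ((h1.trans a).trans h) (lt_irrefl _)
        · exact absurd (h.trans b) (lt_irrefl _)
      · exact absurd (a.trans h1) (lt_irrefl _)
      · exact lt_irrefl _ a
      · exact lt_irrefl _ b
  · intro T hT T' hT' h
    rw [Finset.mem_powerset] at hT hT'
    have key : ∀ T : Finset (Fin n), T ⊆ Finset.Iio i ∪ Finset.Ioi k →
        T = (T ∪ {i, t, k}) ∩ (Finset.Iio i ∪ Finset.Ioi k) := by
      intro T hT
      ext x
      simp only [Finset.mem_inter, Finset.mem_union, Finset.mem_insert, Finset.mem_singleton,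
        Finset.mem_Iio, Finset.mem_Ioi]
      constructor
      · intro hx
        have := hT hx
        simp only [Finset.mem_union, Finset.mem_Iio, Finset.mem_Ioi] at this
        exact ⟨Or.inl hx, this⟩
      · rintro ⟨hx | rfl | rfl | rfl, h3⟩
        · exact hx
        · rcases h3 with h3 | h3
          · exact absurd h3 (lt_irrefl _)
          · exact absurd (h3.trans (h1.trans h2)) (lt_irrefl _)
        · rcases h3 with h3 | h3
          · exact absurd (h3.trans h1) (lt_irrefl _)
          · exact absurd (h3.trans h2) (lt_irrefl _)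
        · rcases h3 with h3 | h3
          · exact absurd (h3.trans (h1.trans h2)) (lt_irrefl _)
          · exact absurd h3 (lt_irrefl _)
    rw [key T hT, key T' hT', h]
  · intro S hS
    simp only [Finset.mem_filter, Finset.mem_univ, true_and, Cons] at hS
    obtain ⟨a1, a2, a3, -, -, a6, a7⟩ := hS
    refine ⟨S ∩ (Finset.Iio i ∪ Finset.Ioi k), ?_, ?_⟩
    · rw [Finset.mem_powerset]
      exact Finset.inter_subset_right
    · ext x
      simp only [Finset.mem_inter, Finset.mem_union, Finset.mem_insert, Finset.mem_singleton,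
        Finset.mem_Iio, Finset.mem_Ioi]
      constructor
      · rintro (⟨hx, -⟩ | rfl | rfl | rfl)
        · exact hx
        · exact a1
        · exact a2
        · exact a3
      · intro hx
        by_cases e1 : x = i
        · tauto
        by_cases e2 : x = t
        · tauto
        by_cases e3 : x = k
        · tauto
        left
        refine ⟨hx, ?_⟩
        rcases lt_or_gt_of_ne e1 with h | h
        · exact Or.inl h
        rcases lt_or_gt_of_ne e3 with h' | h'
        · exfalso
          rcases lt_or_gt_of_ne e2 with h'' | h''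
          · exact a6 x hx ⟨h, h''⟩
          · exact a7 x hx ⟨h'', h'⟩
        · exact Or.inr h'

theorem subword_inj (π : Equiv.Perm (Fin n)) (S : Finset (Fin n)) :
    Function.Injective (subword π S) := by
  intro r s h
  unfold subword at h
  exact (S.orderEmbOfFin rfl).injective (π.injective (Fin.ext h))

open Classical in
theorem tt_sum (π : Equiv.Perm (Fin n)) :
    (tt π : ℝ) = ((univ.filter (fun S : Finset (Fin n) => 3 ≤ S.card)).card : ℝ) +
      ∑ p : Fin n × Fin n × Fin n, (if p.1 < p.2.1 ∧ p.2.1 < p.2.2 then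
        (if Trn π p then (2 : ℝ) ^ (p.1.val + (n - 1 - p.2.2.val)) else 0) else 0) := by
  have e1 : tt π = ∑ S ∈ univ.filter (fun S : Finset (Fin n) => 3 ≤ S.card),
      (1 + (univ.filter (fun p : Fin n × Fin n × Fin n => Cons S p ∧ Trn π p)).card) := by
    unfold tt
    refine sum_congr rfl fun S hS => ?_
    have := (mem_filter.1 hS).2
    rw [runs_eq _ (subword_inj π S) (by omega), turns_card]
  have e2 : ∀ S : Finset (Fin n), S ∉ univ.filter (fun S : Finset (Fin n) => 3 ≤ S.card) →
      (univ.filter (fun p : Fin n × Fin n × Fin n => Cons S p ∧ Trn π p)).card = 0 := by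
    intro S hS
    rw [Finset.card_eq_zero, Finset.filter_eq_empty_iff]
    rintro ⟨i, t, k⟩ - ⟨⟨h1, h2, h3, h4, h5, -, -⟩, -⟩
    apply hS
    rw [mem_filter]
    refine ⟨mem_univ _, ?_⟩
    simp only at h1 h2 h3 h4 h5
    have hsub : ({i, t, k} : Finset (Fin n)) ⊆ S := by
      intro x hx
      simp only [Finset.mem_insert, Finset.mem_singleton] at hx
      rcases hx with rfl | rfl | rfl <;> assumption
    have hcard : ({i, t, k} : Finset (Fin n)).card = 3 := by
      rw [Finset.card_eq_three]
      exact ⟨i, t, k, h4.ne, (h4.trans h5).ne, h5.ne, rfl⟩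
    rw [← hcard]
    exact Finset.card_le_card hsub
  have e3 : ∑ S ∈ univ.filter (fun S : Finset (Fin n) => 3 ≤ S.card),
      (univ.filter (fun p : Fin n × Fin n × Fin n => Cons S p ∧ Trn π p)).card
      = ∑ S : Finset (Fin n),
        (univ.filter (fun p : Fin n × Fin n × Fin n => Cons S p ∧ Trn π p)).card :=
    Finset.sum_subset (Finset.subset_univ _) (fun S _ hS => e2 S hS)
  rw [e1, Finset.sum_add_distrib, e3]
  simp only [Finset.card_filter, Finset.sum_const, smul_eq_mul, mul_one]
  push_cast
  congr 1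
  rw [Finset.sum_comm]
  refine sum_congr rfl fun p _ => ?_
  obtain ⟨i, t, k⟩ := p
  simp only
  by_cases h : i < t ∧ t < k
  · rw [if_pos h]
    by_cases hT : Trn π (i, t, k)
    · rw [if_pos hT]
      have := count_cons h.1 h.2
      rw [Finset.card_filter] at this
      have h' := congrArg (Nat.cast : ℕ → ℝ) this
      push_cast at h'
      rw [← h']
      refine sum_congr rfl fun S _ => ?_
      simp only [hT, and_true]
    · rw [if_neg hT]
      refine Finset.sum_eq_zero fun S _ => ?_
      rw [if_neg]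
      exact fun q => hT q.2
  · rw [if_neg h]
    refine Finset.sum_eq_zero fun S _ => ?_
    rw [if_neg]
    rintro ⟨⟨-, -, -, h4, h5, -, -⟩, -⟩
    exact h ⟨h4, h5⟩

theorem F_expand (e : Rel) : F (1 / 2) n 0 0 e =
    - ∑ i ∈ range n, ∑ t ∈ range n, ∑ k ∈ range n,
      (if i < t ∧ t < k then (1 / 2 : ℝ) ^ (k - i) * (sg (e i t) * sg (e t k)) else 0) := by
  unfold F av bv
  simp only [mul_zero, zero_sub, zero_add, neg_mul, sum_neg_distrib, neg_inj]
  rw [Finset.sum_comm]
  refine sum_congr rfl fun t ht => ?_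
  have ht := mem_range.1 ht
  rw [sum_mul_sum]
  have e1 : ∑ i ∈ range n, ∑ k ∈ range n,
      (if i < t ∧ t < k then (1 / 2 : ℝ) ^ (k - i) * (sg (e i t) * sg (e t k)) else 0)
      = ∑ i ∈ range t, ∑ k ∈ range n,
      (if i < t ∧ t < k then (1 / 2 : ℝ) ^ (k - i) * (sg (e i t) * sg (e t k)) else 0) := by
    symm
    refine Finset.sum_subset (fun x hx => mem_range.2 (by have := mem_range.1 hx; omega)) ?_
    intro i _ hi
    refine Finset.sum_eq_zero fun k _ => ?_
    rw [if_neg]
    rintro ⟨h, -⟩
    exact hi (mem_range.2 h)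
  rw [e1]
  refine sum_congr rfl fun i hi => ?_
  have hi := mem_range.1 hi
  have e2 : ∑ k ∈ range n,
      (if i < t ∧ t < k then (1 / 2 : ℝ) ^ (k - i) * (sg (e i t) * sg (e t k)) else 0)
      = ∑ k ∈ Ico (t + 1) n,
      (if i < t ∧ t < k then (1 / 2 : ℝ) ^ (k - i) * (sg (e i t) * sg (e t k)) else 0) := by
    symm
    refine Finset.sum_subset (fun x hx => mem_range.2 (by have := mem_Ico.1 hx; omega)) ?_
    intro k hk hk'
    rw [if_neg]
    rintro ⟨-, h⟩
    exact hk' (mem_Ico.2 ⟨h, mem_range.1 hk⟩)
  rw [e2]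
  refine sum_congr rfl fun k hk => ?_
  have hk := mem_Ico.1 hk
  rw [if_pos ⟨hi, by omega⟩]
  have : k - i = (t - i) + (k - t) := by omega
  rw [this, pow_add]
  ring

open Classical in
theorem tt_eq (hn : 2 ≤ n) : ∃ c : ℝ, ∀ π : Equiv.Perm (Fin n),
    (tt π : ℝ) = c + 2 ^ (n - 2) * F (1 / 2) n 0 0 (relOf π) := by
  refine ⟨((univ.filter (fun S : Finset (Fin n) => 3 ≤ S.card)).card : ℝ) +
    ∑ i ∈ range n, ∑ t ∈ range n, ∑ k ∈ range n,
      (if i < t ∧ t < k then (2 : ℝ) ^ (i + (n - 1 - k)) / 2 else 0), fun π => ?_⟩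
  rw [tt_sum, F_expand, add_assoc]
  congr 1
  -- the triple sum over `Fin n`
  have e1 : ∑ p : Fin n × Fin n × Fin n, (if p.1 < p.2.1 ∧ p.2.1 < p.2.2 then
        (if Trn π p then (2 : ℝ) ^ (p.1.val + (n - 1 - p.2.2.val)) else 0) else 0)
      = ∑ i ∈ range n, ∑ t ∈ range n, ∑ k ∈ range n,
        (if i < t ∧ t < k then (2 : ℝ) ^ (i + (n - 1 - k)) / 2 *
          (1 - sg (relOf π i t) * sg (relOf π t k)) else 0) := by
    rw [Fintype.sum_prod_type, ← Fin.sum_univ_eq_sum_range (fun i => ∑ t ∈ range n, ∑ k ∈ range n,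
        (if i < t ∧ t < k then (2 : ℝ) ^ (i + (n - 1 - k)) / 2 *
          (1 - sg (relOf π i t) * sg (relOf π t k)) else 0))]
    refine sum_congr rfl fun i _ => ?_
    rw [Fintype.sum_prod_type, ← Fin.sum_univ_eq_sum_range (fun t => ∑ k ∈ range n,
        (if i.val < t ∧ t < k then (2 : ℝ) ^ (i.val + (n - 1 - k)) / 2 *
          (1 - sg (relOf π i t) * sg (relOf π t k)) else 0))]
    refine sum_congr rfl fun t _ => ?_
    rw [← Fin.sum_univ_eq_sum_range (fun k =>
        (if i.val < t.val ∧ t.val < k then (2 : ℝ) ^ (i.val + (n - 1 - k)) / 2 *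
          (1 - sg (relOf π i t) * sg (relOf π t k)) else 0))]
    refine sum_congr rfl fun k _ => ?_
    simp only
    by_cases h : i < t ∧ t < k
    · have h' : i.val < t.val ∧ t.val < k.val := ⟨Fin.lt_def.1 h.1, Fin.lt_def.1 h.2⟩
      rw [if_pos h, if_pos h']
      have r1 : relOf π i.val t.val = decide (π t < π i) := by
        unfold relOf
        rw [dif_pos ⟨i.isLt, t.isLt⟩]
      have r2 : relOf π t.val k.val = decide (π k < π t) := by
        unfold relOf
        rw [dif_pos ⟨t.isLt, k.isLt⟩]
      have n1 : π i ≠ π t := fun q => h.1.ne (π.injective q)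
      have n2 : π t ≠ π k := fun q => h.2.ne (π.injective q)
      rw [r1, r2]
      rcases lt_or_gt_of_ne n1 with a | a <;> rcases lt_or_gt_of_ne n2 with b | b
      · have hT : ¬ Trn π (i, t, k) := by
          unfold Trn
          simp [a, b]
        rw [if_neg hT]
        simp [a.not_gt, b.not_gt]
      · have hT : Trn π (i, t, k) := by
          unfold Trn
          simp [a, b.not_gt]
        rw [if_pos hT]
        simp [a.not_gt, b]
        ring
      · have hT : Trn π (i, t, k) := by
          unfold Trn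
          simp [a.not_gt, b]
        rw [if_pos hT]
        simp [a, b.not_gt]
        ring
      · have hT : ¬ Trn π (i, t, k) := by
          unfold Trn
          simp [a.not_gt, b.not_gt]
        rw [if_neg hT]
        simp [a, b]
    · have h' : ¬ (i.val < t.val ∧ t.val < k.val) := fun q => h ⟨Fin.lt_def.2 q.1, Fin.lt_def.2 q.2⟩
      rw [if_neg h, if_neg h']
  rw [e1, mul_neg, mul_sum, ← sub_eq_add_neg, ← sum_sub_distrib]
  refine sum_congr rfl fun i hi => ?_
  rw [mul_sum, ← sum_sub_distrib]
  refine sum_congr rfl fun t ht => ?_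
  rw [mul_sum, ← sum_sub_distrib]
  refine sum_congr rfl fun k hk => ?_
  have hk := mem_range.1 hk
  by_cases h : i < t ∧ t < k
  · rw [if_pos h, if_pos h, if_pos h]
    have e2 : (2 : ℝ) ^ (n - 2) * (1 / 2) ^ (k - i) = 2 ^ (i + (n - 1 - k)) / 2 := by
      have : n - 2 + 1 = (i + (n - 1 - k)) + (k - i) := by omega
      have h2 : (2 : ℝ) ^ (n - 2) * 2 = 2 ^ (i + (n - 1 - k)) * 2 ^ (k - i) := by
        rw [← pow_succ, this, pow_add]
      have h3 : (2 : ℝ) ^ (k - i) * (1 / 2) ^ (k - i) = 1 := by
        rw [← mul_pow]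
        norm_num
      calc (2 : ℝ) ^ (n - 2) * (1 / 2) ^ (k - i)
          = (2 ^ (n - 2) * 2) * (1 / 2) ^ (k - i) / 2 := by ring
        _ = 2 ^ (i + (n - 1 - k)) * (2 ^ (k - i) * (1 / 2) ^ (k - i)) / 2 := by rw [h2]; ring
        _ = _ := by rw [h3, mul_one]
    rw [← mul_assoc, e2]
    ring
  · rw [if_neg h, if_neg h, if_neg h]
    ring

end tt

/-! ### permutations and linear arrays -/

section lin

theorem relOf_lt (π : Equiv.Perm (Fin n)) (i j : Fin n) :
    relOf π i.val j.val = decide (π j < π i) := by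
  unfold relOf
  rw [dif_pos ⟨i.isLt, j.isLt⟩]

/-- a permutation is determined by its relations -/
theorem relOf_inj {π τ : Equiv.Perm (Fin n)} (h : mask n (relOf π) = mask n (relOf τ)) :
    π = τ := by
  have h := mask_eq_iff.1 h
  have key : ∀ a b : Fin n, a < b → (π b < π a ↔ τ b < τ a) := by
    intro a b hab
    have := h a.val b.val (Fin.lt_def.1 hab) b.isLt
    rw [relOf_lt, relOf_lt] at this
    simpa using this
  have key2 : ∀ a b : Fin n, τ a < τ b → π a < π b := by
    intro a b hab
    rcases lt_trichotomy a b with h1 | h1 | h1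
    · have := key a b h1
      by_contra hcon
      have hne : π a ≠ π b := fun q => h1.ne (π.injective q)
      have : τ b < τ a := this.1 (lt_of_le_of_ne (not_lt.1 hcon) hne.symm)
      exact absurd (this.trans hab) (lt_irrefl _)
    · rw [h1] at hab
      exact absurd hab (lt_irrefl _)
    · exact (key b a h1).2 hab
  have hmono : StrictMono (fun x => π (τ.symm x)) := by
    intro x y hxy
    apply key2
    simpa using hxy
  have hid : (fun x => π (τ.symm x)) = id := by
    have hr : Set.range (fun x => π (τ.symm x)) = Set.range (id : Fin n → Fin n) := by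
      rw [Set.range_id, Set.range_eq_univ]
      intro y
      exact ⟨τ (π.symm y), by simp⟩
    exact (hmono.range_inj strictMono_id).1 hr
  ext x
  have := congrFun hid (τ x)
  simp only [Equiv.symm_apply_apply, id] at this
  rw [this]

/-- a linear array comes from a permutation -/
theorem exists_perm {e : Rel} (h : Lin n e) : ∃ π : Equiv.Perm (Fin n), Agree n e (relOf π) := by
  obtain ⟨h, h1, h2⟩ := h
  let f : Fin n → ℤ := fun i => h i.val
  have hf : Function.Injective f := by
    intro a b hab
    by_contra hne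
    exact h1 a.val b.val a.isLt b.isLt (fun q => hne (Fin.ext q)) hab
  have hs : StrictMono (f ∘ Tuple.sort f) :=
    (Tuple.monotone_sort f).strictMono_of_injective (hf.comp (Tuple.sort f).injective)
  refine ⟨(Tuple.sort f).symm, ?_⟩
  intro i j hij hj
  have := relOf_lt (Tuple.sort f).symm ⟨i, by omega⟩ ⟨j, hj⟩
  simp only at this
  rw [this, Bool.eq_iff_iff, h2 i j hij hj, decide_eq_true_eq, ← hs.lt_iff_lt]
  simp [f]

/-- the only fact about the maximisers that is needed is that they are linear. -/
theorem RC_ncard (hn : 2 ≤ n) (hlin : ∀ e, IsMax (1 / 2) n 0 0 e → Lin n e) :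
    (RCset n).ncard = Nmax (1 / 2) n 0 0 := by
  obtain ⟨c, hc⟩ := tt_eq hn
  have hpos : (0 : ℝ) < 2 ^ (n - 2) := by positivity
  have cmp : ∀ π τ : Equiv.Perm (Fin n), tt τ ≤ tt π ↔
      F (1 / 2) n 0 0 (relOf τ) ≤ F (1 / 2) n 0 0 (relOf π) := by
    intro π τ
    rw [← Nat.cast_le (α := ℝ), hc, hc, add_le_add_iff_left, mul_le_mul_iff_right₀ hpos]
  -- a linear maximiser
  obtain ⟨e0, he0⟩ := exists_isMax (1 / 2) n 0 0
  obtain ⟨π0, hπ0⟩ := exists_perm (hlin e0 he0)
  have mem : ∀ π : Equiv.Perm (Fin n), π ∈ RCset n ↔ IsMax (1 / 2) n 0 0 (relOf π) := by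
    intro π
    constructor
    · intro h e'
      have h0 := (cmp π π0).1 (h π0)
      exact ((he0 e').trans (F_congr hπ0).le).trans h0
    · intro h τ
      exact (cmp π τ).2 (h _)
  have im : (fun π => mask n (relOf π)) '' (RCset n) =
      {e : Rel | mask n e = e ∧ IsMax (1 / 2) n 0 0 e} := by
    ext e
    simp only [Set.mem_image, Set.mem_ofPred_eq]
    constructor
    · rintro ⟨π, hπ, rfl⟩
      refine ⟨mask_mask _ _, fun e' => ?_⟩
      rw [← F_congr (agree_mask n (relOf π))]
      exact (mem π).1 hπ e'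
    · rintro ⟨h1, h2⟩
      obtain ⟨π, hπ⟩ := exists_perm (hlin e h2)
      refine ⟨π, (mem π).2 (fun e' => ?_), ?_⟩
      · rw [← F_congr hπ]
        exact h2 e'
      · rw [← mask_eq_iff.2 hπ, h1]
  unfold Nmax
  rw [← im, Set.InjOn.ncard_image]
  intro π _ τ _ h
  exact relOf_inj h

end lin

end Pool.Agent.RC
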