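import Pool.Agent.Work.MP_b9e699_co.FC
import Pool.Agent.Work.MP_b9e699_co.Perm

/-! # The number of Roller Coaster permutations -/

open Finset

namespace Pool.Agent.RC

/-- for even `n ≥ 4` there are exactly four Roller Coaster permutations. -/
theorem RC_even {k : ℕ} (hk : 2 ≤ k) : (RCset (2 * k)).ncard = 4 := by
  rw [RC_ncard (by omega) (fun e he => top_lin (by omega) he), top_count_even hk]

/-- for odd `n = 2k+1 ≥ 3` the number is `4 N(k) N(k-1)`. -/
theorem RC_odd {k : ℕ} (hk : 1 ≤ k) : (RCset (2 * k + 1)).ncard = 4 * (NN k * NN (k - 1)) := by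
  rw [RC_ncard (by omega) (fun e he => top_lin (by omega) he), top_count_odd hk]

theorem RC_odd_pow {k : ℕ} (hk : 1 ≤ k) : ∃ j ≤ k + 1, (RCset (2 * k + 1)).ncard = 2 ^ j := by
  obtain ⟨j, hj, h⟩ := NN_pow k hk
  refine ⟨j + 2, by omega, ?_⟩
  rw [RC_odd hk, h, pow_add]
  norm_num
  ring

end Pool.Agent.RC
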