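import Pool.Agent.Work.MP_b9e699_co.Defs

/-!
# Rotation of the left core
-/

open Finset

namespace Pool.Agent.RC

section ROT
variable {q x y : ℝ} {p r : ℕ} {e : Rel}

namespace ROTAux

/-- reversed core, complemented if `τ = true` (relative to `rev`). -/
def rotc (p : ℕ) (τ : Bool) (e : Rel) : Rel := if τ then compl (rev p e) else rev p e

lemma av_eq_add (q x : ℝ) (e : Rel) (k : ℕ) : av q x e k = q ^ (k + 1) * x + av q 0 e k := by
  unfold av; ring

lemma bv_eq_add (q y : ℝ) (m : ℕ) (e : Rel) (k : ℕ) :
    bv q y m e k = q ^ (m - k) * y + bv q 0 m e k := by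
  unfold bv; ring

lemma av_rotc (τ : Bool) {i : ℕ} (hi : i < p) :
    av q x (rotc p τ e) i = q ^ (i + 1) * x - sg τ * bv q 0 p e (p - 1 - i) := by
  have h1 : p - (p - 1 - i) = i + 1 := by omega
  cases τ
  · simp only [rotc, Bool.false_eq_true, if_false, sg_false]
    rw [av_rev hi, bv_eq_add, h1]; ring
  · simp only [rotc, if_true, sg_true]
    have := av_compl q (-x) (rev p e) i
    rw [neg_neg] at this
    rw [this, av_rev hi, bv_eq_add, h1]; ring

lemma bv_rotc (τ : Bool) {i : ℕ} (hi : i < p) :
    bv q 0 p (rotc p τ e) i = - (sg τ * av q 0 e (p - 1 - i)) := by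
  cases τ
  · simp only [rotc, Bool.false_eq_true, if_false, sg_false]
    rw [bv_rev hi]; ring
  · simp only [rotc, if_true, sg_true]
    have := bv_compl q 0 p (rev p e) i
    rw [neg_zero] at this
    rw [this, bv_rev hi]; ring

end ROTAux

open ROTAux

/-- Rotation of the left core. -/
theorem rotation (hq : 0 < q) (_hp : 1 ≤ p) (τ : Bool) (u : ℕ → ℝ)
    (hu : ∀ j < r, u j * bv q y (p + r) e (p + j) = |bv q y (p + r) e (p + j)|)
    (hu1 : ∀ j < r, |u j| ≤ 1) :
    ∃ e' : Rel, F q (p + r) x y e
      + ((∑ j ∈ range r, q ^ j * u j) - q ^ r * y - sg τ * x) *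
          ((∑ k ∈ range p, q ^ (p - k) * av q 0 e k)
            + sg τ * ∑ k ∈ range p, q ^ (k + 1) * bv q 0 p e k)
      - ∑ k ∈ range p, ∑ j ∈ range r, q ^ (p - k + j) *
          (sg (e k (p + j)) * (av q x e k - bv q y (p + r) e (p + j))
            - |bv q y (p + r) e (p + j)| + u j * av q x e k)
      ≤ F q (p + r) x y e' := by
  set s := shift p e with hs
  set B : ℕ → ℝ := fun j => bv q y r s j with hB
  have hBe : ∀ j < r, bv q y (p + r) e (p + j) = B j := by
    intro j hj
    have h := bv_congr (q := q) (y := y) (cat_self p (p + r) e) (t := p + j)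
    rw [← h, bv_cat_right hj]
  set c' := rotc p τ e with hc'
  set A' : ℕ → ℝ := fun i => av q x c' i with hA'
  refine ⟨cat p c' s (xopt A' B), ?_⟩
  have hFe : F q (p + r) x y e = _ :=
    (F_congr (cat_self p (p + r) e)).symm.trans (F_cat (q := q) (x := x) (y := y) (p := p) (r := r)
      (c := e) (s := s) (X := fun i j => e i (p + j)))
  have hFe' := F_cat (q := q) (x := x) (y := y) (p := p) (r := r) (c := c') (s := s)
    (X := xopt A' B)
  rw [hFe', hFe]
  -- abbreviations
  set UA := ∑ k ∈ range p, q ^ (p - k) * av q 0 e k with hUA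
  set UH := ∑ k ∈ range p, q ^ (k + 1) * bv q 0 p e k with hUH
  -- core part
  have hcore : F q p x 0 c' = F q p x 0 e - x * (sg τ * UA + UH) := by
    unfold F
    rw [← sum_range_reflect (fun t => av q x c' t * bv q 0 p c' t) p]
    have h1 : ∀ k ∈ range p, av q x c' (p - 1 - k) * bv q 0 p c' (p - 1 - k)
        = av q x e k * bv q 0 p e k - x * (sg τ * (q ^ (p - k) * av q 0 e k)
            + q ^ (k + 1) * bv q 0 p e k) := by
      intro k hk
      have hk := mem_range.1 hk
      have h2 : p - 1 - (p - 1 - k) = k := by omega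
      have h3 : p - 1 - k + 1 = p - k := by omega
      rw [hc', av_rotc τ (by omega), bv_rotc τ (by omega), h2, h3, av_eq_add q x e k]
      have h4 := sg_mul_self τ
      linear_combination (bv q 0 p e k * av q 0 e k) * h4
    rw [sum_congr rfl h1, sum_sub_distrib, ← mul_sum, sum_add_distrib, ← mul_sum, ← hUA, ← hUH]
  -- weighted sums of past values
  have hA'sum : ∑ i ∈ range p, q ^ (p - i) * A' i
      = (p : ℝ) * (q ^ (p + 1) * x) - sg τ * UH := by
    rw [← sum_range_reflect (fun i => q ^ (p - i) * A' i) p]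
    have h1 : ∀ k ∈ range p, q ^ (p - (p - 1 - k)) * A' (p - 1 - k)
        = q ^ (p + 1) * x - sg τ * (q ^ (k + 1) * bv q 0 p e k) := by
      intro k hk
      have hk := mem_range.1 hk
      have h2 : p - 1 - (p - 1 - k) = k := by omega
      have h3 : p - 1 - k + 1 = p - k := by omega
      have h4 : p - (p - 1 - k) = k + 1 := by omega
      have h5 : q ^ (p + 1) = q ^ (k + 1) * q ^ (p - k) := by
        rw [← pow_add]; congr 1; omega
      simp only [hA', hc']
      rw [av_rotc τ (by omega), h2, h3, h4, h5]; ring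
    rw [sum_congr rfl h1, sum_sub_distrib, sum_const, card_range, nsmul_eq_mul, ← mul_sum, ← hUH]
  have hAsum : ∑ i ∈ range p, q ^ (p - i) * av q x e i
      = (p : ℝ) * (q ^ (p + 1) * x) + UA := by
    have h1 : ∀ k ∈ range p, q ^ (p - k) * av q x e k
        = q ^ (p + 1) * x + q ^ (p - k) * av q 0 e k := by
      intro k hk
      have hk := mem_range.1 hk
      have h5 : q ^ (p + 1) = q ^ (k + 1) * q ^ (p - k) := by
        rw [← pow_add]; congr 1; omega
      rw [av_eq_add q x e k, h5]; ring
    rw [sum_congr rfl h1, sum_add_distrib, ← hUA, sum_const, card_range, nsmul_eq_mul]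
  have hy' : ∑ i ∈ range p, q ^ (p + r - i) * av q x c' i
      = q ^ r * ((p : ℝ) * (q ^ (p + 1) * x) - sg τ * UH) := by
    rw [← hA'sum, mul_sum]
    refine sum_congr rfl fun i hi => ?_
    have hi := mem_range.1 hi
    have h5 : q ^ (p + r - i) = q ^ r * q ^ (p - i) := by
      rw [← pow_add]; congr 1; omega
    rw [h5]; ring
  have hy : ∑ i ∈ range p, q ^ (p + r - i) * av q x e i
      = q ^ r * ((p : ℝ) * (q ^ (p + 1) * x) + UA) := by
    rw [← hAsum, mul_sum]
    refine sum_congr rfl fun i hi => ?_
    have hi := mem_range.1 hi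
    have h5 : q ^ (p + r - i) = q ^ r * q ^ (p - i) := by
      rw [← pow_add]; congr 1; omega
    rw [h5]; ring
  rw [hcore, hy', hy]
  -- the cross terms
  have hcross : ∑ i ∈ range p, ∑ j ∈ range r,
        q ^ (p + j - i) * sg (e i (p + j)) * (av q x e i - bv q y r s j)
      + ((∑ j ∈ range r, q ^ j * u j) * (UA + sg τ * UH)
        - ∑ k ∈ range p, ∑ j ∈ range r, q ^ (p - k + j) *
          (sg (e k (p + j)) * (av q x e k - bv q y (p + r) e (p + j))
            - |bv q y (p + r) e (p + j)| + u j * av q x e k))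
      ≤ ∑ i ∈ range p, ∑ j ∈ range r,
        q ^ (p + j - i) * sg (xopt A' B i j) * (av q x c' i - bv q y r s j) := by
    have hW : (∑ j ∈ range r, q ^ j * u j) * (UA + sg τ * UH)
        = ∑ i ∈ range p, ∑ j ∈ range r, q ^ (p - i + j) * (u j * av q x e i)
          - ∑ i ∈ range p, ∑ j ∈ range r, q ^ (p - i + j) * (u j * A' i) := by
      have h1 : ∀ G : ℕ → ℝ, ∑ i ∈ range p, ∑ j ∈ range r, q ^ (p - i + j) * (u j * G i)
          = (∑ j ∈ range r, q ^ j * u j) * ∑ i ∈ range p, q ^ (p - i) * G i := by
        intro G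
        rw [mul_sum]
        refine sum_congr rfl fun i _ => ?_
        rw [sum_mul]
        refine sum_congr rfl fun j _ => ?_
        rw [pow_add]; ring
      rw [h1, h1, hAsum, hA'sum]; ring
    rw [hW]
    have hle : ∀ i ∈ range p, ∀ j ∈ range r,
        q ^ (p + j - i) * sg (e i (p + j)) * (av q x e i - bv q y r s j)
          + (q ^ (p - i + j) * (u j * av q x e i) - q ^ (p - i + j) * (u j * A' i)
            - q ^ (p - i + j) *
              (sg (e i (p + j)) * (av q x e i - bv q y (p + r) e (p + j))
                - |bv q y (p + r) e (p + j)| + u j * av q x e i))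
        ≤ q ^ (p + j - i) * sg (xopt A' B i j) * (av q x c' i - bv q y r s j) := by
      intro i hi j hj
      have hi := mem_range.1 hi
      have hj := mem_range.1 hj
      have h1 : p + j - i = p - i + j := by omega
      have h2 : sg (xopt A' B i j) * (av q x c' i - bv q y r s j) = |A' i - B j| := sg_xopt A' B i j
      have hBj := hBe j hj
      have huj := hu j hj
      rw [hBj] at huj
      have h3 : |B j| - u j * A' i ≤ |A' i - B j| := by
        have h4 : u j * (B j - A' i) ≤ |A' i - B j| := by
          calc u j * (B j - A' i) ≤ |u j * (B j - A' i)| := le_abs_self _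
            _ = |u j| * |B j - A' i| := abs_mul _ _
            _ ≤ 1 * |B j - A' i| := by
                apply mul_le_mul_of_nonneg_right (hu1 j hj) (abs_nonneg _)
            _ = |A' i - B j| := by rw [one_mul, abs_sub_comm]
        linarith [mul_sub (u j) (B j) (A' i)]
      rw [h1, hBj, mul_assoc (q ^ (p - i + j)) (sg (xopt A' B i j)), h2]
      have hpos : 0 < q ^ (p - i + j) := by positivity
      have h5 : bv q y r s j = B j := rfl
      rw [h5]
      nlinarith [mul_le_mul_of_nonneg_left h3 hpos.le]
    have hsum := sum_le_sum fun i hi => sum_le_sum fun j hj => hle i hi j hj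
    simp only [sum_add_distrib, sum_sub_distrib] at hsum ⊢
    linarith
  have h6 : ((∑ j ∈ range r, q ^ j * u j) - q ^ r * y - sg τ * x) * (UA + sg τ * UH)
      = (∑ j ∈ range r, q ^ j * u j) * (UA + sg τ * UH)
        - y * (q ^ r * UA) - y * (q ^ r * (sg τ * UH)) - x * (sg τ * UA + UH) := by
    linear_combination (-x * UH) * sg_mul_self τ
  rw [h6]
  linarith [hcross, mul_sub y (q ^ r * ((p : ℝ) * (q ^ (p + 1) * x))) (q ^ r * (sg τ * UH))]

end ROT

end Pool.Agent.RC
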