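import Pool.Agent.Work.MP_b9e699_co.FL
import Pool.Agent.Work.MP_b9e699_co.ROT

/-! # No slopes for `q = 1/4` (module NS-quarter) -/

open Finset

namespace Pool.Agent.RC

/-! ## numeric sums -/

lemma kap4 : kap (1 / 4) = 2 / 3 := by unfold kap; norm_num

lemma geom4 (n : ℕ) : ∑ d ∈ range n, (-1 : ℝ) ^ d * (1 / 4) ^ (d + 1) = 1 / 5 * (1 - (-(1 / 4)) ^ n) := by
  induction n with
  | zero => simp
  | succ n ih =>
    rw [sum_range_succ, ih, pow_succ, neg_pow (1 / 4 : ℝ) n, neg_pow (1 / 4 : ℝ) (n + 1)]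
    ring

lemma geom4' (n : ℕ) : ∑ d ∈ range n, (1 / 4 : ℝ) ^ d * (-1) ^ d = 4 / 5 * (1 - (-(1 / 4)) ^ n) := by
  induction n with
  | zero => simp
  | succ n ih =>
    rw [sum_range_succ, ih, neg_pow (1 / 4 : ℝ) n, neg_pow (1 / 4 : ℝ) (n + 1)]
    ring

/-- two-periodic geometric bound. -/
lemma pot {A B : ℝ} (hA : 0 ≤ A) (hB : 0 ≤ B) (u : ℕ → ℝ)
    (hu : ∀ i, u i ≤ if i % 2 = 0 then A else B) (n : ℕ) :
    ∑ i ∈ range n, (1 / 4 : ℝ) ^ i * u i ≤ (16 * A + 4 * B) / 15 := by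
  have key : ∑ i ∈ range n, (1 / 4 : ℝ) ^ i * u i ≤ (16 * A + 4 * B) / 15
      - (1 / 4) ^ n * (if n % 2 = 0 then (16 * A + 4 * B) / 15 else (16 * B + 4 * A) / 15) := by
    induction n with
    | zero => simp
    | succ n ih =>
      rw [sum_range_succ]
      have hp : (0 : ℝ) < (1 / 4) ^ n := by positivity
      have h1 := mul_le_mul_of_nonneg_left (hu n) hp.le
      rcases Nat.mod_two_eq_zero_or_one n with h | h
      · rw [if_pos h] at ih h1
        rw [if_neg (by omega), pow_succ]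
        nlinarith
      · rw [if_neg (by omega)] at ih h1
        rw [if_pos (by omega), pow_succ]
        nlinarith
  have hp : (0 : ℝ) < (1 / 4) ^ n := by positivity
  have : 0 ≤ (1 / 4 : ℝ) ^ n * (if n % 2 = 0 then (16 * A + 4 * B) / 15 else (16 * B + 4 * A) / 15) := by
    apply mul_nonneg hp.le
    split_ifs <;> positivity
  linarith

/-- the array of upper bounds. -/
noncomputable def vv (s02 s11 s20 c : ℝ) (α j : ℕ) : ℝ :=
  if (α + j) % 2 = 1 then 0 else if α + j = 0 then 0 else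
    if α + j = 2 then (if α = 0 then s02 else if α = 1 then s11 else s20) else c

section vv
variable {s02 s11 s20 c : ℝ}

lemma vv_nonneg (h1 : 0 ≤ s02) (h2 : 0 ≤ s11) (h3 : 0 ≤ s20) (hc : 0 ≤ c) (α j : ℕ) :
    0 ≤ vv s02 s11 s20 c α j := by
  unfold vv; split_ifs <;> first | exact le_refl _ | assumption

lemma row_ext (h1 : 0 ≤ s02) (h2 : 0 ≤ s11) (h3 : 0 ≤ s20) (hc : 0 ≤ c) (α k b : ℕ) :
    ∑ j ∈ range b, (1 / 4 : ℝ) ^ j * vv s02 s11 s20 c α j
      ≤ ∑ j ∈ range k, (1 / 4 : ℝ) ^ j * vv s02 s11 s20 c α j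
        + (1 / 4) ^ k * ∑ j ∈ range b, (1 / 4 : ℝ) ^ j * vv s02 s11 s20 c α (k + j) := by
  have hsub : range b ⊆ range (k + b) := range_subset_range.2 (by omega)
  refine (sum_le_sum_of_subset_of_nonneg hsub fun i _ _ =>
    mul_nonneg (by positivity) (vv_nonneg h1 h2 h3 hc _ _)).trans (le_of_eq ?_)
  rw [Finset.sum_range_add, mul_sum]
  congr 1
  refine sum_congr rfl fun j _ => ?_
  rw [pow_add]; ring

lemma vv_sum (h1 : 0 ≤ s02) (h2 : 0 ≤ s11) (h3 : 0 ≤ s20) (hc : 0 ≤ c) (a b : ℕ) :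
    ∑ α ∈ range a, ∑ j ∈ range b, (1 / 4 : ℝ) ^ (α + 1 + j) * vv s02 s11 s20 c α j
      ≤ (s02 + s11 + s20) / 64 + c * (77 / 14400) := by
  set v := vv s02 s11 s20 c with hv
  set R : ℕ → ℝ := fun α => ∑ j ∈ range b, (1 / 4 : ℝ) ^ j * v α j with hR
  have hv0 : ∀ α j, 0 ≤ v α j := fun α j => vv_nonneg h1 h2 h3 hc α j
  have hR0 : ∀ α, 0 ≤ R α := fun α => sum_nonneg fun j _ => mul_nonneg (by positivity) (hv0 α j)
  have r0 : R 0 ≤ s02 / 16 + c / 240 := by
    have h := row_ext h1 h2 h3 hc 0 3 b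
    have h' := pot (le_refl 0) hc (fun j => v 0 (3 + j)) (fun i => by
      simp only [hv, vv]
      split_ifs <;> first | exact le_refl _ | omega) b
    simp only [sum_range_succ, sum_range_zero] at h
    have e0 : v 0 0 = 0 := by simp [hv, vv]
    have e1 : v 0 1 = 0 := by simp [hv, vv]
    have e2 : v 0 2 = s02 := by simp [hv, vv]
    rw [← hv] at h
    rw [e0, e1, e2] at h
    simp only [hR]
    norm_num at h h' ⊢
    linarith
  have r1 : R 1 ≤ s11 / 4 + c / 60 := by
    have h := row_ext h1 h2 h3 hc 1 2 b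
    have h' := pot (le_refl 0) hc (fun j => v 1 (2 + j)) (fun i => by
      simp only [hv, vv]
      split_ifs <;> first | exact le_refl _ | omega) b
    simp only [sum_range_succ, sum_range_zero] at h
    have e0 : v 1 0 = 0 := by simp [hv, vv]
    have e1 : v 1 1 = s11 := by simp [hv, vv]
    rw [← hv] at h
    rw [e0, e1] at h
    simp only [hR]
    norm_num at h h' ⊢
    linarith
  have r2 : R 2 ≤ s20 + c / 15 := by
    have h := row_ext h1 h2 h3 hc 2 1 b
    have h' := pot (le_refl 0) hc (fun j => v 2 (1 + j)) (fun i => by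
      simp only [hv, vv]
      split_ifs <;> first | exact le_refl _ | omega) b
    simp only [sum_range_succ, sum_range_zero] at h
    have e0 : v 2 0 = s20 := by simp [hv, vv]
    rw [← hv] at h
    rw [e0] at h
    simp only [hR]
    norm_num at h h' ⊢
    linarith
  have r3 : ∀ i, R (3 + i) ≤ if i % 2 = 0 then 4 / 15 * c else 16 / 15 * c := by
    intro i
    rcases Nat.mod_two_eq_zero_or_one i with hi | hi
    · rw [if_pos hi]
      have h' := pot (le_refl 0) hc (fun j => v (3 + i) j) (fun j => by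
        simp only [hv, vv]
        split_ifs <;> first | exact le_refl _ | omega) b
      simp only [hR]; linarith
    · rw [if_neg (by omega)]
      have h' := pot hc (le_refl 0) (fun j => v (3 + i) j) (fun j => by
        simp only [hv, vv]
        split_ifs <;> first | exact le_refl _ | omega) b
      simp only [hR]; linarith
  have e1 : ∑ α ∈ range a, ∑ j ∈ range b, (1 / 4 : ℝ) ^ (α + 1 + j) * v α j
      = ∑ α ∈ range a, (1 / 4 : ℝ) ^ (α + 1) * R α := by
    refine sum_congr rfl fun α _ => ?_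
    rw [hR, mul_sum]
    refine sum_congr rfl fun j _ => ?_
    rw [pow_add]; ring
  rw [e1]
  have e2 : ∑ α ∈ range a, (1 / 4 : ℝ) ^ (α + 1) * R α
      ≤ ∑ α ∈ range (3 + a), (1 / 4 : ℝ) ^ (α + 1) * R α :=
    sum_le_sum_of_subset_of_nonneg (range_subset_range.2 (by omega)) fun i _ _ =>
      mul_nonneg (by positivity) (hR0 i)
  refine e2.trans ?_
  rw [Finset.sum_range_add]
  have e3 : ∑ i ∈ range a, (1 / 4 : ℝ) ^ (3 + i + 1) * R (3 + i)
      = (1 / 256) * ∑ i ∈ range a, (1 / 4 : ℝ) ^ i * R (3 + i) := by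
    rw [mul_sum]
    refine sum_congr rfl fun i _ => ?_
    rw [show 3 + i + 1 = i + 4 by ring, pow_add]; ring
  rw [e3]
  have e4 := pot (by positivity) (by positivity) (fun i => R (3 + i)) r3 a
  simp only [sum_range_succ, sum_range_zero]
  norm_num
  norm_num at e4
  linarith

end vv

/-! ## the structure of a maximiser with an upward slope -/

/-- maximiser with an upward slope at `t` and `r` positions to the right of `t`. -/
structure SQ (t r : ℕ) (X Y x y : ℝ) (e : Rel) : Prop where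
  mx : IsMax (1 / 4) (t + 1 + r) x y e
  ht : 2 ≤ t
  hr : 2 ≤ r
  hX : X = 1 / 3 ∨ X = 2 / 3
  hY : Y = 1 / 3 ∨ Y = 2 / 3
  hx : x = (-1) ^ t * X
  hy : y = -((-1) ^ r * Y)
  el : ∀ i < t, sg (e i (i + 1)) = (-1) ^ (t - i)
  er : ∀ j < r, sg (e (t + j) (t + j + 1)) = -(-1) ^ j

/-- the mirrored array. -/
def mir (m : ℕ) (e : Rel) : Rel := fun i j => e (m - 1 - j) (m - 1 - i)

lemma mir_eq (m : ℕ) (e : Rel) : mir m e = compl (rev m e) := by
  funext i j; simp [mir, compl, rev]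

lemma av_mir {q y : ℝ} {m : ℕ} {e : Rel} {i : ℕ} (hi : i < m) :
    av q (-y) (mir m e) i = - bv q y m e (m - 1 - i) := by
  rw [mir_eq, av_compl, av_rev hi]

lemma bv_mir {q x : ℝ} {m : ℕ} {e : Rel} {i : ℕ} (hi : i < m) :
    bv q (-x) m (mir m e) i = - av q x e (m - 1 - i) := by
  rw [mir_eq, bv_compl, bv_rev hi]

lemma F_mir {q x y : ℝ} {m : ℕ} {e : Rel} : F q m (-y) (-x) (mir m e) = F q m x y e := by
  rw [mir_eq, F_compl, F_rev]

lemma mir_mir_agree (m : ℕ) (e : Rel) : Agree m (mir m (mir m e)) e := by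
  intro i j hi hj
  unfold mir
  congr 1 <;> omega

lemma IsMax.mir {q x y : ℝ} {m : ℕ} {e : Rel} (h : IsMax q m x y e) :
    IsMax q m (-y) (-x) (mir m e) := by
  intro e'
  rw [F_mir]
  have h1 := h (RC.mir m e')
  have h2 : F q m x y (RC.mir m e') = F q m (-y) (-x) e' := by
    have := F_mir (q := q) (x := -y) (y := -x) (m := m) (e := e')
    simpa using this
  rw [h2] at h1
  exact h1

lemma IsMax.compl {q x y : ℝ} {m : ℕ} {e : Rel} (h : IsMax q m x y e) :
    IsMax q m (-x) (-y) (compl e) := by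
  intro e'
  rw [F_compl]
  have h1 := h (RC.compl e')
  have h2 := F_compl q m (-x) (-y) e'
  rw [neg_neg, neg_neg] at h2
  rwa [h2] at h1

lemma neg_one_pow_or (n : ℕ) : ((-1 : ℝ) ^ n = 1) ∨ ((-1 : ℝ) ^ n = -1) := neg_one_pow_eq_or ℝ n

lemma neg_one_pow_mul_self (n : ℕ) : ((-1 : ℝ) ^ n) * (-1) ^ n = 1 := by
  rw [← mul_pow]; norm_num

lemma abs_neg_one_pow' (n : ℕ) : |(-1 : ℝ) ^ n| = 1 := by simp

section SQ
variable {t r : ℕ} {X Y x y : ℝ} {e : Rel}

lemma SQ.mir (h : SQ t r X Y x y e) : SQ r t Y X (-y) (-x) (mir (t + 1 + r) e) := by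
  have hm : t + 1 + r = r + 1 + t := by omega
  refine ⟨?_, h.hr, h.ht, h.hY, h.hX, by rw [h.hy]; ring, by rw [h.hx], ?_, ?_⟩
  · have := h.mx.mir
    rw [← hm]; exact this
  · intro i hi
    have h1 := h.er (r - i - 1) (by omega)
    have h2 : RC.mir (t + 1 + r) e i (i + 1) = e (t + (r - i - 1)) (t + (r - i - 1) + 1) := by
      unfold RC.mir; congr 1 <;> omega
    rw [h2, h1]
    have h3 : r - i = (r - i - 1) + 1 := by omega
    rw [h3, pow_succ]; simp
  · intro j hj
    have h1 := h.el (t - j - 1) (by omega)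
    have h2 : RC.mir (t + 1 + r) e (r + j) (r + j + 1) = e (t - j - 1) (t - j - 1 + 1) := by
      unfold RC.mir; congr 1 <;> omega
    rw [h2, h1]
    have h3 : t - (t - j - 1) = j + 1 := by omega
    rw [h3, pow_succ]; ring

lemma SQ.Xpos (h : SQ t r X Y x y e) : 1 / 3 ≤ X := by rcases h.hX with h | h <;> rw [h]; norm_num
lemma SQ.Xle (h : SQ t r X Y x y e) : X ≤ 2 / 3 := by rcases h.hX with h | h <;> rw [h]; norm_num
lemma SQ.Ypos (h : SQ t r X Y x y e) : 1 / 3 ≤ Y := by rcases h.hY with h | h <;> rw [h]; norm_num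
lemma SQ.Yle (h : SQ t r X Y x y e) : Y ≤ 2 / 3 := by rcases h.hY with h | h <;> rw [h]; norm_num

lemma SQ.absx (h : SQ t r X Y x y e) : |x| ≤ kap (1 / 4) := by
  rw [kap4, h.hx, abs_mul, abs_neg_one_pow', one_mul, abs_of_nonneg (by linarith [h.Xpos])]
  exact h.Xle

lemma SQ.absy (h : SQ t r X Y x y e) : |y| ≤ kap (1 / 4) := by
  rw [kap4, h.hy, abs_neg, abs_mul, abs_neg_one_pow', one_mul, abs_of_nonneg (by linarith [h.Ypos])]
  exact h.Yle

/-- sign of the past on the left. -/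
lemma SQ.a_left (h : SQ t r X Y x y e) {k : ℕ} (hk : 1 ≤ k) (hkt : k ≤ t) :
    1 / 6 < (-1) ^ (t - k) * av (1 / 4) x e k := by
  have h1 := av_lt (e := e) (t := k) (by norm_num) (by norm_num) h.absx hk
  have h2 := h.el (k - 1) (by omega)
  have h3 : k - 1 + 1 = k := by omega
  have h4 : t - (k - 1) = t - k + 1 := by omega
  rw [h3, h4, pow_succ] at h2
  rw [h2, kap4] at h1
  norm_num at h1 ⊢
  linarith

lemma SQ.a_left0 (h : SQ t r X Y x y e) : (-1) ^ t * av (1 / 4) x e 0 = X / 4 := by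
  rw [av_zero, h.hx]
  have := neg_one_pow_mul_self t
  linear_combination (X / 4) * this

lemma SQ.a_left' (h : SQ t r X Y x y e) {k : ℕ} (hkt : k ≤ t) :
    0 < (-1) ^ (t - k) * av (1 / 4) x e k := by
  rcases Nat.eq_zero_or_pos k with hk | hk
  · subst hk
    rw [Nat.sub_zero, h.a_left0]; linarith [h.Xpos]
  · linarith [h.a_left hk hkt]

lemma SQ.a_right (h : SQ t r X Y x y e) {j : ℕ} (hj : j < r) :
    1 / 6 < (-1) ^ j * av (1 / 4) x e (t + 1 + j) := by
  have h1 := av_lt (e := e) (t := t + 1 + j) (by norm_num) (by norm_num) h.absx (by omega)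
  have h2 := h.er j hj
  have h3 : t + 1 + j - 1 = t + j := by omega
  have h4 : t + j + 1 = t + 1 + j := by omega
  rw [h4] at h2
  rw [h3, h2, kap4] at h1
  norm_num at h1 ⊢
  linarith

lemma SQ.b_left (h : SQ t r X Y x y e) {k : ℕ} (hkt : k < t) :
    1 / 6 < (-1) ^ (t - k) * bv (1 / 4) y (t + 1 + r) e k := by
  have h1 := bv_lt (e := e) (m := t + 1 + r) (t := k) (by norm_num) (by norm_num) h.absy (by omega)
  rw [h.el k hkt, kap4] at h1
  norm_num at h1 ⊢
  linarith

lemma SQ.b_mid (h : SQ t r X Y x y e) : 1 / 6 < - bv (1 / 4) y (t + 1 + r) e t := by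
  have hr := h.hr
  have h1 := bv_lt (e := e) (m := t + 1 + r) (t := t) (by norm_num) (by norm_num) h.absy (by omega)
  have h2 := h.er 0 (by omega)
  simp only [Nat.add_zero, pow_zero] at h2
  rw [h2, kap4] at h1
  norm_num at h1 ⊢
  linarith

lemma SQ.b_right (h : SQ t r X Y x y e) {j : ℕ} (hj : j + 1 < r) :
    1 / 6 < (-1) ^ j * bv (1 / 4) y (t + 1 + r) e (t + 1 + j) := by
  have h1 := bv_lt (e := e) (m := t + 1 + r) (t := t + 1 + j) (by norm_num) (by norm_num) h.absy (by omega)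
  have h2 := h.er (j + 1) (by omega)
  have h3 : t + (j + 1) = t + 1 + j := by omega
  rw [h3, pow_succ] at h2
  rw [h2, kap4] at h1
  norm_num at h1 ⊢
  linarith

lemma SQ.b_last (h : SQ t r X Y x y e) :
    (-1) ^ (r - 1) * bv (1 / 4) y (t + 1 + r) e (t + 1 + (r - 1)) = Y / 4 := by
  have hr := h.hr
  have h1 : t + 1 + (r - 1) = t + 1 + r - 1 := by omega
  rw [h1, bv_last (by omega), h.hy]
  have h2 : (-1 : ℝ) ^ r = (-1) ^ (r - 1) * (-1) := by rw [← pow_succ]; congr 1; omega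
  have := neg_one_pow_mul_self (r - 1)
  rw [h2]
  linear_combination (Y / 4) * this

lemma SQ.b_right' (h : SQ t r X Y x y e) {j : ℕ} (hj : j < r) :
    0 < (-1) ^ j * bv (1 / 4) y (t + 1 + r) e (t + 1 + j) := by
  rcases Nat.lt_or_ge (j + 1) r with h1 | h1
  · linarith [h.b_right h1]
  · have : j = r - 1 := by omega
    subst this
    rw [h.b_last]; linarith [h.Ypos]

/-- relations of elements of opposite types. -/
lemma SQ.rel (h : SQ t r X Y x y e) {s : ℝ} (hs : s = 1 ∨ s = -1) {i j : ℕ} (hij : i < j)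
    (hj : j < t + 1 + r)
    (hlt : 0 < s * (av (1 / 4) x e i - bv (1 / 4) y (t + 1 + r) e j)) : sg (e i j) = s := by
  have h1 := h.mx.rule (by norm_num) hij hj
  rcases sg_eq_or (e i j) with h2 | h2 <;> rcases hs with hs | hs <;> rw [h2, hs] <;>
    rw [h2] at h1 <;> rw [hs] at hlt <;> exfalso <;> linarith

/-- alternating comparison on the right. -/
lemma SQ.rel_right (h : SQ t r X Y x y e) {j d : ℕ} (hd : d % 2 = 0) (hj : t + 1 + j + (d + 1) < t + 1 + r) :
    sg (e (t + 1 + j) (t + 1 + j + (d + 1))) = (-1) ^ j := by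
  refine h.rel (neg_one_pow_or j) (by omega) hj ?_
  have h1 := h.a_right (j := j) (by omega)
  have h2 := h.b_right' (j := j + (d + 1)) (by omega)
  have h3 : (-1 : ℝ) ^ (j + (d + 1)) = - (-1) ^ j := by
    rw [pow_add, pow_succ, Even.neg_one_pow (Nat.even_iff.2 hd)]; ring
  rw [h3, ← add_assoc] at h2
  rw [mul_sub]
  linarith

/-- comparison with the middle. -/
lemma SQ.rel_mid (h : SQ t r X Y x y e) {k : ℕ} (hk : k < t) (hpar : (t - k) % 2 = 0) :
    sg (e k t) = 1 := by
  refine h.rel (Or.inl rfl) hk (by omega) ?_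
  have h1 := h.a_left' (k := k) (by omega)
  have h2 := h.b_mid
  rw [Even.neg_one_pow (Nat.even_iff.2 hpar)] at h1
  linarith

/-- relations of position `0`. -/
lemma SQ.rel_zero (h : SQ t r X Y x y e) {k : ℕ} (hk0 : 1 ≤ k) (hk : k < t) :
    sg (e 0 k) = - (-1) ^ (t - k) := by
  have hs : -((-1 : ℝ)) ^ (t - k) = 1 ∨ -((-1 : ℝ)) ^ (t - k) = -1 := by
    rcases neg_one_pow_or (t - k) with h1 | h1 <;> rw [h1] <;> norm_num
  refine h.rel hs hk0 (by omega) ?_
  have h1 := h.a_left0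
  have h2 := h.b_left hk
  have h3 : |av (1 / 4) x e 0| ≤ 1 / 6 := by
    have := abs_av_zero_le (q := 1 / 4) (x := x) (e := e) (by norm_num) h.absx
    rw [kap4] at this; norm_num at this ⊢; exact this
  have h4 := abs_le.1 h3
  rcases neg_one_pow_or (t - k) with h5 | h5 <;> rw [h5] at h2 ⊢ <;> nlinarith

lemma SQ.rel_zero_mid (h : SQ t r X Y x y e) : sg (e 0 t) = 1 := by
  have ht := h.ht
  refine h.rel (Or.inl rfl) (by omega) (by omega) ?_
  have h2 := h.b_mid
  have h3 : |av (1 / 4) x e 0| ≤ 1 / 6 := by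
    have := abs_av_zero_le (q := 1 / 4) (x := x) (e := e) (by norm_num) h.absx
    rw [kap4] at this; norm_num at this ⊢; exact this
  have h4 := abs_le.1 h3
  linarith

/-- lower bound for the futures on the right. -/
lemma SQ.g_lower (h : SQ t r X Y x y e) {j : ℕ} (hj : j < r) :
    1 / 5 - (-(1 / 4)) ^ (r - 1 - j) * ((4 / 5 - Y) / 4)
      ≤ (-1) ^ j * bv (1 / 4) y (t + 1 + r) e (t + 1 + j) := by
  obtain ⟨n, hn⟩ : ∃ n, r = j + 1 + n := ⟨r - 1 - j, by omega⟩
  have e0 : r - 1 - j = n := by omega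
  have e1 : t + 1 + r - (t + 1 + j) = n + 1 := by omega
  unfold bv
  rw [e0, e1, mul_add, mul_sum]
  have e2 : ∑ k ∈ Ico (t + 1 + j + 1) (t + 1 + r),
        (-1 : ℝ) ^ j * ((1 / 4) ^ (k - (t + 1 + j)) * sg (e (t + 1 + j) k))
      = ∑ d ∈ range n, (-1 : ℝ) ^ j * ((1 / 4) ^ (d + 1) * sg (e (t + 1 + j) (t + 1 + j + (d + 1)))) := by
    rw [Finset.sum_Ico_eq_sum_range]
    have : t + 1 + r - (t + 1 + j + 1) = n := by omega
    rw [this]
    refine sum_congr rfl fun d _ => ?_
    congr 2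
    · congr 1; omega
    · congr 2; omega
  rw [e2]
  have e3 : ∑ d ∈ range n, (-1 : ℝ) ^ d * (1 / 4) ^ (d + 1)
      ≤ ∑ d ∈ range n, (-1 : ℝ) ^ j * ((1 / 4) ^ (d + 1) * sg (e (t + 1 + j) (t + 1 + j + (d + 1)))) := by
    refine sum_le_sum fun d hd => ?_
    have hd := mem_range.1 hd
    have hp : (0 : ℝ) < (1 / 4) ^ (d + 1) := by positivity
    rcases Nat.mod_two_eq_zero_or_one d with h0 | h0
    · rw [h.rel_right h0 (by omega), Even.neg_one_pow (Nat.even_iff.2 h0)]
      have := neg_one_pow_mul_self j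
      nlinarith
    · rw [Odd.neg_one_pow (Nat.odd_iff.2 h0)]
      have h1 : -1 ≤ (-1 : ℝ) ^ j * sg (e (t + 1 + j) (t + 1 + j + (d + 1))) := by
        rcases neg_one_pow_or j with h1 | h1 <;>
          rcases sg_eq_or (e (t + 1 + j) (t + 1 + j + (d + 1))) with h2 | h2 <;>
          rw [h1, h2] <;> norm_num
      nlinarith
  rw [geom4] at e3
  have e4 : (-1 : ℝ) ^ j * ((1 / 4) ^ (n + 1) * y) = (-(1 / 4)) ^ n * (1 / 4) * Y := by
    rw [h.hy, hn, neg_pow (1 / 4 : ℝ) n, pow_add (-1 : ℝ) (j + 1) n, pow_succ (-1 : ℝ) j]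
    have := neg_one_pow_mul_self j
    linear_combination ((1 / 4 : ℝ) ^ (n + 1) * (-1) ^ n * Y) * this
  rw [e4]
  linarith

/-- upper bound for the past of the middle position. -/
lemma SQ.f0_upper (h : SQ t r X Y x y e) :
    av (1 / 4) x e t ≤ 1 / 5 - (-(1 / 4)) ^ t * ((4 / 5 - X) / 4) := by
  unfold av
  rw [← sum_range_reflect (fun i => (1 / 4 : ℝ) ^ (t - i) * sg (e i t)) t]
  have e3 : -∑ d ∈ range t, (-1 : ℝ) ^ d * (1 / 4) ^ (d + 1)
      ≤ ∑ j ∈ range t, (1 / 4 : ℝ) ^ (t - (t - 1 - j)) * sg (e (t - 1 - j) t) := by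
    rw [← sum_neg_distrib]
    refine sum_le_sum fun d hd => ?_
    have hd := mem_range.1 hd
    have e1 : t - (t - 1 - d) = d + 1 := by omega
    rw [e1]
    have hp : (0 : ℝ) < (1 / 4) ^ (d + 1) := by positivity
    rcases Nat.mod_two_eq_zero_or_one d with h0 | h0
    · rw [Even.neg_one_pow (Nat.even_iff.2 h0)]
      have := neg_one_le_sg (e (t - 1 - d) t)
      nlinarith
    · rw [Odd.neg_one_pow (Nat.odd_iff.2 h0), h.rel_mid (by omega) (by omega)]
      linarith
  rw [geom4] at e3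
  have e4 : (1 / 4 : ℝ) ^ (t + 1) * x = (-(1 / 4)) ^ t * (1 / 4) * X := by
    rw [h.hx, neg_pow (1 / 4 : ℝ) t]; ring
  rw [e4]
  linarith

lemma SQ.abs_a (h : SQ t r X Y x y e) (k : ℕ) : |av (1 / 4) x e k| ≤ 1 / 3 := by
  have := abs_av_le (q := 1 / 4) (x := x) (e := e) (t := k) (by norm_num) (by norm_num)
    (h.absx.trans (by rw [kap4]; norm_num))
  norm_num at this ⊢; exact this

lemma SQ.a_le (h : SQ t r X Y x y e) {s : ℝ} (hs : s = 1 ∨ s = -1) (k : ℕ) :
    s * av (1 / 4) x e k ≤ 1 / 3 := by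
  have := abs_le.1 (h.abs_a k)
  rcases hs with hs | hs <;> rw [hs] <;> linarith

/-- size of the past on the left. -/
noncomputable def ff (x : ℝ) (e : Rel) (t α : ℕ) : ℝ := (-1) ^ α * av (1 / 4) x e (t - α)

/-- size of the future on the right. -/
noncomputable def gg (y : ℝ) (m : ℕ) (e : Rel) (t j : ℕ) : ℝ :=
  (-1) ^ j * bv (1 / 4) y m e (t + 1 + j)

noncomputable def Wf (r : ℕ) (X Y : ℝ) : ℝ := 4 / 5 - X - (-(1 / 4)) ^ r * (4 / 5 - Y)

noncomputable def Uf (t : ℕ) (e : Rel) : ℝ :=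
  (∑ k ∈ range (t + 1), (1 / 4 : ℝ) ^ (t + 1 - k) * av (1 / 4) 0 e k)
    + (-1) ^ t * ∑ k ∈ range (t + 1), (1 / 4 : ℝ) ^ (k + 1) * bv (1 / 4) 0 (t + 1) e k

lemma SQ.ff_mir (_h : SQ t r X Y x y e) {α : ℕ} (hα : α + 1 ≤ r) :
    ff (-y) (RC.mir (t + 1 + r) e) r (α + 1) = gg y (t + 1 + r) e t α := by
  unfold ff gg
  rw [av_mir (by omega), pow_succ]
  have : t + 1 + r - 1 - (r - (α + 1)) = t + 1 + α := by omega
  rw [this]; ring

lemma SQ.gg_mir (_h : SQ t r X Y x y e) {j : ℕ} (hj : j + 1 ≤ t) :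
    gg (-x) (r + 1 + t) (RC.mir (t + 1 + r) e) r j = ff x e t (j + 1) := by
  unfold ff gg
  have hm : r + 1 + t = t + 1 + r := by omega
  rw [hm, bv_mir (by omega), pow_succ]
  have : t + 1 + r - 1 - (r + 1 + j) = t - (j + 1) := by omega
  rw [this]; ring

lemma SQ.ff_pos (h : SQ t r X Y x y e) {α : ℕ} (hα : α ≤ t) : 0 < ff x e t α := by
  have h1 := h.a_left' (k := t - α) (by omega)
  have h2 : t - (t - α) = α := by omega
  rw [h2] at h1; exact h1

lemma SQ.gg_pos (h : SQ t r X Y x y e) {j : ℕ} (hj : j < r) : 0 < gg y (t + 1 + r) e t j :=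
  h.b_right' hj

lemma SQ.ff_le (h : SQ t r X Y x y e) (α : ℕ) : ff x e t α ≤ 1 / 3 :=
  h.a_le (neg_one_pow_or α) _

lemma SQ.gg_ge (h : SQ t r X Y x y e) {j : ℕ} (hj : j < r) :
    1 / 5 - (-(1 / 4)) ^ (r - 1 - j) * ((4 / 5 - Y) / 4) ≤ gg y (t + 1 + r) e t j :=
  h.g_lower hj

lemma SQ.term_le (h : SQ t r X Y x y e) {α j : ℕ} (hα : α ≤ t) (hj : j < r) {M : ℝ} (hM : 0 ≤ M)
    (hM' : (α + j) % 2 = 0 → 2 * (ff x e t α - gg y (t + 1 + r) e t j) ≤ M) :
    sg (e (t - α) (t + 1 + j)) * (av (1 / 4) x e (t - α) - bv (1 / 4) y (t + 1 + r) e (t + 1 + j))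
      - |bv (1 / 4) y (t + 1 + r) e (t + 1 + j)| + (-1) ^ j * av (1 / 4) x e (t - α) ≤ M := by
  have h1 := h.ff_pos hα
  have h2 := h.gg_pos hj
  unfold ff gg at hM'
  unfold ff at h1
  unfold gg at h2
  set a := av (1 / 4) x e (t - α)
  set b := bv (1 / 4) y (t + 1 + r) e (t + 1 + j)
  have h3 := sg_mul_le_abs (e (t - α) (t + 1 + j)) (a - b)
  have hb : |b| = (-1) ^ j * b := by
    have : |(-1 : ℝ) ^ j * b| = (-1) ^ j * b := abs_of_pos h2
    rwa [abs_mul, abs_neg_one_pow', one_mul] at this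
  rw [hb]
  rcases Nat.mod_two_eq_zero_or_one (α + j) with hp | hp
  · have h4 := hM' hp
    have h5 : (-1 : ℝ) ^ α = (-1) ^ j := by
      have h6 : (-1 : ℝ) ^ (α + j) = 1 := Even.neg_one_pow (Nat.even_iff.2 hp)
      have h7 := neg_one_pow_mul_self j
      rw [pow_add] at h6
      calc (-1 : ℝ) ^ α = (-1) ^ α * ((-1) ^ j * (-1) ^ j) := by rw [h7, mul_one]
        _ = (-1) ^ α * (-1) ^ j * (-1) ^ j := by ring
        _ = (-1) ^ j := by rw [h6, one_mul]
    rw [h5] at h1 h4
    have h6 : |a - b| = |(-1) ^ j * a - (-1) ^ j * b| := by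
      rw [← mul_sub, abs_mul, abs_neg_one_pow', one_mul]
    rcases abs_cases ((-1) ^ j * a - (-1) ^ j * b) with h7 | h7 <;> linarith
  · have h5 : (-1 : ℝ) ^ α = - (-1) ^ j := by
      have h6 : (-1 : ℝ) ^ (α + j) = -1 := Odd.neg_one_pow (Nat.odd_iff.2 hp)
      have h7 := neg_one_pow_mul_self j
      rw [pow_add] at h6
      calc (-1 : ℝ) ^ α = (-1) ^ α * ((-1) ^ j * (-1) ^ j) := by rw [h7, mul_one]
        _ = (-1) ^ α * (-1) ^ j * (-1) ^ j := by ring
        _ = - (-1) ^ j := by rw [h6]; ring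
    rw [h5] at h1
    have h6 : |a - b| = |(-1) ^ j * a - (-1) ^ j * b| := by
      rw [← mul_sub, abs_mul, abs_neg_one_pow', one_mul]
    rcases abs_cases ((-1) ^ j * a - (-1) ^ j * b) with h7 | h7 <;> linarith

/-- **the rotation inequality at a maximiser.** -/
theorem SQ.D0 (h : SQ t r X Y x y e) {s02 s11 s20 c : ℝ} (h0 : 0 ≤ s02) (h1 : 0 ≤ s11)
    (h2 : 0 ≤ s20) (hc : 0 ≤ c)
    (k02 : 3 ≤ r → 2 * (ff x e t 0 - gg y (t + 1 + r) e t 2) ≤ s02)
    (k11 : 2 * (ff x e t 1 - gg y (t + 1 + r) e t 1) ≤ s11)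
    (k20 : 2 * (ff x e t 2 - gg y (t + 1 + r) e t 0) ≤ s20)
    (kc : ∀ j < r, 2 * (1 / 3 - gg y (t + 1 + r) e t j) ≤ c) :
    Wf r X Y * Uf t e ≤ (s02 + s11 + s20) / 64 + c * (77 / 14400) := by
  have ht := h.ht
  have hr := h.hr
  obtain ⟨e', he'⟩ := rotation (q := 1 / 4) (x := x) (y := y) (p := t + 1) (r := r) (e := e)
    (by norm_num) (by omega) (e 0 1) (fun j => (-1) ^ j)
    (fun j hj => by
      have h3 := h.b_right' hj
      have : |(-1 : ℝ) ^ j * bv (1 / 4) y (t + 1 + r) e (t + 1 + j)| = _ := abs_of_pos h3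
      rw [abs_mul, abs_neg_one_pow', one_mul] at this
      exact this.symm)
    (fun j _ => (abs_neg_one_pow' j).le)
  have hle := h.mx e'
  have hτ : sg (e 0 1) = (-1) ^ t := by
    have := h.el 0 (by omega)
    simpa using this
  rw [hτ, geom4'] at he'
  have hW : 4 / 5 * (1 - (-(1 / 4)) ^ r) - (1 / 4) ^ r * y - (-1) ^ t * x = Wf r X Y := by
    unfold Wf
    rw [h.hx, h.hy, neg_pow (1 / 4 : ℝ) r]
    have := neg_one_pow_mul_self t
    linear_combination (-X) * this
  rw [hW] at he'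
  have hU : (∑ k ∈ range (t + 1), (1 / 4 : ℝ) ^ (t + 1 - k) * av (1 / 4) 0 e k)
    + (-1) ^ t * ∑ k ∈ range (t + 1), (1 / 4 : ℝ) ^ (k + 1) * bv (1 / 4) 0 (t + 1) e k = Uf t e := rfl
  rw [hU] at he'
  have hN : ∑ k ∈ range (t + 1), ∑ j ∈ range r, (1 / 4 : ℝ) ^ (t + 1 - k + j) *
          (sg (e k (t + 1 + j)) * (av (1 / 4) x e k - bv (1 / 4) y (t + 1 + r) e (t + 1 + j))
            - |bv (1 / 4) y (t + 1 + r) e (t + 1 + j)| + (-1) ^ j * av (1 / 4) x e k)
      ≤ (s02 + s11 + s20) / 64 + c * (77 / 14400) := by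
    rw [← sum_range_reflect _ (t + 1)]
    refine le_trans ?_ (vv_sum h0 h1 h2 hc (t + 1) r)
    refine sum_le_sum fun α hα => sum_le_sum fun j hj => ?_
    have hα := mem_range.1 hα
    have hj := mem_range.1 hj
    have e1 : t + 1 - (t + 1 - 1 - α) + j = α + 1 + j := by omega
    have e2 : t + 1 - 1 - α = t - α := by omega
    rw [e1, e2]
    refine mul_le_mul_of_nonneg_left ?_ (by positivity)
    refine h.term_le (by omega) hj (vv_nonneg h0 h1 h2 hc _ _) fun hp => ?_
    unfold vv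
    rw [if_neg (by omega)]
    split_ifs with c1 c2 c3 c4
    · have a0 : α = 0 := by omega
      have j0 : j = 0 := by omega
      subst a0; subst j0
      -- the exact rule at the slope
      have h3 := h.mx.rule (by norm_num) (i := t) (j := t + 1) (by omega) (by omega)
      have h4 := h.er 0 (by omega)
      simp only [Nat.add_zero, pow_zero] at h4
      rw [h4] at h3
      unfold ff gg
      simp only [pow_zero, one_mul, Nat.sub_zero, Nat.add_zero]
      linarith
    · subst c3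
      have j2 : j = 2 := by omega
      subst j2
      exact k02 (by omega)
    · subst c4
      have j1 : j = 1 := by omega
      subst j1
      exact k11
    · have a2 : α = 2 := by omega
      have j0 : j = 0 := by omega
      subst a2; subst j0
      exact k20
    · have := kc j hj
      have h5 := h.ff_le α
      linarith
  linarith

/-! ### the core factor -/

lemma SQ.U2 (h : SQ 2 r X Y x y e) : Uf 2 e = 3 / 32 := by
  have h0 := h.el 0 (by norm_num)
  have h1 := h.el 1 (by norm_num)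
  norm_num at h0 h1
  unfold Uf av bv
  simp [sum_range_succ, Finset.sum_Ico_eq_sum_range, h0, h1]
  ring

lemma SQ.U3 (h : SQ 3 r X Y x y e) : Uf 3 e = 7 / 128 := by
  have h0 := h.el 0 (by norm_num)
  have h1 := h.el 1 (by norm_num)
  have h2 := h.el 2 (by norm_num)
  have h3 := h.rel_zero (k := 2) (by norm_num) (by norm_num)
  have h4 := h.rel_zero_mid
  have h5 := h.rel_mid (k := 1) (by norm_num) (by norm_num)
  norm_num at h0 h1 h2 h3
  unfold Uf av bv
  simp [sum_range_succ, Finset.sum_Ico_eq_sum_range, h0, h1, h2, h3, h4, h5]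
  ring

lemma SQ.U4 (h : SQ t r X Y x y e) (ht : 4 ≤ t) : 71 / 1440 ≤ Uf t e := by
  -- bounds for the internal pasts and futures
  have hk0 : |(0 : ℝ)| ≤ kap (1 / 4) := by rw [kap4]; norm_num
  have hA : ∀ k, |av (1 / 4) 0 e k| ≤ 1 / 3 := by
    intro k
    have := abs_av_le (q := 1 / 4) (x := 0) (e := e) (t := k) (by norm_num) (by norm_num) (by norm_num)
    norm_num at this ⊢; exact this
  have hB : ∀ k, k < t + 1 → |bv (1 / 4) 0 (t + 1) e k| ≤ 1 / 3 := by
    intro k hk
    have := abs_bv_le (q := 1 / 4) (y := 0) (m := t + 1) (e := e) (t := k) (by norm_num)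
      (by norm_num) (by norm_num) hk
    norm_num at this ⊢; exact this
  have hA1 : ∀ k, 1 ≤ k → k ≤ t → 1 / 6 < (-1) ^ (t - k) * av (1 / 4) 0 e k := by
    intro k hk hkt
    have h1 := av_lt (e := e) (t := k) (by norm_num) (by norm_num) hk0 hk
    have h2 := h.el (k - 1) (by omega)
    have h3 : k - 1 + 1 = k := by omega
    have h4 : t - (k - 1) = t - k + 1 := by omega
    rw [h3, h4, pow_succ] at h2
    rw [h2, kap4] at h1
    norm_num at h1 ⊢
    linarith
  have hB1 : ∀ k, k < t → 1 / 6 < (-1) ^ (t - k) * bv (1 / 4) 0 (t + 1) e k := by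
    intro k hkt
    have h1 := bv_lt (e := e) (m := t + 1) (t := k) (by norm_num) (by norm_num) hk0 (by omega)
    rw [h.el k hkt, kap4] at h1
    norm_num at h1 ⊢
    linarith
  -- first sum
  have s1 : 1 / 24 - 1 / 48 + 1 / 384 - 1 / 720 ≤ ∑ k ∈ range (t + 1), (1 / 4 : ℝ) ^ (t + 1 - k) * av (1 / 4) 0 e k := by
    rw [← sum_range_reflect _ (t + 1)]
    obtain ⟨n, hn⟩ : ∃ n, t + 1 = 3 + n := ⟨t - 2, by omega⟩
    have e0 : ∑ j ∈ range (t + 1), (1 / 4 : ℝ) ^ (t + 1 - (t + 1 - 1 - j)) * av (1 / 4) 0 e (t + 1 - 1 - j)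
        = ∑ j ∈ range (t + 1), (1 / 4 : ℝ) ^ (j + 1) * av (1 / 4) 0 e (t - j) := by
      refine sum_congr rfl fun j hj => ?_
      have := mem_range.1 hj
      have e1 : t + 1 - (t + 1 - 1 - j) = j + 1 := by omega
      have e2 : t + 1 - 1 - j = t - j := by omega
      rw [e1, e2]
    rw [e0, hn, Finset.sum_range_add]
    have h4 := pot (A := 1 / 3) (B := 0) (by norm_num) (le_refl 0)
      (fun i => - av (1 / 4) 0 e (t - (3 + i))) (fun i => by
        rcases Nat.mod_two_eq_zero_or_one i with hi | hi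
        · rw [if_pos hi]
          linarith [(abs_le.1 (hA (t - (3 + i)))).1]
        · rw [if_neg (by omega)]
          by_cases hc : 3 + i < t
          · have h5 := hA1 (t - (3 + i)) (by omega) (by omega)
            have h6 : t - (t - (3 + i)) = 3 + i := by omega
            rw [h6, Even.neg_one_pow (Nat.even_iff.2 (by omega))] at h5
            linarith
          · have : t - (3 + i) = 0 := by omega
            rw [this, av_zero]; simp) n
    have e3 : ∑ j ∈ range n, (1 / 4 : ℝ) ^ (3 + j + 1) * av (1 / 4) 0 e (t - (3 + j))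
        = -(1 / 256) * ∑ i ∈ range n, (1 / 4 : ℝ) ^ i * (- av (1 / 4) 0 e (t - (3 + i))) := by
      rw [mul_sum]
      refine sum_congr rfl fun i _ => ?_
      rw [show 3 + i + 1 = i + 4 by ring, pow_add]; ring
    rw [e3]
    have a0 := hA1 t (by omega) le_rfl
    have a1 := (abs_le.1 (hA (t - 1))).1
    have a2 := hA1 (t - 2) (by omega) (by omega)
    have h6 : t - (t - 2) = 2 := by omega
    rw [h6] at a2
    simp only [Nat.sub_self, pow_zero, one_mul] at a0
    simp only [sum_range_succ, sum_range_zero, Nat.sub_zero]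
    norm_num at a2 h4 ⊢
    linarith
  -- second sum
  have y0 : 3 / 16 ≤ (-1) ^ t * bv (1 / 4) 0 (t + 1) e 0 := by
    unfold bv
    rw [mul_zero, zero_add, Finset.sum_Ico_eq_sum_range]
    obtain ⟨n, hn⟩ : ∃ n, t + 1 - (0 + 1) = 3 + n := ⟨t - 3, by omega⟩
    rw [hn, Finset.sum_range_add]
    have f1 := h.el 0 (by omega)
    have f2 := h.rel_zero (k := 2) (by norm_num) (by omega)
    have f3 := h.rel_zero (k := 3) (by norm_num) (by omega)
    have g2 : (-1 : ℝ) ^ (t - 2) = (-1) ^ t := by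
      have : (-1 : ℝ) ^ t = (-1) ^ (t - 2 + 2) := by congr 1; omega
      rw [this, pow_add]; norm_num
    have g3 : (-1 : ℝ) ^ (t - 3) = - (-1) ^ t := by
      have : (-1 : ℝ) ^ t = (-1) ^ (t - 3 + 3) := by congr 1; omega
      rw [this, pow_add]; norm_num
    rw [g2] at f2
    rw [g3, neg_neg] at f3
    simp only [Nat.sub_zero, zero_add] at f1
    have h5 : |∑ i ∈ range n, (1 / 4 : ℝ) ^ (0 + 1 + (3 + i) - 0) * sg (e 0 (0 + 1 + (3 + i)))| ≤ 1 / 192 := by
      refine (abs_sum_le_sum_abs _ _).trans ?_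
      have e1 : ∀ i ∈ range n, |(1 / 4 : ℝ) ^ (0 + 1 + (3 + i) - 0) * sg (e 0 (0 + 1 + (3 + i)))|
          ≤ 1 / 256 * ((1 / 4) ^ i * 1) := by
        intro i _
        rw [abs_mul, abs_sg, abs_of_pos (by positivity)]
        have : 0 + 1 + (3 + i) - 0 = i + 4 := by omega
        rw [this, pow_add]; norm_num
        linarith
      refine (sum_le_sum e1).trans ?_
      rw [← mul_sum]
      have := pot (A := 1) (B := 1) (by norm_num) (by norm_num) (fun _ => 1) (fun i => by
        split_ifs <;> norm_num) n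
      norm_num at this ⊢
      linarith
    have h6 := abs_le.1 h5
    simp only [sum_range_succ, sum_range_zero]
    simp only [zero_add, Nat.sub_zero, Nat.add_zero] at h6 ⊢
    norm_num at f1 f2 f3 h6 ⊢
    rw [f1, f2, f3]
    have := neg_one_pow_mul_self t
    rcases neg_one_pow_or t with h7 | h7 <;> rw [h7] <;> linarith
  have s2 : 3 / 64 - 1 / 48 + 1 / 384 - 1 / 720
      ≤ (-1) ^ t * ∑ k ∈ range (t + 1), (1 / 4 : ℝ) ^ (k + 1) * bv (1 / 4) 0 (t + 1) e k := by
    rw [mul_sum]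
    obtain ⟨n, hn⟩ : ∃ n, t + 1 = 3 + n := ⟨t - 2, by omega⟩
    have e0 : ∑ k ∈ range (t + 1), (-1) ^ t * ((1 / 4 : ℝ) ^ (k + 1) * bv (1 / 4) 0 (t + 1) e k)
        = ∑ k ∈ range (3 + n), (1 / 4 : ℝ) ^ (k + 1) * ((-1) ^ t * bv (1 / 4) 0 (t + 1) e k) := by
      rw [← hn]
      exact sum_congr rfl fun k _ => by ring
    rw [e0, Finset.sum_range_add]
    have hsgn : ∀ k, k ≤ t → (-1 : ℝ) ^ t = (-1) ^ k * (-1) ^ (t - k) := by
      intro k hk
      rw [← pow_add]; congr 1; omega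
    have h4 := pot (A := 1 / 3) (B := 0) (by norm_num) (le_refl 0)
      (fun i => if i < n then - ((-1) ^ t * bv (1 / 4) 0 (t + 1) e (3 + i)) else 0) (fun i => by
        by_cases hin : i < n
        · simp only [hin, if_true]
          rcases Nat.mod_two_eq_zero_or_one i with hi | hi
          · rw [if_pos hi]
            have h5 := abs_le.1 (hB (3 + i) (by omega))
            rcases neg_one_pow_or t with h7 | h7 <;> rw [h7] <;> linarith
          · rw [if_neg (by omega)]
            by_cases hc : 3 + i < t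
            · have h5 := hB1 (3 + i) hc
              rw [hsgn (3 + i) (by omega), Even.neg_one_pow (n := 3 + i) (Nat.even_iff.2 (by omega))]
              linarith
            · have h8 : 3 + i = t + 1 - 1 := by omega
              rw [h8, RC.bv_last (by omega)]; simp
        · simp only [hin, if_false]
          split_ifs <;> norm_num) n
    have e3 : ∑ j ∈ range n, (1 / 4 : ℝ) ^ (3 + j + 1) * ((-1) ^ t * bv (1 / 4) 0 (t + 1) e (3 + j))
        = -(1 / 256) * ∑ i ∈ range n, (1 / 4 : ℝ) ^ i *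
            (if i < n then - ((-1) ^ t * bv (1 / 4) 0 (t + 1) e (3 + i)) else 0) := by
      rw [mul_sum]
      refine sum_congr rfl fun i hi => ?_
      rw [if_pos (mem_range.1 hi), show 3 + i + 1 = i + 4 by ring, pow_add]; ring
    rw [e3]
    have a1 : -(1 / 3) ≤ (-1) ^ t * bv (1 / 4) 0 (t + 1) e 1 := by
      have h5 := abs_le.1 (hB 1 (by omega))
      rcases neg_one_pow_or t with h7 | h7 <;> rw [h7] <;> linarith
    have a2 : 1 / 6 < (-1) ^ t * bv (1 / 4) 0 (t + 1) e 2 := by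
      have h5 := hB1 2 (by omega)
      rw [hsgn 2 (by omega)]; norm_num at h5 ⊢; exact h5
    simp only [sum_range_succ, sum_range_zero]
    norm_num at h4 ⊢
    linarith
  unfold Uf
  linarith

/-! ### powers of `-1/4` -/

lemma pw_abs (n k : ℕ) (h : k ≤ n) : |(-(1 / 4 : ℝ)) ^ n| ≤ (1 / 4) ^ k := by
  rw [abs_pow, abs_neg, abs_of_pos (by norm_num : (0 : ℝ) < 1 / 4)]
  exact pow_le_pow_of_le_one (by norm_num) (by norm_num) h

lemma pw_le_one (n : ℕ) : (-(1 / 4 : ℝ)) ^ n ≤ 1 := by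
  have := (abs_le.1 (pw_abs n 0 (Nat.zero_le _))).2
  simpa using this

lemma pw1 {n : ℕ} (h : 1 ≤ n) : (-(1 / 4 : ℝ)) ^ n ≤ 1 / 16 := by
  rcases Nat.lt_or_ge 1 n with h1 | h1
  · have := (abs_le.1 (pw_abs n 2 h1)).2
    norm_num at this ⊢; exact this
  · have : n = 1 := by omega
    subst this; norm_num

lemma pw3 {n : ℕ} (h : 3 ≤ n) : -(1 / 64) ≤ (-(1 / 4 : ℝ)) ^ n := by
  have := (abs_le.1 (pw_abs n 3 h)).1
  norm_num at this ⊢; exact this

lemma pw4 {n : ℕ} (h : 4 ≤ n) : (-(1 / 4 : ℝ)) ^ n ≤ 1 / 256 := by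
  have := (abs_le.1 (pw_abs n 4 h)).2
  norm_num at this ⊢; exact this

lemma SQ.gg_ge0 (h : SQ t r X Y x y e) {j : ℕ} (hj : j < r) : Y / 4 ≤ gg y (t + 1 + r) e t j := by
  have h1 := h.gg_ge hj
  have h2 := pw_le_one (r - 1 - j)
  have h3 := h.Yle
  nlinarith

lemma SQ.gg_ge1 (h : SQ t r X Y x y e) {j : ℕ} (hj : j + 1 < r) :
    1 / 5 - 1 / 16 * ((4 / 5 - Y) / 4) ≤ gg y (t + 1 + r) e t j := by
  have h1 := h.gg_ge (j := j) (by omega)
  have h2 := pw1 (n := r - 1 - j) (by omega)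
  have h3 := h.Yle
  nlinarith

/-! ### the cases -/

theorem SQ.false2 (h : SQ 2 r X Y x y e) : False := by
  have hr := h.hr
  have hXp := h.Xpos
  have hYp := h.Ypos
  have hXl := h.Xle
  have hYl := h.Yle
  have f0 : ff x e 2 0 ≤ 1 / 5 - 1 / 16 * ((4 / 5 - X) / 4) := by
    have := h.f0_upper
    unfold ff
    norm_num at this ⊢
    exact this
  have f1 : ff x e 2 1 = 1 / 4 - X / 16 := by
    have h0 := h.el 0 (by norm_num)
    have hx := h.hx
    unfold ff av
    norm_num at h0 hx ⊢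
    rw [h0, hx]; ring
  have f2 : ff x e 2 2 = X / 4 := by
    have := h.a_left0
    unfold ff
    norm_num at this ⊢
    exact this
  have g1 := h.gg_ge1 (j := 0) (by omega)
  have hW : 4 / 5 - X - 1 / 16 * (4 / 5 - Y) ≤ Wf r X Y := by
    unfold Wf
    have := pw1 (n := r) (by omega)
    nlinarith
  have key := fun s02 s11 => h.D0 (s02 := s02) (s11 := s11) (s20 := 0) (c := 1 / 2)
  rw [h.U2] at key
  rcases Nat.lt_or_ge r 3 with h3 | h3
  · have h2 := h.gg_ge0 (j := 1) (by omega)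
    have := key 0 (2 * (1 / 6 - X / 16)) le_rfl (by linarith) le_rfl (by norm_num)
      (fun h => by omega) (by rw [f1]; linarith) (by rw [f2]; linarith)
      (fun j hj => by have := h.gg_ge0 hj; linarith)
    rcases h.hX with hX | hX <;> rcases h.hY with hY | hY <;> rw [hX, hY] at hW this <;> linarith
  · have h2 := h.gg_ge1 (j := 1) (by omega)
    have h4 := h.gg_ge0 (j := 2) (by omega)
    have := key (2 * (1 / 5 - 1 / 12)) (2 * (1 / 4 - X / 16 - 1 / 5 + 7 / 960)) (by norm_num) (by linarith) le_rfl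
      (by norm_num)
      (fun _ => by linarith) (by rw [f1]; linarith) (by rw [f2]; linarith)
      (fun j hj => by have := h.gg_ge0 hj; linarith)
    rcases h.hX with hX | hX <;> rcases h.hY with hY | hY <;> rw [hX, hY] at hW this <;> linarith

lemma SQ.U_ge (h : SQ t r X Y x y e) (ht : 3 ≤ t) : 71 / 1440 ≤ Uf t e := by
  rcases Nat.lt_or_ge t 4 with h1 | h1
  · have : t = 3 := by omega
    subst this
    rw [h.U3]; norm_num
  · exact h.U4 h1

theorem SQ.false_third (h : SQ t r X Y x y e) (ht : 3 ≤ t) (hr : 3 ≤ r) (hX : X = 1 / 3) : False := by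
  have hYp := h.Ypos
  have hYl := h.Yle
  have f0 := h.f0_upper
  have p3 := pw3 ht
  have hU := h.U_ge ht
  have hW : 7 / 16 ≤ Wf r X Y := by
    unfold Wf
    have := pw1 (n := r) (by omega)
    rw [hX]
    nlinarith
  have g0 := h.gg_ge1 (j := 0) (by omega)
  have g1 := h.gg_ge1 (j := 1) (by omega)
  have g2 := h.gg_ge0 (j := 2) (by omega)
  have f0' : ff x e t 0 ≤ 1 / 4 := by
    unfold ff
    simp only [pow_zero, one_mul, Nat.sub_zero]
    rw [hX] at f0
    linarith
  have := h.D0 (s02 := 1 / 3) (s11 := 1 / 3) (s20 := 1 / 3) (c := 1 / 2) (by norm_num) (by norm_num)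
    (by norm_num) (by norm_num) (fun _ => by linarith) (by linarith [h.ff_le 1])
    (by linarith [h.ff_le 2]) (fun j hj => by have := h.gg_ge0 hj; linarith)
  have h5 : 7 / 16 * (71 / 1440) ≤ Wf r X Y * Uf t e :=
    mul_le_mul hW hU (by norm_num) (by linarith)
  linarith

/-- data of one side in the critical case. -/
lemma SQ.side (h : SQ t r X Y x y e) (ht : 3 ≤ t) (hr : 3 ≤ r) (hX : X = 2 / 3) (hY : Y = 2 / 3) :
    Wf r X Y * Uf t e ≤ ((if r = 3 then 13 / 192 else 1 / 192)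
      + 2 * max (ff x e t 1 - gg y (t + 1 + r) e t 1) 0
      + 2 * max (ff x e t 2 - gg y (t + 1 + r) e t 0) 0) / 64 + 1 / 3 * (77 / 14400) := by
  have p3 := pw3 ht
  refine h.D0 (by split_ifs <;> norm_num) (by positivity) (by positivity) (by norm_num) ?_ ?_ ?_ ?_
  · intro _
    have f0 : ff x e t 0 ≤ 1 / 5 - (-(1 / 4)) ^ t * ((4 / 5 - X) / 4) := by
      have := h.f0_upper
      unfold ff
      simpa using this
    rw [hX] at f0
    have g2 := h.gg_ge (j := 2) (by omega)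
    rw [hY] at g2
    split_ifs with h3
    · subst h3
      norm_num at g2 ⊢
      linarith
    · have h4 := pw1 (n := r - 1 - 2) (by omega)
      linarith
  · have := le_max_left (ff x e t 1 - gg y (t + 1 + r) e t 1) 0
    linarith
  · have := le_max_left (ff x e t 2 - gg y (t + 1 + r) e t 0) 0
    linarith
  · intro j hj
    have := h.gg_ge0 hj
    rw [hY] at this
    linarith

lemma SQ.prod (h : SQ t r X Y x y e) (ht : 3 ≤ t) (hr : 3 ≤ r) (hX : X = 2 / 3) (hY : Y = 2 / 3) :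
    (if r = 3 then 13 / 96 else 17 / 128) * (if t = 3 then 7 / 128 else 71 / 1440) ≤ Wf r X Y * Uf t e := by
  have hW : (if r = 3 then 13 / 96 else 17 / 128) ≤ Wf r X Y := by
    unfold Wf
    rw [hX, hY]
    split_ifs with h3
    · subst h3; norm_num
    · have := pw4 (n := r) (by omega)
      linarith
  have hU : (if t = 3 then 7 / 128 else 71 / 1440) ≤ Uf t e := by
    split_ifs with h3
    · subst h3; rw [h.U3]
    · exact h.U4 (by omega)
  have hW0 : (0 : ℝ) ≤ (if r = 3 then 13 / 96 else 17 / 128) := by split_ifs <;> norm_num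
  refine mul_le_mul hW hU ?_ (hW0.trans hW)
  split_ifs <;> norm_num

theorem SQ.false_crit (h : SQ t r X Y x y e) (ht : 3 ≤ t) (hr : 3 ≤ r) (hX : X = 2 / 3)
    (hY : Y = 2 / 3) : False := by
  have h1 := h.side ht hr hX hY
  have h2 := h.mir.side hr ht hY hX
  have h3 := h.prod ht hr hX hY
  have h4 := h.mir.prod hr ht hY hX
  rw [h.ff_mir (α := 0) (by omega), h.ff_mir (α := 1) (by omega), h.gg_mir (j := 0) (by omega),
    h.gg_mir (j := 1) (by omega)] at h2
  have a1 := h.ff_le 1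
  have a2 := h.ff_le 2
  have b1 := h.gg_ge1 (j := 0) (by omega)
  have b2 := h.gg_ge1 (j := 1) (by omega)
  have c1 := h.mir.ff_le 1
  have c2 := h.mir.ff_le 2
  have d1 := h.mir.gg_ge1 (j := 0) (by omega)
  have d2 := h.mir.gg_ge1 (j := 1) (by omega)
  rw [h.ff_mir (α := 0) (by omega)] at c1
  rw [h.ff_mir (α := 1) (by omega)] at c2
  rw [h.gg_mir (j := 0) (by omega)] at d1
  rw [h.gg_mir (j := 1) (by omega)] at d2
  rw [hY] at b1 b2
  rw [hX] at d1 d2
  simp only [zero_add, Nat.reduceAdd] at *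
  set F1 := ff x e t 1
  set F2 := ff x e t 2
  set G1 := gg y (t + 1 + r) e t 0
  set G2 := gg y (t + 1 + r) e t 1
  have m1 : max (F1 - G2) 0 + max (G2 - F1) 0 ≤ 13 / 96 := by
    rcases le_total F1 G2 with hh | hh
    · rw [max_eq_right (by linarith), max_eq_left (by linarith)]; linarith
    · rw [max_eq_left (by linarith), max_eq_right (by linarith)]; linarith
  have m2 : max (F2 - G1) 0 + max (G1 - F2) 0 ≤ 13 / 96 := by
    rcases le_total F2 G1 with hh | hh
    · rw [max_eq_right (by linarith), max_eq_left (by linarith)]; linarith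
    · rw [max_eq_left (by linarith), max_eq_right (by linarith)]; linarith
  by_cases t3 : t = 3 <;> by_cases r3 : r = 3 <;> simp only [t3, r3, if_true, if_false] at h1 h2 h3 h4 <;>
    linarith

theorem SQ.false (h : SQ t r X Y x y e) : False := by
  have ht := h.ht
  have hr := h.hr
  rcases Nat.lt_or_ge t 3 with h1 | h1
  · have : t = 2 := by omega
    subst this
    exact h.false2
  rcases Nat.lt_or_ge r 3 with h2 | h2
  · have : r = 2 := by omega
    subst this
    exact h.mir.false2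
  rcases h.hX with hX | hX
  · exact h.false_third h1 h2 hX
  rcases h.hY with hY | hY
  · exact h.mir.false_third h2 h1 hY
  exact h.false_crit h1 h2 hX hY

end SQ

/-- the upward case. -/
lemma nsq_up {x y : ℝ} (hx : |x| = 1 / 3 ∨ |x| = 2 / 3) (hy : |y| = 1 / 3 ∨ |y| = 2 / 3)
    {m : ℕ} {e : Rel} (he : IsMax (1 / 4) m x y e) {t : ℕ} (ht : 1 ≤ t)
    (htm : t + 1 < m) (h0 : e (t - 1) t = e t (t + 1)) (h1 : e (t - 1) t = false) : False := by
  have hx' : |x| ≤ kap (1 / 4) := by rw [kap4]; rcases hx with h | h <;> rw [h]; norm_num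
  have hy' : |y| ≤ kap (1 / 4) := by rw [kap4]; rcases hy with h | h <;> rw [h]; norm_num
  obtain ⟨h2t, htm2, halt, hsx, hsy⟩ := one_slope (by norm_num) le_rfl hx' hy' he ht htm h0
  obtain ⟨r, rfl⟩ : ∃ r, m = t + 1 + r := ⟨m - (t + 1), by omega⟩
  have el' : ∀ d, d < t → sg (e (t - 1 - d) (t - 1 - d + 1)) = (-1) ^ (d + 1) := by
    intro d
    induction d with
    | zero =>
      intro _
      have : t - 1 - 0 + 1 = t := by omega
      rw [this, Nat.sub_zero, h1]; simp
    | succ d ih =>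
      intro hd
      have h3 := halt (t - 1 - d) (by omega) (by omega) (by omega)
      have h4 : t - 1 - (d + 1) = t - 1 - d - 1 := by omega
      have h5 : t - 1 - d - 1 + 1 = t - 1 - d := by omega
      rw [h4, h5, pow_succ, ← ih (by omega), sg_ne h3]; ring
  have el : ∀ i < t, sg (e i (i + 1)) = (-1) ^ (t - i) := by
    intro i hi
    have := el' (t - 1 - i) (by omega)
    have h4 : t - 1 - (t - 1 - i) = i := by omega
    have h5 : t - 1 - i + 1 = t - i := by omega
    rw [h4, h5] at this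
    exact this
  have er : ∀ j < r, sg (e (t + j) (t + j + 1)) = -(-1) ^ j := by
    intro j
    induction j with
    | zero =>
      intro _
      rw [Nat.add_zero, ← h0, h1]; simp
    | succ j ih =>
      intro hj
      have h3 := halt (t + (j + 1)) (by omega) (by omega) (by omega)
      have h4 : t + (j + 1) - 1 = t + j := by omega
      rw [h4] at h3
      have h5 := ih (by omega)
      rw [show t + j + 1 = t + (j + 1) by ring] at h5
      rw [sg_ne h3, h5, pow_succ]; ring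
  have hX : x = (-1) ^ t * |x| := by
    have h3 := el 0 (by omega)
    simp only [Nat.sub_zero, zero_add] at h3
    rw [h3] at hsx
    rcases neg_one_pow_or t with h4 | h4 <;> rw [h4] at hsx ⊢
    · rw [abs_of_pos (by linarith)]; ring
    · rw [abs_of_neg (by linarith)]; ring
  have hY : y = -((-1) ^ r * |y|) := by
    have h3 := er (r - 1) (by omega)
    have h4 : t + (r - 1) = t + 1 + r - 2 := by omega
    have h5 : t + 1 + r - 2 + 1 = t + 1 + r - 1 := by omega
    rw [h4, h5] at h3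
    rw [h3] at hsy
    have h6 : (-1 : ℝ) ^ r = (-1) ^ (r - 1) * (-1) := by rw [← pow_succ]; congr 1; omega
    rw [h6]
    rcases neg_one_pow_or (r - 1) with h4 | h4 <;> rw [h4] at hsy ⊢
    · rw [abs_of_pos (by linarith)]; ring
    · rw [abs_of_neg (by linarith)]; ring
  exact (SQ.mk he h2t (by omega) hx hy hX hY el er).false

theorem no_slope_quarter {x y : ℝ} (hx : |x| = 1 / 3 ∨ |x| = 2 / 3) (hy : |y| = 1 / 3 ∨ |y| = 2 / 3)
    {m : ℕ} {e : Rel} (he : IsMax (1 / 4) m x y e) {t : ℕ} (ht : 1 ≤ t)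
    (htm : t + 1 < m) : e t (t + 1) ≠ e (t - 1) t := by
  intro h0
  rcases Bool.eq_false_or_eq_true (e (t - 1) t) with h1 | h1
  · refine nsq_up (x := -x) (y := -y) (by simpa using hx) (by simpa using hy) he.compl ht htm ?_ ?_
    · unfold compl; rw [h0]
    · unfold compl; rw [h1]; rfl
  · exact nsq_up hx hy he ht htm h0.symm h1

end Pool.Agent.RC
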