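import Pool.Agent.Work.MP_b9e699_co.BD
import Pool.Agent.Work.MP_b9e699_co.ROT

/-!
# No slopes for `q ≤ 1/16`
-/

open Finset

namespace Pool.Agent.RC

namespace NSS

section geo
variable {q : ℝ}

lemma geo_tail (hq : 0 < q) (hq1 : q < 1) (n d : ℕ) :
    ∑ j ∈ range n, (if d ≤ j then q ^ j else 0) ≤ q ^ d / (1 - q) := by
  have h1q : 0 < 1 - q := by linarith
  suffices h : ∑ j ∈ range n, (if d ≤ j then q ^ j else 0) + q ^ (max n d) / (1 - q)
      ≤ q ^ d / (1 - q) by
    have : 0 ≤ q ^ (max n d) / (1 - q) := by positivity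
    linarith
  induction n with
  | zero => simp
  | succ n ih =>
    rw [sum_range_succ]
    by_cases hd : d ≤ n
    · rw [if_pos hd]
      have h1 : max (n + 1) d = n + 1 := by omega
      have h2 : max n d = n := by omega
      rw [h1]; rw [h2] at ih
      have h3 : q ^ n + q ^ (n + 1) / (1 - q) = q ^ n / (1 - q) := by field_simp; ring
      linarith
    · rw [if_neg hd]
      have h1 : max (n + 1) d = d := by omega
      have h2 : max n d = d := by omega
      rw [h1]; rw [h2] at ih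
      linarith

lemma head_tail (hq : 0 < q) (hq1 : q < 1) {D : ℕ → ℝ} {c A : ℝ} {n : ℕ} (hn : 1 ≤ n)
    (h0 : c ≤ D 0) (hA : 0 ≤ A) (hD : ∀ i < n, - A ≤ D i) :
    q * c - A * (q ^ 2 / (1 - q)) ≤ ∑ i ∈ range n, q ^ (i + 1) * D i := by
  have h1q : 0 < 1 - q := by linarith
  have h1 : ∑ i ∈ range n, ((if i = 0 then q * c else 0) - A * q * (if 1 ≤ i then q ^ i else 0))
      ≤ ∑ i ∈ range n, q ^ (i + 1) * D i := by
    refine sum_le_sum fun i hi => ?_
    have hi := mem_range.1 hi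
    by_cases h : i = 0
    · subst h
      simp only [if_true]
      rw [if_neg (by omega)]
      have : q * c ≤ q * D 0 := mul_le_mul_of_nonneg_left h0 hq.le
      simpa using this
    · rw [if_neg h, if_pos (by omega)]
      have hp : 0 < q ^ (i + 1) := pow_pos hq _
      have := mul_le_mul_of_nonneg_left (hD i hi) hp.le
      calc 0 - A * q * q ^ i = q ^ (i + 1) * -A := by ring
        _ ≤ _ := this
  rw [sum_sub_distrib, ← mul_sum] at h1
  have h2 : ∑ i ∈ range n, (if i = 0 then q * c else 0) = q * c := by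
    rw [sum_ite_eq' (range n) 0 (fun _ => q * c)]
    rw [if_pos (mem_range.2 (by omega))]
  rw [h2] at h1
  have h3 := geo_tail hq hq1 n 1
  have h4 : A * q * ∑ i ∈ range n, (if 1 ≤ i then q ^ i else 0) ≤ A * q * (q ^ 1 / (1 - q)) :=
    mul_le_mul_of_nonneg_left h3 (by positivity)
  have h5 : A * q * (q ^ 1 / (1 - q)) = A * (q ^ 2 / (1 - q)) := by ring
  linarith

/-- `∑_{j<n} (-q)^j + (-q)^n Y`. -/
noncomputable def Sf (q Y : ℝ) (n : ℕ) : ℝ := ∑ j ∈ range n, (-q) ^ j + (-q) ^ n * Y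

lemma Sf_succ (q Y : ℝ) (n : ℕ) : Sf q Y (n + 1) = 1 - q * Sf q Y n := by
  unfold Sf
  rw [sum_range_succ']
  simp only [pow_succ, pow_zero]
  rw [← sum_mul]; ring

lemma Sf_mem {Y : ℝ} (hq : 0 < q) (hq1 : q < 1) (hY0 : 0 ≤ Y) (hY1 : Y ≤ 1) (n : ℕ) :
    0 ≤ Sf q Y n ∧ Sf q Y n ≤ 1 := by
  induction n with
  | zero => simp [Sf, hY0, hY1]
  | succ n ih =>
    rw [Sf_succ]
    constructor
    · nlinarith [ih.1, ih.2]
    · nlinarith [ih.1, ih.2]

lemma Sf_ge {Y : ℝ} (hq : 0 < q) (hq1 : q < 1) (hY0 : 0 ≤ Y) (hY1 : Y ≤ 1) {n : ℕ}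
    (hn : 3 ≤ n) : 1 - q + q ^ 2 - q ^ 3 ≤ Sf q Y n := by
  obtain ⟨k, rfl⟩ : ∃ k, n = k + 3 := ⟨n - 3, by omega⟩
  rw [Sf_succ, Sf_succ, Sf_succ]
  have h := Sf_mem hq hq1 hY0 hY1 k
  have h3 : 0 < q ^ 3 := pow_pos hq 3
  nlinarith [mul_le_mul_of_nonneg_left h.2 h3.le]

end geo

/-- one cross term of the rotation inequality. -/
lemma term_le (b : Bool) {u A B : ℝ} (hu : u = 1 ∨ u = -1) (huB : u * B = |B|) :
    sg b * (A - B) - |B| + u * A ≤ 2 * max (u * A - |B|) 0 := by
  have h1 : sg b * (A - B) ≤ |A - B| := sg_mul_le_abs b _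
  have h2 : |A - B| = abs (u * A - |B|) := by
    rw [← huB, ← mul_sub, abs_mul]
    rcases hu with h | h <;> simp [h]
  rcases le_total 0 (u * A - |B|) with h | h
  · rw [max_eq_left h]
    rw [abs_of_nonneg h] at h2
    linarith
  · rw [max_eq_right h]
    rw [abs_of_nonpos h] at h2
    linarith

section signs
variable {e : Rel} {t r : ℕ}

lemma sign_right (h1 : e t (t + 1) = false)
    (halt : ∀ j, 1 ≤ j → j + 1 < t + 1 + r → j ≠ t → e j (j + 1) ≠ e (j - 1) j) :
    ∀ j, t + 1 + j + 1 < t + 1 + r → sg (e (t + 1 + j) (t + 1 + j + 1)) = (-1) ^ j := by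
  intro j
  induction j with
  | zero =>
    intro hj
    have h := halt (t + 1) (by omega) (by omega) (by omega)
    have h2 : t + 1 - 1 = t := by omega
    rw [h2, h1] at h
    have h3 : e (t + 1 + 0) (t + 1 + 0 + 1) = true := by
      simpa using h
    rw [h3]; simp
  | succ j ih =>
    intro hj
    have h := halt (t + 1 + (j + 1)) (by omega) (by omega) (by omega)
    have h2 : t + 1 + (j + 1) - 1 = t + 1 + j := by omega
    rw [h2] at h
    have h3 : t + 1 + (j + 1) = t + 1 + j + 1 := by omega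
    have h4 := ih (by omega)
    rw [h3] at h ⊢
    rw [sg_ne h, h4, pow_succ]; ring

end signs

lemma c0_pos {q : ℝ} (hq : 0 < q) (hq4 : q ≤ 1 / 4) : 0 < q * kap q := by
  unfold kap
  have : 0 < (1 - 2 * q) / (1 - q) := by apply div_pos <;> linarith
  positivity

section core
variable {q x y : ℝ} {t r : ℕ} {e : Rel}

/-- the signs of the future values behind the slope. -/
lemma future_sign (hq : 0 < q) (hq4 : q ≤ 1 / 4) (hy : |y| ≤ kap q) (hr : 2 ≤ r)
    (h1 : e t (t + 1) = false)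
    (halt : ∀ j, 1 ≤ j → j + 1 < t + 1 + r → j ≠ t → e j (j + 1) ≠ e (j - 1) j)
    (hy0 : y * sg (e (t + 1 + r - 2) (t + 1 + r - 1)) < 0) :
    (∀ j, j + 1 < r → q * kap q < (-1) ^ j * bv q y (t + 1 + r) e (t + 1 + j)) ∧
    (-1) ^ (r - 1) * y = |y| ∧
    (∀ j < r, (-1) ^ j * bv q y (t + 1 + r) e (t + 1 + j) = |bv q y (t + 1 + r) e (t + 1 + j)|) := by
  have hs := sign_right h1 halt
  have hA : ∀ j, j + 1 < r → q * kap q < (-1) ^ j * bv q y (t + 1 + r) e (t + 1 + j) := by
    intro j hj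
    have h := bv_lt (e := e) (m := t + 1 + r) (t := t + 1 + j) hq (by linarith) hy (by omega)
    rw [hs j (by omega)] at h
    exact h
  have hB : (-1) ^ (r - 1) * y = |y| := by
    have h2 : t + 1 + r - 2 = t + 1 + (r - 2) := by omega
    have h3 : t + 1 + r - 1 = t + 1 + (r - 2) + 1 := by omega
    rw [h2, h3, hs (r - 2) (by omega)] at hy0
    have h4 : r - 1 = r - 2 + 1 := by omega
    rw [h4, pow_succ]
    rcases neg_one_pow_eq_or ℝ (r - 2) with h5 | h5
    · rw [h5] at hy0 ⊢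
      have : y < 0 := by linarith
      rw [abs_of_neg this]; ring
    · rw [h5] at hy0 ⊢
      have : 0 < y := by linarith
      rw [abs_of_pos this]; ring
  refine ⟨hA, hB, ?_⟩
  intro j hj
  by_cases hj2 : j + 1 < r
  · have h := hA j hj2
    have hc := c0_pos hq hq4
    have h2 : 0 < (-1) ^ j * bv q y (t + 1 + r) e (t + 1 + j) := by linarith
    rw [← abs_of_pos h2, abs_mul]
    simp
  · have hj3 : j = r - 1 := by omega
    have h2 : t + 1 + j = t + 1 + r - 1 := by omega
    rw [h2, bv_last (by omega), hj3]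
    have : (-1) ^ (r - 1) * (q * y) = q * ((-1) ^ (r - 1) * y) := by ring
    rw [this, hB, abs_mul, abs_of_pos hq]

/-- the main factor. -/
lemma main_factor (hr : 1 ≤ r) (hB : (-1) ^ (r - 1) * y = |y|) (hx0 : 0 < x * sg (e 0 1)) :
    (∑ j ∈ range r, q ^ j * (-1) ^ j) - q ^ r * y - sg (e 0 1) * x = Sf q |y| r - |x| := by
  have h1 : sg (e 0 1) * x = |x| := by
    have : |x * sg (e 0 1)| = x * sg (e 0 1) := abs_of_pos hx0
    rw [abs_mul, abs_sg, mul_one] at this
    rw [this]; ring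
  have h2 : - (q ^ r * y) = (-q) ^ r * |y| := by
    rw [← hB]
    have h3 : (-q) ^ r = (-1) ^ r * q ^ r := by rw [neg_pow]
    obtain ⟨k, rfl⟩ : ∃ k, r = k + 1 := ⟨r - 1, by omega⟩
    have h4 : k + 1 - 1 = k := by omega
    rw [h3, h4, pow_succ (-1 : ℝ) k]
    have h5 : ((-1 : ℝ) ^ k) * (-1) ^ k = 1 := by
      rw [← pow_add, ← two_mul, pow_mul]; simp
    linear_combination (q ^ (k + 1) * y) * h5
  have h6 : ∑ j ∈ range r, q ^ j * (-1 : ℝ) ^ j = ∑ j ∈ range r, (-q) ^ j := by
    refine sum_congr rfl fun j _ => ?_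
    rw [neg_pow q j]; ring
  rw [h1, h6]
  unfold Sf
  linarith


/-- the second factor. -/
lemma second_factor (hq : 0 < q) (hq4 : q ≤ 1 / 4) (ht : 2 ≤ t) (h0 : e (t - 1) t = false) :
    2 * (q * (q * kap q) - q / (1 - q) * (q ^ 2 / (1 - q)))
      ≤ (∑ k ∈ range (t + 1), q ^ (t + 1 - k) * av q 0 e k)
        + sg (e 0 1) * ∑ k ∈ range (t + 1), q ^ (k + 1) * bv q 0 (t + 1) e k := by
  have h1q : 0 < 1 - q := by linarith
  have hA : 0 ≤ q / (1 - q) := by positivity
  have hk0 : |(0 : ℝ)| ≤ kap q := by rw [abs_zero]; exact kap_nonneg (by linarith)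
  have h1 : q * (q * kap q) - q / (1 - q) * (q ^ 2 / (1 - q))
      ≤ ∑ k ∈ range (t + 1), q ^ (t + 1 - k) * av q 0 e k := by
    rw [← sum_range_reflect (fun k => q ^ (t + 1 - k) * av q 0 e k) (t + 1)]
    have h2 : ∀ i ∈ range (t + 1), q ^ (t + 1 - (t + 1 - 1 - i)) * av q 0 e (t + 1 - 1 - i)
        = q ^ (i + 1) * av q 0 e (t - i) := by
      intro i hi
      have hi := mem_range.1 hi
      have h3 : t + 1 - (t + 1 - 1 - i) = i + 1 := by omega
      have h4 : t + 1 - 1 - i = t - i := by omega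
      rw [h3, h4]
    rw [sum_congr rfl h2]
    apply head_tail hq (by linarith) (by omega) _ hA
    · intro i _
      have := abs_av_le (e := e) (x := 0) (t := t - i) hq (by linarith) (by simp)
      exact neg_le_of_abs_le this
    · simp only [Nat.sub_zero]
      exact (av_pos (x := 0) hq (by linarith) hk0 (by omega) h0).le
  have h5 : q * (q * kap q) - q / (1 - q) * (q ^ 2 / (1 - q))
      ≤ sg (e 0 1) * ∑ k ∈ range (t + 1), q ^ (k + 1) * bv q 0 (t + 1) e k := by
    rw [mul_sum]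
    have h6 : ∀ k ∈ range (t + 1), sg (e 0 1) * (q ^ (k + 1) * bv q 0 (t + 1) e k)
        = q ^ (k + 1) * (sg (e 0 1) * bv q 0 (t + 1) e k) := fun k _ => by ring
    rw [sum_congr rfl h6]
    apply head_tail hq (by linarith) (by omega) _ hA
    · intro i hi
      have := abs_bv_le (e := e) (y := 0) (m := t + 1) (t := i) hq (by linarith) (by simp) hi
      have h7 : |sg (e 0 1) * bv q 0 (t + 1) e i| ≤ q / (1 - q) := by
        rw [abs_mul, abs_sg, one_mul]; exact this
      exact neg_le_of_abs_le h7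
    · exact (bv_lt (e := e) (y := 0) (m := t + 1) (t := 0) hq (by linarith) hk0 (by omega)).le
  linarith

lemma sum_ite_two {c : ℝ} (hc : 0 ≤ c) (n : ℕ) :
    ∑ a ∈ range n, (if a < 2 then c else 0) ≤ 2 * c := by
  rw [← sum_filter, sum_const, nsmul_eq_mul]
  have h : ((range n).filter (· < 2)).card ≤ 2 := by
    have : (range n).filter (· < 2) ⊆ range 2 := by
      intro a ha
      exact mem_range.2 (mem_filter.1 ha).2
    simpa using card_le_card this
  have : (((range n).filter (· < 2)).card : ℝ) ≤ 2 := by exact_mod_cast h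
  exact mul_le_mul_of_nonneg_right this hc

/-- the cross terms. -/
lemma cross_bound (hq : 0 < q) (hq4 : q ≤ 1 / 4) (hx : |x| ≤ kap q) (ht : 2 ≤ t) (hr : 3 ≤ r)
    (h0 : e (t - 1) t = false) (h1 : e t (t + 1) = false) (h2 : e (t - 2) (t - 1) = true)
    (hF1 : ∀ j, j + 1 < r → q * kap q < (-1) ^ j * bv q y (t + 1 + r) e (t + 1 + j))
    (hF2 : ∀ j < r, (-1) ^ j * bv q y (t + 1 + r) e (t + 1 + j)
      = |bv q y (t + 1 + r) e (t + 1 + j)|) :
    ∑ k ∈ range (t + 1), ∑ j ∈ range r, q ^ (t + 1 - k + j) *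
          (sg (e k (t + 1 + j)) * (av q x e k - bv q y (t + 1 + r) e (t + 1 + j))
            - |bv q y (t + 1 + r) e (t + 1 + j)| + (-1) ^ j * av q x e k)
      ≤ 2 * (q / (1 - q) - q * kap q) / (1 - q) * (2 * q ^ 3 + q * (q ^ 2 / (1 - q)))
        + 2 * (q / (1 - q)) * q ^ 3 * (1 / (1 - q)) := by
  have h1q : 0 < 1 - q := by linarith
  have hq1 : q < 1 := by linarith
  set A := q / (1 - q) with hA
  set c := q * kap q with hc
  have hA0 : 0 ≤ A := by positivity
  have hcA : c ≤ A := by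
    rw [hA, hc]
    calc q * kap q ≤ q * 1 := mul_le_mul_of_nonneg_left (kap_le_one hq hq1) hq.le
      _ ≤ q / (1 - q) := by rw [mul_one, le_div_iff₀ h1q]; nlinarith
  set M := 2 * (A - c) with hM
  have hM0 : 0 ≤ M := by rw [hM]; linarith
  have hcpos : 0 < c := c0_pos hq hq4
  have hx1 : |x| ≤ 1 := hx.trans (kap_le_one hq hq1)
  have hAt : 0 < av q x e t :=
    lt_trans hcpos (av_pos hq (by linarith) hx (by omega) h0)
  have hAt1 : av q x e (t - 1) < 0 := by
    have h3 : t - 1 - 1 = t - 2 := by omega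
    have := av_neg (e := e) (x := x) (t := t - 1) hq (by linarith) hx (by omega) (by rw [h3]; exact h2)
    linarith
  -- reflect the outer sum
  rw [← sum_range_reflect (fun k => ∑ j ∈ range r, q ^ (t + 1 - k + j) *
          (sg (e k (t + 1 + j)) * (av q x e k - bv q y (t + 1 + r) e (t + 1 + j))
            - |bv q y (t + 1 + r) e (t + 1 + j)| + (-1) ^ j * av q x e k)) (t + 1)]
  -- pointwise bound
  have hpt : ∀ a ∈ range (t + 1), ∀ j ∈ range r,
      q ^ (t + 1 - (t + 1 - 1 - a) + j) *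
          (sg (e (t + 1 - 1 - a) (t + 1 + j)) *
              (av q x e (t + 1 - 1 - a) - bv q y (t + 1 + r) e (t + 1 + j))
            - |bv q y (t + 1 + r) e (t + 1 + j)| + (-1) ^ j * av q x e (t + 1 - 1 - a))
        ≤ M * q ^ (a + 1) * (if 2 - a ≤ j then q ^ j else 0)
          + (if j = r - 1 then 2 * A * q ^ r * q ^ a else 0) := by
    intro a ha j hj
    have ha := mem_range.1 ha
    have hj := mem_range.1 hj
    have e1 : t + 1 - (t + 1 - 1 - a) + j = a + j + 1 := by omega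
    have e2 : t + 1 - 1 - a = t - a := by omega
    rw [e1, e2]
    set Ak := av q x e (t - a) with hAk
    set Bj := bv q y (t + 1 + r) e (t + 1 + j) with hBj
    have hpow : 0 < q ^ (a + j + 1) := pow_pos hq _
    have hsecond : 0 ≤ (if j = r - 1 then 2 * A * q ^ r * q ^ a else 0) := by
      split_ifs
      · positivity
      · exact le_rfl
    by_cases hs : 2 - a ≤ j
    · rw [if_pos hs]
      have hterm := term_le (e (t - a) (t + 1 + j)) (u := (-1) ^ j) (A := Ak) (B := Bj)
        (neg_one_pow_eq_or ℝ j) (hF2 j hj)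
      have hAk1 : (-1) ^ j * Ak ≤ A := by
        have h3 : |(-1) ^ j * Ak| ≤ A := by
          rw [abs_mul]; simp only [abs_pow, abs_neg, abs_one, one_pow, one_mul]
          exact abs_av_le hq hq1 hx1
        exact le_of_abs_le h3
      by_cases hj2 : j + 1 < r
      · have h4 := hF1 j hj2
        rw [hF2 j hj] at h4
        have h5 : 2 * max ((-1) ^ j * Ak - |Bj|) 0 ≤ M := by
          rw [hM]
          apply mul_le_mul_of_nonneg_left _ (by norm_num)
          apply max_le <;> linarith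
        rw [if_neg (by omega)]
        calc q ^ (a + j + 1) * _ ≤ q ^ (a + j + 1) * M :=
              mul_le_mul_of_nonneg_left (hterm.trans h5) hpow.le
          _ = M * q ^ (a + 1) * q ^ j + 0 := by ring
      · have hjr : j = r - 1 := by omega
        rw [if_pos hjr]
        have h5 : 2 * max ((-1) ^ j * Ak - |Bj|) 0 ≤ 2 * A := by
          apply mul_le_mul_of_nonneg_left _ (by norm_num)
          apply max_le
          · linarith [abs_nonneg Bj]
          · exact hA0
        have h6 : a + j + 1 = r + a := by omega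
        have h7 : 0 ≤ M * q ^ (a + 1) * q ^ j := by positivity
        calc q ^ (a + j + 1) * _ ≤ q ^ (a + j + 1) * (2 * A) :=
              mul_le_mul_of_nonneg_left (hterm.trans h5) hpow.le
          _ = 2 * A * q ^ r * q ^ a := by rw [h6, pow_add]; ring
          _ ≤ _ := by linarith
    · rw [if_neg hs]
      -- the pairs (0,0), (1,0), (0,1)
      have hz : sg (e (t - a) (t + 1 + j)) * (Ak - Bj) - |Bj| + (-1) ^ j * Ak ≤ 0 := by
        have hcases : (a = 0 ∧ j = 0) ∨ (a = 1 ∧ j = 0) ∨ (a = 0 ∧ j = 1) := by omega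
        rcases hcases with ⟨rfl, rfl⟩ | ⟨rfl, rfl⟩ | ⟨rfl, rfl⟩
        · have h3 := hF2 0 hj
          rw [← h3]
          simp only [Nat.sub_zero, add_zero, pow_zero, one_mul] at *
          rw [h1, sg_false]
          apply le_of_eq; ring
        · have hterm := term_le (e (t - 1) (t + 1 + 0)) (u := (-1) ^ 0) (A := Ak) (B := Bj)
            (neg_one_pow_eq_or ℝ 0) (hF2 0 hj)
          have h4 : (-1) ^ 0 * Ak - |Bj| ≤ 0 := by
            rw [pow_zero, one_mul]
            linarith [abs_nonneg Bj]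
          rw [max_eq_right h4, mul_zero] at hterm
          exact hterm
        · have hterm := term_le (e (t - 0) (t + 1 + 1)) (u := (-1) ^ 1) (A := Ak) (B := Bj)
            (neg_one_pow_eq_or ℝ 1) (hF2 1 hj)
          have h5 : 0 < Ak := hAt
          have h4 : (-1) ^ 1 * Ak - |Bj| ≤ 0 := by
            rw [pow_one]
            linarith [abs_nonneg Bj]
          rw [max_eq_right h4, mul_zero] at hterm
          exact hterm
      have : q ^ (a + j + 1) * (sg (e (t - a) (t + 1 + j)) * (Ak - Bj) - |Bj| + (-1) ^ j * Ak) ≤ 0 :=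
        mul_nonpos_of_nonneg_of_nonpos hpow.le hz
      linarith
  have hsum := sum_le_sum fun a ha => sum_le_sum fun j hj => hpt a ha j hj
  refine hsum.trans ?_
  have hrow : ∀ a ∈ range (t + 1), ∑ j ∈ range r, (M * q ^ (a + 1) * (if 2 - a ≤ j then q ^ j else 0)
          + (if j = r - 1 then 2 * A * q ^ r * q ^ a else 0))
      ≤ M / (1 - q) * ((if a < 2 then q ^ 3 else 0) + q * (if 2 ≤ a then q ^ a else 0))
        + 2 * A * q ^ 3 * (if 0 ≤ a then q ^ a else 0) := by
    intro a _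
    rw [sum_add_distrib, ← mul_sum]
    have h3 := geo_tail hq hq1 r (2 - a)
    have h4 : M * q ^ (a + 1) * ∑ j ∈ range r, (if 2 - a ≤ j then q ^ j else 0)
        ≤ M * q ^ (a + 1) * (q ^ (2 - a) / (1 - q)) :=
      mul_le_mul_of_nonneg_left h3 (by positivity)
    have h5 : q ^ (a + 1) * q ^ (2 - a)
        = (if a < 2 then q ^ 3 else 0) + q * (if 2 ≤ a then q ^ a else 0) := by
      rw [← pow_add]
      by_cases ha2 : a < 2
      · rw [if_pos ha2, if_neg (by omega)]
        have : a + 1 + (2 - a) = 3 := by omega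
        rw [this]; ring
      · rw [if_neg ha2, if_pos (by omega)]
        have : a + 1 + (2 - a) = a + 1 := by omega
        rw [this]; ring
    have h6 : M * q ^ (a + 1) * (q ^ (2 - a) / (1 - q))
        = M / (1 - q) * ((if a < 2 then q ^ 3 else 0) + q * (if 2 ≤ a then q ^ a else 0)) := by
      rw [← h5]; ring
    have h7 : ∑ j ∈ range r, (if j = r - 1 then 2 * A * q ^ r * q ^ a else 0)
        = 2 * A * q ^ r * q ^ a := by
      rw [sum_ite_eq' (range r) (r - 1) (fun _ => 2 * A * q ^ r * q ^ a)]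
      rw [if_pos (mem_range.2 (by omega))]
    have h8 : 2 * A * q ^ r * q ^ a ≤ 2 * A * q ^ 3 * (if 0 ≤ a then q ^ a else 0) := by
      rw [if_pos (Nat.zero_le a)]
      have : q ^ r ≤ q ^ 3 := pow_le_pow_of_le_one hq.le hq1.le hr
      have h9 : 0 ≤ 2 * A * q ^ a := by positivity
      nlinarith [mul_le_mul_of_nonneg_left this h9]
    rw [h7]
    linarith
  refine (sum_le_sum hrow).trans ?_
  rw [sum_add_distrib, ← mul_sum, ← mul_sum, sum_add_distrib, ← mul_sum]
  have g1 := sum_ite_two (c := q ^ 3) (by positivity) (t + 1)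
  have g2 := geo_tail hq hq1 (t + 1) 2
  have g3 := geo_tail hq hq1 (t + 1) 0
  rw [pow_zero] at g3
  have g4 : 0 ≤ M / (1 - q) := by positivity
  have g5 : (∑ a ∈ range (t + 1), (if a < 2 then q ^ 3 else 0))
      + q * ∑ a ∈ range (t + 1), (if 2 ≤ a then q ^ a else 0)
      ≤ 2 * q ^ 3 + q * (q ^ 2 / (1 - q)) := by
    have := mul_le_mul_of_nonneg_left g2 hq.le
    linarith
  have g6 := mul_le_mul_of_nonneg_left g5 g4
  have g7 := mul_le_mul_of_nonneg_left g3 (show 0 ≤ 2 * A * q ^ 3 by positivity)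
  linarith

/-- final numerical inequality for `q ≤ 1/16`. -/
lemma numeric_small (hq : 0 < q) (hq16 : q ≤ 1 / 16) {W U N : ℝ}
    (hW : (1 - q + q ^ 2 - q ^ 3) - kap q ≤ W)
    (hU : 2 * (q * (q * kap q) - q / (1 - q) * (q ^ 2 / (1 - q))) ≤ U)
    (hN : N ≤ 2 * (q / (1 - q) - q * kap q) / (1 - q) * (2 * q ^ 3 + q * (q ^ 2 / (1 - q)))
        + 2 * (q / (1 - q)) * q ^ 3 * (1 / (1 - q))) : N < W * U := by
  have h1q : 0 < 1 - q := by linarith
  have hd : (1 - q) ≠ 0 := h1q.ne'
  set z := q / (1 - q) with hz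
  have hz1 : z ≤ 16 / 15 * q := by
    rw [hz, div_le_iff₀ h1q]; nlinarith
  have hz0 : 0 < z := by positivity
  -- W ≥ 2 q^2
  have hW2 : 2 * q ^ 2 ≤ W := by
    have : (1 - q + q ^ 2 - q ^ 3) - kap q = q ^ 2 * ((1 - q) + 1 / (1 - q)) := by
      unfold kap; field_simp; ring
    rw [this] at hW
    have h2 : 2 ≤ (1 - q) + 1 / (1 - q) := by
      rw [← sub_nonneg]
      have : (1 - q) + 1 / (1 - q) - 2 = q ^ 2 / (1 - q) := by field_simp; ring
      rw [this]; positivity
    have := mul_le_mul_of_nonneg_left h2 (sq_nonneg q)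
    linarith
  have hU2 : 2 * (q ^ 2 * (1 - 4 * q + 2 * q ^ 2) / (1 - q) ^ 2) ≤ U := by
    have : 2 * (q * (q * kap q) - q / (1 - q) * (q ^ 2 / (1 - q)))
        = 2 * (q ^ 2 * (1 - 4 * q + 2 * q ^ 2) / (1 - q) ^ 2) := by
      unfold kap; field_simp; ring
    rw [← this]; exact hU
  have hN2 : N ≤ q ^ 4 / (1 - q) ^ 2 * (8 * q + 4 * z + 2) := by
    refine hN.trans (le_of_eq ?_)
    rw [hz]; unfold kap; field_simp; ring
  have hpos : 0 < q ^ 4 / (1 - q) ^ 2 := by positivity
  have hkey : 8 * q + 4 * z + 2 < 4 * (1 - 4 * q + 2 * q ^ 2) := by nlinarith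
  have hU0 : 0 ≤ U := by
    refine le_trans ?_ hU2
    have : 0 ≤ 1 - 4 * q + 2 * q ^ 2 := by nlinarith
    positivity
  calc N ≤ q ^ 4 / (1 - q) ^ 2 * (8 * q + 4 * z + 2) := hN2
    _ < q ^ 4 / (1 - q) ^ 2 * (4 * (1 - 4 * q + 2 * q ^ 2)) := mul_lt_mul_of_pos_left hkey hpos
    _ = 2 * q ^ 2 * (2 * (q ^ 2 * (1 - 4 * q + 2 * q ^ 2) / (1 - q) ^ 2)) := by ring
    _ ≤ 2 * q ^ 2 * U := mul_le_mul_of_nonneg_left hU2 (by positivity)
    _ ≤ W * U := mul_le_mul_of_nonneg_right hW2 hU0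

end core

end NSS

end Pool.Agent.RC
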