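import Pool.Agent.Work.MP_b9e699_co.NSS

/-!
# No slopes for `q ≤ 1/16`: conclusion (given `one_slope`)
-/

open Finset

namespace Pool.Agent.RC

namespace NSS

section core
variable {q x y : ℝ} {t r m : ℕ} {e : Rel}

theorem core_small (hq : 0 < q) (hq16 : q ≤ 1 / 16) (hx : |x| ≤ kap q) (hy : |y| ≤ kap q)
    (ht : 2 ≤ t) (hr : 3 ≤ r) (he : IsMax q (t + 1 + r) x y e)
    (h0 : e (t - 1) t = false) (h1 : e t (t + 1) = false)
    (halt : ∀ j, 1 ≤ j → j + 1 < t + 1 + r → j ≠ t → e j (j + 1) ≠ e (j - 1) j)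
    (hx0 : 0 < x * sg (e 0 1)) (hy0 : y * sg (e (t + 1 + r - 2) (t + 1 + r - 1)) < 0) : False := by
  have hq4 : q ≤ 1 / 4 := by linarith
  have hq1 : q < 1 := by linarith
  obtain ⟨hF1, hB, hF2⟩ := future_sign hq hq4 hy (by omega) h1 halt hy0
  have h2 : e (t - 2) (t - 1) = true := by
    have h := halt (t - 1) (by omega) (by omega) (by omega)
    have e1 : t - 1 + 1 = t := by omega
    have e2 : t - 1 - 1 = t - 2 := by omega
    rw [e1, e2, h0] at h
    cases hh : e (t - 2) (t - 1)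
    · rw [hh] at h; exact absurd rfl h
    · rfl
  obtain ⟨e', he'⟩ := rotation (q := q) (x := x) (y := y) (p := t + 1) (r := r) (e := e) hq
    (by omega) (e 0 1) (fun j => (-1) ^ j) hF2 (by intro j _; simp)
  have hmax := he e'
  have hmf := main_factor (q := q) (x := x) (y := y) (r := r) (e := e) (by omega) hB hx0
  have hsf := second_factor hq hq4 ht h0
  have hcb := cross_bound (y := y) (r := r) hq hq4 hx ht hr h0 h1 h2 hF1 hF2
  have hW : (1 - q + q ^ 2 - q ^ 3) - kap q ≤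
      (∑ j ∈ range r, q ^ j * (-1) ^ j) - q ^ r * y - sg (e 0 1) * x := by
    rw [hmf]
    have := Sf_ge hq hq1 (abs_nonneg y) (hy.trans (kap_le_one hq hq1)) hr
    linarith
  have := numeric_small hq hq16 hW hsf hcb
  linarith

lemma complCompl (e : Rel) : compl (compl e) = e := by
  funext i j; simp [compl]

lemma isMaxCompl (he : IsMax q m x y e) : IsMax q m (-x) (-y) (compl e) := by
  intro e'
  rw [F_compl]
  have h := F_compl q m x y (compl e')
  rw [complCompl] at h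
  rw [h]
  exact he _

lemma revRevAgree (e : Rel) : Agree m (rev m (rev m e)) e := by
  intro i j hi hj
  unfold rev
  have h1 : m - 1 - (m - 1 - i) = i := by omega
  have h2 : m - 1 - (m - 1 - j) = j := by omega
  rw [h1, h2]; simp

lemma isMaxRev (he : IsMax q m x y e) : IsMax q m y x (rev m e) := by
  intro e'
  rw [F_rev]
  have h := F_rev q m x y (rev m e')
  rw [F_congr (revRevAgree e')] at h
  rw [h]
  exact he _

theorem core_small' (hq : 0 < q) (hq16 : q ≤ 1 / 16) (hx : |x| ≤ kap q) (hy : |y| ≤ kap q)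
    (ht : 2 ≤ t) (hm : t + 4 ≤ m) (he : IsMax q m x y e)
    (h0 : e (t - 1) t = e t (t + 1))
    (halt : ∀ j, 1 ≤ j → j + 1 < m → j ≠ t → e j (j + 1) ≠ e (j - 1) j)
    (hx0 : 0 < x * sg (e 0 1)) (hy0 : y * sg (e (m - 2) (m - 1)) < 0) : False := by
  obtain ⟨r, rfl⟩ : ∃ r, m = t + 1 + r := ⟨m - (t + 1), by omega⟩
  cases h : e t (t + 1)
  · rw [h] at h0
    exact core_small hq hq16 hx hy ht (by omega) he h0 h halt hx0 hy0
  · rw [h] at h0
    refine core_small (x := -x) (y := -y) (e := compl e) hq hq16 (by rwa [abs_neg])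
      (by rwa [abs_neg]) ht (by omega) (isMaxCompl he) ?_ ?_ ?_ ?_ ?_
    · simp [compl, h0]
    · simp [compl, h]
    · intro j hj1 hj2 hj3 hc
      apply halt j hj1 hj2 hj3
      simpa [compl] using hc
    · simp only [compl, sg_not]; linarith
    · simp only [compl, sg_not]; linarith

/-- the case `m = 5` (any `q ≤ 1/4`). -/
theorem core_five (hq : 0 < q) (hq4 : q ≤ 1 / 4) (hx : |x| ≤ kap q) (hy : |y| ≤ kap q)
    (he : IsMax q (2 + 1 + 2) x y e)
    (h12 : e 1 2 = false) (h23 : e 2 3 = false) (h01 : e 0 1 = true)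
    (halt : ∀ j, 1 ≤ j → j + 1 < 2 + 1 + 2 → j ≠ 2 → e j (j + 1) ≠ e (j - 1) j)
    (hx0 : 0 < x * sg (e 0 1)) (hy0 : y * sg (e (2 + 1 + 2 - 2) (2 + 1 + 2 - 1)) < 0) : False := by
  have hq1 : q < 1 := by linarith
  have h1q : 0 < 1 - q := by linarith
  obtain ⟨hF1, hB, hF2⟩ := future_sign (t := 2) (r := 2) hq hq4 hy (by omega) h23 halt hy0
  obtain ⟨e', he'⟩ := rotation (q := q) (x := x) (y := y) (p := 2 + 1) (r := 2) (e := e) hq
    (by omega) (e 0 1) (fun j => (-1) ^ j) hF2 (by intro j _; simp)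
  have hmax := he e'
  have hmf := main_factor (q := q) (x := x) (y := y) (r := 2) (e := e) (by omega) hB hx0
  rw [hmf] at he'
  have hx1 : 0 < x := by rw [h01] at hx0; simpa using hx0
  have hU : (∑ k ∈ range (2 + 1), q ^ (2 + 1 - k) * av q 0 e k)
      + sg (e 0 1) * ∑ k ∈ range (2 + 1), q ^ (k + 1) * bv q 0 (2 + 1) e k
      = 2 * q ^ 2 - 2 * q ^ 3 := by
    have b0 : bv q 0 (2 + 1) e 0 = q * sg (e 0 1) + q ^ 2 * sg (e 0 2) := by
      simp [bv, sum_Ico_eq_sum_range, sum_range_succ]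
    have b1 : bv q 0 (2 + 1) e 1 = q * sg (e 1 2) := by
      simp [bv]
    have b2 : bv q 0 (2 + 1) e 2 = 0 := by
      simp [bv]
    have a0 : av q 0 e 0 = 0 := by simp [av]
    have a1 : av q 0 e 1 = - (q * sg (e 0 1)) := by simp [av]
    have a2 : av q 0 e 2 = - (q ^ 2 * sg (e 0 2) + q * sg (e 1 2)) := by
      simp [av, sum_range_succ]
    rw [sum_range_succ, sum_range_succ, sum_range_succ, sum_range_succ, sum_range_succ,
      sum_range_succ, sum_range_zero, sum_range_zero, b0, b1, b2, a0, a1, a2, h01, h12]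
    simp only [sg_true, sg_false]
    norm_num
    ring
  rw [hU] at he'
  -- the cross terms
  have hc := c0_pos hq hq4
  have hA2 : 0 < av q x e 2 := lt_trans hc (av_pos hq (by linarith) hx (by omega) h12)
  have hA1 : av q x e 1 = q ^ 2 * x - q := by simp [av, h01]
  have hA0 : av q x e 0 = q * x := av_zero
  have hB1 : |bv q y (2 + 1 + 2) e (2 + 1 + 1)| = q * |y| := by
    have h : bv q y (2 + 1 + 2) e (2 + 1 + 2 - 1) = q * y := bv_last (by omega)
    have h' : bv q y (2 + 1 + 2) e (2 + 1 + 1) = q * y := h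
    rw [h', abs_mul, abs_of_pos hq]
  have hB0 : q * kap q < |bv q y (2 + 1 + 2) e (2 + 1 + 0)| := by
    rw [← hF2 0 (by omega)]; exact hF1 0 (by omega)
  have hxk : x ≤ kap q := (le_abs_self x).trans hx
  have t00 := term_le (e 0 (2 + 1 + 0)) (u := (-1) ^ 0) (A := av q x e 0)
    (B := bv q y (2 + 1 + 2) e (2 + 1 + 0)) (neg_one_pow_eq_or ℝ 0) (hF2 0 (by omega))
  have t01 := term_le (e 0 (2 + 1 + 1)) (u := (-1) ^ 1) (A := av q x e 0)
    (B := bv q y (2 + 1 + 2) e (2 + 1 + 1)) (neg_one_pow_eq_or ℝ 1) (hF2 1 (by omega))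
  have t10 := term_le (e 1 (2 + 1 + 0)) (u := (-1) ^ 0) (A := av q x e 1)
    (B := bv q y (2 + 1 + 2) e (2 + 1 + 0)) (neg_one_pow_eq_or ℝ 0) (hF2 0 (by omega))
  have t11 := term_le (e 1 (2 + 1 + 1)) (u := (-1) ^ 1) (A := av q x e 1)
    (B := bv q y (2 + 1 + 2) e (2 + 1 + 1)) (neg_one_pow_eq_or ℝ 1) (hF2 1 (by omega))
  have t21 := term_le (e 2 (2 + 1 + 1)) (u := (-1) ^ 1) (A := av q x e 2)
    (B := bv q y (2 + 1 + 2) e (2 + 1 + 1)) (neg_one_pow_eq_or ℝ 1) (hF2 1 (by omega))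
  have hqx : q * x ≤ q * kap q := mul_le_mul_of_nonneg_left hxk hq.le
  rw [max_eq_right (by rw [pow_zero, one_mul, hA0]; linarith)] at t00
  rw [max_eq_right (by
    rw [pow_one, hA0, hB1]
    have := mul_nonneg hq.le (abs_nonneg y)
    have := mul_pos hq hx1
    linarith)] at t01
  have hA1neg : q ^ 2 * x - q < 0 := by
    have hk1 : kap q ≤ 1 := kap_le_one hq hq1
    nlinarith
  rw [max_eq_right (by
    rw [pow_zero, one_mul, hA1]
    linarith [abs_nonneg (bv q y (2 + 1 + 2) e (2 + 1 + 0))])] at t10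
  rw [max_eq_right (by
    rw [pow_one, hB1]
    have := mul_nonneg hq.le (abs_nonneg y)
    linarith)] at t21
  rw [pow_one, hA1, hB1] at t11
  have t20 : sg (e 2 (2 + 1 + 0)) * (av q x e 2 - bv q y (2 + 1 + 2) e (2 + 1 + 0))
      - |bv q y (2 + 1 + 2) e (2 + 1 + 0)| + (-1) ^ 0 * av q x e 2 = 0 := by
    rw [← hF2 0 (by omega)]
    have : e 2 (2 + 1 + 0) = false := h23
    rw [this, sg_false]; ring
  set N := ∑ k ∈ range (2 + 1), ∑ j ∈ range 2, q ^ (2 + 1 - k + j) *
          (sg (e k (2 + 1 + j)) * (av q x e k - bv q y (2 + 1 + 2) e (2 + 1 + j))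
            - |bv q y (2 + 1 + 2) e (2 + 1 + j)| + (-1) ^ j * av q x e k) with hN
  have hNle : N ≤ q ^ 3 * (2 * max (-1 * (q ^ 2 * x - q) - q * |y|) 0) := by
    rw [hN]
    rw [sum_range_succ, sum_range_succ, sum_range_succ, sum_range_zero]
    simp only [sum_range_succ, sum_range_zero, zero_add]
    rw [t20]
    have p0 : 0 < q ^ (2 + 1 - 0 + 0) := pow_pos hq _
    have p1 : 0 < q ^ (2 + 1 - 0 + 1) := pow_pos hq _
    have p2 : 0 < q ^ (2 + 1 - 1 + 0) := pow_pos hq _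
    have p3 : 0 < q ^ (2 + 1 - 1 + 1) := pow_pos hq _
    have p5 : 0 < q ^ (2 + 1 - 2 + 1) := pow_pos hq _
    have m0 := mul_le_mul_of_nonneg_left t00 p0.le
    have m1 := mul_le_mul_of_nonneg_left t01 p1.le
    have m2 := mul_le_mul_of_nonneg_left t10 p2.le
    have m3 := mul_le_mul_of_nonneg_left t11 p3.le
    have m5 := mul_le_mul_of_nonneg_left t21 p5.le
    simp only [hA1, hB1, pow_one] at m0 m1 m2 m3 m5 ⊢
    rw [show q ^ 3 = q ^ (2 + 1 - 1 + 1) from rfl]
    linarith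
  have hS : Sf q |y| 2 = 1 - q * (1 - q * |y|) := by
    rw [Sf_succ, Sf_succ]; simp [Sf]
  rw [hS] at he'
  have hxa : |x| = x := abs_of_pos hx1
  rw [hxa] at he'
  -- final inequality
  have hfin : N < (1 - q * (1 - q * |y|) - x) * (2 * q ^ 2 - 2 * q ^ 3) := by
    have hY := abs_nonneg y
    have hw : q ^ 2 / (1 - q) + q ^ 2 * |y| ≤ 1 - q * (1 - q * |y|) - x := by
      have : kap q = 1 - q - q ^ 2 / (1 - q) := by
        unfold kap; field_simp; ring
      rw [this] at hxk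
      nlinarith
    have h2q : 0 < 2 * q ^ 2 - 2 * q ^ 3 := by
      have : 2 * q ^ 2 - 2 * q ^ 3 = 2 * q ^ 2 * (1 - q) := by ring
      rw [this]; positivity
    have h3 := mul_le_mul_of_nonneg_right hw h2q.le
    have h4 : (q ^ 2 / (1 - q) + q ^ 2 * |y|) * (2 * q ^ 2 - 2 * q ^ 3)
        = 2 * q ^ 4 + 2 * q ^ 4 * (1 - q) * |y| := by
      field_simp
    rw [h4] at h3
    refine lt_of_le_of_lt hNle (lt_of_lt_of_le ?_ h3)
    have hq4' : 0 < q ^ 4 := pow_pos hq 4
    rcases le_total (-1 * (q ^ 2 * x - q) - q * |y|) 0 with h5 | h5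
    · rw [max_eq_right h5]
      have : 0 ≤ 2 * q ^ 4 * (1 - q) * |y| := by positivity
      linarith
    · rw [max_eq_left h5]
      have h6 : q ^ 3 * (2 * (-1 * (q ^ 2 * x - q) - q * |y|))
          = 2 * q ^ 4 - 2 * q ^ 5 * x - 2 * q ^ 4 * |y| := by ring
      rw [h6]
      have h7 : 0 < 2 * q ^ 5 * x := by positivity
      have h8 : 0 ≤ 2 * q ^ 4 * |y| := by positivity
      have h9 : 0 ≤ 2 * q ^ 4 * (1 - q) * |y| := by positivity
      linarith
  linarith

end core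

end NSS

end Pool.Agent.RC
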