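import Pool.Agent.Work.MP_b9e699_co.NSS2

/-!
# No slopes for `q ≤ 1/16` from `one_slope`
-/

open Finset

namespace Pool.Agent.RC

open NSS

theorem no_slope_small_of {q : ℝ} (hq : 0 < q) (hq16 : q ≤ 1 / 16)
    (one : ∀ (x y : ℝ) (m : ℕ) (e : Rel) (t : ℕ), |x| ≤ kap q → |y| ≤ kap q → IsMax q m x y e →
      1 ≤ t → t + 1 < m → e (t - 1) t = e t (t + 1) →
      2 ≤ t ∧ t + 2 < m ∧
      (∀ j, 1 ≤ j → j + 1 < m → j ≠ t → e j (j + 1) ≠ e (j - 1) j) ∧
      0 < x * sg (e 0 1) ∧ y * sg (e (m - 2) (m - 1)) < 0)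
    {x y : ℝ} (hx : |x| ≤ kap q) (hy : |y| ≤ kap q) {m : ℕ} {e : Rel} (he : IsMax q m x y e)
    {t : ℕ} (ht : 1 ≤ t) (htm : t + 1 < m) : e t (t + 1) ≠ e (t - 1) t := by
  intro hc
  obtain ⟨ht2, htm2, halt, hx0, hy0⟩ := one x y m e t hx hy he ht htm hc.symm
  by_cases h4 : t + 4 ≤ m
  · exact core_small' hq hq16 hx hy ht2 h4 he hc.symm halt hx0 hy0
  · have hm : m = t + 3 := by omega
    subst hm
    by_cases ht3 : 3 ≤ t
    · have he2 := (isMaxRev he)
      have h1 : rev (t + 3) e (2 - 1) 2 = rev (t + 3) e 2 (2 + 1) := by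
        unfold rev
        have a1 : t + 3 - 1 - 2 = t := by omega
        have a2 : t + 3 - 1 - (2 - 1) = t + 1 := by omega
        have a3 : t + 3 - 1 - (2 + 1) = t - 1 := by omega
        rw [a1, a2, a3, hc]
      obtain ⟨_, _, halt', hx0', hy0'⟩ :=
        one y x (t + 3) (rev (t + 3) e) 2 hy hx he2 (by omega) (by omega) h1
      exact core_small' hq hq16 hy hx (by omega) (by omega) he2 h1 halt' hx0' hy0'
    · have ht' : t = 2 := by omega
      subst ht'
      have hq4 : q ≤ 1 / 4 := by linarith
      have h01 := halt 1 (by omega) (by omega) (by omega)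
      have h01' : e 1 2 ≠ e 0 1 := h01
      have hc' : e 2 3 = e 1 2 := hc
      cases h : e 2 3
      · have h12 : e 1 2 = false := by rw [← hc', h]
        have h01 : e 0 1 = true := by
          rw [h12] at h01'
          cases hh : e 0 1
          · rw [hh] at h01'; exact absurd rfl h01'
          · rfl
        exact core_five hq hq4 hx hy he h12 h h01 halt hx0 hy0
      · have h12 : e 1 2 = true := by rw [← hc', h]
        have h01 : e 0 1 = false := by
          rw [h12] at h01'
          cases hh : e 0 1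
          · rfl
          · rw [hh] at h01'; exact absurd rfl h01'
        refine core_five (x := -x) (y := -y) (e := compl e) hq hq4 (by rwa [abs_neg])
          (by rwa [abs_neg]) (isMaxCompl he) (by simp [compl, h12]) (by simp [compl, h])
          (by simp [compl, h01]) ?_ ?_ ?_
        · intro j hj1 hj2 hj3 hcc
          apply halt j hj1 hj2 hj3
          simpa [compl] using hcc
        · simp only [compl, sg_not]; linarith
        · have : y * sg (e (2 + 3 - 2) (2 + 3 - 1)) < 0 := hy0
          simp only [compl, sg_not]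
          have h5 : -y * -sg (e (2 + 1 + 2 - 2) (2 + 1 + 2 - 1))
              = y * sg (e (2 + 3 - 2) (2 + 3 - 1)) := by ring_nf
          rw [h5]; exact this

end Pool.Agent.RC
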