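import Pool.Agent.Work.MP_b9e699_co.NuCast

/-!
# Roller Coaster permutations, numerics: asymptotic expansion of `V`
-/

open Finset

namespace Pool.Agent.RC.NU

noncomputable def e0 (q : ℝ) : ℝ := q ^ 3 * (1 - 2 * gq q) / (1 - q ^ 2) ^ 2
noncomputable def e1 (q : ℝ) : ℝ := q ^ 2 * (1 - q - q ^ 2) / ((1 - q) * (1 + q) ^ 2)
noncomputable def TT (m : ℕ) (x y : ℝ) (σ : Bool) : ℝ := sg σ * x + sg (rt m σ) * y

lemma SS_eq {Q : ℝ} (hQ : Q ≠ 1) (n : ℕ) : SS Q n = Q / (1 - Q) * (1 - Q ^ n) := by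
  have h : 1 - Q ≠ 0 := sub_ne_zero.2 (Ne.symm hQ)
  induction n with
  | zero => simp [SS]
  | succ n ih =>
    have : SS Q (n + 1) = SS Q n + Q ^ (n + 1) := by unfold SS; rw [sum_range_succ]
    rw [this, ih]
    field_simp
    ring

lemma RR_eq {q : ℝ} (hq : 1 + q ≠ 0) (n : ℕ) : RR q n = q / (1 + q) * (1 - (-q) ^ n) := by
  induction n with
  | zero => simp [RR]
  | succ n ih =>
    have : RR q (n + 1) = RR q n + (-1) ^ n * q ^ (n + 1) := by unfold RR; rw [sum_range_succ]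
    rw [this, ih]
    have h2 : (-q) ^ n = (-1) ^ n * q ^ n := by rw [neg_pow]
    have h3 : (-q) ^ (n + 1) = - ((-1) ^ n * q ^ (n + 1)) := by rw [neg_pow]; ring
    rw [h2, h3]
    field_simp
    ring

lemma TT_false (m : ℕ) (x y : ℝ) : TT m x y false = - TT m x y true := by
  unfold TT rt; split_ifs <;> simp <;> ring

lemma main_id {q : ℝ} (hq : 0 < q) (hq1 : q < 1) (m : ℕ) (x y : ℝ) (σ : Bool) :
    sg σ * gq q * (q ^ 2 / (1 - q ^ 2)) *
        ((strip q σ x + yE q m σ y) - (opp q σ x + yO q m σ y))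
      + q * TT m x y σ * (q / (1 + q)) = 2 * e0 q + e1 q * TT m x y σ := by
  have h1 : 1 - q ≠ 0 := by linarith [sub_pos.2 hq1]
  have h2 : 1 + q ≠ 0 := by positivity
  have h3 : 1 - q ^ 2 = (1 - q) * (1 + q) := by ring
  have h4 : gq q = q / ((1 - q) * (1 + q)) := by unfold gq; rw [h3]
  unfold TT e0 e1 strip opp yE yO rt
  rw [h4, h3]
  by_cases hm : m % 2 = 1
  · simp only [hm, if_true]
    unfold strip opp
    rw [h4]
    cases σ <;> simp <;> field_simp <;> ring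
  · simp only [hm, if_false]
    unfold strip opp
    rw [h4]
    cases σ <;> simp <;> field_simp <;> ring

lemma gq_le {q : ℝ} (hq : 0 < q) (hq4 : q ≤ 1 / 4) : gq q ≤ 16 / 15 * q := by
  have h : q ^ 2 ≤ 1 / 16 := by nlinarith
  unfold gq
  rw [div_le_iff₀ (by linarith)]
  nlinarith

lemma gq_ge {q : ℝ} (hq : 0 < q) (hq4 : q ≤ 1 / 2) : q ≤ gq q := by
  have h : q ^ 2 ≤ 1 / 4 := by nlinarith
  unfold gq
  rw [le_div_iff₀ (by linarith)]
  nlinarith [sq_nonneg q, mul_nonneg hq.le (sq_nonneg q)]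

lemma abs_sg_mul (b : Bool) (v : ℝ) : |sg b * v| = |v| := by
  rw [abs_mul, abs_sg, one_mul]

lemma Ex_approx {q : ℝ} (hq : 0 < q) (hq4 : q ≤ 1 / 4) {m : ℕ} (hm : 3 ≤ m) {x y : ℝ} {σ : Bool}
    (hx : |x| ≤ 1) (hy : |y| ≤ 1) (h1 : |strip q σ x| ≤ 1) (h2 : |yE q m σ y| ≤ 1)
    (h3 : |opp q σ x| ≤ 1) (h4 : |yO q m σ y| ≤ 1) :
    |Ex q m x y σ - (((m : ℝ) - 2) * gq q ^ 2 + 2 * e0 q + e1 q * TT m x y σ)| ≤ 6 * q ^ m := by
  have hq1 : q < 1 := by linarith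
  have hq2 : q ^ 2 ≤ 1 / 16 := by nlinarith
  have hid := main_id hq hq1 m x y σ
  have hQ : (q ^ 2 : ℝ) ≠ 1 := by linarith
  set S := strip q σ x
  set Y := yE q m σ y
  set O := opp q σ x
  set Z := yO q m σ y
  set T := TT m x y σ with hT
  have hTT : |T| ≤ 2 := by
    rw [hT]; unfold TT
    refine (abs_add_le _ _).trans ?_
    rw [abs_sg_mul, abs_sg_mul]; linarith
  have hEx : Ex q m x y σ = ((m : ℝ) - 2) * gq q ^ 2 + sg σ * gq q * ((S + Y) * SS (q ^ 2) ((m - 2) / 2)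
        - (O + Z) * SS (q ^ 2) ((m - 1) / 2)) + q * T * RR q (m - 2) + 2 * q ^ (m + 1) * x * y := rfl
  rw [hEx, SS_eq hQ, SS_eq hQ, RR_eq (by linarith : (1 : ℝ) + q ≠ 0)]
  set s := q ^ 2 / (1 - q ^ 2) with hs
  set r := q / (1 + q) with hr
  set g := gq q with hg
  have hg0 : 0 ≤ g := hq.le.trans (gq_ge hq (by linarith))
  have hg1 : g ≤ 16 / 15 * q := gq_le hq hq4
  have hs0 : 0 ≤ s := by rw [hs]; apply div_nonneg (sq_nonneg q); linarith
  have hs1 : s ≤ 16 / 15 * q ^ 2 := by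
    rw [hs, div_le_iff₀ (by linarith)]; nlinarith [sq_nonneg q]
  have hr0 : 0 ≤ r := by positivity
  have hr1 : r ≤ q := by rw [hr, div_le_iff₀ (by linarith)]; nlinarith
  have hgs0 : 0 ≤ g * s := mul_nonneg hg0 hs0
  have hgs : g * s ≤ 256 / 225 * q ^ 3 := by
    calc g * s ≤ (16 / 15 * q) * (16 / 15 * q ^ 2) := mul_le_mul hg1 hs1 hs0 (by positivity)
      _ = 256 / 225 * q ^ 3 := by ring
  -- powers
  have hkE : (q ^ 2) ^ ((m - 2) / 2) ≤ q ^ (m - 3) := by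
    rw [← pow_mul]; exact pow_le_pow_of_le_one hq.le hq1.le (by omega)
  have hkO : (q ^ 2) ^ ((m - 1) / 2) ≤ q ^ (m - 2) := by
    rw [← pow_mul]; exact pow_le_pow_of_le_one hq.le hq1.le (by omega)
  have hkE0 : 0 ≤ (q ^ 2) ^ ((m - 2) / 2) := by positivity
  have hkO0 : 0 ≤ (q ^ 2) ^ ((m - 1) / 2) := by positivity
  set a := (q ^ 2) ^ ((m - 2) / 2)
  set b := (q ^ 2) ^ ((m - 1) / 2)
  set c := (-q) ^ (m - 2) with hc
  have hcabs : |c| = q ^ (m - 2) := by rw [hc, abs_pow, abs_neg, abs_of_pos hq]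
  have hm3 : q ^ 3 * q ^ (m - 3) = q ^ m := by rw [← pow_add]; congr 1; omega
  have hm2 : q ^ 2 * q ^ (m - 2) = q ^ m := by rw [← pow_add]; congr 1; omega
  have hqm : 0 < q ^ m := by positivity
  have hm1 : q ^ (m + 1) = q ^ m * q := pow_succ q m
  -- rewrite the error
  have herr : ((m : ℝ) - 2) * g ^ 2 + sg σ * g * ((S + Y) * (s * (1 - a)) - (O + Z) * (s * (1 - b)))
        + q * T * (r * (1 - c)) + 2 * q ^ (m + 1) * x * y
        - (((m : ℝ) - 2) * g ^ 2 + 2 * e0 q + e1 q * T)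
      = - (sg σ * ((S + Y) * (g * s * a))) + sg σ * ((O + Z) * (g * s * b)) - T * (q * r * c)
        + 2 * q ^ (m + 1) * (x * y) := by
    linear_combination hid
  rw [herr]
  have t1 : |sg σ * ((S + Y) * (g * s * a))| ≤ 2 * (256 / 225 * q ^ m) := by
    rw [abs_sg_mul, abs_mul, abs_of_nonneg (mul_nonneg hgs0 hkE0)]
    refine mul_le_mul ((abs_add_le _ _).trans (by linarith)) ?_ (mul_nonneg hgs0 hkE0) (by norm_num)
    calc g * s * a ≤ (256 / 225 * q ^ 3) * q ^ (m - 3) :=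
          mul_le_mul hgs hkE hkE0 (by positivity)
      _ = 256 / 225 * q ^ m := by rw [mul_assoc, hm3]
  have t2 : |sg σ * ((O + Z) * (g * s * b))| ≤ 2 * (64 / 225 * q ^ m) := by
    rw [abs_sg_mul, abs_mul, abs_of_nonneg (mul_nonneg hgs0 hkO0)]
    refine mul_le_mul ((abs_add_le _ _).trans (by linarith)) ?_ (mul_nonneg hgs0 hkO0) (by norm_num)
    calc g * s * b ≤ (256 / 225 * q ^ 3) * q ^ (m - 2) :=
          mul_le_mul hgs hkO hkO0 (by positivity)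
      _ = 256 / 225 * q * (q ^ 2 * q ^ (m - 2)) := by ring
      _ = 256 / 225 * q * q ^ m := by rw [hm2]
      _ ≤ 64 / 225 * q ^ m := by nlinarith
  have t3 : |T * (q * r * c)| ≤ 2 * q ^ m := by
    rw [abs_mul, abs_mul, hcabs, abs_of_nonneg (mul_nonneg hq.le hr0)]
    refine mul_le_mul hTT ?_ (by positivity) (by norm_num)
    calc q * r * q ^ (m - 2) ≤ q * q * q ^ (m - 2) := by
          apply mul_le_mul_of_nonneg_right _ (by positivity)
          exact mul_le_mul_of_nonneg_left hr1 hq.le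
      _ = q ^ 2 * q ^ (m - 2) := by ring
      _ = q ^ m := hm2
  have hxy : |x * y| ≤ 1 := by
    rw [abs_mul]
    calc |x| * |y| ≤ 1 * 1 := mul_le_mul hx hy (abs_nonneg _) (by norm_num)
      _ = 1 := by norm_num
  have t4 : |2 * q ^ (m + 1) * (x * y)| ≤ 1 / 2 * q ^ m := by
    rw [abs_mul, abs_of_pos (by positivity : (0:ℝ) < 2 * q ^ (m + 1)), hm1]
    calc 2 * (q ^ m * q) * |x * y| ≤ 2 * (q ^ m * q) * 1 :=
          mul_le_mul_of_nonneg_left hxy (by positivity)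
      _ ≤ 1 / 2 * q ^ m := by nlinarith
  have := abs_le.1 t1
  have := abs_le.1 t2
  have := abs_le.1 t3
  have := abs_le.1 t4
  rw [abs_le]
  constructor <;> linarith

lemma _root_.Pool.Agent.RC.Adm.abs_le {q x y : ℝ} (h : Adm q x y) : |x| ≤ 1 ∧ |y| ≤ 1 := by
  rcases h with ⟨_, hx, hy⟩ | ⟨h0, h1, hx, hy⟩
  · constructor
    · rcases hx with h | h <;> rw [h] <;> norm_num
    · rcases hy with h | h <;> rw [h] <;> norm_num
  · have hk : kap q ≤ 1 := by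
      unfold kap; rw [div_le_one (by linarith)]; linarith
    exact ⟨hx.trans hk, hy.trans hk⟩

lemma _root_.Pool.Agent.RC.Adm.q_pos {q x y : ℝ} (h : Adm q x y) : 0 < q ∧ q ≤ 1 / 4 := by
  rcases h with ⟨h, _⟩ | ⟨h0, h1, _⟩
  · rw [h]; norm_num
  · exact ⟨h0, by linarith⟩

/-- expansion of `Val` with the next level: `v = g² + v'`. -/
lemma Val_approx {q x y : ℝ} (hA : Adm q x y) {m : ℕ} (hm : 3 ≤ m) (σ : Bool) {v v' : ℝ}
    (hv : v = gq q ^ 2 + v') :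
    |Val q m x y σ - m * v - (-2 * v + 2 * e0 q + e1 q * TT m x y σ
        + (V (q ^ 2) ((m - 2) / 2) (strip q σ x) (yE q m σ y) - ((m - 2) / 2 : ℕ) * v')
        + (V (q ^ 2) ((m - 1) / 2) (opp q σ x) (yO q m σ y) - ((m - 1) / 2 : ℕ) * v'))|
      ≤ 8 * q ^ m := by
  obtain ⟨hq, hq4⟩ := hA.q_pos
  obtain ⟨hx, hy⟩ := hA.abs_le
  obtain ⟨hE, hO⟩ := hA.step m σ
  have h := Ex_approx hq hq4 hm hx hy hE.abs_le.1 hE.abs_le.2 hO.abs_le.1 hO.abs_le.2
  have hsum : (((m - 2) / 2 : ℕ) : ℝ) + (((m - 1) / 2 : ℕ) : ℝ) = (m : ℝ) - 2 := by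
    have : (m - 2) / 2 + (m - 1) / 2 + 2 = m := by omega
    have h' : (((m - 2) / 2 + (m - 1) / 2 + 2 : ℕ) : ℝ) = (m : ℝ) := by exact_mod_cast this
    push_cast at h' ⊢
    linarith
  have hxy : q ^ m * |x - y| ≤ 2 * q ^ m := by
    have : |x - y| ≤ 2 := (abs_sub _ _).trans (by linarith)
    nlinarith [pow_pos hq m]
  have hxy0 : 0 ≤ q ^ m * |x - y| := by positivity
  have h' := abs_le.1 h
  unfold Val
  rw [_root_.abs_le]
  have e : ((m : ℝ)) * v = ((m : ℝ) - 2) * gq q ^ 2 + 2 * v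
      + ((((m - 2) / 2 : ℕ) : ℝ) + (((m - 1) / 2 : ℕ) : ℝ)) * v' := by
    rw [hsum, hv]; ring
  rw [e]
  constructor <;> nlinarith [h'.1, h'.2]

end Pool.Agent.RC.NU
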