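import Pool.Agent.Work.MP_b9e699_co.NuTab

/-!
# Roller Coaster permutations, numerics: the rational recursion computes `V`
-/

open Finset

namespace Pool.Agent.RC.NU

lemma V_zero (q x y : ℝ) : V q 0 x y = 0 := by
  obtain ⟨e, he⟩ := exists_eq_V q 0 x y
  rw [← he]; simp [F]

lemma V_one (q x y : ℝ) : V q 1 x y = q ^ 2 * x * y := by
  obtain ⟨e, he⟩ := exists_eq_V q 1 x y
  rw [← he]; simp [F, av, bv]; ring

lemma F_two (q x y : ℝ) (e : Rel) :
    F q 2 x y e = 2 * q ^ 3 * x * y + q ^ 2 * (sg (e 0 1) * (x - y)) := by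
  have h1 : Ico (0 + 1) 2 = {1} := by decide
  have h2 : Ico (1 + 1) 2 = ∅ := by decide
  unfold F
  rw [sum_range_succ, sum_range_one]
  unfold av bv
  rw [h1, h2]
  simp
  ring

lemma V_two (q x y : ℝ) : V q 2 x y = 2 * q ^ 3 * x * y + q ^ 2 * |x - y| := by
  apply le_antisymm
  · apply V_le
    intro e
    rw [F_two]
    have := mul_le_mul_of_nonneg_left (sg_mul_le_abs (e 0 1) (x - y)) (sq_nonneg q)
    linarith
  · have h := le_V q 2 x y (fun _ _ => decide (y ≤ x))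
    rw [F_two] at h
    have h2 : sg (decide (y ≤ x)) * (x - y) = |x - y| := by
      by_cases hxy : y ≤ x
      · simp [hxy, abs_of_nonneg (sub_nonneg.2 hxy)]
      · have : x - y ≤ 0 := by push Not at hxy; linarith
        simp [hxy, abs_of_nonpos this]
    simp only [h2] at h
    exact h

lemma sgQ_cast (b : Bool) : ((sgQ b : ℚ) : ℝ) = sg b := by cases b <;> simp [sgQ]

lemma gQ_cast (q : ℚ) : ((gQ q : ℚ) : ℝ) = gq (q : ℝ) := by
  unfold gQ gq; push_cast; ring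

lemma SSQ_cast (Q : ℚ) (n : ℕ) : ((SSQ Q n : ℚ) : ℝ) = SS (Q : ℝ) n := by
  induction n with
  | zero => simp [SSQ, SS]
  | succ n ih => rw [SSQ, SS, sum_range_succ]; push_cast; rw [ih]; rfl

lemma RRQ_cast (q : ℚ) (n : ℕ) : ((RRQ q n : ℚ) : ℝ) = RR (q : ℝ) n := by
  induction n with
  | zero => simp [RRQ, RR]
  | succ n ih => rw [RRQ, RR, sum_range_succ]; push_cast; rw [ih]; rfl

lemma stripQ_cast (q : ℚ) (σ : Bool) (x : ℚ) :
    ((stripQ q σ x : ℚ) : ℝ) = strip (q : ℝ) σ (x : ℝ) := by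
  unfold stripQ strip; push_cast; rw [sgQ_cast, gQ_cast]

lemma oppQ_cast (q : ℚ) (σ : Bool) (x : ℚ) :
    ((oppQ q σ x : ℚ) : ℝ) = opp (q : ℝ) σ (x : ℝ) := by
  unfold oppQ opp; push_cast; rw [sgQ_cast, gQ_cast]

lemma yEQ_cast (q : ℚ) (m : ℕ) (σ : Bool) (x : ℚ) :
    ((yEQ q m σ x : ℚ) : ℝ) = yE (q : ℝ) m σ (x : ℝ) := by
  unfold yEQ yE; split_ifs
  · exact stripQ_cast _ _ _
  · exact oppQ_cast _ _ _

lemma yOQ_cast (q : ℚ) (m : ℕ) (σ : Bool) (x : ℚ) :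
    ((yOQ q m σ x : ℚ) : ℝ) = yO (q : ℝ) m σ (x : ℝ) := by
  unfold yOQ yO; split_ifs
  · exact oppQ_cast _ _ _
  · exact stripQ_cast _ _ _

lemma ExQ_cast (q : ℚ) (m : ℕ) (x y : ℚ) (σ : Bool) :
    ((ExQ q m x y σ : ℚ) : ℝ) = Ex (q : ℝ) m (x : ℝ) (y : ℝ) σ := by
  unfold ExQ Ex
  push_cast
  rw [sgQ_cast, sgQ_cast, gQ_cast, stripQ_cast, oppQ_cast, yEQ_cast, yOQ_cast, SSQ_cast, SSQ_cast,
    RRQ_cast]
  push_cast
  rfl

lemma rmax_cast (a b : ℚ) : ((rmax a b : ℚ) : ℝ) = max (a : ℝ) (b : ℝ) := by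
  unfold rmax
  split_ifs with h
  · rw [max_eq_right]; exact_mod_cast h
  · push Not at h
    rw [max_eq_left]; exact_mod_cast h.le

lemma rabs_cast (a : ℚ) : ((rabs a : ℚ) : ℝ) = |(a : ℝ)| := by
  unfold rabs
  split_ifs with h
  · rw [abs_of_nonneg]; exact_mod_cast h
  · push Not at h
    rw [abs_of_neg]
    · push_cast; rfl
    · exact_mod_cast h

theorem VQ_cast : ∀ (f m : ℕ), m < 2 ^ f → ∀ q x y : ℚ, Adm (q : ℝ) (x : ℝ) (y : ℝ) →
    ((VQ f q m x y : ℚ) : ℝ) = V (q : ℝ) m (x : ℝ) (y : ℝ) := by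
  intro f
  induction f with
  | zero =>
    intro m hm q x y _
    have : m = 0 := by simpa using hm
    subst this
    simp [VQ, V_zero]
  | succ f ih =>
    intro m hm q x y hA
    by_cases h0 : m = 0
    · subst h0; simp [VQ, V_zero]
    by_cases h1 : m = 1
    · subst h1; simp [VQ, V_one]
    by_cases h2 : m = 2
    · subst h2; simp [VQ, V_two, rabs_cast]
    have hm3 : 3 ≤ m := by omega
    have hE : (m - 2) / 2 < 2 ^ f := by rw [pow_succ] at hm; omega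
    have hO : (m - 1) / 2 < 2 ^ f := by rw [pow_succ] at hm; omega
    rw [rec_V hA hm3, VQ, if_neg h0, if_neg h1, if_neg h2, rmax_cast]
    have key : ∀ σ : Bool, ((ExQ q m x y σ + q ^ m * rabs (x - y)
        + VQ f (q ^ 2) ((m - 2) / 2) (stripQ q σ x) (yEQ q m σ y)
        + VQ f (q ^ 2) ((m - 1) / 2) (oppQ q σ x) (yOQ q m σ y) : ℚ) : ℝ)
          = Val (q : ℝ) m (x : ℝ) (y : ℝ) σ := by
      intro σ
      have hs := hA.step m σ
      have e1 := ih _ hE (q ^ 2) (stripQ q σ x) (yEQ q m σ y) (by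
        rw [stripQ_cast, yEQ_cast]; push_cast; exact hs.1)
      have e2 := ih _ hO (q ^ 2) (oppQ q σ x) (yOQ q m σ y) (by
        rw [oppQ_cast, yOQ_cast]; push_cast; exact hs.2)
      rw [stripQ_cast, yEQ_cast] at e1
      rw [oppQ_cast, yOQ_cast] at e2
      unfold Val
      push_cast
      push_cast at e1 e2
      rw [e1, e2, ExQ_cast, rabs_cast]
      push_cast
      rfl
    rw [key true, key false]

lemma adm_quarter {x y : ℝ} (hx : |x| = 1 / 3 ∨ |x| = 2 / 3) (hy : |y| = 1 / 3 ∨ |y| = 2 / 3) :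
    Adm (1 / 4) x y := Or.inl ⟨rfl, hx, hy⟩

lemma gq_half : gq (1 / 2) = 2 / 3 := by unfold gq; norm_num

lemma adm_topE (n : ℕ) : Adm (1 / 4) (strip (1 / 2) true 0) (yE (1 / 2) n true 0) := by
  have h := gq_half
  apply adm_quarter
  · left; unfold strip; rw [h]; norm_num [sg]
  · unfold yE
    split_ifs
    · left; unfold strip; rw [h]; norm_num [sg]
    · right; unfold opp; rw [h]; norm_num [sg, abs_div]

lemma adm_topO (n : ℕ) : Adm (1 / 4) (opp (1 / 2) true 0) (yO (1 / 2) n true 0) := by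
  have h := gq_half
  apply adm_quarter
  · right; unfold opp; rw [h]; norm_num [sg]
  · unfold yO
    split_ifs
    · right; unfold opp; rw [h]; norm_num [sg]
    · left; unfold strip; rw [h]; norm_num [sg, abs_div]

theorem V0_eq_V0Q {n : ℕ} (hn : n < 64) : V0 n = ((V0Q n : ℚ) : ℝ) := by
  unfold V0 V0Q Val
  have hE : (n - 2) / 2 < 2 ^ 5 := by norm_num; omega
  have hO : (n - 1) / 2 < 2 ^ 5 := by norm_num; omega
  have a1 := adm_topE n
  have a2 := adm_topO n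
  have hq : ((1 / 2 : ℝ)) ^ 2 = 1 / 4 := by norm_num
  have c4 : (((1 / 4 : ℚ)) : ℝ) = 1 / 4 := by norm_num
  have c2 : (((1 / 2 : ℚ)) : ℝ) = 1 / 2 := by norm_num
  have e1 := VQ_cast 5 _ hE (1 / 4) (stripQ (1 / 2) true 0) (yEQ (1 / 2) n true 0) (by
    rw [stripQ_cast, yEQ_cast, c4, c2]; simpa using a1)
  have e2 := VQ_cast 5 _ hO (1 / 4) (oppQ (1 / 2) true 0) (yOQ (1 / 2) n true 0) (by
    rw [oppQ_cast, yOQ_cast, c4, c2]; simpa using a2)
  rw [stripQ_cast, yEQ_cast, c4, c2] at e1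
  rw [oppQ_cast, yOQ_cast, c4, c2] at e2
  push_cast at e1 e2
  rw [Rat.cast_add, Rat.cast_add, ExQ_cast, c2, hq]
  push_cast
  rw [e1, e2]
  simp

theorem V0_tab {n : ℕ} (hn : n < 45) : V0 n = ((tab n : ℚ) : ℝ) := by
  rw [V0_eq_V0Q (by omega), tab_eq hn]

end Pool.Agent.RC.NU
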