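import Pool.Agent.Work.MP_b9e699_co.NuAsym

/-!
# Roller Coaster permutations, numerics: levels 3, 2, 1
-/

open Finset

namespace Pool.Agent.RC.NU

lemma qq_pos (l : ℕ) : 0 < qq l := by unfold qq; positivity

lemma qq_zero : qq 0 = 1 / 2 := by unfold qq; norm_num
lemma qq_one : qq 1 = 1 / 4 := by unfold qq; norm_num
lemma qq_two : qq 2 = 1 / 16 := by unfold qq; norm_num
lemma qq_three : qq 3 = 1 / 256 := by unfold qq; norm_num
lemma qq_four : qq 4 = 1 / 65536 := by unfold qq; norm_num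

lemma qq_anti {a b : ℕ} (h : a ≤ b) : qq b ≤ qq a := by
  unfold qq
  exact pow_le_pow_of_le_one (by norm_num) (by norm_num) (Nat.pow_le_pow_right (by norm_num) h)

lemma qq_add (l j : ℕ) : qq (l + j) = qq l ^ (2 ^ j) := by
  unfold qq; rw [← pow_mul, pow_add]

lemma qq_add_le (l j : ℕ) : qq (l + j) ≤ qq l ^ (j + 1) := by
  rw [qq_add]
  refine pow_le_pow_of_le_one (qq_pos l).le ?_ (Nat.succ_le_of_lt (Nat.lt_two_pow_self))
  calc qq l ≤ qq 0 := qq_anti (Nat.zero_le _)
    _ ≤ 1 := by rw [qq_zero]; norm_num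

lemma gq_le' {q : ℝ} (hq : 0 < q) (hq4 : q ≤ 1 / 2) : gq q ≤ 4 / 3 * q := by
  have h : q ^ 2 ≤ 1 / 4 := by nlinarith
  unfold gq
  rw [div_le_iff₀ (by linarith)]
  nlinarith

lemma gq_term_le (l j : ℕ) : gq (qq (l + j)) ^ 2 ≤ 16 / 9 * (qq l ^ 2) * (qq l ^ 2) ^ j := by
  have h0 := qq_pos (l + j)
  have h1 : qq (l + j) ≤ 1 / 2 := by rw [← qq_zero]; exact qq_anti (Nat.zero_le _)
  have h2 := gq_le' h0 h1
  have h3 : 0 ≤ gq (qq (l + j)) := h0.le.trans (gq_ge h0 h1)
  have h4 := qq_add_le l j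
  calc gq (qq (l + j)) ^ 2 ≤ (4 / 3 * qq (l + j)) ^ 2 := pow_le_pow_left₀ h3 h2 2
    _ ≤ (4 / 3 * qq l ^ (j + 1)) ^ 2 := by
        apply pow_le_pow_left₀ (by positivity); linarith
    _ = 16 / 9 * (qq l ^ 2) * (qq l ^ 2) ^ j := by ring

/-- `v_l = ∑_j g_{l+j}^2`. -/
noncomputable def vv (l : ℕ) : ℝ := ∑' j, gq (qq (l + j)) ^ 2

lemma qq_sq_lt_one (l : ℕ) : qq l ^ 2 < 1 := by
  have : qq l ≤ 1 / 2 := by rw [← qq_zero]; exact qq_anti (Nat.zero_le _)
  nlinarith [qq_pos l]

lemma summable_gq (l : ℕ) : Summable (fun j => gq (qq (l + j)) ^ 2) := by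
  refine Summable.of_nonneg_of_le (fun _ => sq_nonneg _) (gq_term_le l) ?_
  exact (summable_geometric_of_lt_one (sq_nonneg _) (qq_sq_lt_one l)).mul_left _

lemma vv_nonneg (l : ℕ) : 0 ≤ vv l := tsum_nonneg fun _ => sq_nonneg _

lemma vv_succ (l : ℕ) : vv l = gq (qq l) ^ 2 + vv (l + 1) := by
  unfold vv
  rw [(summable_gq l).tsum_eq_zero_add]
  congr 1
  refine tsum_congr fun j => ?_
  congr 3
  ring

lemma vv_le {l : ℕ} (hl : 1 ≤ l) : vv l ≤ 2 * qq l ^ 2 := by
  have h1 : qq l ≤ 1 / 4 := by rw [← qq_one]; exact qq_anti hl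
  have h0 := qq_pos l
  have hs : qq l ^ 2 ≤ 1 / 16 := by nlinarith
  have hsum := (summable_geometric_of_lt_one (sq_nonneg _) (qq_sq_lt_one l)).mul_left
    (16 / 9 * (qq l ^ 2))
  have h := (summable_gq l).tsum_le_tsum (gq_term_le l) hsum
  rw [tsum_mul_left, tsum_geometric_of_lt_one (sq_nonneg _) (qq_sq_lt_one l)] at h
  refine h.trans ?_
  rw [mul_inv_le_iff₀ (by linarith)]
  nlinarith [sq_nonneg (qq l)]

lemma vv_ge (l : ℕ) : qq l ^ 2 ≤ vv l := by
  have h0 := qq_pos l
  have h1 : qq l ≤ 1 / 2 := by rw [← qq_zero]; exact qq_anti (Nat.zero_le _)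
  rw [vv_succ]
  have := vv_nonneg (l + 1)
  have := pow_le_pow_left₀ h0.le (gq_ge h0 h1) 2
  linarith

lemma e1_bounds {q : ℝ} (hq : 0 < q) (hq4 : q ≤ 1 / 4) : 0 ≤ e1 q ∧ e1 q ≤ q ^ 2 := by
  unfold e1
  have h1 : 0 < (1 - q) * (1 + q) ^ 2 := by
    apply mul_pos (by linarith); positivity
  have h2 : 0 ≤ 1 - q - q ^ 2 := by nlinarith
  constructor
  · positivity
  · rw [div_le_iff₀ h1]
    apply mul_le_mul_of_nonneg_left _ (sq_nonneg q)
    nlinarith [sq_nonneg q, mul_pos hq hq]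

lemma e0_bounds {q : ℝ} (hq : 0 < q) (hq4 : q ≤ 1 / 4) : 0 ≤ e0 q ∧ e0 q ≤ 2 * q ^ 3 := by
  unfold e0
  have hg := gq_le hq hq4
  have hg0 := gq_ge hq (by linarith : q ≤ 1 / 2)
  have h2 : q ^ 2 ≤ 1 / 16 := by nlinarith
  have h1 : 0 < (1 - q ^ 2) ^ 2 := by
    have : 0 < 1 - q ^ 2 := by linarith
    positivity
  constructor
  · apply div_nonneg _ h1.le
    apply mul_nonneg (by positivity)
    linarith
  · rw [div_le_iff₀ h1]
    have h3 : (15 / 16 : ℝ) ^ 2 ≤ (1 - q ^ 2) ^ 2 := by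
      apply pow_le_pow_left₀ (by norm_num); linarith
    have h4 : 0 < q ^ 3 := by positivity
    have h5 : q ^ 3 * (1 - 2 * gq q) ≤ q ^ 3 * 1 := by
      apply mul_le_mul_of_nonneg_left _ h4.le; linarith
    have h6 : 2 * q ^ 3 * (15 / 16 : ℝ) ^ 2 ≤ 2 * q ^ 3 * (1 - q ^ 2) ^ 2 := by
      apply mul_le_mul_of_nonneg_left h3; positivity
    nlinarith

lemma abs_TT_le {m : ℕ} {x y : ℝ} {σ : Bool} (hx : |x| ≤ 1) (hy : |y| ≤ 1) :
    |TT m x y σ| ≤ 2 := by
  unfold TT
  refine (abs_add_le _ _).trans ?_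
  rw [abs_sg_mul, abs_sg_mul]; linarith

/-- crude bound for the levels `≥ 3`. -/
theorem lvl3 : ∀ (m l : ℕ), 3 ≤ l → ∀ x y : ℝ, Adm (qq l) x y →
    -3 * qq l ^ 2 ≤ V (qq l) m x y - m * vv l ∧ V (qq l) m x y - m * vv l ≤ qq l ^ 2 := by
  intro m
  induction m using Nat.strong_induction_on with
  | _ m ih =>
    intro l hl x y hA
    have hq := qq_pos l
    have hq8 : qq l ≤ 1 / 256 := by rw [← qq_three]; exact qq_anti hl
    obtain ⟨hx, hy⟩ := hA.abs_le
    have hv2 := vv_le (show 1 ≤ l by omega)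
    have hv1 := vv_ge l
    have hsq : 0 < qq l ^ 2 := by positivity
    have hcube : qq l ^ 3 ≤ 1 / 256 * qq l ^ 2 := by
      have : qq l ^ 3 = qq l * qq l ^ 2 := by ring
      rw [this]; exact mul_le_mul_of_nonneg_right hq8 hsq.le
    have hcube0 : 0 < qq l ^ 3 := by positivity
    have hxy : |x * y| ≤ 1 := by
      rw [abs_mul]
      calc |x| * |y| ≤ 1 * 1 := mul_le_mul hx hy (abs_nonneg _) (by norm_num)
        _ = 1 := by norm_num
    have hxy' := abs_le.1 hxy
    have hvs : vv l ≤ 41 / 40 * qq l ^ 2 := by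
      have h1 := vv_succ l
      have h2 := vv_le (show 1 ≤ l + 1 by omega)
      rw [qq_succ] at h2
      have h3 : gq (qq l) ≤ 101 / 100 * qq l := by
        unfold gq
        rw [div_le_iff₀ (by nlinarith)]
        nlinarith
      have h4 : 0 ≤ gq (qq l) := hq.le.trans (gq_ge hq (by linarith))
      have h5 := pow_le_pow_left₀ h4 h3 2
      have h6 : (qq l ^ 2) ^ 2 ≤ 1 / 65536 * qq l ^ 2 := by
        have : (qq l ^ 2) ^ 2 = qq l ^ 2 * qq l ^ 2 := by ring
        rw [this]; apply mul_le_mul_of_nonneg_right _ hsq.le; nlinarith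
      nlinarith
    by_cases h0 : m = 0
    · subst h0
      rw [V_zero]
      constructor <;> simp <;> positivity
    by_cases h1 : m = 1
    · subst h1
      rw [V_one]
      constructor
      · push_cast; nlinarith
      · push_cast; nlinarith
    by_cases h2 : m = 2
    · subst h2
      rw [V_two]
      have hd : |x - y| ≤ 2 := (abs_sub _ _).trans (by linarith)
      have hd0 := abs_nonneg (x - y)
      have t1 : qq l ^ 2 * |x - y| ≤ qq l ^ 2 * 2 := mul_le_mul_of_nonneg_left hd hsq.le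
      have t2 : 0 ≤ qq l ^ 2 * |x - y| := by positivity
      have t3 : 2 * qq l ^ 3 * x * y ≤ 2 * qq l ^ 3 := by
        have : 2 * qq l ^ 3 * x * y = 2 * qq l ^ 3 * (x * y) := by ring
        rw [this]; nlinarith
      have t4 : -(2 * qq l ^ 3) ≤ 2 * qq l ^ 3 * x * y := by
        have : 2 * qq l ^ 3 * x * y = 2 * qq l ^ 3 * (x * y) := by ring
        rw [this]; nlinarith
      constructor
      · push_cast; nlinarith
      · push_cast; nlinarith
    have hm : 3 ≤ m := by omega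
    have hstep := fun σ => hA.step m σ
    have ihE := fun σ : Bool => ih ((m - 2) / 2) (by omega) (l + 1) (by omega) _ _
      (by rw [qq_succ]; exact (hstep σ).1)
    have ihO := fun σ : Bool => ih ((m - 1) / 2) (by omega) (l + 1) (by omega) _ _
      (by rw [qq_succ]; exact (hstep σ).2)
    rw [qq_succ] at ihE ihO
    have hq4 : qq l ≤ 1 / 4 := by linarith
    have happ := fun σ => Val_approx hA hm σ (vv_succ l)
    have hm3 : qq l ^ m ≤ qq l ^ 3 := pow_le_pow_of_le_one hq.le (by linarith) hm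
    obtain ⟨e1a, e1b⟩ := e1_bounds hq hq4
    obtain ⟨e0a, e0b⟩ := e0_bounds hq hq4
    have hT := fun σ => abs_le.1 (abs_TT_le (m := m) (σ := σ) hx hy)
    have h4 : (qq l ^ 2) ^ 2 ≤ 1 / 65536 * qq l ^ 2 := by
      have : (qq l ^ 2) ^ 2 = qq l ^ 2 * qq l ^ 2 := by ring
      rw [this]; apply mul_le_mul_of_nonneg_right _ hsq.le; nlinarith
    rw [rec_V hA hm]
    constructor
    · -- lower bound
      have hpos : 0 ≤ TT m x y true ∨ 0 ≤ TT m x y false := by
        rw [TT_false]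
        rcases le_total 0 (TT m x y true) with h | h
        · left; exact h
        · right; linarith
      have main : ∀ σ, 0 ≤ TT m x y σ → -3 * qq l ^ 2 ≤ Val (qq l) m x y σ - m * vv l := by
        intro σ hσ
        have a := (abs_le.1 (happ σ)).1
        have b := (ihE σ).1
        have c := (ihO σ).1
        have d : 0 ≤ e1 (qq l) * TT m x y σ := mul_nonneg e1a hσ
        nlinarith
      rcases hpos with h | h
      · have := main true h
        have := le_max_left (Val (qq l) m x y true) (Val (qq l) m x y false)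
        linarith
      · have := main false h
        have := le_max_right (Val (qq l) m x y true) (Val (qq l) m x y false)
        linarith
    · have main : ∀ σ, Val (qq l) m x y σ - m * vv l ≤ qq l ^ 2 := by
        intro σ
        have a := (abs_le.1 (happ σ)).2
        have b := (ihE σ).2
        have c := (ihO σ).2
        have d : e1 (qq l) * TT m x y σ ≤ qq l ^ 2 * 2 :=
          calc e1 (qq l) * TT m x y σ ≤ e1 (qq l) * 2 :=
                mul_le_mul_of_nonneg_left (hT σ).2 e1a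
            _ ≤ qq l ^ 2 * 2 := by linarith
        nlinarith
      have := main true
      have := main false
      have := max_le (a := Val (qq l) m x y true) (b := Val (qq l) m x y false)
        (c := qq l ^ 2 + m * vv l) (by linarith) (by linarith)
      linarith

end Pool.Agent.RC.NU
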