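import Pool.Agent.Work.MP_b9e699_co.CB2

/-!
# Roller Coaster permutations, numerics: exact values of `V0 n` for small `n`
-/

open Finset

namespace Pool.Agent.RC.NU

/-! ### computable rational version -/

def sgQ (b : Bool) : ℚ := if b then 1 else -1
def gQ (q : ℚ) : ℚ := q / (1 - q ^ 2)
def SSQ (Q : ℚ) : ℕ → ℚ
  | 0 => 0
  | n + 1 => SSQ Q n + Q ^ (n + 1)
def RRQ (q : ℚ) : ℕ → ℚ
  | 0 => 0
  | n + 1 => RRQ q n + (-1) ^ n * q ^ (n + 1)
def stripQ (q : ℚ) (σ : Bool) (x : ℚ) : ℚ := sgQ σ * (1 - gQ q) + q * x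
def oppQ (q : ℚ) (σ : Bool) (x : ℚ) : ℚ := x + sgQ σ * gQ q
def yEQ (q : ℚ) (m : ℕ) (σ : Bool) (y : ℚ) : ℚ :=
  if m % 2 = 1 then stripQ q σ y else oppQ q (!σ) y
def yOQ (q : ℚ) (m : ℕ) (σ : Bool) (y : ℚ) : ℚ :=
  if m % 2 = 1 then oppQ q σ y else stripQ q (!σ) y
def ExQ (q : ℚ) (m : ℕ) (x y : ℚ) (σ : Bool) : ℚ :=
  ((m : ℚ) - 2) * gQ q ^ 2
    + sgQ σ * gQ q * ((stripQ q σ x + yEQ q m σ y) * SSQ (q ^ 2) ((m - 2) / 2)
        - (oppQ q σ x + yOQ q m σ y) * SSQ (q ^ 2) ((m - 1) / 2))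
    + q * (sgQ σ * x + sgQ (rt m σ) * y) * RRQ q (m - 2)
    + 2 * q ^ (m + 1) * x * y
def rmax (a b : ℚ) : ℚ := if a ≤ b then b else a
def rabs (a : ℚ) : ℚ := if 0 ≤ a then a else -a

def VQ : ℕ → ℚ → ℕ → ℚ → ℚ → ℚ
  | 0, _, _, _, _ => 0
  | f + 1, q, m, x, y =>
    if m = 0 then 0
    else if m = 1 then q ^ 2 * x * y
    else if m = 2 then 2 * q ^ 3 * x * y + q ^ 2 * rabs (x - y)
    else rmax
      (ExQ q m x y true + q ^ m * rabs (x - y)
        + VQ f (q ^ 2) ((m - 2) / 2) (stripQ q true x) (yEQ q m true y)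
        + VQ f (q ^ 2) ((m - 1) / 2) (oppQ q true x) (yOQ q m true y))
      (ExQ q m x y false + q ^ m * rabs (x - y)
        + VQ f (q ^ 2) ((m - 2) / 2) (stripQ q false x) (yEQ q m false y)
        + VQ f (q ^ 2) ((m - 1) / 2) (oppQ q false x) (yOQ q m false y))

/-- rational value of `V0 n` for `n < 64`. -/
def V0Q (n : ℕ) : ℚ :=
  ExQ (1 / 2) n 0 0 true
    + VQ 5 (1 / 4) ((n - 2) / 2) (stripQ (1 / 2) true 0) (yEQ (1 / 2) n true 0)
    + VQ 5 (1 / 4) ((n - 1) / 2) (oppQ (1 / 2) true 0) (yOQ (1 / 2) n true 0)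

def pi1Q (n : ℕ) : ℚ := if n = 4 then 7 / 16 else if n = 5 then 13 / 32 else 1 / 3
def U1Q (n : ℕ) : ℚ := (1 / 3) * V0Q (n - 1) + (2 / 3) * V0Q (n + 1) - (2 / 3) * pi1Q n


/-- table of the exact values of `V0 n`, `n < 45` (the entries `0, 1` are not used). -/
def tabL : List ℚ := [
  -8/9, -4/9, 0, 1/4, 3/4, 19/16, 7/4, 141/64, 173/64, 823/256, 485/128, 4393/1024, 4907/1024,
  21731/4096, 3013/512, 104373/16384, 112393/16384, 483743/65536, 260275/32768, 2213665/262144,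
  2345623/262144, 9921915/1048576, 2632069/262144, 44151789/4194304, 46204853/4194304,
  193572023/16777216, 101495849/8388608, 845624921/67108864, 879396163/67108864,
  3655680403/268435456, 14886443/1048576, 15765466917/1073741824, 16290937441/1073741824,
  67404308687/4294967296, 34907612831/2147483648, 287879405713/17179869184,
  296524633583/17179869184, 1221451594923/68719476736, 315296450683/17179869184,
  5178350073949/274877906944, 5312900081677/274877906944, 21825211313895/1099511627776,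
  11221270639765/549755813888, 91975987246281/4398046511104, 94189216482715/4398046511104]

def tab (n : ℕ) : ℚ := tabL.getD n 0

set_option maxRecDepth 100000 in
theorem tab_ok : (List.range 45).all (fun n => decide (V0Q n = tab n)) = true := by
  decide +kernel

theorem tab_eq {n : ℕ} (h : n < 45) : V0Q n = tab n := by
  have := tab_ok
  rw [List.all_eq_true] at this
  simpa using this n (List.mem_range.2 h)

end Pool.Agent.RC.NU
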