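import Pool.Agent.Work.MP_b9e699_co.NuLvl

/-!
# Roller Coaster permutations, numerics: levels 2, 1 and 0
-/

open Finset

namespace Pool.Agent.RC.NU

lemma max_approx {a b a' b' δ : ℝ} (h1 : |a - a'| ≤ δ) (h2 : |b - b'| ≤ δ) :
    |max a b - max a' b'| ≤ δ := by
  refine (abs_max_sub_max_le_max a b a' b').trans (max_le h1 h2)

theorem lvl2 {m : ℕ} (hm : 8 ≤ m) {x y : ℝ} (hA : Adm (qq 2) x y) :
    |V (qq 2) m x y - m * vv 2 - (-2 * vv 2 + 2 * e0 (qq 2) + e1 (qq 2) * |TT m x y true|)|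
      ≤ 1 / 10000 := by
  have hq4 : qq 2 ≤ 1 / 4 := by rw [qq_two]; norm_num
  obtain ⟨e1a, -⟩ := e1_bounds (qq_pos 2) hq4
  have hstep := fun σ => hA.step m σ
  have h3 : qq 3 = qq 2 ^ 2 := qq_succ 2
  have hE := fun σ : Bool => lvl3 ((m - 2) / 2) 3 le_rfl _ _ (by rw [h3]; exact (hstep σ).1)
  have hO := fun σ : Bool => lvl3 ((m - 1) / 2) 3 le_rfl _ _ (by rw [h3]; exact (hstep σ).2)
  have happ := fun σ => Val_approx hA (show 3 ≤ m by omega) σ (vv_succ 2)
  have hpow : qq 2 ^ m ≤ (1 / 16 : ℝ) ^ 8 := by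
    rw [qq_two]; exact pow_le_pow_of_le_one (by norm_num) (by norm_num) hm
  have h33 : qq 3 ^ 2 = 1 / 65536 := by rw [qq_three]; norm_num
  have key : ∀ σ, |Val (qq 2) m x y σ - (m * vv 2 + (-2 * vv 2 + 2 * e0 (qq 2)
      + e1 (qq 2) * TT m x y σ))| ≤ 1 / 10000 := by
    intro σ
    have a := abs_le.1 (happ σ)
    have b := hE σ
    have c := hO σ
    rw [h33, h3] at b c
    rw [abs_le]
    norm_num at hpow a b c ⊢
    constructor <;> linarith
  rw [rec_V hA (by omega)]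
  have h := max_approx (key true) (key false)
  have hmax : max (m * vv 2 + (-2 * vv 2 + 2 * e0 (qq 2) + e1 (qq 2) * TT m x y true))
      (m * vv 2 + (-2 * vv 2 + 2 * e0 (qq 2) + e1 (qq 2) * TT m x y false))
      = m * vv 2 + (-2 * vv 2 + 2 * e0 (qq 2) + e1 (qq 2) * |TT m x y true|) := by
    rw [TT_false]
    rcases le_total 0 (TT m x y true) with h | h
    · rw [abs_of_nonneg h, max_eq_left]
      nlinarith
    · rw [abs_of_nonpos h, max_eq_right]
      nlinarith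
  rw [hmax] at h
  convert h using 2
  ring

/-- explicit part of level `1`. -/
noncomputable def MM (m : ℕ) (x y : ℝ) (σ : Bool) : ℝ :=
  e1 (qq 1) * TT m x y σ + e1 (qq 2) *
    (|TT ((m - 2) / 2) (strip (qq 1) σ x) (yE (qq 1) m σ y) true|
      + |TT ((m - 1) / 2) (opp (qq 1) σ x) (yO (qq 1) m σ y) true|)

theorem lvl1 {m : ℕ} (hm : 18 ≤ m) {x y : ℝ} (hA : Adm (qq 1) x y) :
    |V (qq 1) m x y - m * vv 1 - (-2 * vv 1 - 4 * vv 2 + 2 * e0 (qq 1) + 4 * e0 (qq 2)
      + max (MM m x y true) (MM m x y false))| ≤ 21 / 100000 := by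
  have hq4 : qq 1 ≤ 1 / 4 := by rw [qq_one]
  have hstep := fun σ => hA.step m σ
  have h3 : qq 2 = qq 1 ^ 2 := qq_succ 1
  have hE := fun σ : Bool => lvl2 (m := (m - 2) / 2) (by omega) (by rw [h3]; exact (hstep σ).1)
  have hO := fun σ : Bool => lvl2 (m := (m - 1) / 2) (by omega) (by rw [h3]; exact (hstep σ).2)
  have happ := fun σ => Val_approx hA (show 3 ≤ m by omega) σ (vv_succ 1)
  have hpow : qq 1 ^ m ≤ (1 / 4 : ℝ) ^ 18 := by
    rw [qq_one]; exact pow_le_pow_of_le_one (by norm_num) (by norm_num) hm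
  have key : ∀ σ, |Val (qq 1) m x y σ - (m * vv 1 + (-2 * vv 1 - 4 * vv 2 + 2 * e0 (qq 1)
      + 4 * e0 (qq 2)) + MM m x y σ)| ≤ 21 / 100000 := by
    intro σ
    have a := abs_le.1 (happ σ)
    have b := abs_le.1 (hE σ)
    have c := abs_le.1 (hO σ)
    rw [← h3] at a
    unfold MM
    rw [abs_le]
    norm_num at hpow a b c ⊢
    constructor <;> linarith
  rw [rec_V hA (by omega)]
  have h := max_approx (key true) (key false)
  rw [max_add_add_left] at h
  convert h using 2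
  ring

end Pool.Agent.RC.NU
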