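import Pool.Agent.Work.MP_b9e699_co.BD

/-!
# Orientation of the maximisers
-/

open Finset

namespace Pool.Agent.RC

/-- `F` is affine in the left field. -/
lemma F_affine_left (q x y : ℝ) (m : ℕ) (e : Rel) :
    F q m x y e = F q m 0 y e + x * ∑ t ∈ range m, q ^ (t + 1) * bv q y m e t := by
  unfold F
  rw [mul_sum, ← sum_add_distrib]
  refine sum_congr rfl fun t _ => ?_
  unfold av
  ring

/-- `F` is affine in the right field. -/
lemma F_affine_right (q x y : ℝ) (m : ℕ) (e : Rel) :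
    F q m x y e = F q m x 0 e + y * ∑ t ∈ range m, q ^ (m - t) * av q x e t := by
  unfold F
  rw [mul_sum, ← sum_add_distrib]
  refine sum_congr rfl fun t _ => ?_
  unfold bv
  ring

lemma kap_le_one4 {q : ℝ} (hq : 0 < q) (hq4 : q ≤ 1 / 4) : kap q ≤ 1 := by
  unfold kap
  rw [div_le_one (by linarith)]
  linarith

/-- `∑_{t<n} q^(t+2) ≤ q^2/(1-q)`. -/
lemma geom_tail_le {q : ℝ} (hq : 0 < q) (hq1 : q < 1) (n : ℕ) :
    ∑ t ∈ range n, q ^ (t + 2) ≤ q ^ 2 / (1 - q) := by
  have h : ∑ t ∈ range n, q ^ (t + 2) = q ^ 2 * ∑ t ∈ range n, q ^ t := by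
    rw [mul_sum]
    exact sum_congr rfl fun t _ => by ring
  rw [h, div_eq_mul_inv]
  refine mul_le_mul_of_nonneg_left ?_ (by positivity)
  rw [geom_sum_eq (by linarith : q ≠ 1)]
  rw [← neg_sub (1 : ℝ) q, ← neg_sub (1 : ℝ) (q ^ n), neg_div_neg_eq, div_eq_mul_inv]
  have h1 : 0 < (1 - q)⁻¹ := inv_pos.2 (by linarith)
  have h2 : 0 < q ^ n := pow_pos hq n
  nlinarith

lemma key_gap {q : ℝ} (hq : 0 < q) (hq4 : q ≤ 1 / 4) :
    0 < q * (q * kap q) - q ^ 2 / (1 - q) * (q / (1 - q)) := by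
  have h1 : (0 : ℝ) < 1 - q := by linarith
  have h : q * (q * kap q) - q ^ 2 / (1 - q) * (q / (1 - q))
      = q ^ 2 * (1 - 4 * q + 2 * q ^ 2) / (1 - q) ^ 2 := by
    unfold kap
    field_simp
    ring
  rw [h]
  apply div_pos _ (by positivity)
  apply mul_pos (by positivity)
  nlinarith [sq_nonneg q]

lemma dFdx_pos {q y : ℝ} {m : ℕ} (e : Rel) (hq : 0 < q) (hq4 : q ≤ 1 / 4)
    (hy : |y| ≤ kap q) (hm : 2 ≤ m) :
    0 < sg (e 0 1) * ∑ t ∈ range m, q ^ (t + 1) * bv q y m e t := by
  obtain ⟨n, rfl⟩ : ∃ n, m = n + 1 := ⟨m - 1, by omega⟩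
  rw [sum_range_succ' _ n, mul_add]
  have hb0 : q * kap q ≤ sg (e 0 1) * bv q y (n + 1) e 0 := by
    have h := bv_gt (e := e) (m := n + 1) (t := 0) hq (by linarith) hy (by omega)
    have h2 : 0 ≤ 2 * q ^ (n + 1 - 0 + 1) / (1 - q) :=
      div_nonneg (by positivity) (by linarith)
    simpa using le_trans (le_add_of_nonneg_right h2) h
  have hrest : |sg (e 0 1) * ∑ t ∈ range n, q ^ (t + 1 + 1) * bv q y (n + 1) e (t + 1)|
      ≤ q ^ 2 / (1 - q) * (q / (1 - q)) := by
    rw [abs_mul, abs_sg, one_mul]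
    calc |∑ t ∈ range n, q ^ (t + 1 + 1) * bv q y (n + 1) e (t + 1)|
        ≤ ∑ t ∈ range n, |q ^ (t + 1 + 1) * bv q y (n + 1) e (t + 1)| := abs_sum_le_sum_abs _ _
      _ ≤ ∑ t ∈ range n, q ^ (t + 2) * (q / (1 - q)) := by
          refine sum_le_sum fun t ht => ?_
          have ht := mem_range.1 ht
          rw [abs_mul, abs_of_pos (pow_pos hq _)]
          exact mul_le_mul_of_nonneg_left
            (abs_bv_le hq (by linarith) (hy.trans (kap_le_one4 hq hq4)) (by omega))
            (pow_pos hq _).le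
      _ = (∑ t ∈ range n, q ^ (t + 2)) * (q / (1 - q)) := by rw [sum_mul]
      _ ≤ _ := mul_le_mul_of_nonneg_right (geom_tail_le hq (by linarith) n)
          (div_nonneg hq.le (by linarith))
  have h1 := neg_abs_le (sg (e 0 1) * ∑ t ∈ range n, q ^ (t + 1 + 1) * bv q y (n + 1) e (t + 1))
  have h3 : sg (e 0 1) * (q ^ (0 + 1) * bv q y (n + 1) e 0)
      = q * (sg (e 0 1) * bv q y (n + 1) e 0) := by ring
  have h4 := mul_le_mul_of_nonneg_left hb0 hq.le
  have h5 := key_gap hq hq4
  rw [h3]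
  linarith

lemma dFdy_pos {q x : ℝ} {m : ℕ} (e : Rel) (hq : 0 < q) (hq4 : q ≤ 1 / 4)
    (hx : |x| ≤ kap q) (hm : 2 ≤ m) :
    0 < - sg (e (m - 2) (m - 1)) * ∑ t ∈ range m, q ^ (m - t) * av q x e t := by
  have h := dFdx_pos (rev m e) hq hq4 hx hm
  have h1 : ∑ t ∈ range m, q ^ (t + 1) * bv q x m (rev m e) t
      = ∑ t ∈ range m, q ^ (m - t) * av q x e t := by
    rw [← sum_range_reflect (fun t => q ^ (m - t) * av q x e t) m]
    refine sum_congr rfl fun t ht => ?_
    have ht := mem_range.1 ht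
    rw [bv_rev ht]
    congr 2
    omega
  rw [h1] at h
  have h2 : sg (rev m e 0 1) = - sg (e (m - 2) (m - 1)) := by
    unfold rev
    rw [sg_not]
    rfl
  rwa [h2] at h

lemma Alt.parity {m : ℕ} {e : Rel} (hA : Alt m e) :
    ∀ t, t + 1 < m → e t (t + 1) = (if t % 2 = 0 then e 0 1 else !(e 0 1)) := by
  intro t
  induction t with
  | zero => intro _; simp
  | succ t ih =>
    intro ht
    have h1 := ih (by omega)
    have h2 := hA (t + 1) (by omega) (by omega)
    simp only [Nat.add_sub_cancel] at h2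
    rw [h1] at h2
    rcases Nat.mod_two_eq_zero_or_one t with h | h
    · have h' : (t + 1) % 2 = 1 := by omega
      simp only [h, h', if_true] at h2 ⊢
      cases h3 : e (t + 1) (t + 1 + 1) <;> cases h4 : e 0 1 <;> simp_all
    · have h' : (t + 1) % 2 = 0 := by omega
      simp only [h, h', if_true] at h2 ⊢
      cases h3 : e (t + 1) (t + 1 + 1) <;> cases h4 : e 0 1 <;> simp_all

theorem orient {q x y : ℝ} {m : ℕ} {e : Rel} (hq : 0 < q) (hq4 : q ≤ 1 / 4) (hx : |x| ≤ kap q)
    (hy : |y| ≤ kap q) (hm : 2 ≤ m) (hx0 : x + (-1) ^ (m + 1) * y ≠ 0) (hA : Alt m e)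
    (he : IsMax q m x y e) : 0 < sg (e 0 1) * (x + (-1) ^ (m + 1) * y) := by
  by_contra hneg
  have hne : sg (e 0 1) * (x + (-1) ^ (m + 1) * y) ≠ 0 := by
    refine mul_ne_zero ?_ hx0
    rcases sg_eq_or (e 0 1) with h | h <;> rw [h] <;> norm_num
  have hlt : sg (e 0 1) * (x + (-1) ^ (m + 1) * y) < 0 := lt_of_le_of_ne (not_lt.1 hneg) hne
  have hend := hA.parity (m - 2) (by omega)
  have hm1 : m - 2 + 1 = m - 1 := by omega
  rw [hm1] at hend
  rcases Nat.even_or_odd m with hev | hodd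
  · -- `m` even
    have hpow : (-1 : ℝ) ^ (m + 1) = -1 := by
      rw [pow_succ, hev.neg_one_pow]; norm_num
    rw [hpow] at hlt
    have hmod : (m - 2) % 2 = 0 := by
      obtain ⟨k, hk⟩ := hev
      omega
    rw [hmod] at hend
    simp only [if_true] at hend
    set e' := rev m e with he'
    have hFe : F q m y x e' = F q m x y e := F_rev q m x y e
    have h01 : e' 0 1 = !(e 0 1) := by
      rw [he']
      unfold rev
      show (!(e (m - 2) (m - 1))) = _
      rw [hend]
    have hend' : e' (m - 2) (m - 1) = !(e 0 1) := by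
      rw [he']
      unfold rev
      have h1 : m - 1 - (m - 1) = 0 := by omega
      have h2 : m - 1 - (m - 2) = 1 := by omega
      rw [h1, h2]
    have hdx := dFdx_pos e' hq hq4 hy hm
    have hdy := dFdy_pos e' hq hq4 hy hm
    rw [h01, sg_not] at hdx
    rw [hend', sg_not, neg_neg] at hdy
    have h1 := F_affine_left q x y m e'
    have h2 := F_affine_left q y y m e'
    have h3 := F_affine_right q y y m e'
    have h4 := F_affine_right q y x m e'
    have hmax := he e'
    rw [← hFe] at hmax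
    set X := ∑ t ∈ range m, q ^ (t + 1) * bv q y m e' t
    set Y := ∑ t ∈ range m, q ^ (m - t) * av q y e' t
    have h5 : F q m x y e' - F q m y x e' = (x - y) * X + (y - x) * Y := by linarith
    rcases sg_eq_or (e 0 1) with hs | hs
    · rw [hs] at hlt hdx hdy
      nlinarith
    · rw [hs] at hlt hdx hdy
      nlinarith
  · -- `m` odd
    have hpow : (-1 : ℝ) ^ (m + 1) = 1 := by
      rw [pow_succ, hodd.neg_one_pow]; norm_num
    rw [hpow] at hlt
    have hmod : (m - 2) % 2 = 1 := by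
      obtain ⟨k, hk⟩ := hodd
      omega
    rw [hmod] at hend
    simp only [one_ne_zero, if_false] at hend
    set e' := rev m (compl e) with he'
    have hFe : F q m (-y) (-x) e' = F q m x y e := by
      rw [he', F_rev, F_compl]
    have h01 : e' 0 1 = !(e 0 1) := by
      rw [he']
      unfold rev compl
      show (!!(e (m - 2) (m - 1))) = _
      rw [hend, Bool.not_not]
    have hend' : e' (m - 2) (m - 1) = e 0 1 := by
      rw [he']
      unfold rev compl
      have h1 : m - 1 - (m - 1) = 0 := by omega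
      have h2 : m - 1 - (m - 2) = 1 := by omega
      rw [h1, h2, Bool.not_not]
    have hdx := dFdx_pos e' hq hq4 hy hm
    have hdy := dFdy_pos (x := -y) e' hq hq4 (by rwa [abs_neg]) hm
    rw [h01, sg_not] at hdx
    rw [hend'] at hdy
    have h1 := F_affine_left q x y m e'
    have h2 := F_affine_left q (-y) y m e'
    have h3 := F_affine_right q (-y) y m e'
    have h4 := F_affine_right q (-y) (-x) m e'
    have hmax := he e'
    rw [← hFe] at hmax
    set X := ∑ t ∈ range m, q ^ (t + 1) * bv q y m e' t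
    set Y := ∑ t ∈ range m, q ^ (m - t) * av q (-y) e' t
    have h5 : F q m x y e' - F q m (-y) (-x) e' = (x + y) * X + (x + y) * Y := by linarith
    rcases sg_eq_or (e 0 1) with hs | hs
    · rw [hs] at hlt hdx hdy
      nlinarith
    · rw [hs] at hlt hdx hdy
      nlinarith

end Pool.Agent.RC
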