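import Pool.Agent.Work.MP_b9e699_co.Defs

/-!
# Roller Coaster permutations: the definitions of the problem
-/

open Finset

namespace Pool.Agent.RC

variable {m n : ℕ}

/-- the word `w` is increasing on the positions `a, …, b`. -/
def IncOn (w : Fin m → ℕ) (a b : Fin m) : Prop :=
  ∀ r s : Fin m, a ≤ r → r < s → s ≤ b → w r < w s

/-- the word `w` is decreasing on the positions `a, …, b`. -/
def DecOn (w : Fin m → ℕ) (a b : Fin m) : Prop :=
  ∀ r s : Fin m, a ≤ r → r < s → s ≤ b → w s < w r

/-- the block of positions `a, …, b` (`a < b`) is a run of `w`: `w` is monotone on it, and it is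
maximal with this property. -/
def IsRun (w : Fin m → ℕ) (a b : Fin m) : Prop :=
  a < b ∧ (IncOn w a b ∨ DecOn w a b) ∧
    ∀ a' b' : Fin m, a' ≤ a → b ≤ b' → (IncOn w a' b' ∨ DecOn w a' b') → a' = a ∧ b' = b

/-- number of increasing runs. -/
noncomputable def numInc (w : Fin m → ℕ) : ℕ :=
  Set.ncard {p : Fin m × Fin m | IsRun w p.1 p.2 ∧ IncOn w p.1 p.2}

/-- number of decreasing runs. -/
noncomputable def numDec (w : Fin m → ℕ) : ℕ :=
  Set.ncard {p : Fin m × Fin m | IsRun w p.1 p.2 ∧ DecOn w p.1 p.2}

/-- the subsequence of `π` on the index set `S` (in increasing order of the indices). -/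
def subword (π : Equiv.Perm (Fin n)) (S : Finset (Fin n)) : Fin S.card → ℕ :=
  fun r => (π (S.orderEmbOfFin rfl r) : ℕ)

/-- `t(π)`: the number of increasing and decreasing runs, summed over all subsequences of length
at least `3`. -/
noncomputable def tt (π : Equiv.Perm (Fin n)) : ℕ :=
  ∑ S ∈ univ.filter (fun S : Finset (Fin n) => 3 ≤ S.card),
    (numInc (subword π S) + numDec (subword π S))

/-- the set of Roller Coaster permutations. -/
def RCset (n : ℕ) : Set (Equiv.Perm (Fin n)) := {π | ∀ τ : Equiv.Perm (Fin n), tt τ ≤ tt π}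

/-- the relation array of a permutation. -/
def relOf (π : Equiv.Perm (Fin n)) : Rel := fun i j =>
  if h : i < n ∧ j < n then decide (π ⟨j, h.2⟩ < π ⟨i, h.1⟩) else false

end Pool.Agent.RC
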