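import Pool.Agent.Work.MP_b9e699_co.TPDefs

/-! # Top level: basic facts -/

open Finset

namespace Pool.Agent.RC

section basics
variable {n t i j : ℕ} {e : Rel}

lemma kap_half : kap (1 / 2) = 0 := by unfold kap; norm_num

lemma AA_pos (ht : 1 ≤ t) (h : e (t - 1) t = false) : 0 < AA e t := by
  have := av_pos (q := 1 / 2) (x := 0) (e := e) (by norm_num) (le_refl _)
    (by rw [kap_half, abs_zero]) ht h
  rw [kap_half, mul_zero] at this
  exact this

lemma AA_neg (ht : 1 ≤ t) (h : e (t - 1) t = true) : AA e t < 0 := by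
  have := av_neg (q := 1 / 2) (x := 0) (e := e) (by norm_num) (le_refl _)
    (by rw [kap_half, abs_zero]) ht h
  rw [kap_half, mul_zero, neg_zero] at this
  exact this

lemma BB_pos (ht : t + 1 < n) (h : e t (t + 1) = true) : 0 < BB n e t := by
  have := bv_pos (q := 1 / 2) (y := 0) (e := e) (by norm_num) (le_refl _)
    (by rw [kap_half, abs_zero]) ht h
  rw [kap_half, mul_zero] at this
  exact this

lemma BB_neg (ht : t + 1 < n) (h : e t (t + 1) = false) : BB n e t < 0 := by
  have := bv_neg (q := 1 / 2) (y := 0) (e := e) (by norm_num) (le_refl _)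
    (by rw [kap_half, abs_zero]) ht h
  rw [kap_half, mul_zero, neg_zero] at this
  exact this

lemma AA_zero : AA e 0 = 0 := by unfold AA; rw [av_zero]; ring

lemma BB_last' (hn : 1 ≤ n) : BB n e (n - 1) = 0 := by unfold BB; rw [bv_last hn]; ring

lemma BB_end (h : t + 1 = n) : BB n e t = 0 := by
  have := BB_last' (e := e) (n := n) (by omega)
  rwa [show n - 1 = t by omega] at this

lemma AA_eq : AA e t = - ∑ i ∈ range t, (1 / 2 : ℝ) ^ (t - i) * sg (e i t) := by
  unfold AA av; ring

lemma BB_eq : BB n e t = ∑ k ∈ Ico (t + 1) n, (1 / 2 : ℝ) ^ (k - t) * sg (e t k) := by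
  unfold BB bv; ring

/-- if the future value is nonnegative and the position is not the last one, it goes down. -/
lemma true_of_BB_nonneg (ht : t + 1 < n) (h : 0 ≤ BB n e t) : e t (t + 1) = true := by
  by_contra hc
  rw [Bool.not_eq_true] at hc
  exact absurd (BB_neg ht hc) (not_lt.2 h)

lemma false_of_BB_nonpos (ht : t + 1 < n) (h : BB n e t ≤ 0) : e t (t + 1) = false := by
  by_contra hc
  rw [Bool.not_eq_false] at hc
  exact absurd (BB_pos ht hc) (not_lt.2 h)

lemma lt_of_BB_ne (htn : t < n) (h : BB n e t ≠ 0) : t + 1 < n := by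
  by_contra hc
  exact h (BB_end (by omega))

lemma NR.true_of_lt (hr : NR n e) (hij : i + 1 < j) (hj : j < n) (h : BB n e j < AA e i) :
    e i j = true := by
  by_contra hc
  have := hr i j hij hj
  rw [Bool.not_eq_true] at hc
  rw [hc] at this
  simp at this
  linarith

lemma NR.false_of_lt (hr : NR n e) (hij : i + 1 < j) (hj : j < n) (h : AA e i < BB n e j) :
    e i j = false := by
  by_contra hc
  have := hr i j hij hj
  rw [Bool.not_eq_false] at hc
  rw [hc] at this
  simp at this
  linarith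

lemma sum_half_pow {t s m : ℕ} (hs : t + 1 ≤ s) (hm : s ≤ m) :
    ∑ k ∈ Ico s m, (1 / 2 : ℝ) ^ (k - t) = (1 / 2) ^ (s - 1 - t) - (1 / 2) ^ (m - 1 - t) := by
  induction m, hm using Nat.le_induction with
  | base => simp
  | succ m hm ih =>
    rw [sum_Ico_succ_top hm, ih]
    have : m - t = (m - 1 - t) + 1 := by omega
    have h3 : m + 1 - 1 - t = (m - 1 - t) + 1 := by omega
    rw [this, h3, pow_succ]; ring

/-- weighted tail sums from below. -/
lemma tail_ge (f : ℕ → ℝ) {c : ℝ} (hc : 0 ≤ c) {s : ℕ} (hs : t + 1 ≤ s)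
    (hf : ∀ k, s ≤ k → k < n → - c ≤ f k) :
    - c * (1 / 2) ^ (s - 1 - t) ≤ ∑ k ∈ Ico s n, (1 / 2 : ℝ) ^ (k - t) * f k := by
  by_cases hsn : s ≤ n
  · have h1 : ∑ k ∈ Ico s n, (1 / 2 : ℝ) ^ (k - t) * (-c)
        ≤ ∑ k ∈ Ico s n, (1 / 2 : ℝ) ^ (k - t) * f k := by
      refine sum_le_sum fun k hk => ?_
      have := mem_Ico.1 hk
      exact mul_le_mul_of_nonneg_left (hf k this.1 this.2) (by positivity)
    have h2 : ∀ m, s ≤ m → ∑ k ∈ Ico s m, (1 / 2 : ℝ) ^ (k - t)
        = (1 / 2) ^ (s - 1 - t) - (1 / 2) ^ (m - 1 - t) := by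
      intro m hm
      induction m, hm using Nat.le_induction with
      | base => simp
      | succ m hm ih =>
        rw [sum_Ico_succ_top hm, ih]
        have : m - t = (m - 1 - t) + 1 := by omega
        have h3 : m + 1 - 1 - t = (m - 1 - t) + 1 := by omega
        rw [this, h3, pow_succ]; ring
    rw [← sum_mul, h2 n hsn] at h1
    have h3 : 0 ≤ c * (1 / 2 : ℝ) ^ (n - 1 - t) := by positivity
    nlinarith
  · rw [Ico_eq_empty (by omega), sum_empty]
    have : 0 ≤ c * (1 / 2 : ℝ) ^ (s - 1 - t) := by positivity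
    linarith

lemma peel (f : ℕ → ℝ) {s : ℕ} (hs : s < n) :
    ∑ k ∈ Ico s n, f k = f s + ∑ k ∈ Ico (s + 1) n, f k :=
  sum_eq_sum_Ico_succ_bot hs f

/-- a peak has future value at least `1/8`. -/
lemma peak_bound (hI : Iso n e) (hr : NR n e) (hj : j + 1 < n) (h : e j (j + 1) = true)
    (hA : 0 < AA e j) : 1 / 8 ≤ BB n e j := by
  rw [BB_eq, peel _ hj, h]
  have e1 : j + 1 - j = 1 := by omega
  rw [e1]
  by_cases h2 : j + 2 < n
  swap
  · rw [Ico_eq_empty (by omega), sum_empty]; norm_num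
  rw [peel _ h2, show j + 1 + 1 - j = 2 by omega]
  have s2 := neg_one_le_sg (e j (j + 1 + 1))
  by_cases h3 : j + 3 < n
  swap
  · rw [Ico_eq_empty (by omega), sum_empty, sg_true]
    nlinarith
  rw [peel _ h3, show j + 1 + 1 + 1 - j = 3 by omega]
  have s3 := neg_one_le_sg (e j (j + 1 + 1 + 1))
  by_cases h4 : j + 4 < n
  swap
  · rw [Ico_eq_empty (by omega), sum_empty, sg_true]
    nlinarith
  rw [peel _ h4, show j + 1 + 1 + 1 + 1 - j = 4 by omega]
  have s4 := neg_one_le_sg (e j (j + 1 + 1 + 1 + 1))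
  have ht : -1 * (1 / 2 : ℝ) ^ (j + 5 - 1 - j)
      ≤ ∑ k ∈ Ico (j + 1 + 1 + 1 + 1 + 1) n, (1 / 2 : ℝ) ^ (k - j) * sg (e j k) := by
    exact tail_ge (fun k => sg (e j k)) (by norm_num) (by omega)
      (fun k _ _ => neg_one_le_sg _)
  rw [show j + 5 - 1 - j = 4 by omega] at ht
  have key : e j (j + 2) = true ∨ e j (j + 3) = true ∨ e j (j + 4) = true := by
    by_contra hc
    push Not at hc
    obtain ⟨c2, c3, c4⟩ := hc
    have b2 : 0 < BB n e (j + 2) := by
      by_contra hb
      exact c2 (hr.true_of_lt (by omega) h2 (by linarith))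
    have b3 : 0 < BB n e (j + 3) := by
      by_contra hb
      exact c3 (hr.true_of_lt (by omega) h3 (by linarith))
    have b4 : 0 < BB n e (j + 4) := by
      by_contra hb
      exact c4 (hr.true_of_lt (by omega) h4 (by linarith))
    have hn : j + 5 < n := lt_of_BB_ne h4 b4.ne'
    have t2 := true_of_BB_nonneg (by omega) b2.le
    have t3 := true_of_BB_nonneg (by omega) b3.le
    have t4 := true_of_BB_nonneg (by omega) b4.le
    have := hI (j + 3) (by omega) (by omega)
    apply this
    rw [show j + 3 - 1 = j + 2 by omega]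
    exact ⟨t2.trans t3.symm, t3.trans t4.symm⟩
  rw [sg_true]
  rcases key with k | k | k
  · have k' : e j (j + 1 + 1) = true := k
    rw [k', sg_true]
    nlinarith
  · have k' : e j (j + 1 + 1 + 1) = true := k
    rw [k', sg_true]
    nlinarith
  · have k' : e j (j + 1 + 1 + 1 + 1) = true := k
    rw [k', sg_true]
    nlinarith

lemma abs_add_sg_nonneg (b : Bool) (v : ℝ) : 0 ≤ |v| + sg b * v := by
  cases b
  · simp; exact le_abs_self v
  · simp; have := neg_abs_le v; linarith

lemma abs_sub_sg_nonneg (b : Bool) (v : ℝ) : 0 ≤ |v| - sg b * v := by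
  cases b
  · simp; have := neg_abs_le v; linarith
  · simp; exact le_abs_self v

end basics

end Pool.Agent.RC
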