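import Pool.Agent.Work.MP_b9e699_co.TPB

/-! # Top level: the cost of removing a slope next to the left end -/

open Finset

namespace Pool.Agent.RC

variable {n t j k : ℕ} {e : Rel} {w a : ℝ}

/-- normalised term of the cost. -/
noncomputable def Gt (w a : ℝ) (n t : ℕ) (e : Rel) (j : ℕ) : ℝ :=
  - w * sg (e t j) + (|BB n e j + a| + sg (e t j) * (BB n e j + a))

lemma Gt_ge (hw : 0 ≤ w) : - w ≤ Gt w a n t e j := by
  unfold Gt
  have h1 := abs_add_sg_nonneg (e t j) (BB n e j + a)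
  have h2 := sg_le_one (e t j)
  nlinarith

lemma Gt_false (h : e t j = false) : w ≤ Gt w a n t e j := by
  unfold Gt
  have h1 := abs_add_sg_nonneg (e t j) (BB n e j + a)
  rw [h] at h1 ⊢
  simp at h1 ⊢
  linarith

lemma Gt_true (h : e t j = true) : - w + 2 * (BB n e j + a) ≤ Gt w a n t e j := by
  unfold Gt
  have h1 := le_abs_self (BB n e j + a)
  rw [h]
  simp
  linarith

lemma sum_Gt (w a : ℝ) (n t : ℕ) (e : Rel) :
    ∑ j ∈ Ico (t + 1) n, (1 / 2 : ℝ) ^ (j - t) * (|BB n e j + a| + sg (e t j) * (BB n e j + a))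
      = w * BB n e t + ∑ j ∈ Ico (t + 1) n, (1 / 2 : ℝ) ^ (j - t) * Gt w a n t e j := by
  rw [BB_eq (t := t), mul_sum, ← sum_add_distrib]
  refine sum_congr rfl fun j _ => ?_
  unfold Gt
  ring

/-- general lower bound of the cost through the `Gt` (past terms are kept). -/
lemma Pc_eq (w : ℝ) : Pc n t e = AA e t / 2 + (w - (1 + AA e t) / 2) * BB n e t
    + ∑ i ∈ range t, (1 / 2 : ℝ) ^ (t - i)
        * (|AA e i - tb n t e| - sg (e i t) * (AA e i - tb n t e))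
    + ∑ j ∈ Ico (t + 1) n, (1 / 2 : ℝ) ^ (j - t) * Gt w (ta t e) n t e j := by
  unfold Pc
  rw [sum_Gt w]
  ring

lemma past_nonneg (c : ℝ) :
    0 ≤ ∑ i ∈ range t, (1 / 2 : ℝ) ^ (t - i) * (|AA e i - c| - sg (e i t) * (AA e i - c)) :=
  sum_nonneg fun i _ => mul_nonneg (by positivity) (abs_sub_sg_nonneg _ _)

lemma AA_one (h0 : e 0 1 = false) : AA e 1 = 1 / 2 := by
  rw [AA_eq, sum_range_one, h0]; norm_num

/-- start of both estimates. -/
lemma cost_left_start (hn : 4 ≤ n) (h0 : e 0 1 = false) (h1 : e 1 2 = false) :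
    5 / 8 + ∑ j ∈ Ico 3 n, (1 / 2 : ℝ) ^ (j - 1) * Gt (3 / 4) (1 / 4) n 1 e j ≤ Pc n 1 e := by
  rw [Pc_eq (3 / 4), AA_one h0]
  have hta : ta 1 e = 1 / 4 := by unfold ta; rw [AA_one h0]; norm_num
  rw [hta, peel (n := n) (s := 1 + 1) _ (by omega)]
  have hp := past_nonneg (t := 1) (e := e) (tb n 1 e)
  have hg := Gt_false (w := 3 / 4) (a := 1 / 4) (n := n) (t := 1) (e := e) (j := 2) h1
  have h3 : (1 + 1 : ℕ) + 1 = 3 := rfl
  have h4 : (1 + 1 : ℕ) - 1 = 1 := rfl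
  rw [h3, h4]
  have h5 : (3 / 4 - (1 + 1 / 2) / 2 : ℝ) = 0 := by norm_num
  rw [h5]
  have hg' : 3 / 4 ≤ Gt (3 / 4) (1 / 4) n 1 e (1 + 1) := hg
  nlinarith

lemma Gt_left_nonneg (hB : 0 ≤ BB n e j) : - (1 / 4) ≤ Gt (3 / 4) (1 / 4) n 1 e j := by
  cases h : e 1 j
  · have := Gt_false (w := 3 / 4) (a := 1 / 4) (n := n) h; linarith
  · have := Gt_true (w := 3 / 4) (a := 1 / 4) (n := n) h; linarith

lemma tail_Gt (hw : 0 ≤ w) {s : ℕ} (hs : t + 1 ≤ s) :
    - w * (1 / 2) ^ (s - 1 - t) ≤ ∑ j ∈ Ico s n, (1 / 2 : ℝ) ^ (j - t) * Gt w a n t e j :=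
  tail_ge _ hw hs (fun _ _ _ => Gt_ge hw)

theorem cost_left (hn : 4 ≤ n) (hI : Iso n e)
    (h0 : e 0 1 = false) (h1 : e 1 2 = false) : 9 / 32 ≤ Pc n 1 e := by
  have hs := cost_left_start hn h0 h1
  rw [peel _ (by omega : 3 < n)] at hs
  have t4 : - (3 / 4) * (1 / 2 : ℝ) ^ (4 - 1 - 1)
      ≤ ∑ j ∈ Ico (3 + 1) n, (1 / 2 : ℝ) ^ (j - 1) * Gt (3 / 4) (1 / 4) n 1 e j :=
    tail_Gt (by norm_num) (by omega)
  have g3 := Gt_ge (w := 3 / 4) (a := 1 / 4) (n := n) (t := 1) (e := e) (j := 3) (by norm_num)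
  norm_num at t4 hs
  by_cases b3 : 0 ≤ BB n e 3
  · have := Gt_left_nonneg b3
    linarith
  push Not at b3
  have h4n : 3 + 1 < n := lt_of_BB_ne (by omega) b3.ne
  have e34 := false_of_BB_nonpos h4n b3.le
  rw [peel _ (by omega : 4 < n)] at hs
  have t5 : - (3 / 4) * (1 / 2 : ℝ) ^ (5 - 1 - 1)
      ≤ ∑ j ∈ Ico (4 + 1) n, (1 / 2 : ℝ) ^ (j - 1) * Gt (3 / 4) (1 / 4) n 1 e j :=
    tail_Gt (by norm_num) (by omega)
  have g4 := Gt_ge (w := 3 / 4) (a := 1 / 4) (n := n) (t := 1) (e := e) (j := 4) (by norm_num)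
  norm_num at t5 hs
  by_cases b4 : 0 ≤ BB n e 4
  · have := Gt_left_nonneg b4
    linarith
  push Not at b4
  have h5n : 4 + 1 < n := lt_of_BB_ne (by omega) b4.ne
  have e45 := false_of_BB_nonpos h5n b4.le
  rw [peel _ (by omega : 5 < n)] at hs
  have t6 : - (3 / 4) * (1 / 2 : ℝ) ^ (6 - 1 - 1)
      ≤ ∑ j ∈ Ico (5 + 1) n, (1 / 2 : ℝ) ^ (j - 1) * Gt (3 / 4) (1 / 4) n 1 e j :=
    tail_Gt (by norm_num) (by omega)
  have b5 : 0 ≤ BB n e 5 := by
    by_contra hb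
    push Not at hb
    have h6n : 5 + 1 < n := lt_of_BB_ne (by omega) hb.ne
    have e56 := false_of_BB_nonpos h6n hb.le
    exact hI 4 (by omega) (by omega) ⟨e34.trans e45.symm, e45.trans e56.symm⟩
  have := Gt_left_nonneg b5
  norm_num at t6 hs
  linarith

/-- with a single slope the word alternates elsewhere. -/
lemma unique_slope (h : nsl n e = 1) {t : ℕ} (ht : 1 ≤ t) (htn : t + 1 < n)
    (hs : e (t - 1) t = e t (t + 1)) {i : ℕ} (hi : 1 ≤ i) (hin : i + 1 < n) (hne : i ≠ t) :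
    e (i - 1) i ≠ e i (i + 1) := by
  intro hc
  unfold nsl at h
  rw [card_eq_one] at h
  obtain ⟨c, hc'⟩ := h
  have m1 : t ∈ (Ico 1 (n - 1)).filter (fun t => e (t - 1) t = e t (t + 1)) := by
    rw [mem_filter, mem_Ico]; exact ⟨⟨ht, by omega⟩, hs⟩
  have m2 : i ∈ (Ico 1 (n - 1)).filter (fun t => e (t - 1) t = e t (t + 1)) := by
    rw [mem_filter, mem_Ico]; exact ⟨⟨hi, by omega⟩, hc⟩
  rw [hc', mem_singleton] at m1 m2
  exact hne (m2.trans m1.symm)

theorem cost_left_one (hn : 4 ≤ n) (h : Cls 1 n e) (hr : NR n e)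
    (h0 : e 0 1 = false) (h1 : e 1 2 = false) : pi1 n ≤ Pc n 1 e := by
  have hs := cost_left_start hn h0 h1
  have hu := fun i (hi : 1 ≤ i) (hin : i + 1 < n) (hne : i ≠ 1) =>
    unique_slope h.2 (t := 1) (le_refl _) (by omega) (h0.trans h1.symm) hi hin hne
  rw [peel _ (by omega : 3 < n)] at hs
  have g3 := Gt_ge (w := 3 / 4) (a := 1 / 4) (n := n) (t := 1) (e := e) (j := 3) (by norm_num)
  unfold pi1
  by_cases hn4 : n = 4
  · subst hn4
    rw [if_pos rfl]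
    rw [Ico_self, sum_empty] at hs
    have b3 : BB 4 e 3 = 0 := BB_end (by norm_num)
    have := Gt_left_nonneg (n := 4) (e := e) (j := 3) (by rw [b3])
    norm_num at hs
    linarith
  rw [if_neg hn4]
  rw [peel _ (by omega : 4 < n)] at hs
  by_cases hn5 : n = 5
  · subst hn5
    rw [if_pos rfl]
    rw [Ico_self, sum_empty] at hs
    have b4 : BB 5 e 4 = 0 := BB_end (by norm_num)
    have := Gt_left_nonneg (n := 5) (e := e) (j := 4) (by rw [b4])
    norm_num at hs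
    linarith
  rw [if_neg hn5]
  have t5 : - (3 / 4) * (1 / 2 : ℝ) ^ (5 - 1 - 1)
      ≤ ∑ j ∈ Ico (4 + 1) n, (1 / 2 : ℝ) ^ (j - 1) * Gt (3 / 4) (1 / 4) n 1 e j :=
    tail_Gt (by norm_num) (by omega)
  have u2 := hu 2 (by omega) (by omega) (by omega)
  have u3 := hu 3 (by omega) (by omega) (by omega)
  have u4 := hu 4 (by omega) (by omega) (by omega)
  norm_num at u2 u3 u4
  have e23 : e 2 3 = true := by rw [h1] at u2; revert u2; cases e 2 3 <;> simp
  have e34 : e 3 4 = false := by rw [e23] at u3; revert u3; cases e 3 4 <;> simp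
  have e45 : e 4 5 = true := by rw [e34] at u4; revert u4; cases e 4 5 <;> simp
  have hA : 0 < AA e 4 := AA_pos (by omega) e34
  have hb := peak_bound h.1 hr (j := 4) (by omega) e45 hA
  have g4 : 0 ≤ Gt (3 / 4) (1 / 4) n 1 e 4 := by
    cases hc : e 1 4
    · have := Gt_false (w := 3 / 4) (a := 1 / 4) (n := n) hc; linarith
    · have := Gt_true (w := 3 / 4) (a := 1 / 4) (n := n) hc; linarith
  norm_num at t5 hs
  linarith

end Pool.Agent.RC
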