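import Pool.Agent.Work.MP_b9e699_co.TPC

/-! # Top level: the past of the leftmost slope -/

open Finset

namespace Pool.Agent.RC

variable {n t i j k : ℕ} {e : Rel}

lemma sum_pow_past (f : ℕ → ℝ) {s t : ℕ} (hs : s ≤ t) :
    ∑ k ∈ range s, (1 / 2 : ℝ) ^ (t - k) * f k = (1 / 2) ^ t * ∑ k ∈ range s, 2 ^ k * f k := by
  rw [mul_sum]
  refine sum_congr rfl fun k hk => ?_
  have hk := mem_range.1 hk
  have h1 : (1 / 2 : ℝ) ^ t * 2 ^ k = (1 / 2) ^ (t - k) := by
    have : t = (t - k) + k := by omega
    conv_lhs => rw [this]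
    rw [pow_add, mul_assoc, ← mul_pow]; norm_num
  rw [← h1]; ring

lemma half_pow_mul_two_pow (t : ℕ) : (1 / 2 : ℝ) ^ t * 2 ^ t = 1 := by
  rw [← mul_pow]; norm_num

/-- weighted past sums from below. -/
lemma past_ge (f : ℕ → ℝ) {c : ℝ} (hc : 0 ≤ c) {s t : ℕ} (hs : s ≤ t) (hf : ∀ k, k < s → - c ≤ f k) :
    - c * (1 / 2) ^ (t - s) ≤ ∑ k ∈ range s, (1 / 2 : ℝ) ^ (t - k) * f k := by
  have h1 : ∑ k ∈ range s, (1 / 2 : ℝ) ^ (t - k) * (-c)
      ≤ ∑ k ∈ range s, (1 / 2 : ℝ) ^ (t - k) * f k := by
    refine sum_le_sum fun k hk => ?_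
    exact mul_le_mul_of_nonneg_left (hf k (mem_range.1 hk)) (by positivity)
  have h2 : ∀ m, m ≤ t → ∑ k ∈ range m, (1 / 2 : ℝ) ^ (t - k) = (1 / 2) ^ (t - m) - (1 / 2) ^ t := by
    intro m
    induction m with
    | zero => intro _; simp
    | succ m ih =>
      intro hm
      rw [sum_range_succ, ih (by omega)]
      have : t - m = (t - (m + 1)) + 1 := by omega
      rw [this, pow_succ]; ring
  rw [← sum_mul, h2 s hs] at h1
  have h3 : 0 ≤ c * (1 / 2 : ℝ) ^ t := by positivity
  nlinarith

section past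

lemma past_type (hl : ∀ i, 1 ≤ i → i < t → e (i - 1) i ≠ e i (i + 1))
    (h0 : e (t - 1) t = false) : ∀ d, d < t → e (t - 1 - d) (t - d) = decide (d % 2 = 1) := by
  intro d
  induction d with
  | zero => intro _; simpa using h0
  | succ d ih =>
    intro hd
    have h1 := ih (by omega)
    have h2 := hl (t - 1 - d) (by omega) (by omega)
    rw [show t - 1 - d + 1 = t - d by omega, h1,
      show t - 1 - d - 1 = t - 1 - (d + 1) by omega] at h2
    have h3 : t - (d + 1) = t - 1 - d := by omega
    rw [h3]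
    rcases Nat.mod_two_eq_zero_or_one d with h | h
    · have h4 : (d + 1) % 2 = 1 := by omega
      rw [h4]
      rw [h] at h2
      revert h2
      cases e (t - 1 - (d + 1)) (t - 1 - d) <;> simp
    · have h4 : (d + 1) % 2 = 0 := by omega
      rw [h4]
      rw [h] at h2
      revert h2
      cases e (t - 1 - (d + 1)) (t - 1 - d) <;> simp

lemma past_valley (hl : ∀ i, 1 ≤ i → i < t → e (i - 1) i ≠ e i (i + 1))
    (h0 : e (t - 1) t = false) (hi : 1 ≤ i) (hit : i < t) (hp : i % 2 ≠ t % 2) :
    e (i - 1) i = true ∧ e i (i + 1) = false := by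
  have h1 := past_type hl h0 (t - i) (by omega)
  have h2 := past_type hl h0 (t - 1 - i) (by omega)
  rw [show t - 1 - (t - i) = i - 1 by omega, show t - (t - i) = i by omega] at h1
  rw [show t - 1 - (t - 1 - i) = i by omega, show t - (t - 1 - i) = i + 1 by omega] at h2
  rw [h1, h2]
  constructor
  · rw [decide_eq_true_eq]; omega
  · rw [decide_eq_false_iff_not]; omega

lemma past_peak (hl : ∀ i, 1 ≤ i → i < t → e (i - 1) i ≠ e i (i + 1))
    (h0 : e (t - 1) t = false) (hi : 1 ≤ i) (hit : i < t) (hp : i % 2 = t % 2) :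
    e (i - 1) i = false ∧ e i (i + 1) = true := by
  have h1 := past_type hl h0 (t - i) (by omega)
  have h2 := past_type hl h0 (t - 1 - i) (by omega)
  rw [show t - 1 - (t - i) = i - 1 by omega, show t - (t - i) = i by omega] at h1
  rw [show t - 1 - (t - 1 - i) = i by omega, show t - (t - 1 - i) = i + 1 by omega] at h2
  rw [h1, h2]
  constructor
  · rw [decide_eq_false_iff_not]; omega
  · rw [decide_eq_true_eq]; omega

/-- valleys before the leftmost slope are deep. -/
lemma valley_bound (hr : NR n e) (htn : t < n)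
    (hl : ∀ i, 1 ≤ i → i < t → e (i - 1) i ≠ e i (i + 1))
    (h0 : e (t - 1) t = false) (hi : 1 ≤ i) (hit : i < t) (hp : i % 2 ≠ t % 2) :
    AA e i ≤ - (1 / 3) := by
  obtain ⟨v1, v2⟩ := past_valley hl h0 hi hit hp
  have hB : BB n e i < 0 := BB_neg (by omega) v2
  have htrue : ∀ k, k < i → (k = 0 ∨ k % 2 ≠ i % 2) → e k i = true := by
    intro k hk hc
    by_cases hadj : k + 1 = i
    · have : k = i - 1 := by omega
      rw [this]; exact v1
    · apply hr.true_of_lt (by omega) (by omega)
      rcases Nat.eq_zero_or_pos k with h | h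
      · rw [h, AA_zero]; exact hB
      · have := past_peak hl h0 h (by omega) (by omega : k % 2 = t % 2)
        have := AA_pos h this.1
        linarith
  have hS : ∀ s, 1 ≤ s → s ≤ i →
      (if s % 2 = i % 2 then (2 : ℝ) ^ s / 3 else - (2 ^ s / 3))
        ≤ ∑ k ∈ range s, 2 ^ k * sg (e k i) := by
    intro s hs
    induction s, hs using Nat.le_induction with
    | base =>
      intro h1
      rw [sum_range_one, htrue 0 (by omega) (Or.inl rfl)]
      split_ifs <;> norm_num
    | succ s hs ih =>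
      intro h1
      have h2 := ih (by omega)
      rw [sum_range_succ]
      have hpow : (0 : ℝ) < 2 ^ s := by positivity
      by_cases hc : s % 2 = i % 2
      · rw [if_pos hc] at h2
        rw [if_neg (by omega), pow_succ]
        have := neg_one_le_sg (e s i)
        nlinarith
      · rw [if_neg hc] at h2
        rw [if_pos (by omega), pow_succ, htrue s (by omega) (Or.inr hc), sg_true]
        linarith
  have h3 := hS i hi (le_refl _)
  rw [if_pos rfl] at h3
  rw [AA_eq, sum_pow_past _ (le_refl _)]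
  have h4 := half_pow_mul_two_pow i
  have h5 : (0 : ℝ) < (1 / 2) ^ i := by positivity
  have h6 : (1 / 2 : ℝ) ^ i * (2 ^ i / 3)
      ≤ (1 / 2 : ℝ) ^ i * ∑ k ∈ range i, 2 ^ k * sg (e k i) :=
    mul_le_mul_of_nonneg_left h3 h5.le
  have h7 : (1 / 2 : ℝ) ^ i * (2 ^ i / 3) = 1 / 3 := by
    rw [← mul_div_assoc, h4]
  linarith

/-- exact value of the past of the leftmost slope if the future is small. -/
lemma past_exact (hr : NR n e) (ht : 2 ≤ t) (htn : t + 1 < n)
    (hl : ∀ i, 1 ≤ i → i < t → e (i - 1) i ≠ e i (i + 1))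
    (h0 : e (t - 1) t = false) (h1 : e t (t + 1) = false) (hy : - (1 / 3) < BB n e t) :
    e 0 t = true ∧
    AA e t = 1 / 3 - (if t % 2 = 1 then 5 / 3 else 1 / 3) * (1 / 2 : ℝ) ^ t := by
  have hB : BB n e t < 0 := BB_neg htn h1
  have htrue : ∀ k, k < t → (k = 0 ∨ k % 2 = t % 2) → e k t = true := by
    intro k hk hc
    apply hr.true_of_lt (by omega) (by omega)
    rcases Nat.eq_zero_or_pos k with h | h
    · rw [h, AA_zero]; exact hB
    · have := past_peak hl h0 h (by omega) (by omega : k % 2 = t % 2)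
      have := AA_pos h this.1
      linarith
  have hfalse : ∀ k, 1 ≤ k → k < t → k % 2 ≠ t % 2 → e k t = false := by
    intro k hk hkt hc
    by_cases hadj : k + 1 = t
    · have : k = t - 1 := by omega
      rw [this]; exact h0
    · apply hr.false_of_lt (by omega) (by omega)
      have := valley_bound hr (by omega) hl h0 hk hkt hc
      linarith
  refine ⟨htrue 0 (by omega) (Or.inl rfl), ?_⟩
  have hS : ∀ s, 1 ≤ s → s ≤ t →
      ∑ k ∈ range s, 2 ^ k * sg (e k t)
        = (if s % 2 = t % 2 then - (1 / 3 : ℝ) else 1 / 3) * 2 ^ s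
          + (if t % 2 = 1 then 5 / 3 else 1 / 3) := by
    intro s hs
    induction s, hs using Nat.le_induction with
    | base =>
      intro h1
      rw [sum_range_one, htrue 0 (by omega) (Or.inl rfl)]
      rcases Nat.mod_two_eq_zero_or_one t with h | h
      · rw [h]; norm_num
      · rw [h]; norm_num
    | succ s hs ih =>
      intro h1
      have h2 := ih (by omega)
      rw [sum_range_succ, h2]
      by_cases hc : s % 2 = t % 2
      · rw [if_pos hc, if_neg (by omega : ¬ (s + 1) % 2 = t % 2),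
          htrue s (by omega) (Or.inr hc), sg_true, pow_succ]
        ring
      · rw [if_neg hc, if_pos (by omega : (s + 1) % 2 = t % 2),
          hfalse s (by omega) (by omega) hc, sg_false, pow_succ]
        ring
  have h3 := hS t (by omega) (le_refl _)
  rw [if_pos rfl] at h3
  rw [AA_eq, sum_pow_past _ (le_refl _), h3]
  have h4 := half_pow_mul_two_pow t
  linear_combination (1 / 3) * h4

end past

/-! ### large future -/

/-- normalised past term of the cost. -/
noncomputable def Ht (n t : ℕ) (e : Rel) (i : ℕ) : ℝ :=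
  - ((1 - BB n e t) / 2) * sg (e i t)
    + (|AA e i - tb n t e| - sg (e i t) * (AA e i - tb n t e))

lemma Ht_ge (hB : BB n e t ≤ 1) : - ((1 - BB n e t) / 2) ≤ Ht n t e i := by
  unfold Ht
  have h1 := abs_sub_sg_nonneg (e i t) (AA e i - tb n t e)
  have h2 := sg_le_one (e i t)
  nlinarith

lemma Ht_false (h : e i t = false) : (1 - BB n e t) / 2 ≤ Ht n t e i := by
  unfold Ht
  have h1 := abs_sub_sg_nonneg (e i t) (AA e i - tb n t e)
  rw [h] at h1 ⊢
  simp only [sg_false] at h1 ⊢
  linarith

lemma Ht_true (h : e i t = true) :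
    - ((1 - BB n e t) / 2) + 2 * (tb n t e - AA e i) ≤ Ht n t e i := by
  unfold Ht
  have h1 := neg_abs_le (AA e i - tb n t e)
  rw [h]
  simp only [sg_true]
  linarith

lemma Pc_ge_Ht : - BB n e t / 2 + ∑ i ∈ range t, (1 / 2 : ℝ) ^ (t - i) * Ht n t e i ≤ Pc n t e := by
  unfold Pc Ht
  have h1 : 0 ≤ ∑ j ∈ Ico (t + 1) n,
        (1 / 2 : ℝ) ^ (j - t) * (|BB n e j + ta t e| + sg (e t j) * (BB n e j + ta t e)) :=
    sum_nonneg fun i _ => mul_nonneg (by positivity) (abs_add_sg_nonneg _ _)
  have h2 : ∑ i ∈ range t, (1 / 2 : ℝ) ^ (t - i) * (- ((1 - BB n e t) / 2) * sg (e i t)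
      + (|AA e i - tb n t e| - sg (e i t) * (AA e i - tb n t e)))
      = ((1 - BB n e t) / 2) * AA e t + ∑ i ∈ range t, (1 / 2 : ℝ) ^ (t - i)
        * (|AA e i - tb n t e| - sg (e i t) * (AA e i - tb n t e)) := by
    rw [AA_eq (t := t), mul_neg, mul_sum, ← sum_neg_distrib, ← sum_add_distrib]
    refine sum_congr rfl fun i _ => by ring
  rw [h2]
  linarith

theorem cost_y (hr : NR n e) (ht : 2 ≤ t) (htn : t + 1 < n)
    (hl : ∀ i, 1 ≤ i → i < t → e (i - 1) i ≠ e i (i + 1))
    (h0 : e (t - 1) t = false) (_h1 : e t (t + 1) = false) (hy : BB n e t ≤ - (1 / 3)) :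
    1 / 3 ≤ Pc n t e := by
  have hP := Pc_ge_Ht (n := n) (t := t) (e := e)
  have hB1 : BB n e t ≤ 1 := by linarith
  have hzero : e 0 t = true := by
    apply hr.true_of_lt (by omega) (by omega)
    rw [AA_zero]; linarith
  have hH0 := Ht_true (n := n) hzero
  rw [AA_zero] at hH0
  have htb : tb n t e = (1 + BB n e t) / 2 := rfl
  rw [htb] at hH0
  obtain ⟨m, hm⟩ : ∃ m, t = m + 2 := ⟨t - 2, by omega⟩
  rcases m with _ | _ | m
  · -- t = 2
    subst hm
    rw [sum_range_succ, sum_range_one] at hP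
    have hH1 := Ht_false (n := n) (i := 1) h0
    norm_num at hP
    linarith
  · -- t = 3
    subst hm
    rw [sum_range_succ, sum_range_succ, sum_range_one] at hP
    have hH2 := Ht_false (n := n) (i := 2) h0
    have hH1 := Ht_ge (i := 1) hB1
    norm_num at hP
    linarith
  · -- t = m + 4
    have hm' : t = m + 4 := by omega
    clear hm
    subst hm'
    rw [sum_range_succ, sum_range_succ, sum_range_succ] at hP
    have hH3 := Ht_false (n := n) (i := m + 3) (t := m + 4) h0
    have hH2 := Ht_ge (i := m + 2) hB1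
    have hH1 : 7 / 6 + (3 / 2) * BB n e (m + 4) ≤ Ht n (m + 4) e (m + 1) := by
      have hv := valley_bound hr (by omega) hl h0 (i := m + 1) (by omega) (by omega) (by omega)
      cases hc : e (m + 1) (m + 4)
      · have := Ht_false (n := n) hc
        linarith
      · have := Ht_true (n := n) hc
        have htb : tb n (m + 4) e = (1 + BB n e (m + 4)) / 2 := rfl
        rw [htb] at this
        linarith
    have hrest := past_ge (fun i => Ht n (m + 4) e i) (c := (1 - BB n e (m + 4)) / 2)
      (by linarith) (s := m + 1) (t := m + 4) (by omega) (fun k _ => Ht_ge hB1)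
    have e1 : m + 4 - (m + 1) = 3 := by omega
    have e2 : m + 4 - (m + 2) = 2 := by omega
    have e3 : m + 4 - (m + 3) = 1 := by omega
    rw [e1, e2, e3] at hP
    rw [e1] at hrest
    norm_num at hP hrest
    norm_num at hH1 hH2 hH3
    linarith

end Pool.Agent.RC
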