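import Pool.Agent.Work.MP_b9e699_co.TPD1

/-! # Top level: the cost of the removal of the leftmost slope, `2 ≤ t`, `t + 2 < n` -/

open Finset

namespace Pool.Agent.RC

variable {n t i j k : ℕ} {e : Rel}

lemma Pc_start {w ε : ℝ} (hz : e 0 t = true) (ht : 1 ≤ t) (hε : ε = (1 / 2) ^ t)
    (hw : w = (1 + AA e t) / 2 - ε) :
    AA e t / 2 + ε + ∑ j ∈ Ico (t + 1) n, (1 / 2 : ℝ) ^ (j - t) * Gt w (ta t e) n t e j
      ≤ Pc n t e := by
  rw [Pc_eq w]
  have h1 : ε * (1 + BB n e t) ≤ ∑ i ∈ range t, (1 / 2 : ℝ) ^ (t - i)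
        * (|AA e i - tb n t e| - sg (e i t) * (AA e i - tb n t e)) := by
    obtain ⟨s, rfl⟩ : ∃ s, t = s + 1 := ⟨t - 1, by omega⟩
    rw [sum_range_succ']
    have h2 : 0 ≤ ∑ k ∈ range s, (1 / 2 : ℝ) ^ (s + 1 - (k + 1))
        * (|AA e (k + 1) - tb n (s + 1) e| - sg (e (k + 1) (s + 1)) *
          (AA e (k + 1) - tb n (s + 1) e)) :=
      sum_nonneg fun i _ => mul_nonneg (by positivity) (abs_sub_sg_nonneg _ _)
    rw [hz, AA_zero, Nat.sub_zero, ← hε, sg_true]
    have h3 : tb n (s + 1) e = (1 + BB n e (s + 1)) / 2 := rfl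
    have h4 := le_abs_self (tb n (s + 1) e)
    have h5 : |0 - tb n (s + 1) e| = |tb n (s + 1) e| := by rw [zero_sub, abs_neg]
    rw [h5]
    have h6 : 0 < ε := by rw [hε]; positivity
    have h7 : ε * (1 + BB n e (s + 1)) ≤ ε * (|tb n (s + 1) e| - 1 * (0 - tb n (s + 1) e)) := by
      apply mul_le_mul_of_nonneg_left _ h6.le
      rw [h3] at h4 ⊢
      linarith
    linarith
  have h8 : (w - (1 + AA e t) / 2) * BB n e t = - ε * BB n e t := by rw [hw]; ring
  rw [h8]
  linarith

/-- the main estimate of the future sum. -/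
lemma future_main {w z ε : ℝ} (hI : Iso n e) (hr : NR n e) (ht : 2 ≤ t) (htn : t + 2 < n)
    (hR : ¬ (e (n - 3) (n - 2) = e (n - 2) (n - 1)))
    (h0 : e (t - 1) t = false) (h1 : e t (t + 1) = false)
    (hz : z = AA e t) (hε : 0 < ε) (hw : w = (1 + z) / 2 - ε)
    (hz1 : z ≤ 1 / 3) (hz2 : 1 / 8 ≤ z) (hε1 : (1 - 3 * z) / 5 ≤ ε) (hε2 : ε ≤ 1 / 4)
    (hε3 : ε ≤ z) :
    13 / 50 ≤ z / 2 + ε
      + ∑ j ∈ Ico (t + 1) n, (1 / 2 : ℝ) ^ (j - t) * Gt w ((1 - z) / 2) n t e j := by
  have hw0 : 0 ≤ w := by rw [hw]; linarith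
  set a : ℝ := (1 - z) / 2 with ha
  -- first terms
  rw [peel _ (by omega : t + 1 < n), peel _ (by omega : t + 1 + 1 < n)]
  have g1 : w ≤ Gt w a n t e (t + 1) := Gt_false h1
  have g2 : - w ≤ Gt w a n t e (t + 1 + 1) := Gt_ge hw0
  rw [show t + 1 - t = 1 by omega, show t + 1 + 1 - t = 2 by omega]
  have tail3 : - w * (1 / 2 : ℝ) ^ (t + 3 - 1 - t)
      ≤ ∑ j ∈ Ico (t + 1 + 1 + 1) n, (1 / 2 : ℝ) ^ (j - t) * Gt w a n t e j :=
    tail_Gt hw0 (by omega)
  rw [show t + 3 - 1 - t = 2 by omega] at tail3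
  by_cases b2 : 0 ≤ BB n e (t + 2)
  · -- case (a)
    have g2' : min w (1 - z - w) ≤ Gt w a n t e (t + 1 + 1) := by
      cases hc : e t (t + 1 + 1)
      · exact (min_le_left _ _).trans (Gt_false hc)
      · refine (min_le_right _ _).trans ?_
        have := Gt_true (w := w) (a := a) (n := n) hc
        have b2' : 0 ≤ BB n e (t + 1 + 1) := b2
        rw [ha] at this ⊢
        linarith
    rcases min_choice w (1 - z - w) with hm | hm
    · rw [hm] at g2'
      norm_num at tail3 ⊢
      rw [hw] at *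
      linarith
    · rw [hm] at g2'
      norm_num at tail3 ⊢
      rw [hw] at *
      linarith
  push Not at b2
  have n3 : t + 3 < n := lt_of_BB_ne (by omega) b2.ne
  have e23 : e (t + 2) (t + 3) = false := false_of_BB_nonpos (by omega) b2.le
  clear tail3
  rw [peel _ (by omega : t + 1 + 1 + 1 < n)]
  rw [show t + 1 + 1 + 1 - t = 3 by omega]
  have tail4 : - w * (1 / 2 : ℝ) ^ (t + 4 - 1 - t)
      ≤ ∑ j ∈ Ico (t + 1 + 1 + 1 + 1) n, (1 / 2 : ℝ) ^ (j - t) * Gt w a n t e j :=
    tail_Gt hw0 (by omega)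
  rw [show t + 4 - 1 - t = 3 by omega] at tail4
  by_cases b3 : 0 ≤ BB n e (t + 3)
  · -- case (b1)
    by_cases n4 : t + 4 < n
    · have e34 : e (t + 3) (t + 4) = true := true_of_BB_nonneg n4 b3
      have hA3 : 0 < AA e (t + 3) := AA_pos (by omega) e23
      have hp := peak_bound hI hr (j := t + 3) n4 e34 hA3
      have g3' : min w (5 / 4 - z - w) ≤ Gt w a n t e (t + 1 + 1 + 1) := by
        cases hc : e t (t + 1 + 1 + 1)
        · exact (min_le_left _ _).trans (Gt_false hc)
        · refine (min_le_right _ _).trans ?_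
          have := Gt_true (w := w) (a := a) (n := n) hc
          have hp' : 1 / 8 ≤ BB n e (t + 1 + 1 + 1) := hp
          rw [ha] at this ⊢
          linarith
      rcases min_choice w (5 / 4 - z - w) with hm | hm
      · rw [hm] at g3'
        norm_num at tail4 ⊢
        rw [hw] at *
        linarith
      · rw [hm] at g3'
        norm_num at tail4 ⊢
        rw [hw] at *
        linarith
    · -- t + 3 is the last position
      have b3' : BB n e (t + 3) = 0 := BB_end (by omega)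
      have g3' : min w (1 - z - w) ≤ Gt w a n t e (t + 1 + 1 + 1) := by
        cases hc : e t (t + 1 + 1 + 1)
        · exact (min_le_left _ _).trans (Gt_false hc)
        · refine (min_le_right _ _).trans ?_
          have := Gt_true (w := w) (a := a) (n := n) hc
          have b3'' : BB n e (t + 1 + 1 + 1) = 0 := b3'
          rw [ha] at this ⊢
          linarith
      rw [Ico_eq_empty (by omega), sum_empty]
      rcases min_choice w (1 - z - w) with hm | hm
      · rw [hm] at g3'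
        norm_num
        rw [hw] at *
        linarith
      · rw [hm] at g3'
        norm_num
        rw [hw] at *
        linarith
  -- case (b2): a U slope at `t + 3`
  push Not at b3
  have n4 : t + 4 < n := lt_of_BB_ne (by omega) b3.ne
  have e34 : e (t + 3) (t + 4) = false := false_of_BB_nonpos n4 b3.le
  have n5 : t + 5 < n := by
    by_contra hc
    apply hR
    have : n = t + 5 := by omega
    subst this
    exact e23.trans e34.symm
  have e45 : e (t + 4) (t + 5) = true := by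
    by_contra hc
    rw [Bool.not_eq_true] at hc
    exact hI (t + 3) (by omega) (by omega) ⟨e23.trans e34.symm, e34.trans hc.symm⟩
  have b4 : 0 < BB n e (t + 4) := BB_pos n5 e45
  have hA2 : AA e (t + 2) < 0 := by
    apply AA_neg (by omega)
    show e (t + 1) (t + 2) = true
    by_contra hc
    rw [Bool.not_eq_true] at hc
    exact hI t (by omega) (by omega) ⟨h0.trans h1.symm, h1.trans hc.symm⟩
  have hA3 : 0 < AA e (t + 3) := AA_pos (by omega) e23
  have hA4 : 1 / 2 ≤ AA e (t + 4) := by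
    have e24 : e (t + 2) (t + 4) = false := hr.false_of_lt (by omega) n4 (by linarith)
    rw [AA_eq, sum_range_succ, sum_range_succ, e34, e24]
    have hrest := past_ge (fun i => - sg (e i (t + 4))) (c := 1) (by norm_num) (s := t + 2)
      (t := t + 4) (by omega) (fun k _ => by
        have := sg_le_one (e k (t + 4)); linarith)
    rw [show t + 4 - (t + 2) = 2 by omega] at hrest
    rw [show t + 4 - (t + 3) = 1 by omega, show t + 4 - (t + 2) = 2 by omega]
    simp only [mul_neg, sum_neg_distrib, sg_false] at hrest ⊢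
    norm_num at hrest ⊢
    linarith
  clear tail4
  rw [peel _ (by omega : t + 1 + 1 + 1 + 1 < n), peel _ (by omega : t + 1 + 1 + 1 + 1 + 1 < n)]
  rw [show t + 1 + 1 + 1 + 1 - t = 4 by omega, show t + 1 + 1 + 1 + 1 + 1 - t = 5 by omega]
  have g3 : - w ≤ Gt w a n t e (t + 1 + 1 + 1) := Gt_ge hw0
  have g5 : - w ≤ Gt w a n t e (t + 1 + 1 + 1 + 1 + 1) := Gt_ge hw0
  have tail6 : - w * (1 / 2 : ℝ) ^ (t + 6 - 1 - t)
      ≤ ∑ j ∈ Ico (t + 1 + 1 + 1 + 1 + 1 + 1) n, (1 / 2 : ℝ) ^ (j - t) * Gt w a n t e j :=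
    tail_Gt hw0 (by omega)
  rw [show t + 6 - 1 - t = 5 by omega] at tail6
  have f4 : ∀ v, t + 4 = v → v = t + 1 + 1 + 1 + 1 := fun v h => by omega
  by_cases b5 : 0 < BB n e (t + 5)
  · -- (i): a D slope at `t + 5`
    have n6 : t + 6 < n := lt_of_BB_ne n5 b5.ne'
    have e56 : e (t + 5) (t + 6) = true := true_of_BB_nonneg n6 b5.le
    have b6 : BB n e (t + 6) ≤ 0 := by
      by_contra hb
      push Not at hb
      have n7 : t + 7 < n := lt_of_BB_ne n6 hb.ne'
      have e67 : e (t + 6) (t + 7) = true := true_of_BB_nonneg n7 hb.le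
      exact hI (t + 5) (by omega) (by omega) ⟨e45.trans e56.symm, e56.trans e67.symm⟩
    have e46 : e (t + 4) (t + 6) = true := hr.true_of_lt (by omega) n6 (by linarith)
    have c1 : 1 / 2 ≤ BB n e (t + 4) := by
      rw [BB_eq, peel _ (by omega : t + 4 + 1 < n), peel _ (by omega : t + 4 + 1 + 1 < n)]
      have hrest : -1 * (1 / 2 : ℝ) ^ (t + 7 - 1 - (t + 4))
          ≤ ∑ k ∈ Ico (t + 4 + 1 + 1 + 1) n, (1 / 2 : ℝ) ^ (k - (t + 4)) * sg (e (t + 4) k) :=
        tail_ge (fun k => sg (e (t + 4) k)) (by norm_num) (by omega)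
          (fun k _ _ => neg_one_le_sg _)
      have e45' : e (t + 4) (t + 4 + 1) = true := e45
      have e46' : e (t + 4) (t + 4 + 1 + 1) = true := e46
      rw [e45', e46', show t + 4 + 1 - (t + 4) = 1 by omega,
        show t + 4 + 1 + 1 - (t + 4) = 2 by omega, sg_true]
      rw [show t + 7 - 1 - (t + 4) = 2 by omega] at hrest
      norm_num at hrest ⊢
      linarith
    have g4 : w ≤ Gt w a n t e (t + 1 + 1 + 1 + 1) := by
      apply Gt_false
      show e t (t + 4) = false
      exact hr.false_of_lt (by omega) n4 (by rw [← hz]; linarith)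
    have g5' : min w (1 - z - w) ≤ Gt w a n t e (t + 1 + 1 + 1 + 1 + 1) := by
      cases hc : e t (t + 1 + 1 + 1 + 1 + 1)
      · exact (min_le_left _ _).trans (Gt_false hc)
      · refine (min_le_right _ _).trans ?_
        have := Gt_true (w := w) (a := a) (n := n) hc
        have b5' : 0 < BB n e (t + 1 + 1 + 1 + 1 + 1) := b5
        rw [ha] at this ⊢
        linarith
    rcases min_choice w (1 - z - w) with hm | hm
    · rw [hm] at g5'
      norm_num at tail6 ⊢
      rw [hw] at *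
      linarith
    · rw [hm] at g5'
      norm_num at tail6 ⊢
      rw [hw] at *
      linarith
  push Not at b5
  have hA0 : 0 < AA e t := by rw [← hz]; linarith
  have h6 : (1 / 2 : ℝ) ^ 5 * Gt w a n t e (t + 1 + 1 + 1 + 1 + 1)
      + ∑ j ∈ Ico (t + 1 + 1 + 1 + 1 + 1 + 1) n, (1 / 2 : ℝ) ^ (j - t) * Gt w a n t e j
      = ∑ j ∈ Ico (t + 5) n, (1 / 2 : ℝ) ^ (j - t) * Gt w a n t e j := by
    rw [peel (n := n) (s := t + 5) _ n5, show t + 5 - t = 5 by omega]
  rw [h6]
  clear tail6 h6 g5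
  have g4true : e t (t + 4) = true →
      - w + 2 * (BB n e (t + 4) + a) ≤ Gt w a n t e (t + 1 + 1 + 1 + 1) :=
    fun hc => Gt_true (w := w) (a := a) (n := n) hc
  by_cases c1 : BB n e (t + 4) < z
  · -- (iii)
    have e4 : e t (t + 4) = true := hr.true_of_lt (by omega) n4 (by rw [← hz]; exact c1)
    have g4 := g4true e4
    have hp := peak_bound hI hr (j := t + 4) n5 e45 (by linarith)
    have hpt : ∀ j, t + 5 ≤ j → j < n → - w * sg (e (t + 4) j) ≤ Gt w a n t e j := by
      intro j hj hjn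
      cases hc : e (t + 4) j
      · have hne : j ≠ t + 5 := by
          rintro rfl
          rw [e45] at hc
          exact absurd hc (by simp)
        have hrule := hr (t + 4) j (by omega) hjn
        rw [hc, sg_false] at hrule
        have h8 : e t j = false := hr.false_of_lt (by omega) hjn (by rw [← hz]; linarith)
        have := Gt_false (w := w) (a := a) (n := n) h8
        rw [sg_false]; linarith
      · rw [sg_true]
        have := Gt_ge (w := w) (a := a) (n := n) (t := t) (e := e) (j := j) hw0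
        linarith
    have hR5 : - w * (BB n e (t + 4) / 16)
        ≤ ∑ j ∈ Ico (t + 5) n, (1 / 2 : ℝ) ^ (j - t) * Gt w a n t e j := by
      rw [BB_eq, sum_div, mul_sum]
      refine sum_le_sum fun j hj => ?_
      have hj := mem_Ico.1 hj
      have h9 : (1 / 2 : ℝ) ^ (j - t) = (1 / 2) ^ (j - (t + 4)) / 16 := by
        rw [show j - t = (j - (t + 4)) + 4 by omega, pow_add]; ring
      rw [h9]
      have h10 : (0 : ℝ) < (1 / 2) ^ (j - (t + 4)) / 16 := by positivity
      have := mul_le_mul_of_nonneg_left (hpt j hj.1 hj.2) h10.le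
      calc _ = (1 / 2 : ℝ) ^ (j - (t + 4)) / 16 * (- w * sg (e (t + 4) j)) := by ring
        _ ≤ _ := this
    rw [ha] at g4
    have hw1 : 0 ≤ 1 - w / 2 := by rw [hw]; linarith
    have hprod : 0 ≤ (BB n e (t + 4) - 1 / 8) * (1 - w / 2) :=
      mul_nonneg (by linarith) hw1
    norm_num
    rw [hw] at *
    nlinarith
  · -- (ii)
    push Not at c1
    have g4 : w ≤ Gt w a n t e (t + 1 + 1 + 1 + 1) := by
      cases hc : e t (t + 4)
      · exact Gt_false hc
      · have := g4true hc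
        rw [ha] at this
        rw [hw] at this ⊢
        linarith
    have e3 : e t (t + 3) = true := hr.true_of_lt (by omega) n3 (by linarith)
    have g3' : - w + 2 * (BB n e (t + 3) + a) ≤ Gt w a n t e (t + 1 + 1 + 1) :=
      Gt_true (w := w) (a := a) (n := n) e3
    have hpt : ∀ j, t + 5 ≤ j → j < n →
        - w + (1 - z) / 2 * (1 - sg (e (t + 3) j)) ≤ Gt w a n t e j := by
      intro j hj hjn
      cases hc : e (t + 3) j
      · have hrule := hr (t + 3) j (by omega) hjn
        rw [hc, sg_false] at hrule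
        rw [sg_false]
        cases hc2 : e t j
        · have := Gt_false (w := w) (a := a) (n := n) hc2
          rw [hw] at this ⊢
          linarith
        · have := Gt_true (w := w) (a := a) (n := n) hc2
          rw [ha] at this ⊢
          linarith
      · rw [sg_true]
        have := Gt_ge (w := w) (a := a) (n := n) (t := t) (e := e) (j := j) hw0
        linarith
    obtain ⟨N, rfl⟩ : ∃ N, n = N + 1 := ⟨n - 1, by omega⟩
    have hN : t + 5 ≤ N := by omega
    have bN : BB (N + 1) e N = 0 := BB_end rfl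
    have gN : - w + (1 - z) ≤ Gt w a (N + 1) t e N := by
      have hc : e t N = true := hr.true_of_lt (by omega) (by omega) (by rw [bN]; exact hA0)
      have := Gt_true (w := w) (a := a) (n := N + 1) hc
      rw [bN, ha] at this
      rw [ha]
      linarith
    have e3N : e (t + 3) N = true := hr.true_of_lt (by omega) (by omega) (by rw [bN]; exact hA3)
    set δ : ℝ := (1 / 2 : ℝ) ^ (N - t) with hδ
    have hδ0 : 0 < δ := by positivity
    set S : ℝ := ∑ j ∈ Ico (t + 5) N, (1 / 2 : ℝ) ^ (j - t) * sg (e (t + 3) j) with hS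
    have hB3 : BB (N + 1) e (t + 3) = - (1 / 2) + 8 * (S + δ) := by
      rw [BB_eq, peel _ (by omega : t + 3 + 1 < N + 1), sum_Ico_succ_top (by omega)]
      have h34 : e (t + 3) (t + 3 + 1) = false := e34
      rw [h34, e3N, sg_false, sg_true, show t + 3 + 1 - (t + 3) = 1 by omega, hS, mul_add, mul_sum]
      have h11 : (1 / 2 : ℝ) ^ (N - (t + 3)) = 8 * δ := by
        rw [hδ, show N - t = (N - (t + 3)) + 3 by omega, pow_add]; ring
      have h12 : ∑ j ∈ Ico (t + 3 + 1 + 1) N, (1 / 2 : ℝ) ^ (j - (t + 3)) * sg (e (t + 3) j)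
          = ∑ j ∈ Ico (t + 5) N, 8 * ((1 / 2 : ℝ) ^ (j - t) * sg (e (t + 3) j)) := by
        refine sum_congr rfl fun j hj => ?_
        have hj := mem_Ico.1 hj
        have h13 : (1 / 2 : ℝ) ^ (j - (t + 3)) = 8 * (1 / 2) ^ (j - t) := by
          rw [show j - t = (j - (t + 3)) + 3 by omega, pow_add]; ring
        rw [h13]; ring
      rw [h11, h12]
      ring
    have hT : ∑ j ∈ Ico (t + 5) N, (1 / 2 : ℝ) ^ (j - t) = 1 / 16 - 2 * δ := by
      rw [sum_half_pow (by omega) hN, show t + 5 - 1 - t = 4 by omega, hδ,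
        show N - t = (N - 1 - t) + 1 by omega, pow_succ]
      ring
    have hR5 : (- w + (1 - z) / 2) * (1 / 16 - 2 * δ) - (1 - z) / 2 * S + δ * (- w + (1 - z))
        ≤ ∑ j ∈ Ico (t + 5) (N + 1), (1 / 2 : ℝ) ^ (j - t) * Gt w a (N + 1) t e j := by
      rw [sum_Ico_succ_top hN]
      have h14 : δ * (- w + (1 - z)) ≤ (1 / 2 : ℝ) ^ (N - t) * Gt w a (N + 1) t e N :=
        mul_le_mul_of_nonneg_left gN hδ0.le
      have h15 : (- w + (1 - z) / 2) * (1 / 16 - 2 * δ) - (1 - z) / 2 * S
          = ∑ j ∈ Ico (t + 5) N, (1 / 2 : ℝ) ^ (j - t)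
            * (- w + (1 - z) / 2 * (1 - sg (e (t + 3) j))) := by
        rw [← hT, hS, mul_sum, mul_sum, ← sum_sub_distrib]
        refine sum_congr rfl fun j _ => by ring
      rw [h15]
      refine add_le_add (sum_le_sum fun j hj => ?_) h14
      have hj := mem_Ico.1 hj
      exact mul_le_mul_of_nonneg_left (hpt j hj.1 (by omega)) (by positivity)
    set u : ℝ := - BB (N + 1) e (t + 3) with hu
    have hSu : S = (1 / 2 - u) / 8 - δ := by rw [hu, hB3]; ring
    have hB3u : BB (N + 1) e (t + 3) = - u := by rw [hu]; ring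
    rw [hSu] at hR5
    rw [hB3u, ha] at g3'
    have hR5' : - w / 16 + (1 - z) * u / 16
        ≤ ∑ j ∈ Ico (t + 5) (N + 1), (1 / 2 : ℝ) ^ (j - t) * Gt w a (N + 1) t e j := by
      refine le_trans ?_ hR5
      have h16 : 0 ≤ w * δ := mul_nonneg hw0 hδ0.le
      have h17 : 0 ≤ (1 - z) * δ := mul_nonneg (by linarith) hδ0.le
      nlinarith
    have hsq := sq_nonneg (z - 1 / 3)
    by_cases hc : 0 ≤ 1 - z - 2 * u
    · have hP : 0 ≤ (1 - z - 2 * u) * (1 - (1 - z) / 4) := mul_nonneg hc (by linarith)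
      norm_num
      rw [hw] at *
      nlinarith
    · push Not at hc
      have hP : 0 ≤ (1 - z) * (u - (1 - z) / 2) := mul_nonneg (by linarith) (by linarith)
      norm_num
      rw [hw] at *
      nlinarith

/-- consequences of the exact value of the past. -/
lemma exact_consequences (ht : 2 ≤ t)
    (hz : AA e t = 1 / 3 - (if t % 2 = 1 then 5 / 3 else 1 / 3) * (1 / 2 : ℝ) ^ t) :
    AA e t ≤ 1 / 3 ∧ 1 / 8 ≤ AA e t ∧ (1 - 3 * AA e t) / 5 ≤ (1 / 2 : ℝ) ^ t ∧
      (1 / 2 : ℝ) ^ t ≤ 1 / 4 ∧ (1 / 2 : ℝ) ^ t ≤ AA e t := by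
  have h0 : (0 : ℝ) < (1 / 2) ^ t := by positivity
  rcases Nat.mod_two_eq_zero_or_one t with h | h
  · rw [if_neg (by omega)] at hz
    have h1 : (1 / 2 : ℝ) ^ t ≤ (1 / 2) ^ 2 := pow_le_pow_of_le_one (by norm_num) (by norm_num) ht
    norm_num at h1
    rw [hz]
    refine ⟨by linarith, by linarith, by linarith, by linarith, by linarith⟩
  · rw [if_pos h] at hz
    have h3 : 3 ≤ t := by omega
    have h1 : (1 / 2 : ℝ) ^ t ≤ (1 / 2) ^ 3 := pow_le_pow_of_le_one (by norm_num) (by norm_num) h3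
    norm_num at h1
    rw [hz]
    refine ⟨by linarith, by linarith, by linarith, by linarith, by linarith⟩

theorem cost_main (hI : Iso n e) (hr : NR n e) (ht : 2 ≤ t) (htn : t + 2 < n)
    (hl : ∀ i, 1 ≤ i → i < t → e (i - 1) i ≠ e i (i + 1))
    (hR : ¬ (e (n - 3) (n - 2) = e (n - 2) (n - 1)))
    (h0 : e (t - 1) t = false) (h1 : e t (t + 1) = false) :
    13 / 50 ≤ Pc n t e := by
  by_cases hy : BB n e t ≤ - (1 / 3)
  · have := cost_y hr ht (by omega) hl h0 h1 hy
    linarith
  push Not at hy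
  obtain ⟨hz0, hz⟩ := past_exact hr ht (by omega) hl h0 h1 hy
  obtain ⟨c1, c2, c3, c4, c5⟩ := exact_consequences ht hz
  have h2 := Pc_start (n := n) (w := (1 + AA e t) / 2 - (1 / 2) ^ t) hz0 (by omega) rfl rfl
  have h3 := future_main hI hr ht htn hR h0 h1 (z := AA e t) (ε := (1 / 2) ^ t) rfl
    (by positivity) rfl c1 c2 c3 c4 c5
  exact h3.trans h2

/-- two-sided bound (unique slope). -/
lemma Pc_two_sided (hr : NR n e) (ht : 2 ≤ t) (htn : t + 2 < n) (hz0 : e 0 t = true)
    (hA : 0 < AA e t) :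
    (AA e t - BB n e t - AA e t * BB n e t) / 2 + (1 / 2 : ℝ) ^ t * (1 + BB n e t)
      + (1 / 2 : ℝ) ^ (n - 1 - t) * (1 - AA e t) ≤ Pc n t e := by
  have hd : e t (n - 1) = true := hr.true_of_lt (by omega) (by omega)
    (by rw [BB_last' (by omega)]; exact hA)
  have h2 := Pc_start (n := n) (w := (1 + AA e t) / 2 - (1 / 2) ^ t) hz0 (by omega) rfl rfl
  refine le_trans ?_ h2
  obtain ⟨N, rfl⟩ : ∃ N, n = N + 1 := ⟨n - 1, by omega⟩
  rw [Nat.add_sub_cancel] at hd ⊢
  have hBB : BB (N + 1) e t = ∑ j ∈ Ico (t + 1) (N + 1), (1 / 2 : ℝ) ^ (j - t) * sg (e t j) := BB_eq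
  have bN : BB (N + 1) e N = 0 := BB_end rfl
  set w := (1 + AA e t) / 2 - (1 / 2 : ℝ) ^ t with hw
  have h3 : - w * BB (N + 1) e t + (1 / 2 : ℝ) ^ (N - t) * (1 - AA e t)
      ≤ ∑ j ∈ Ico (t + 1) (N + 1), (1 / 2 : ℝ) ^ (j - t) * Gt w (ta t e) (N + 1) t e j := by
    rw [hBB, sum_Ico_succ_top (by omega), sum_Ico_succ_top (by omega)]
    have h4 : ∑ j ∈ Ico (t + 1) N, (1 / 2 : ℝ) ^ (j - t) * (- w * sg (e t j))
        ≤ ∑ j ∈ Ico (t + 1) N, (1 / 2 : ℝ) ^ (j - t) * Gt w (ta t e) (N + 1) t e j := by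
      refine sum_le_sum fun j _ => ?_
      apply mul_le_mul_of_nonneg_left _ (by positivity)
      unfold Gt
      have := abs_add_sg_nonneg (e t j) (BB (N + 1) e j + ta t e)
      linarith
    have h5 : ∑ j ∈ Ico (t + 1) N, (1 / 2 : ℝ) ^ (j - t) * (- w * sg (e t j))
        = - w * ∑ j ∈ Ico (t + 1) N, (1 / 2 : ℝ) ^ (j - t) * sg (e t j) := by
      rw [mul_sum]; refine sum_congr rfl fun j _ => by ring
    rw [h5] at h4
    have h6 := Gt_true (w := w) (a := ta t e) (n := N + 1) hd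
    rw [bN] at h6
    have h7 : ta t e = (1 - AA e t) / 2 := rfl
    rw [h7] at h6
    have h8 : (1 / 2 : ℝ) ^ (N - t) * (- w + 2 * (0 + (1 - AA e t) / 2))
        ≤ (1 / 2 : ℝ) ^ (N - t) * Gt w (ta t e) (N + 1) t e N :=
      mul_le_mul_of_nonneg_left (by rw [h7]; exact h6) (by positivity)
    rw [hd, sg_true]
    nlinarith
  rw [hw] at h3 ⊢
  nlinarith

end Pool.Agent.RC
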