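import Pool.Agent.Work.MP_b9e699_co.TPD2

/-! # Top level: the mirror image, the cost for a single slope -/

open Finset

namespace Pool.Agent.RC

variable {n t i j k : ℕ} {e : Rel}

/-- mirror image: reversal and complement. -/
def mirr (n : ℕ) (e : Rel) : Rel := compl (rev n e)

lemma mirr_apply (i j : ℕ) : mirr n e i j = e (n - 1 - j) (n - 1 - i) := by
  unfold mirr compl rev; rw [Bool.not_not]

lemma AA_mirr (h : i < n) : AA (mirr n e) i = - BB n e (n - 1 - i) := by
  unfold AA BB mirr
  have h1 := av_compl (1 / 2) 0 (rev n e) i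
  rw [neg_zero] at h1
  rw [h1, av_rev h]

lemma BB_mirr (h : i < n) : BB n (mirr n e) i = - AA e (n - 1 - i) := by
  unfold AA BB mirr
  have h1 := bv_compl (1 / 2) 0 n (rev n e) i
  rw [neg_zero] at h1
  rw [h1, bv_rev h]

lemma NR_mirr (hr : NR n e) : NR n (mirr n e) := by
  intro i j hij hj
  rw [mirr_apply, AA_mirr (by omega), BB_mirr hj]
  have := hr (n - 1 - j) (n - 1 - i) (by omega) (by omega)
  linarith

theorem cost_one (h : Cls 1 n e) (hr : NR n e) (ht : 2 ≤ t) (htn : t + 2 < n)
    (h0 : e (t - 1) t = false) (h1 : e t (t + 1) = false) :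
    pi1 n ≤ Pc n t e := by
  have hu := fun i (hi : 1 ≤ i) (hin : i + 1 < n) (hne : i ≠ t) =>
    unique_slope h.2 (t := t) (by omega) (by omega) (h0.trans h1.symm) hi hin hne
  have hl : ∀ i, 1 ≤ i → i < t → e (i - 1) i ≠ e i (i + 1) :=
    fun i hi hit => hu i hi (by omega) (by omega)
  have hA0 : 0 < AA e t := AA_pos (by omega) h0
  -- mirror data
  set s := n - 1 - t with hs
  have m0 : mirr n e (s - 1) s = false := by
    rw [mirr_apply, show n - 1 - s = t by omega, show n - 1 - (s - 1) = t + 1 by omega]; exact h1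
  have m1 : mirr n e s (s + 1) = false := by
    rw [mirr_apply, show n - 1 - s = t by omega, show n - 1 - (s + 1) = t - 1 by omega]; exact h0
  have ml : ∀ i, 1 ≤ i → i < s → mirr n e (i - 1) i ≠ mirr n e i (i + 1) := by
    intro i hi his
    rw [mirr_apply, mirr_apply]
    have := hu (n - 1 - i) (by omega) (by omega) (by omega)
    rw [show n - 1 - (i - 1) = n - 1 - i + 1 by omega,
      show n - 1 - (i + 1) = n - 1 - i - 1 by omega]
    exact this.symm
  have mA : AA (mirr n e) s = - BB n e t := by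
    rw [AA_mirr (by omega), show n - 1 - s = t by omega]
  have mB : BB n (mirr n e) s = - AA e t := by
    rw [BB_mirr (by omega), show n - 1 - s = t by omega]
  by_cases hy : BB n e t ≤ - (1 / 3)
  · have h2 := cost_y hr ht (by omega) hl h0 h1 hy
    unfold pi1
    rw [if_neg (by omega)]
    split_ifs with h5
    · -- impossible: `n = 5`, `t = 2`
      exfalso
      subst h5
      have ht2 : t = 2 := by omega
      subst ht2
      have hd : e 2 4 = true := hr.true_of_lt (by omega) (by omega)
        (by rw [BB_end (by omega)]; exact hA0)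
      rw [BB_eq, peel _ (by norm_num), peel _ (by norm_num), Ico_self, sum_empty] at hy
      have h1' : e 2 (2 + 1) = false := h1
      have hd' : e 2 (2 + 1 + 1) = true := hd
      rw [h1', hd'] at hy
      norm_num at hy
    · exact h2
  push Not at hy
  obtain ⟨hz0, hz⟩ := past_exact hr ht (by omega) hl h0 h1 hy
  obtain ⟨c1, c2, c3, c4, c5⟩ := exact_consequences ht hz
  have hzlt : AA e t < 1 / 3 := by
    rw [hz]
    have : (0 : ℝ) < (1 / 2) ^ t := by positivity
    split_ifs
    · linarith
    · linarith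
  obtain ⟨-, hy'⟩ := past_exact (NR_mirr hr) (t := s) (by omega) (by omega) ml m0 m1
    (by rw [mB]; linarith)
  obtain ⟨d1, d2, d3, d4, d5⟩ := exact_consequences (by omega : 2 ≤ s) hy'
  rw [mA] at hy' d1 d2 d3 d5
  have h2 := Pc_two_sided hr ht htn hz0 hA0
  rw [← hs] at h2
  refine le_trans ?_ h2
  unfold pi1
  rw [if_neg (by omega)]
  split_ifs with h5
  · subst h5
    have ht2 : t = 2 := by omega
    subst ht2
    have hs2 : s = 2 := by omega
    rw [hs2] at hy' ⊢
    norm_num at hz hy'
    have hB : BB 5 e 2 = - (1 / 4) := by linarith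
    rw [hz, hB]
    norm_num
  · set z := AA e t
    set B := BB n e t
    set ε := (1 / 2 : ℝ) ^ t
    set δ := (1 / 2 : ℝ) ^ s
    have q1 : (1 - 3 * z) / 5 * (1 + B) ≤ ε * (1 + B) :=
      mul_le_mul_of_nonneg_right c3 (by linarith)
    have q2 : (1 - 3 * -B) / 5 * (1 - z) ≤ δ * (1 - z) :=
      mul_le_mul_of_nonneg_right d3 (by linarith)
    have p1 : 0 ≤ (1 / 3 - z) * (1 / 3 + B) := mul_nonneg (by linarith) (by linarith)
    have p2 : 0 ≤ (z - 1 / 8) * (- B - 1 / 8) := mul_nonneg (by linarith) (by linarith)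
    have p3 : 0 ≤ (1 / 3 - z) * (- B - 1 / 8) := mul_nonneg (by linarith) (by linarith)
    have p4 : 0 ≤ (z - 1 / 8) * (1 / 3 + B) := mul_nonneg (by linarith) (by linarith)
    nlinarith

end Pool.Agent.RC
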