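import Pool.Agent.Work.MP_b9e699_co.BD

/-!
# Top level: removal of a slope (definitions)

Everything for `q = 1/2` and zero fields.
-/

open Finset

namespace Pool.Agent.RC

/-- past value at the top level -/
noncomputable def AA (e : Rel) (i : ℕ) : ℝ := av (1 / 2) 0 e i

/-- future value at the top level -/
noncomputable def BB (n : ℕ) (e : Rel) (j : ℕ) : ℝ := bv (1 / 2) 0 n e j

/-- the exact rule at the nonadjacent pairs -/
def NR (n : ℕ) (e : Rel) : Prop :=
  ∀ i j, i + 1 < j → j < n → 0 ≤ sg (e i j) * (AA e i - BB n e j)

/-- threshold for the relations of the future to the second copy: `a = (1 - A_t)/2`. -/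
noncomputable def ta (t : ℕ) (e : Rel) : ℝ := (1 - AA e t) / 2

/-- threshold for the relations of the past to the first copy: `b = (1 + B_t)/2`. -/
noncomputable def tb (n t : ℕ) (e : Rel) : ℝ := (1 + BB n e t) / 2

/-- cost of the removal of position `t`. -/
noncomputable def Pc (n t : ℕ) (e : Rel) : ℝ :=
  (AA e t - BB n e t - AA e t * BB n e t) / 2
    + ∑ i ∈ range t, (1 / 2) ^ (t - i) * (|AA e i - tb n t e| - sg (e i t) * (AA e i - tb n t e))
    + ∑ j ∈ Ico (t + 1) n,
        (1 / 2) ^ (j - t) * (|BB n e j + ta t e| + sg (e t j) * (BB n e j + ta t e))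

/-- delete position `t` -/
def del (t : ℕ) (e : Rel) : Rel := fun i j =>
  e (if i < t then i else i + 1) (if j < t then j else j + 1)

/-- double position `t` into a pair `t` above `t+1`. -/
noncomputable def dbl (n t : ℕ) (e : Rel) : Rel := fun i j =>
  if j < t then e i j
  else if j = t then decide (tb n t e ≤ AA e i)
  else if j = t + 1 then (if i < t then e i t else true)
  else if i < t then e i (j - 1)
  else if i = t then e t (j - 1)
  else if i = t + 1 then decide (BB n e (j - 1) ≤ - ta t e)
  else e (i - 1) (j - 1)

end Pool.Agent.RC
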